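import Pool.Agent.H852PC.Defs

/-!
# The order `O = ℤ⟨φ, j⟩`, `φ² = φ + 1`, `j² = 13`, `j φ = (1 - φ) j`, and the groups `La`, `Ga`

`La` is the group of the norm-one units of `O`, `Ga` the subgroup of the units whose images in the
Hamilton quaternions over `ℤ/7` and `ℤ/17` permute the axes `±i`, `±j`, `±k` by conjugation.
-/

set_option autoImplicit false

open scoped MatrixGroups UpperHalfPlane ContDiff Topology
open MeasureTheory UpperHalfPlane Filter

noncomputable section

namespace Pool.Agent.H852PC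

/-- The order: `i = φ`, `i² = 1 + i`, `j² = 13`, `j i = (1 - i) j`. -/
abbrev O : Type := QuaternionAlgebra ℤ 1 1 13

/-- the Hamilton quaternions over `ℤ/q` -/
abbrev HQ (q : ℕ) : Type := QuaternionAlgebra (ZMod q) (-1) 0 (-1)

/-- The reduced norm. -/
def nrd (x : O) : ℤ :=
  x.re ^ 2 + x.re * x.imI - x.imI ^ 2 - 13 * (x.imJ ^ 2 + x.imJ * x.imK - x.imK ^ 2)

/-- The reduced trace. -/
def trd (x : O) : ℤ := 2 * x.re + x.imI

/-- the golden ratio -/
def gr : ℝ := (1 + √5) / 2

/-- its conjugate -/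
def gc : ℝ := (1 - √5) / 2

theorem gr_sq : gr * gr = gr + 1 := by
  have h : √5 * √5 = (5 : ℝ) := Real.mul_self_sqrt (by norm_num)
  unfold gr
  linear_combination h / 4

theorem gr_add : gr + gc = 1 := by
  unfold gr gc
  ring

theorem gc_eq : gc = 1 - gr := by
  linear_combination gr_add

/-- the matrix of a quaternion -/
def mat (x : O) : Matrix (Fin 2) (Fin 2) ℝ :=
  !![(x.re : ℝ) + x.imI * gr, 13 * ((x.imJ : ℝ) + x.imK * gr);
    (x.imJ : ℝ) + x.imK * gc, (x.re : ℝ) + x.imI * gc]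

/-- the embedding of the order in the matrices -/
def rho : O →+* Matrix (Fin 2) (Fin 2) ℝ where
  toFun := mat
  map_one' := by
    ext i j
    fin_cases i <;> fin_cases j <;> simp [mat]
  map_mul' x y := by
    have h := gr_sq
    ext i j
    fin_cases i <;> fin_cases j <;>
      simp [mat, gc_eq, Matrix.mul_apply, Fin.sum_univ_two]
    · linear_combination ((-(x.imI : ℝ) * y.imI) + 13 * x.imK * y.imK) * h
    · linear_combination (-13 * (x.imI : ℝ) * y.imK + 13 * x.imK * y.imI) * h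
    · linear_combination ((x.imK : ℝ) * y.imI - x.imI * y.imK) * h
    · linear_combination (-(x.imI : ℝ) * y.imI + 13 * x.imK * y.imK) * h
  map_zero' := by
    ext i j
    fin_cases i <;> fin_cases j <;> simp [mat]
  map_add' x y := by
    ext i j
    fin_cases i <;> fin_cases j <;> simp [mat] <;> ring

/-- reduction modulo `7`: `φ ↦ 4 + 5 i`, `j ↦ j` -/
def th7 : O →+* HQ 7 where
  toFun x := ⟨(x.re : ZMod 7) + 4 * x.imI, 5 * x.imI, (x.imJ : ZMod 7) + 4 * x.imK, 5 * x.imK⟩
  map_one' := by ext <;> simp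
  map_mul' x y := by
    ext <;> simp <;> ring_nf <;> reduce_mod_char <;> ring_nf <;> reduce_mod_char
  map_zero' := by ext <;> simp
  map_add' x y := by ext <;> simp <;> ring

/-- reduction modulo `17`: `φ ↦ 9 + i + 11 k`, `j ↦ 2 j` -/
def th17 : O →+* HQ 17 where
  toFun x := ⟨(x.re : ZMod 17) + 9 * x.imI, (x.imI : ZMod 17) + 12 * x.imK,
    2 * (x.imJ : ZMod 17) + x.imK, 11 * (x.imI : ZMod 17) + 2 * x.imK⟩
  map_one' := by ext <;> simp
  map_mul' x y := by
    ext <;> simp <;> ring_nf <;> reduce_mod_char <;> ring_nf <;> reduce_mod_char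
  map_zero' := by ext <;> simp
  map_add' x y := by ext <;> simp <;> ring

/-! ### First properties -/

theorem rho_apply (x : O) : rho x = mat x := rfl

theorem star_eq (x : O) : star x = ⟨x.re + x.imI, -x.imI, -x.imJ, -x.imK⟩ := by
  ext <;> simp

theorem mul_star_eq (x : O) : x * star x = ((nrd x : ℤ) : O) := by
  rw [star_eq]
  ext <;> simp only [QuaternionAlgebra.re_mul, QuaternionAlgebra.imI_mul,
    QuaternionAlgebra.imJ_mul, QuaternionAlgebra.imK_mul, QuaternionAlgebra.re_intCast,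
    QuaternionAlgebra.imI_intCast, QuaternionAlgebra.imJ_intCast, QuaternionAlgebra.imK_intCast,
    nrd, Int.cast_id] <;> ring

theorem star_mul_eq (x : O) : star x * x = ((nrd x : ℤ) : O) := by
  rw [star_comm_self' x, mul_star_eq]

theorem nrd_mul (x y : O) : nrd (x * y) = nrd x * nrd y := by
  simp only [nrd, QuaternionAlgebra.re_mul, QuaternionAlgebra.imI_mul, QuaternionAlgebra.imJ_mul,
    QuaternionAlgebra.imK_mul]
  ring

@[simp] theorem nrd_one : nrd 1 = 1 := by simp [nrd]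

@[simp] theorem nrd_neg (x : O) : nrd (-x) = nrd x := by simp [nrd]

@[simp] theorem nrd_star (x : O) : nrd (star x) = nrd x := by
  rw [star_eq]
  simp only [nrd]
  ring

theorem rho_det (x : O) : (rho x).det = (nrd x : ℝ) := by
  have h := gr_sq
  rw [rho_apply, mat, Matrix.det_fin_two_of, gc_eq, nrd]
  push_cast
  linear_combination (-(x.imI : ℝ) ^ 2 + 13 * (x.imK : ℝ) ^ 2) * h

theorem rho_trace (x : O) : (rho x).trace = (trd x : ℝ) := by
  rw [rho_apply, mat, Matrix.trace_fin_two_of, gc_eq, trd]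
  push_cast
  ring

theorem rho_star (x : O) : rho (star x) = (rho x).adjugate := by
  rw [rho_apply, rho_apply, mat, mat, Matrix.adjugate_fin_two_of, star_eq, gc_eq]
  ext i j
  fin_cases i <;> fin_cases j <;> simp <;> ring

theorem rho_intCast (n : ℤ) : rho (n : O) = (n : ℝ) • (1 : Matrix (Fin 2) (Fin 2) ℝ) := by
  rw [map_intCast]
  ext i j
  fin_cases i <;> fin_cases j <;> simp [← Matrix.diagonal_intCast']

theorem irr5 : Irrational √5 := by
  have h : Nat.Prime 5 := by norm_num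
  simpa using h.irrational_sqrt

theorem lin_gr {a b : ℤ} (h : (a : ℝ) + b * gr = 0) : a = 0 ∧ b = 0 := by
  have hb : b = 0 := by
    by_contra hb
    have hb' : (b : ℝ) ≠ 0 := by exact_mod_cast hb
    have h1 : √5 = ((-(2 * a + b) : ℤ) : ℝ) / (b : ℤ) := by
      unfold gr at h
      push_cast
      field_simp
      linarith
    exact (irr5.ne_rat ((-(2 * a + b) : ℤ) / (b : ℤ))) (by push_cast; push_cast at h1; exact h1)
  subst hb
  have : (a : ℝ) = 0 := by simpa using h
  exact ⟨by exact_mod_cast this, rfl⟩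

theorem rho_injective : Function.Injective rho := by
  rw [injective_iff_map_eq_zero]
  intro x hx
  have h00 := congrFun (congrFun hx 0) 0
  have h01 := congrFun (congrFun hx 0) 1
  simp [rho_apply, mat] at h00 h01
  obtain ⟨h1, h2⟩ := lin_gr h00
  obtain ⟨h3, h4⟩ := lin_gr h01
  ext <;> simp [h1, h2, h3, h4]

/-! ### The axes and the groups -/

/-- The six elements `±i`, `±j`, `±k`. -/
def Ax (q : ℕ) : Set (HQ q) :=
  {⟨0, 1, 0, 0⟩, ⟨0, -1, 0, 0⟩, ⟨0, 0, 1, 0⟩, ⟨0, 0, -1, 0⟩, ⟨0, 0, 0, 1⟩, ⟨0, 0, 0, -1⟩}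

/-- The element `u` of norm one permutes the axes by conjugation. -/
def UU (q : ℕ) (u : HQ q) : Prop :=
  (∀ L ∈ Ax q, u * L * star u ∈ Ax q) ∧ ∀ L ∈ Ax q, star u * L * u ∈ Ax q

theorem UU.one (q : ℕ) : UU q 1 := ⟨fun L hL => by simpa using hL, fun L hL => by simpa using hL⟩

theorem UU.mul {q : ℕ} {u v : HQ q} (hu : UU q u) (hv : UU q v) : UU q (u * v) := by
  refine ⟨fun L hL => ?_, fun L hL => ?_⟩
  · have := hu.1 _ (hv.1 L hL)
    rw [star_mul]
    simpa [mul_assoc] using this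
  · have := hv.2 _ (hu.2 L hL)
    rw [star_mul]
    simpa [mul_assoc] using this

theorem UU.star {q : ℕ} {u : HQ q} (hu : UU q u) : UU q (star u) :=
  ⟨fun L hL => by simpa using hu.2 L hL, fun L hL => by simpa using hu.1 L hL⟩

theorem UU.neg {q : ℕ} {u : HQ q} (hu : UU q u) : UU q (-u) := by
  refine ⟨fun L hL => ?_, fun L hL => ?_⟩
  · simpa using hu.1 L hL
  · simpa using hu.2 L hL

theorem th7_star (x : O) : th7 (star x) = star (th7 x) := by
  ext <;> simp [th7, star_eq] <;> ring_nf <;> reduce_mod_char <;> ring_nf <;> reduce_mod_char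

theorem th17_star (x : O) : th17 (star x) = star (th17 x) := by
  ext <;> simp [th17, star_eq] <;> ring_nf <;> reduce_mod_char <;> ring_nf <;> reduce_mod_char

/-- The norm-one units of `O`. -/
def La : Subgroup SL(2, ℝ) where
  carrier := {g | ∃ x : O, nrd x = 1 ∧ g.1 = rho x}
  one_mem' := ⟨1, by simp, by simp⟩
  mul_mem' := by
    rintro g h ⟨x, hx, hgx⟩ ⟨y, hy, hhy⟩
    exact ⟨x * y, by rw [nrd_mul, hx, hy, one_mul],
      by rw [Matrix.SpecialLinearGroup.coe_mul, hgx, hhy, map_mul]⟩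
  inv_mem' := by
    rintro g ⟨x, hx, hgx⟩
    exact ⟨star x, by rw [nrd_star, hx],
      by rw [Matrix.SpecialLinearGroup.coe_inv, hgx, rho_star]⟩

/-- The norm-one units of `O` whose images modulo `7` and `17` permute the axes. -/
def Ga : Subgroup SL(2, ℝ) where
  carrier := {g | ∃ x : O, nrd x = 1 ∧ UU 7 (th7 x) ∧ UU 17 (th17 x) ∧ g.1 = rho x}
  one_mem' := ⟨1, by simp, by rw [map_one]; exact UU.one 7, by rw [map_one]; exact UU.one 17,
    by simp⟩
  mul_mem' := by
    rintro g h ⟨x, hx, hx7, hx17, hgx⟩ ⟨y, hy, hy7, hy17, hhy⟩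
    exact ⟨x * y, by rw [nrd_mul, hx, hy, one_mul], by rw [map_mul]; exact hx7.mul hy7,
      by rw [map_mul]; exact hx17.mul hy17,
      by rw [Matrix.SpecialLinearGroup.coe_mul, hgx, hhy, map_mul]⟩
  inv_mem' := by
    rintro g ⟨x, hx, hx7, hx17, hgx⟩
    exact ⟨star x, by rw [nrd_star, hx], by rw [th7_star]; exact hx7.star,
      by rw [th17_star]; exact hx17.star,
      by rw [Matrix.SpecialLinearGroup.coe_inv, hgx, rho_star]⟩

theorem mem_La {g : SL(2, ℝ)} : g ∈ La ↔ ∃ x : O, nrd x = 1 ∧ g.1 = rho x := Iff.rfl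

theorem mem_Ga {g : SL(2, ℝ)} :
    g ∈ Ga ↔ ∃ x : O, nrd x = 1 ∧ UU 7 (th7 x) ∧ UU 17 (th17 x) ∧ g.1 = rho x := Iff.rfl

theorem Ga_le_La : Ga ≤ La := fun _ ⟨x, hx, _, _, hgx⟩ => ⟨x, hx, hgx⟩

theorem neg_one_mem_Ga : (-1 : SL(2, ℝ)) ∈ Ga :=
  ⟨-1, by simp, by rw [map_neg, map_one]; exact (UU.one 7).neg,
    by rw [map_neg, map_one]; exact (UU.one 17).neg, by simp⟩

end Pool.Agent.H852PC
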