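import Pool.Agent.Y838.EX.Surf

/-!
# The atlas of a closed surface which is the quotient of a plane domain

Adapted from `Pool/Agent/Y838/EX/Surf.lean` (no distinguished charts).
-/

set_option autoImplicit false

open Set Filter Topology MeasureTheory
open scoped ContDiff ComplexConjugate Real

noncomputable section

namespace Pool.Agent.H852PC

open Pool.Agent.Y262.EG Pool.Agent.Y262.EX Pool.Agent.Y838.EX

/-- an atlas -/
structure AtlW {M : Type} (Ω : Set ℂ) (pr : ℂ → M) (N : ℕ) (T : Fin N → Set ℂ) : Prop where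
  opn : ∀ i, IsOpen (T i)
  sub : ∀ i, T i ⊆ Ω
  inj : ∀ i, InjOn pr (T i)
  cov : ∀ x, ∃ i, x ∈ pr '' T i

/-- existence of an atlas -/
theorem exists_atlW {G M : Type} [Group G] [MetricSpace M] [CompactSpace M] {Ω : Set ℂ}
    {a : G → ℂ → ℂ} {pr : ℂ → M} (h : PrM Ω a pr) :
    ∃ (N : ℕ) (T : Fin N → Set ℂ), AtlW Ω pr N T := by
  have h1 : ∀ x : M, ∃ B : Set ℂ, IsOpen B ∧ B ⊆ Ω ∧ InjOn pr B ∧ x ∈ pr '' B := by
    intro x
    obtain ⟨z, hz, rfl⟩ : x ∈ pr '' Ω := by rw [h.surj]; trivial
    obtain ⟨r, hr, hb, hi⟩ := h.inj z hz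
    exact ⟨Metric.ball z r, Metric.isOpen_ball, hb, hi, z, Metric.mem_ball_self hr, rfl⟩
  choose B hB1 hB2 hB3 hB4 using h1
  obtain ⟨t, ht⟩ := isCompact_univ.elim_nhds_subcover (fun x => pr '' B x)
    (fun x _ => (h.opn _ (hB1 x) (hB2 x)).mem_nhds (hB4 x))
  refine ⟨t.card, fun i => B (t.equivFin.symm i).1, fun i => hB1 _, fun i => hB2 _, fun i => hB3 _,
    fun x => ?_⟩
  have hx := ht.2 (mem_univ x)
  simp only [mem_iUnion] at hx
  obtain ⟨y, hy, hxy⟩ := hx
  exact ⟨t.equivFin ⟨y, hy⟩, by simpa using hxy⟩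

/-- the atlas defines a Riemannian surface -/
theorem surfW (M P : Type) [MetricSpace M] [CompactSpace M] [MetricSpace P] [CompactSpace P]
    [MeasurableSpace M] [BorelSpace M] (Ω : Set ℂ) (φ : ℂ → ℝ) (pr : ℂ → M) (q : Y → P)
    (μ : Measure M) (N : ℕ) (T : Fin N → Set ℂ) (hU : IsUT Ω φ pr q) (hA : IsArea Ω φ pr μ)
    (hT : AtlW Ω pr N T) : (mkD φ pr N T).IsSurf μ ∧ Compat (mkD φ pr N T) Ω φ pr ∧
      ∀ i, (mkD φ pr N T).T i = T i := by
  have hTi : ∀ i, (mkD φ pr N T).T i = T i := by
    intro i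
    change Function.invFunOn pr (T i) '' (pr '' T i) = T i
    rw [image_inv (hT.inj i) Subset.rfl]
    ext z
    constructor
    · exact fun h => h.1
    · exact fun h => ⟨h, z, h, rfl⟩
  have hφc : ∀ i, ContinuousOn φ (T i) := fun i => (hU.smooth.continuousOn).mono (hT.sub i)
  have hmem : ∀ i, ∀ x ∈ pr '' T i, Function.invFunOn pr (T i) x ∈ T i ∧
      pr (Function.invFunOn pr (T i) x) = x := by
    rintro i _ ⟨z, hz, rfl⟩
    rw [inv_pr (hT.inj i) hz]
    exact ⟨hz, rfl⟩
  refine ⟨?_, ?_, hTi⟩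
  · refine
    { openU := fun i => hU.opnp _ (hT.opn i) (hT.sub i)
      cover := hT.cov
      left := fun i x hx => (hmem i x hx).2
      contφ := ?_
      openT := fun i => by rw [hTi i]; exact hT.opn i
      contψ := fun i => by rw [hTi i]; exact hU.contp.mono (hT.sub i)
      det := ?_
      contA := ?_
      tr := ?_
      area := ?_ }
    · intro i
      change ContinuousOn (Function.invFunOn pr (T i)) (pr '' T i)
      intro x hx
      have hx' := hmem i x hx
      intro V hV
      obtain ⟨V', hV', hVo, hxV⟩ := mem_nhds_iff.1 hV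
      have h1 : IsOpen (pr '' (T i ∩ V')) :=
        hU.opnp _ ((hT.opn i).inter hVo) (inter_subset_left.trans (hT.sub i))
      have h2 : x ∈ pr '' (T i ∩ V') := ⟨_, ⟨hx'.1, hxV⟩, hx'.2⟩
      apply mem_nhdsWithin_of_mem_nhds
      apply mem_of_superset (h1.mem_nhds h2)
      rintro _ ⟨z, ⟨hz1, hz2⟩, rfl⟩
      change Function.invFunOn pr (T i) (pr z) ∈ V
      rw [inv_pr (hT.inj i) hz1]
      exact hV' hz2
    · intro i z _
      change (Real.exp (φ z) • ContinuousLinearMap.id ℝ ℂ).det ≠ 0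
      rw [det_smul_id]
      have := Real.exp_pos (φ z)
      positivity
    · intro i
      rw [hTi i]
      change ContinuousOn (fun z => Real.exp (φ z) • ContinuousLinearMap.id ℝ ℂ) (T i)
      exact (Real.continuous_exp.comp_continuousOn (hφc i)).smul continuousOn_const
    · intro i j x hx hx'
      obtain ⟨hz0, hz1⟩ := hmem i x hx
      obtain ⟨hw0, hw1⟩ := hmem j x hx'
      obtain ⟨γ, h1, h2, h3, h4, h4', h5, h6⟩ := chart_germ hU (hT.opn j) (hT.sub j) (hT.inj j)
        (hT.sub i hz0) hw0 (hz1.trans hw1.symm)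
      change ContDiffAt ℝ 1 (fun z => Function.invFunOn pr (T j) (pr z))
          (Function.invFunOn pr (T i) x) ∧ ∀ v,
        ‖(Real.exp (φ (Function.invFunOn pr (T j) x)) • ContinuousLinearMap.id ℝ ℂ)
            (fderiv ℝ (fun z => Function.invFunOn pr (T j) (pr z))
              (Function.invFunOn pr (T i) x) v)‖ =
          ‖(Real.exp (φ (Function.invFunOn pr (T i) x)) • ContinuousLinearMap.id ℝ ℂ) v‖
      refine ⟨h4.congr_of_eventuallyEq h2, fun v => ?_⟩
      rw [h2.fderiv_eq, h5 v, ← h6]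
      simp only [smul_apply, ContinuousLinearMap.id_apply, norm_smul, norm_mul,
        Real.norm_eq_abs, Real.abs_exp, abs_norm]
      ring
    · intro i B hB hBm
      change B ⊆ pr '' T i at hB
      change μ B = ∫⁻ z in Function.invFunOn pr (T i) '' B,
        ENNReal.ofReal |(Real.exp (φ z) • ContinuousLinearMap.id ℝ ℂ).det|
      rw [image_inv (hT.inj i) hB]
      have hm : MeasurableSet (T i ∩ pr ⁻¹' B) := by
        have hc : ContinuousOn pr (T i) := hU.contp.mono (hT.sub i)
        have h1 : MeasurableSet ((T i).domRestrict pr ⁻¹' B) :=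
          (continuousOn_iff_continuous_domRestrict.1 hc).measurable hBm
        have h2 := (hT.opn i).measurableSet.subtype_image h1
        have h3 : Subtype.val '' ((T i).domRestrict pr ⁻¹' B) = T i ∩ pr ⁻¹' B := by
          ext z
          constructor
          · rintro ⟨y, hy, rfl⟩
            exact ⟨y.2, hy⟩
          · rintro ⟨hz, hzB⟩
            exact ⟨⟨z, hz⟩, hzB, rfl⟩
        rwa [h3] at h2
      have hB' : pr '' (T i ∩ pr ⁻¹' B) = B := by
        ext x
        constructor
        · rintro ⟨z, hz, rfl⟩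
          exact hz.2
        · intro hx
          obtain ⟨z, hz, rfl⟩ := hB hx
          exact ⟨z, ⟨hz, hx⟩, rfl⟩
      have h1 := hA (T i ∩ pr ⁻¹' B) hm (inter_subset_left.trans (hT.sub i))
        ((hT.inj i).mono inter_subset_left)
      rw [hB'] at h1
      rw [h1]
      apply lintegral_congr
      intro z
      rw [det_smul_id, abs_of_nonneg (sq_nonneg _), ← Real.exp_nat_mul]
      norm_num
  · intro i
    refine ⟨id, differentiableOn_id, ?_⟩
    rw [hTi i]
    intro z hz
    refine ⟨hT.sub i hz, rfl, by simp, fun v => ?_⟩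
    change ‖(Real.exp (φ z) • ContinuousLinearMap.id ℝ ℂ) v‖ = _
    simp only [smul_apply, ContinuousLinearMap.id_apply, norm_smul,
        Real.norm_eq_abs, Real.abs_exp, id_eq, deriv_id, norm_one, mul_one]

end Pool.Agent.H852PC
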