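import Pool.Agent.H852PC.StmA
import Pool.Agent.H852PC.SurfW
import Pool.Agent.Results.MP_a825e8_mp.SurfacesLimitStatistics
import Pool.Agent.Y80.EL.Log
import Pool.Agent.Y168.EL.Pot1
import Pool.Agent.Y168.EL.Pot2
import Pool.Agent.Y168.EL.Pot3
import Pool.Agent.Y498.EL.Rep
import Pool.Agent.Y700.EL.Regu
import Pool.Agent.Y585.EL.C1
import Pool.Agent.Y338.EL.Grad
import Pool.Agent.Y848.EL.CVM
import Pool.Agent.Y361.EL.Wk
import Pool.Agent.Y65.EL.Glo
import Pool.Agent.Y923.EL.Ell
import Pool.Agent.Y749.EX.Top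
import Pool.Agent.Y749.EX.Etale
import Pool.Agent.Y338.EX.QM
import Pool.Agent.Y848.EX.QP
import Pool.Agent.Y145.EX.QU
import Pool.Agent.Y80.EX.Exist

/-!
# The spectral theorem for the quotient of a plane domain
-/

set_option autoImplicit false

open Set Filter Topology MeasureTheory
open scoped ContDiff Real

noncomputable section

namespace Pool.Agent.H852PC

open Pool.Agent.Y262.EG Pool.Agent.Y262.EX Pool.Agent.Y262.EL
open Pool.Agent.Results.MP_a825e8_mp.SurfacesLimitStatistics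

theorem bs_regu : StRegu := Pool.Agent.Y700.EL.regu (Pool.Agent.Y168.EL.pot2 Pool.Agent.Y80.EL.logT)
  (Pool.Agent.Y168.EL.pot3 Pool.Agent.Y80.EL.logT)
  (Pool.Agent.Y498.EL.rep Pool.Agent.Y80.EL.logT (Pool.Agent.Y168.EL.pot1 Pool.Agent.Y80.EL.logT))

theorem bs_grad : StGrad := Pool.Agent.Y338.EL.gradT Pool.Agent.Y585.EL.c1T

theorem bs_cvm : StCVM := Pool.Agent.Y848.EL.cvM

theorem bs_wk : StWk := Pool.Agent.Y361.EL.Wk.wk Pool.Agent.Y585.EL.c1T bs_grad bs_cvm

theorem bs_ell : StEll := Pool.Agent.Y923.EL.ell bs_wk bs_regu (Pool.Agent.Y65.EL.glo bs_cvm)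

theorem bs_surf {M : Type} [TopologicalSpace M] (D : Pool.Agent.Y262.QE.Data M) :
    surf D 0 = D := by
  unfold surf Pool.Agent.Y262.QE.Data.conf
  cases D
  simp

theorem bs_area {M : Type} [TopologicalSpace M] [MeasurableSpace M] (μ : Measure M) :
    Pool.Agent.Results.MP_a825e8_mp.SurfacesLimitStatistics.area μ 0 = μ := by
  unfold Pool.Agent.Results.MP_a825e8_mp.SurfacesLimitStatistics.area Pool.Agent.Y262.QE.wm
  simp

/-- functions with continuous lift are continuous -/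
theorem bs_cont {G M : Type} [Group G] [TopologicalSpace M] {Ω : Set ℂ} {a : G → ℂ → ℂ}
    {pr : ℂ → M} (hΩ : IsOpen Ω) (h : PrM Ω a pr) {v : M → ℝ}
    (hv : ContinuousOn (fun z => v (pr z)) Ω) : Continuous v := by
  rw [continuous_def]
  intro V hV
  have h1 : v ⁻¹' V = pr '' (Ω ∩ (fun z => v (pr z)) ⁻¹' V) := by
    ext x
    constructor
    · intro hx
      obtain ⟨z, hz, rfl⟩ : x ∈ pr '' Ω := by rw [h.surj]; trivial
      exact ⟨z, ⟨hz, hx⟩, rfl⟩
    · rintro ⟨z, ⟨hz, hz2⟩, rfl⟩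
      exact hz2
  rw [h1]
  exact h.opn _ (hv.isOpen_inter_preimage hΩ hV) inter_subset_left

theorem bs_pos {G M : Type} [Group G] [MetricSpace M] [MeasurableSpace M] [BorelSpace M]
    {Ω : Set ℂ} {a : G → ℂ → ℂ} {φ : ℂ → ℝ} {pr : ℂ → M} (hΩ : IsOpen Ω) (h : PrM Ω a pr)
    (hφ : ContinuousOn φ Ω)
    {μ : Measure M} (hμ : IsArea Ω φ pr μ) : μ.IsOpenPosMeasure := by
  constructor
  intro U hU hne h0
  obtain ⟨x, hx⟩ := hne
  obtain ⟨z, hz, rfl⟩ : x ∈ pr '' Ω := by rw [h.surj]; trivial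
  obtain ⟨r, hr, hb, hi⟩ := h.inj z hz
  set B : Set ℂ := Metric.ball z r ∩ (Ω ∩ pr ⁻¹' U) with hB
  have hBo : IsOpen B := Metric.isOpen_ball.inter (h.cont.isOpen_inter_preimage hΩ hU)
  have hzB : z ∈ B := ⟨Metric.mem_ball_self hr, hz, hx⟩
  have h1 := hμ B hBo.measurableSet (fun w hw => hw.2.1) (hi.mono inter_subset_left)
  have h2 : μ (pr '' B) = 0 := by
    refine measure_mono_null ?_ h0
    rintro _ ⟨w, hw, rfl⟩
    exact hw.2.2
  rw [h2] at h1
  have h3 := (lintegral_eq_zero_iff' (?_ : AEMeasurable (fun w => ENNReal.ofReal (Real.exp (2 * φ w)))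
    (volume.restrict B))).1 h1.symm
  · have h4 : (volume.restrict B) univ = 0 := by
      have : ∀ᵐ w ∂(volume.restrict B), False := by
        filter_upwards [h3] with w hw
        simp only [Pi.zero_apply, ENNReal.ofReal_eq_zero] at hw
        exact absurd (Real.exp_pos (2 * φ w)) (not_lt.2 hw)
      simpa using this
    rw [Measure.restrict_apply_univ] at h4
    exact absurd h4 (hBo.measure_pos volume ⟨z, hzB⟩).ne'
  · have hc : ContinuousOn (fun w => ENNReal.ofReal (Real.exp (2 * φ w))) B := by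
      refine ENNReal.continuous_ofReal.comp_continuousOn (Real.continuous_exp.comp_continuousOn ?_)
      exact continuousOn_const.mul (hφ.mono fun w hw => hw.2.1)
    exact hc.aemeasurable hBo.measurableSet

theorem bs_main (hG : SGreen) : SBasis := by
  intro G _ Ω a φ hA hI
  obtain ⟨M, iM, cM, pr, hpr⟩ := Pool.Agent.Y338.EX.qM Pool.Agent.Y749.EX.top G Ω a hA
  obtain ⟨P, iP, cP, q, hq⟩ := Pool.Agent.Y848.EX.qP Pool.Agent.Y749.EX.top G Ω a hA
    (fun γ z hz => (hI.2 γ z hz).1)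
  let _ : MeasurableSpace M := borel M
  have _ : BorelSpace M := ⟨rfl⟩
  have hUT : IsUT Ω φ pr q := Pool.Agent.Y145.EX.qU G Ω a φ M P pr q hA hI hpr hq
  obtain ⟨μ, hμ⟩ := Pool.Agent.Y80.EX.areaEx Pool.Agent.Y749.EX.etale M P Ω φ pr q hUT
  obtain ⟨N, T, hT⟩ := exists_atlW hpr
  obtain ⟨hS, hC, -⟩ := surfW M P Ω φ pr q μ N T hUT hμ hT
  set D := mkD φ pr N T with hD
  have hfin : IsFiniteMeasure μ := (bs_cvm M P Ω φ pr q μ hUT hμ).2.1
  have hne : Nonempty M := by
    obtain ⟨z, hz⟩ := hA.ne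
    exact ⟨pr z⟩
  have hop : μ.IsOpenPosMeasure := bs_pos hA.opn hpr hI.1.continuousOn hμ
  -- the eigenbasis and Weyl's law
  obtain ⟨h1, h2⟩ := Pool.Agent.Results.MP_a825e8_mp.SurfacesLimitStatistics.result M μ D hS Unit
    (fun _ => 0) continuous_const
  obtain ⟨x, hx⟩ := (h1 ()).2
  have hW := (h2 (fun _ => x) (fun _ => hx)).1 ()
  obtain ⟨u, lam, hu, hxk⟩ := hx
  rw [bs_surf, bs_area] at hu
  simp only [bs_area] at hxk
  set A' : ℝ := μ.real univ / (4 * π) with hA'
  have hA0 : 0 ≤ A' := by positivity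
  have hA1 : A' ≠ 0 := by
    intro h0
    have h3 : ∀ k, x k = 0 := fun k => by rw [hxk, h0, zero_mul]
    have h4 : ∀ᶠ T : ℝ in atTop, (number T x : ℝ) / T = 0 := by
      filter_upwards [eventually_ge_atTop 0] with T hT
      have : {k : ℕ | x k ≤ T} = univ := by
        ext k
        simp [h3, hT]
      unfold number
      rw [this, infinite_univ.ncard]
      simp
    have h5 := hW.congr' h4
    have := tendsto_nhds_unique h5 tendsto_const_nhds
    exact one_ne_zero this
  have hApos : 0 < A' := lt_of_le_of_ne hA0 hA1.symm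
  have hWl : Tendsto (fun T : ℝ => (Set.ncard {k | lam k ≤ T} : ℝ) / T) atTop (𝓝 A') := by
    have h3 : Tendsto (fun T : ℝ => A' * T) atTop atTop := tendsto_id.const_mul_atTop hApos
    have h4 := (hW.comp h3).const_mul A'
    rw [mul_one] at h4
    refine h4.congr fun T => ?_
    simp only [Function.comp]
    have h5 : {k : ℕ | x k ≤ A' * T} = {k | lam k ≤ T} := by
      ext k
      simp only [Set.mem_ofPred_eq, hxk]
      exact mul_le_mul_iff_right₀ hApos
    unfold number
    rw [h5]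
    rcases eq_or_ne T 0 with rfl | hT
    · simp
    · field_simp
  have hfinset : ∀ t : ℝ, {k | lam k ≤ t}.Finite := by
    intro t
    have h3 : ∀ᶠ T : ℝ in atTop, 0 < (Set.ncard {k | lam k ≤ T} : ℝ) / T :=
      hWl.eventually (lt_mem_nhds hApos)
    obtain ⟨T, hT, hT2⟩ := (h3.and (eventually_ge_atTop t)).exists
    have h4 : Set.ncard {k | lam k ≤ T} ≠ 0 := by
      intro h0
      rw [h0] at hT
      simp at hT
    exact (Set.finite_of_ncard_ne_zero h4).subset fun k hk => le_trans hk hT2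
  -- regularity
  have hreg : ∀ j, ∃ v : M → ℝ, (∀ᵐ x ∂μ, u j x = v x) ∧ ContDiffOn ℝ ∞ (fun z => v (pr z)) Ω ∧
      ∀ z ∈ Ω, -(Real.exp (-2 * φ z) * Pool.Agent.Y262.EL.lap (fun z => v (pr z)) z) =
        lam j * v (pr z) :=
    fun j => bs_ell M P Ω φ pr q D μ hUT hS hC hμ (lam j) (u j) (hu.eig j)
  choose U hU1 hU2 hU3 using hreg
  have hcont : ∀ v : M → ℝ, ContDiffOn ℝ ∞ (fun z => v (pr z)) Ω → Continuous v :=
    fun v hv => bs_cont hA.opn hpr hv.continuousOn
  have hmem : ∀ v : M → ℝ, Continuous v → MemLp v 2 μ := by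
    intro v hv
    obtain ⟨C, hC⟩ := isCompact_univ.exists_bound_of_continuousOn (f := v) hv.continuousOn
    exact MemLp.of_bound hv.aestronglyMeasurable C (ae_of_all _ fun x => hC x (mem_univ x))
  have hint : ∀ v w : M → ℝ, Continuous v → Continuous w → Integrable (fun x => v x * w x) μ :=
    fun v w hv hw => (hmem v hv).integrable_mul (hmem w hw)
  have horth : ∀ i j, ∫ x, U i x * U j x ∂μ = if i = j then 1 else 0 := by
    intro i j
    rw [← hu.orth i j]
    refine integral_congr_ae ?_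
    filter_upwards [hU1 i, hU1 j] with x h3 h4
    rw [h3, h4]
  -- Green
  have hgreen : ∀ (s t : ℝ) (v w : M → ℝ), ContDiffOn ℝ ∞ (fun z => v (pr z)) Ω →
      ContDiffOn ℝ ∞ (fun z => w (pr z)) Ω →
      (∀ z ∈ Ω, -(Real.exp (-2 * φ z) * Pool.Agent.Y262.EL.lap (fun z => v (pr z)) z) =
        s * v (pr z)) →
      (∀ z ∈ Ω, -(Real.exp (-2 * φ z) * Pool.Agent.Y262.EL.lap (fun z => w (pr z)) z) =
        t * w (pr z)) →
      (∫ x, inner ℝ (D.gr v x) (D.gr w x) ∂μ = s * ∫ x, v x * w x ∂μ) ∧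
        s * ∫ x, v x * w x ∂μ = t * ∫ x, v x * w x ∂μ := by
    intro s t v w hv hw hv2 hw2
    have c1 : ∀ v : M → ℝ, ContDiffOn ℝ ∞ (fun z => v (pr z)) Ω → D.C1 v := fun v hv =>
      (Pool.Agent.Y585.EL.c1T M P Ω φ pr q D μ hUT hS hC v).2 (hv.of_le (by simp))
    have g1 := fun (v w : M → ℝ) (hv : ContDiffOn ℝ ∞ (fun z => v (pr z)) Ω)
      (hw : ContDiffOn ℝ ∞ (fun z => w (pr z)) Ω) =>
      bs_grad M P Ω φ pr q D μ hUT hS hC v w (c1 v hv) (c1 w hw)
    have e1 := hG M P Ω φ pr q μ hUT hμ s v w hv hw hv2 (fun x => inner ℝ (D.gr v x) (D.gr w x))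
      (g1 v w hv hw)
    have e2 := hG M P Ω φ pr q μ hUT hμ t w v hw hv hw2 (fun x => inner ℝ (D.gr w x) (D.gr v x))
      (g1 w v hw hv)
    refine ⟨e1, ?_⟩
    rw [← e1]
    have e3 : ∫ x, w x * v x ∂μ = ∫ x, v x * w x ∂μ := by
      refine integral_congr_ae (ae_of_all _ fun x => ?_)
      exact mul_comm _ _
    rw [← e3, ← e2]
    refine integral_congr_ae (ae_of_all _ fun x => ?_)
    exact real_inner_comm _ _
  have hUc : ∀ j, Continuous (U j) := fun j => hcont _ (hU2 j)
  have hcoef : ∀ (s : Finset ℕ) (c : ℕ → ℝ) (j : ℕ),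
      ∫ x, (∑ i ∈ s, c i * U i x) * U j x ∂μ = if j ∈ s then c j else 0 := by
    intro s c j
    have e1 : ∀ x, (∑ i ∈ s, c i * U i x) * U j x = ∑ i ∈ s, c i * (U i x * U j x) := by
      intro x
      rw [Finset.sum_mul]
      exact Finset.sum_congr rfl fun i _ => by ring
    simp_rw [e1]
    rw [integral_finsetSum _ fun i _ => (hint _ _ (hUc i) (hUc j)).const_mul _]
    simp_rw [integral_const_mul, horth]
    simp
  refine ⟨M, iM, cM, pr, U, lam, hpr, hu.mono, ?_, ?_, fun k => ⟨hU2 k, hU3 k⟩, ?_, A', hApos, hWl⟩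
  · intro k
    have h3 := (hgreen (lam k) (lam k) (U k) (U k) (hU2 k) (hU2 k) (hU3 k) (hU3 k)).1
    rw [horth k k, if_pos rfl, mul_one] at h3
    rw [← h3]
    exact integral_nonneg fun x => real_inner_self_nonneg
  · rw [linearIndependent_iff']
    intro s c hc j hj
    have h3 := hcoef s c j
    rw [if_pos hj] at h3
    rw [← h3]
    have h4 : ∀ x, (∑ i ∈ s, c i * U i x) = 0 := by
      intro x
      have := congrFun hc x
      simpa using this
    simp [h4]
  · intro t v hv hv2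
    have hvc : Continuous v := hcont v hv
    have hzero : ∀ j, lam j ≠ t → ∫ x, v x * U j x ∂μ = 0 := by
      intro j hj
      have h3 := (hgreen t (lam j) v (U j) hv (hU2 j) hv2 (hU3 j)).2
      have h4 : (t - lam j) * ∫ x, v x * U j x ∂μ = 0 := by linear_combination h3
      rcases mul_eq_zero.1 h4 with h5 | h5
      · exact absurd (by linarith : lam j = t) hj
      · exact h5
    have hfs : {k | lam k = t}.Finite := (hfinset t).subset fun k hk => le_of_eq hk
    set s : Finset ℕ := hfs.toFinset with hs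
    have hms : ∀ k, k ∈ s ↔ lam k = t := fun k => by simp [hs]
    set c : ℕ → ℝ := fun k => ∫ x, v x * U k x ∂μ with hc
    set w : M → ℝ := fun x => v x - ∑ i ∈ s, c i * U i x with hw
    have hsc : Continuous fun x => ∑ i ∈ s, c i * U i x := by
      refine continuous_finsetSum _ fun i _ => ?_
      exact continuous_const.mul (hUc i)
    have hwc : Continuous w := hvc.sub hsc
    have hw0 : ∀ j, ∫ x, w x * U j x ∂μ = 0 := by
      intro j
      have e1 : ∀ x, w x * U j x = v x * U j x - (∑ i ∈ s, c i * U i x) * U j x := by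
        intro x
        simp only [hw]
        ring
      simp_rw [e1]
      rw [integral_sub (hint _ _ hvc (hUc j)) (hint _ _ hsc (hUc j)), hcoef]
      by_cases hj : lam j = t
      · rw [if_pos ((hms j).2 hj)]
        simp [hc]
      · rw [if_neg fun h => hj ((hms j).1 h), hzero j hj, sub_zero]
    have hw1 : w =ᵐ[μ] 0 := by
      refine hu.total w (hmem w hwc) fun j => ?_
      rw [← hw0 j]
      refine integral_congr_ae ?_
      filter_upwards [hU1 j] with x hx
      rw [hx]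
    have hw2 : w = 0 := (hwc.ae_eq_iff_eq μ continuous_const).1 hw1
    have hv3 : v = ∑ i ∈ s, c i • U i := by
      funext x
      have := congrFun hw2 x
      simp only [hw, Pi.zero_apply] at this
      simp only [Finset.sum_apply, Pi.smul_apply, smul_eq_mul]
      linarith
    rw [hv3]
    refine Submodule.sum_mem _ fun i hi => Submodule.smul_mem _ _ (Submodule.subset_span ?_)
    exact ⟨i, (hms i).1 hi, rfl⟩

end Pool.Agent.H852PC
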