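import Pool.Agent.H852PC.StmB

/-!
# Counting coincidences (by helper670)
-/

set_option autoImplicit false

open scoped MatrixGroups UpperHalfPlane ContDiff Topology
open MeasureTheory UpperHalfPlane Filter

noncomputable section

namespace Pool.Agent.H852PC

theorem ct_lower (S : Set ℕ) (hf : S.Finite) (hl : ∀ k ∈ S, ∀ j, j ≤ k → j ∈ S) (k : ℕ) :
    k ∈ S ↔ k < S.ncard := by
  classical
  have hex : ∃ m, m ∉ S := hf.infinite_compl.nonempty
  have hS : ∃ n, S = ↑(Finset.range n) := by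
    refine ⟨Nat.find hex, ?_⟩
    ext j
    rw [Finset.mem_coe, Finset.mem_range]
    constructor
    · intro hj
      by_contra hlt
      exact Nat.find_spec hex (hl j hj _ (not_lt.mp hlt))
    · intro hj
      exact not_not.mp (Nat.find_min hex hj)
  obtain ⟨n, rfl⟩ := hS
  rw [Set.ncard_coe_finset, Finset.card_range, Finset.mem_coe, Finset.mem_range]

theorem ct_finite (lam : ℕ → ℝ) (ht : Tendsto lam atTop atTop) (T : ℝ) :
    {k | lam k ^ 2 ≤ T}.Finite := by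
  obtain ⟨n, hn⟩ := Filter.eventually_atTop.mp (ht.eventually_gt_atTop (|T| + 1))
  refine (Set.finite_lt_nat n).subset ?_
  intro k hk
  by_contra hlt
  have h1 := hn k (not_lt.mp hlt)
  have h2 : lam k ^ 2 ≤ T := hk
  have h3 := le_abs_self T
  have h4 := abs_nonneg T
  nlinarith

theorem ct_finite_eq (lam : ℕ → ℝ) (ht : Tendsto lam atTop atTop) (t : ℝ) :
    {k | lam k = t}.Finite := by
  refine (ct_finite lam ht (t ^ 2)).subset ?_
  intro k hk
  have h : lam k = t := hk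
  show lam k ^ 2 ≤ t ^ 2
  rw [h]

theorem ct_inj (A B : Set ℕ) (hA : A.Finite) (hB : B.Finite) (h : A.ncard ≤ B.ncard) :
    ∃ f : ℕ → ℕ, (∀ k ∈ A, f k ∈ B) ∧ ∀ k ∈ A, ∀ l ∈ A, f k = f l → k = l := by
  classical
  have := hA.fintype
  have := hB.fintype
  have hc : Fintype.card A ≤ Fintype.card B := by
    rw [← Nat.card_eq_fintype_card, ← Nat.card_eq_fintype_card]
    exact h
  obtain ⟨g⟩ := Function.Embedding.nonempty_of_card_le hc
  refine ⟨fun k => if hk : k ∈ A then (g ⟨k, hk⟩ : ℕ) else 0, ?_, ?_⟩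
  · intro k hk
    simp only [dif_pos hk]
    exact (g ⟨k, hk⟩).2
  · intro k hk l hl hkl
    simp only [dif_pos hk, dif_pos hl] at hkl
    have := g.injective (Subtype.ext hkl)
    exact congrArg Subtype.val this

theorem ct_count (lam nu : ℕ → ℝ) (A e : ℝ) (he : 0 ≤ e) (hm : Monotone lam)
    (h0 : ∀ k, 0 ≤ lam k) (ht : Tendsto lam atTop atTop) (n0 : ∀ k, 0 ≤ nu k)
    (nt : Tendsto nu atTop atTop)
    (hm2 : ∀ t : ℝ, 0 < t → {k | nu k = t}.Nonempty →
      2 ≤ Set.ncard {k | lam k = t} ∧ Set.ncard {k | nu k = t} ≤ Set.ncard {k | lam k = t})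
    (T : ℝ) :
    ((Set.ncard {k | nu k ^ 2 ≤ T} : ℝ) - Set.ncard {k | nu k = 0}) /
      (Set.ncard {k | lam k ^ 2 ≤ T} : ℝ) ≤
    R2 (fun k => A * lam k ^ 2 / (4 * Real.pi)) (Set.ncard {k | lam k ^ 2 ≤ T}) (-e) e := by
  classical
  have hlow : ∀ k, lam k ^ 2 ≤ T ↔ k < Set.ncard {k | lam k ^ 2 ≤ T} := by
    intro k
    refine ct_lower {k | lam k ^ 2 ≤ T} (ct_finite lam ht T) ?_ k
    intro k hk j hj
    have h1 : lam k ^ 2 ≤ T := hk
    show lam j ^ 2 ≤ T
    have h2 := hm hj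
    have h3 := h0 j
    nlinarith
  unfold R2
  refine div_le_div_of_nonneg_right ?_ (Nat.cast_nonneg _)
  have hfin : {k | nu k ^ 2 ≤ T ∧ 0 < nu k}.Finite :=
    (ct_finite nu nt T).subset (fun k hk => hk.1)
  have hsub : {k | nu k ^ 2 ≤ T} ⊆ {k | nu k ^ 2 ≤ T ∧ 0 < nu k} ∪ {k | nu k = 0} := by
    intro k hk
    rcases (n0 k).lt_or_eq with h | h
    · exact Or.inl ⟨hk, h⟩
    · exact Or.inr h.symm
  have hle : Set.ncard {k | nu k ^ 2 ≤ T} ≤
      Set.ncard {k | nu k ^ 2 ≤ T ∧ 0 < nu k} + Set.ncard {k | nu k = 0} :=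
    (Set.ncard_le_ncard hsub (hfin.union (ct_finite_eq nu nt 0))).trans
      (Set.ncard_union_le _ _)
  have hle' : (Set.ncard {k | nu k ^ 2 ≤ T} : ℝ) - Set.ncard {k | nu k = 0} ≤
      (Set.ncard {k | nu k ^ 2 ≤ T ∧ 0 < nu k} : ℝ) := by
    have : (Set.ncard {k | nu k ^ 2 ≤ T} : ℝ) ≤
      Set.ncard {k | nu k ^ 2 ≤ T ∧ 0 < nu k} + Set.ncard {k | nu k = 0} := by
      exact_mod_cast hle
    linarith
  refine hle'.trans ?_
  rw [Set.ncard_eq_toFinset_card _ hfin, Nat.cast_le]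
  have hf : ∀ t : ℝ, ∃ f : ℕ → ℕ, 0 < t → {k | nu k = t}.Nonempty →
      (∀ k, nu k = t → lam (f k) = t) ∧ ∀ k l, nu k = t → nu l = t → f k = f l → k = l := by
    intro t
    by_cases hh : 0 < t ∧ {k | nu k = t}.Nonempty
    · obtain ⟨f, h1, h2⟩ := ct_inj {k | nu k = t} {k | lam k = t}
        (ct_finite_eq nu nt t) (ct_finite_eq lam ht t) (hm2 t hh.1 hh.2).2
      exact ⟨f, fun _ _ => ⟨fun k hk => h1 k hk, fun k l hk hl h => h2 k hk l hl h⟩⟩
    · exact ⟨id, fun h h' => absurd ⟨h, h'⟩ hh⟩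
  choose f hf using hf
  have hg : ∀ j : ℕ, ∃ i : ℕ, 0 < lam j → {k | nu k = lam j}.Nonempty → i ≠ j ∧ lam i = lam j := by
    intro j
    by_cases hh : 0 < lam j ∧ {k | nu k = lam j}.Nonempty
    · have h2 := (hm2 (lam j) hh.1 hh.2).1
      obtain ⟨i, hi, hij⟩ := Set.exists_ne_of_one_lt_ncard (lt_of_lt_of_le one_lt_two h2) j
      exact ⟨i, fun _ _ => ⟨hij, hi⟩⟩
    · exact ⟨j, fun h h' => absurd ⟨h, h'⟩ hh⟩
  choose g hg using hg
  refine Finset.card_le_card_of_injOn (fun k => (f (nu k) k, g (f (nu k) k))) ?_ ?_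
  · intro k hk
    have hk' : nu k ^ 2 ≤ T ∧ 0 < nu k := by simpa using hk
    obtain ⟨h1, h2⟩ := hf (nu k) hk'.2 ⟨k, rfl⟩
    have h3 : lam (f (nu k) k) = nu k := h1 k rfl
    obtain ⟨h4, h5⟩ := hg (f (nu k) k) (by rw [h3]; exact hk'.2) (by rw [h3]; exact ⟨k, rfl⟩)
    have h6 : f (nu k) k < Set.ncard {k | lam k ^ 2 ≤ T} := by
      rw [← hlow, h3]
      exact hk'.1
    have h7 : g (f (nu k) k) < Set.ncard {k | lam k ^ 2 ≤ T} := by
      rw [← hlow, h5, h3]
      exact hk'.1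
    simp only [Finset.coe_filter, Finset.mem_product, Finset.mem_range, Set.mem_ofPred_eq]
    refine ⟨⟨h6, h7⟩, fun h => h4 h.symm, ?_, ?_⟩
    · rw [h5, sub_self]; linarith
    · rw [h5, sub_self]; linarith
  · intro k hk l hl hkl
    have hk' : nu k ^ 2 ≤ T ∧ 0 < nu k := by simpa using hk
    have hl' : nu l ^ 2 ≤ T ∧ 0 < nu l := by simpa using hl
    have h8 : f (nu k) k = f (nu l) l := congrArg Prod.fst hkl
    obtain ⟨h1, h2⟩ := hf (nu k) hk'.2 ⟨k, rfl⟩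
    obtain ⟨h1', -⟩ := hf (nu l) hl'.2 ⟨l, rfl⟩
    have h9 : nu l = nu k := by
      rw [← h1 k rfl, h8, h1' l rfl]
    rw [h9] at h8
    exact h2 k l rfl h9 h8

/-- the pairs of equal levels are in positive proportion -/
theorem ct_main (lam nu : ℕ → ℝ) (A c d : ℝ) (hm : Monotone lam) (h0 : ∀ k, 0 ≤ lam k)
    (ht : Tendsto lam atTop atTop) (n0 : ∀ k, 0 ≤ nu k)
    (nt : Tendsto nu atTop atTop) (hc : 0 < c) (hd : 0 < d)
    (hN : Tendsto (fun T : ℝ => (Set.ncard {k | lam k ^ 2 ≤ T} : ℝ) / T) atTop (𝓝 c))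
    (hM : Tendsto (fun T : ℝ => (Set.ncard {k | nu k ^ 2 ≤ T} : ℝ) / T) atTop (𝓝 d))
    (hm2 : ∀ t : ℝ, 0 < t → {k | nu k = t}.Nonempty →
      2 ≤ Set.ncard {k | lam k = t} ∧ Set.ncard {k | nu k = t} ≤ Set.ncard {k | lam k = t}) :
    ∃ e : ℝ, 0 < e ∧ ∀ᶠ N : ℕ in atTop, e ≤ R2 (fun k => A * lam k ^ 2 / (4 * Real.pi)) N 0 0 := by
  classical
  refine ⟨d / (4 * c), by positivity, ?_⟩
  -- the bound for the first `N` levels, `T = (lam N)^2 / 2`
  have hfinl := ct_finite lam ht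
  have key : ∀ (N : ℕ) (T : ℝ), T < lam N ^ 2 →
      (Set.ncard {k | lam k ^ 2 ≤ T} : ℝ) * R2 (fun k => A * lam k ^ 2 / (4 * Real.pi))
        (Set.ncard {k | lam k ^ 2 ≤ T}) 0 0 ≤ N * R2 (fun k => A * lam k ^ 2 / (4 * Real.pi)) N 0 0 := by
    intro N T hT
    have hle : Set.ncard {k | lam k ^ 2 ≤ T} ≤ N := by
      have h1 : {k | lam k ^ 2 ≤ T} ⊆ {k | k < N} := by
        intro k hk
        by_contra hkN
        have h2 := hm (not_lt.1 hkN)
        have h3 : lam k ^ 2 ≤ T := hk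
        have h4 := h0 N
        nlinarith
      refine (Set.ncard_le_ncard h1 (Set.finite_lt_nat N)).trans ?_
      have : {k : ℕ | k < N} = ↑(Finset.range N) := by ext k; simp
      rw [this, Set.ncard_coe_finset, Finset.card_range]
    have hR : ∀ n : ℕ, (n : ℝ) * R2 (fun k => A * lam k ^ 2 / (4 * Real.pi)) n 0 0 =
        (((Finset.range n ×ˢ Finset.range n).filter fun p =>
          p.1 ≠ p.2 ∧ 0 ≤ A * lam p.1 ^ 2 / (4 * Real.pi) - A * lam p.2 ^ 2 / (4 * Real.pi) ∧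
            A * lam p.1 ^ 2 / (4 * Real.pi) - A * lam p.2 ^ 2 / (4 * Real.pi) ≤ 0).card : ℝ) := by
      intro n
      unfold R2
      rcases Nat.eq_zero_or_pos n with rfl | hn
      · simp
      · have : (n : ℝ) ≠ 0 := by positivity
        field_simp
    rw [hR, hR, Nat.cast_le]
    refine Finset.card_le_card (Finset.filter_subset_filter _ ?_)
    exact Finset.product_subset_product (Finset.range_mono hle) (Finset.range_mono hle)
  have hup : ∀ N : ℕ, (N : ℝ) ≤ Set.ncard {k | lam k ^ 2 ≤ lam N ^ 2} := by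
    intro N
    have h1 : {k | k < N} ⊆ {k | lam k ^ 2 ≤ lam N ^ 2} := by
      intro k hk
      have h2 := hm (le_of_lt hk : k ≤ N)
      have h3 := h0 k
      show lam k ^ 2 ≤ lam N ^ 2
      nlinarith
    have h2 := Set.ncard_le_ncard h1 (hfinl _)
    have : {k : ℕ | k < N} = ↑(Finset.range N) := by ext k; simp
    rw [this, Set.ncard_coe_finset, Finset.card_range] at h2
    exact_mod_cast h2
  -- limits
  have hsq : Tendsto (fun N : ℕ => lam N ^ 2) atTop atTop :=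
    (tendsto_pow_atTop two_ne_zero).comp ht
  have hhalf : Tendsto (fun N : ℕ => lam N ^ 2 / 2) atTop atTop := hsq.atTop_div_const two_pos
  have h2 : Tendsto (fun T : ℝ => (Set.ncard {k | nu k = 0} : ℝ) / T) atTop (𝓝 0) :=
    tendsto_const_nhds.div_atTop tendsto_id
  have l1 := ((hM.sub h2).comp hhalf).div (hN.comp hsq) hc.ne'
  have l2 := l1.div_const 2
  have e1 : (d - 0) / c / 2 = d / (2 * c) := by field_simp; norm_num
  rw [e1] at l2
  have hlt : d / (4 * c) < d / (2 * c) := by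
    rw [div_lt_div_iff₀ (by positivity) (by positivity)]
    nlinarith [mul_pos hc hd]
  filter_upwards [l2.eventually (lt_mem_nhds hlt), hsq.eventually (eventually_gt_atTop 0),
    eventually_gt_atTop 0, hhalf.eventually (eventually_ge_atTop (lam 0 ^ 2))] with N h3 h4 h5 h6
  have hNpos : (0 : ℝ) < N := by exact_mod_cast h5
  have hcount := ct_count lam nu A 0 le_rfl hm h0 ht n0 nt hm2 (lam N ^ 2 / 2)
  rw [neg_zero] at hcount
  have hk := key N (lam N ^ 2 / 2) (by linarith)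
  have ha : (0 : ℝ) < Set.ncard {k | lam k ^ 2 ≤ lam N ^ 2 / 2} := by
    have h7 : 0 < Set.ncard {k | lam k ^ 2 ≤ lam N ^ 2 / 2} := by
      rw [Set.ncard_pos (hfinl _)]
      exact ⟨0, h6⟩
    exact_mod_cast h7
  rw [div_le_iff₀ ha] at hcount
  have ha' : (0 : ℝ) < Set.ncard {k | lam k ^ 2 ≤ lam N ^ 2} := lt_of_lt_of_le hNpos (hup N)
  simp only [Function.comp, Pi.div_apply] at h3
  have h7 : d / (4 * c) < ((Set.ncard {k | nu k ^ 2 ≤ lam N ^ 2 / 2} : ℝ) - Set.ncard {k | nu k = 0}) /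
      (Set.ncard {k | lam k ^ 2 ≤ lam N ^ 2} : ℝ) := by
    refine lt_of_lt_of_eq h3 ?_
    have hL : lam N ^ 2 ≠ 0 := h4.ne'
    rw [← sub_div, div_div_div_eq, div_div, div_eq_div_iff (by positivity) ha'.ne']
    ring
  rw [lt_div_iff₀ ha'] at h7
  have hpos : 0 < d / (4 * c) := by positivity
  have h8 : d / (4 * c) * N ≤ N * R2 (fun k => A * lam k ^ 2 / (4 * Real.pi)) N 0 0 := by
    have h9 := mul_le_mul_of_nonneg_left (hup N) hpos.le
    linarith
  rw [mul_comm (N : ℝ)] at h8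
  exact le_of_mul_le_mul_right h8 hNpos

end Pool.Agent.H852PC
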