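import Mathlib

/-!
# Arithmetic hyperbolic surfaces, the spectrum of `√(-Δ)` and its pair correlation: definitions

Subgroups `Γ` of `PSL(2, ℝ)`, the surface `X = Γ \ ℍ`, where `ℍ` is the upper half plane with the
metric `(dx² + dy²) / y²`, cocompact arithmetic Fuchsian groups, the eigenvalues of `√(-Δ)` on `X`
listed with multiplicity, the unfolded levels and their pair correlation.
-/

set_option autoImplicit false

open scoped MatrixGroups UpperHalfPlane ContDiff NumberField Topology
open MeasureTheory UpperHalfPlane Filter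

noncomputable section

namespace Pool.Agent.H852PC

/-! ### Fuchsian groups -/

/-- The preimage in `SL(2, ℝ)` of a subgroup `Γ` of `PSL(2, ℝ)`. It acts on the upper half plane `ℍ`
by Moebius transformations, `-1` acts trivially, and the orbits are those of `Γ`. -/
def lift (Γ : Subgroup PSL(2, ℝ)) : Subgroup SL(2, ℝ) :=
  Γ.comap (QuotientGroup.mk' (Subgroup.center SL(2, ℝ)))

section

variable {F : Type} [Field F] {a b : F}

/-- The group of the norm-one units of a subring `O` of the quaternion algebra `(a, b / F)` (the units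
`x` of `O` with the inverse `star x`, where `x * star x` is the reduced norm of `x`), embedded in
`SL(2, ℝ)` by the homomorphism `ρ`. -/
def normOne (ρ : QuaternionAlgebra F a 0 b →+* Matrix (Fin 2) (Fin 2) ℝ)
    (O : Subring (QuaternionAlgebra F a 0 b)) : Subgroup SL(2, ℝ) where
  carrier := {g | ∃ x ∈ O, star x ∈ O ∧ x * star x = 1 ∧ (g : Matrix (Fin 2) (Fin 2) ℝ) = ρ x}
  one_mem' := ⟨1, O.one_mem, by simp [O.one_mem], by simp, by simp⟩
  mul_mem' := by
    rintro g h ⟨x, hx, hx', hx1, hgx⟩ ⟨y, hy, hy', hy1, hhy⟩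
    refine ⟨x * y, O.mul_mem hx hy, by rw [star_mul]; exact O.mul_mem hy' hx', ?_, ?_⟩
    · rw [star_mul, mul_assoc, ← mul_assoc y, hy1, one_mul, hx1]
    · rw [Matrix.SpecialLinearGroup.coe_mul, hgx, hhy, map_mul]
  inv_mem' := by
    rintro g ⟨x, hx, hx', hx1, hgx⟩
    have hx2 : star x * x = 1 := by
      have h := star_comm_self' x
      rw [h, hx1]
    refine ⟨star x, hx', by rwa [star_star], by rwa [star_star], ?_⟩
    have h1 : (g⁻¹ * g : SL(2, ℝ)) = 1 := inv_mul_cancel g
    have h2 : (g⁻¹ : SL(2, ℝ)).1 * g.1 = 1 := by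
      rw [← Matrix.SpecialLinearGroup.coe_mul, h1, Matrix.SpecialLinearGroup.coe_one]
    have h3 : g.1 * ρ (star x) = 1 := by
      rw [show g.1 = ρ x from hgx, ← map_mul, hx1, map_one]
    calc (g⁻¹ : SL(2, ℝ)).1 = (g⁻¹ : SL(2, ℝ)).1 * (g.1 * ρ (star x)) := by rw [h3, mul_one]
      _ = ρ (star x) := by rw [← mul_assoc, h2, one_mul]

/-- `O` is an order of the quaternion algebra `(a, b / F)` over the number field `F`: a subring which
contains the integers of `F`, is finitely generated as an abelian group and spans the algebra. -/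
structure IsOrder [NumberField F] (O : Subring (QuaternionAlgebra F a 0 b)) : Prop where
  int : ∀ x : 𝓞 F, algebraMap F (QuaternionAlgebra F a 0 b) (x : F) ∈ O
  fg : O.toAddSubgroup.FG
  span : Submodule.span F (O : Set (QuaternionAlgebra F a 0 b)) = ⊤

end

/-- `Γ` is commensurable with the image in `PSL(2, ℝ)` of the norm-one units of an order `O` of a
quaternion algebra `(a, b / F)` over a totally real number field `F` that splits at exactly one real
place: at the place `σ` it is split by `ρ`, at all other real places `τ` it is ramified, that is,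
`τ a < 0` and `τ b < 0`. -/
def IsArithmetic (Γ : Subgroup PSL(2, ℝ)) : Prop :=
  ∃ (F : Type) (_ : Field F) (_ : NumberField F) (a b : F) (σ : F →+* ℝ)
    (ρ : QuaternionAlgebra F a 0 b →+* Matrix (Fin 2) (Fin 2) ℝ)
    (O : Subring (QuaternionAlgebra F a 0 b)),
    NumberField.IsTotallyReal F ∧ a ≠ 0 ∧ b ≠ 0 ∧
    (∀ x : F, ρ (algebraMap F (QuaternionAlgebra F a 0 b) x) =
      algebraMap ℝ (Matrix (Fin 2) (Fin 2) ℝ) (σ x)) ∧
    (∀ τ : F →+* ℝ, τ ≠ σ → τ a < 0 ∧ τ b < 0) ∧
    IsOrder O ∧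
    Subgroup.Commensurable Γ ((normOne ρ O).map (QuotientGroup.mk' (Subgroup.center SL(2, ℝ))))

/-- `Γ` is a cocompact arithmetic Fuchsian group. -/
structure IsCocompactArithmetic (Γ : Subgroup PSL(2, ℝ)) : Prop where
  discrete : DiscreteTopology (lift Γ)
  cocompact : CompactSpace (MulAction.orbitRel.Quotient (lift Γ) ℍ)
  arithmetic : IsArithmetic Γ

/-! ### The Laplacian on `Γ \ ℍ`

Functions on the surface `Γ \ ℍ` are `Γ`-invariant functions on `ℍ`. Here `Γ` is a subgroup of
`SL(2, ℝ)`. -/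

/-- The partial derivative in the direction of the real axis. -/
def dx (f : ℂ → ℝ) (z : ℂ) : ℝ := fderiv ℝ f z 1

/-- The partial derivative in the direction of the imaginary axis. -/
def dy (f : ℂ → ℝ) (z : ℂ) : ℝ := fderiv ℝ f z Complex.I

/-- The Laplace-Beltrami operator `Δ f = y² (f_xx + f_yy)` of the hyperbolic plane. -/
def lap (f : ℍ → ℝ) (z : ℍ) : ℝ :=
  z.im ^ 2 * (dx (dx (f ∘ ofComplex)) z + dy (dy (f ∘ ofComplex)) z)

/-- The eigenspace `{f : -Δ f = μ f}` of the Laplacian on the surface `Γ \ ℍ`: the real vector space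
of the smooth real `Γ`-invariant functions `f` on `ℍ` with `-Δ f = μ f`. -/
def eigenspace (Γ : Subgroup SL(2, ℝ)) (μ : ℝ) : Submodule ℝ (ℍ → ℝ) where
  carrier := {f | ContDiffOn ℝ ∞ (f ∘ ofComplex) {z : ℂ | 0 < z.im} ∧
    (∀ g ∈ Γ, ∀ z : ℍ, f (g • z) = f z) ∧ ∀ z : ℍ, -lap f z = μ * f z}
  add_mem' := by
    rintro f h ⟨hf1, hf2, hf3⟩ ⟨hh1, hh2, hh3⟩
    refine ⟨hf1.add hh1, fun g hg z => by simp [hf2 g hg z, hh2 g hg z], fun z => ?_⟩
    have hz : {z : ℂ | 0 < z.im} ∈ 𝓝 (z : ℂ) := (isOpen_lt continuous_const Complex.continuous_im).mem_nhds z.im_pos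
    have key : ∀ (v : ℂ) (f h : ℂ → ℝ), ContDiffOn ℝ ∞ f {z : ℂ | 0 < z.im} →
        ContDiffOn ℝ ∞ h {z : ℂ | 0 < z.im} →
        fderiv ℝ (fun w => fderiv ℝ (f + h) w v) z v =
          fderiv ℝ (fun w => fderiv ℝ f w v) z v + fderiv ℝ (fun w => fderiv ℝ h w v) z v := by
      intro v f h hf hh
      have e1 : (fun w => fderiv ℝ (f + h) w v) =ᶠ[𝓝 (z : ℂ)]
          (fun w => fderiv ℝ f w v) + fun w => fderiv ℝ h w v := by
        filter_upwards [hz] with w hw
        have hw' : {z : ℂ | 0 < z.im} ∈ 𝓝 w :=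
          (isOpen_lt continuous_const Complex.continuous_im).mem_nhds hw
        rw [fderiv_add ((hf.contDiffAt hw').differentiableAt (by simp))
          ((hh.contDiffAt hw').differentiableAt (by simp))]
        rfl
      have d1 : ∀ f : ℂ → ℝ, ContDiffOn ℝ ∞ f {z : ℂ | 0 < z.im} →
          DifferentiableAt ℝ (fun w => fderiv ℝ f w v) (z : ℂ) := by
        intro f hf
        have h1 : ContDiffAt ℝ ∞ (fderiv ℝ f) (z : ℂ) :=
          (hf.contDiffAt hz).fderiv_right (by simp)
        exact (h1.differentiableAt (by simp)).clm_apply (differentiableAt_const v)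
      rw [e1.fderiv_eq, fderiv_add (d1 f hf) (d1 h hh)]
      rfl
    have k1 := key 1 _ _ hf1 hh1
    have k2 := key Complex.I _ _ hf1 hh1
    have h3 := hf3 z
    have h4 := hh3 z
    simp only [lap] at h3 h4 ⊢
    have e : (f + h) ∘ ofComplex = f ∘ ofComplex + h ∘ ofComplex := rfl
    rw [e]
    simp only [Pi.add_apply]
    unfold dx dy at *
    rw [k1, k2]
    linarith
  zero_mem' := by
    refine ⟨contDiffOn_const, fun g hg z => rfl, fun z => ?_⟩
    have e : ((0 : ℍ → ℝ) ∘ ofComplex) = fun _ => (0 : ℝ) := rfl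
    have e1 : dx (fun _ => (0 : ℝ)) = fun _ => 0 := by
      funext w
      simp [dx]
    have e2 : dy (fun _ => (0 : ℝ)) = fun _ => 0 := by
      funext w
      simp [dy]
    unfold lap
    rw [e, e1, e2, e1, e2]
    simp
  smul_mem' := by
    rintro c f ⟨hf1, hf2, hf3⟩
    refine ⟨hf1.const_smul c, fun g hg z => by simp [hf2 g hg z], fun z => ?_⟩
    have key : ∀ (v : ℂ) (f : ℂ → ℝ),
        fderiv ℝ (fun w => fderiv ℝ (c • f) w v) z v = c * fderiv ℝ (fun w => fderiv ℝ f w v) z v := by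
      intro v f
      have e1 : (fun w => fderiv ℝ (c • f) w v) = c • fun w => fderiv ℝ f w v := by
        funext w
        rw [fderiv_const_smul_field]
        rfl
      rw [e1, fderiv_const_smul_field]
      rfl
    have h3 := hf3 z
    simp only [lap] at h3 ⊢
    have e : (c • f) ∘ ofComplex = c • (f ∘ ofComplex) := rfl
    rw [e]
    simp only [Pi.smul_apply, smul_eq_mul]
    unfold dx dy at *
    rw [key 1, key Complex.I]
    linear_combination c * h3

/-- The numbers `lam 0 ≤ lam 1 ≤ ...` are the eigenvalues of `P = √(-Δ)` on the surface `Γ \ ℍ`,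
listed with multiplicity: they are nonnegative, tend to infinity, and every number `t ≥ 0` is listed
as many times as the dimension of `{f : -Δ f = t² f}`. -/
structure IsSpectrum (Γ : Subgroup SL(2, ℝ)) (lam : ℕ → ℝ) : Prop where
  mono : Monotone lam
  nonneg : ∀ k, 0 ≤ lam k
  tendsto : Tendsto lam atTop atTop
  mult : ∀ t : ℝ, 0 ≤ t → Module.rank ℝ (eigenspace Γ (t ^ 2)) = Cardinal.mk {k : ℕ | lam k = t}

/-- The area of the surface `Γ \ ℍ`: the least hyperbolic area (Mathlib's measure `volume` on `ℍ`,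
`dx dy / y²`) of a measurable set that meets every orbit. -/
def area (Γ : Subgroup SL(2, ℝ)) : ℝ :=
  (⨅ (D : Set ℍ) (_ : MeasurableSet D) (_ : ∀ z : ℍ, ∃ g ∈ Γ, g • z ∈ D), volume D).toReal

/-- The unfolded levels `x_k = Area(X) λ_k² / (4π)`. -/
def unfolded (Γ : Subgroup SL(2, ℝ)) (lam : ℕ → ℝ) (k : ℕ) : ℝ :=
  area Γ * lam k ^ 2 / (4 * Real.pi)

open Classical in
/-- `R₂ (N; [a, b])`: the number of the pairs `(j, k)`, `j ≠ k`, of indices smaller than `N` with
`a ≤ x_j - x_k ≤ b`, divided by `N`. -/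
def R2 (x : ℕ → ℝ) (N : ℕ) (a b : ℝ) : ℝ :=
  (((Finset.range N ×ˢ Finset.range N).filter fun p =>
    p.1 ≠ p.2 ∧ a ≤ x p.1 - x p.2 ∧ x p.1 - x p.2 ≤ b).card : ℝ) / N

/-- The pair correlation of the sequence `x` is Poissonian. -/
def IsPoissonian (x : ℕ → ℝ) : Prop :=
  ∀ a b : ℝ, a < b → Tendsto (fun N : ℕ => R2 x N a b) atTop (𝓝 (b - a))

end Pool.Agent.H852PC
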