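import Pool.Agent.H852PC.StmB

/-!
# The isometries of the quaternions of positive norm
-/

set_option autoImplicit false

open scoped MatrixGroups UpperHalfPlane ContDiff Topology
open MeasureTheory UpperHalfPlane Filter

noncomputable section

namespace Pool.Agent.H852PC

instance decEqO : DecidableEq O := fun x y =>
  decidable_of_iff (x.re = y.re ∧ x.imI = y.imI ∧ x.imJ = y.imJ ∧ x.imK = y.imK)
    (by rw [QuaternionAlgebra.ext_iff])

theorem gl_coe {x : O} (h : 0 < nrd x) :
    (gl x).1 = (√(nrd x : ℝ))⁻¹ • rho x := by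
  unfold gl
  rw [dif_pos h]

theorem gl_mul {x y : O} (hx : 0 < nrd x) (hy : 0 < nrd y) : gl (x * y) = gl x * gl y := by
  have hxy : 0 < nrd (x * y) := by rw [nrd_mul]; exact mul_pos hx hy
  apply Subtype.ext
  rw [Matrix.SpecialLinearGroup.coe_mul, gl_coe hx, gl_coe hy, gl_coe hxy, map_mul, nrd_mul]
  have hx' : (0 : ℝ) ≤ nrd x := by exact_mod_cast hx.le
  push_cast
  rw [Real.sqrt_mul hx', mul_inv, Matrix.smul_mul, Matrix.mul_smul, smul_smul]

theorem gl_mem_La {x : O} (h : nrd x = 1) : gl x ∈ La := by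
  refine ⟨x, h, ?_⟩
  rw [gl_coe (by rw [h]; norm_num), h]
  simp

theorem gl_coe_one {x : O} (h : nrd x = 1) : (gl x).1 = rho x := by
  rw [gl_coe (by rw [h]; norm_num), h]
  simp

theorem eq_gl {g : SL(2, ℝ)} {x : O} (h : nrd x = 1) (hg : g.1 = rho x) : g = gl x :=
  Subtype.ext (by rw [gl_coe_one h, hg])

theorem gl_one : gl 1 = 1 := Subtype.ext (by rw [gl_coe_one nrd_one]; simp)

/-- the isometry does not change if the quaternion is multiplied by a positive integer -/
theorem gl_int_mul {x : O} (hx : 0 < nrd x) {n : ℤ} (hn : 0 < n) : gl ((n : O) * x) = gl x := by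
  have h1 : nrd ((n : ℤ) : O) = n ^ 2 := by
    simp [nrd]
  have h2 : 0 < nrd ((n : ℤ) : O) := by rw [h1]; positivity
  rw [gl_mul h2 hx]
  have h3 : gl ((n : ℤ) : O) = 1 := by
    apply Subtype.ext
    rw [gl_coe h2, h1, rho_intCast, smul_smul]
    have hn' : (0 : ℝ) < n := by exact_mod_cast hn
    push_cast
    rw [Real.sqrt_sq hn'.le, inv_mul_cancel₀ hn'.ne', one_smul]
    simp
  rw [h3, one_mul]

/-- the values of an invariant function on the left translates -/
theorem Invt.gl {f : ℍ → ℝ} (hf : Invt La f) {y r : O} (hy : nrd y = 1) (hr : 0 < nrd r) (z : ℍ) :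
    f (gl (y * r) • z) = f (gl r • z) := by
  rw [gl_mul (by rw [hy]; norm_num) hr, mul_smul]
  exact hf _ (gl_mem_La hy) _

end Pool.Agent.H852PC
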