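import Pool.Agent.H852PC.Alg

/-!
# Statements of the arithmetic parts of the proof
-/

set_option autoImplicit false

open scoped MatrixGroups UpperHalfPlane ContDiff Topology
open MeasureTheory UpperHalfPlane Filter

noncomputable section

namespace Pool.Agent.H852PC

/-! ### Arithmetic -/

/-- `O` has no zero divisors -/
def SAniso : Prop := ∀ x : O, nrd x = 0 → x = 0

/-- the traces of the norm-one units -/
def STr : Prop := ∀ x : O, nrd x = 1 → trd x ≠ 0 ∧ trd x ≠ 1 ∧ trd x ≠ -1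

/-- the norm-one units act freely modulo `±1` -/
def SFree : Prop := ∀ g ∈ La, ∀ z : ℍ, g • z = z → g = 1 ∨ g = -1

/-- the norm-one units are torsion free modulo `±1` -/
def STors : Prop := ∀ g ∈ La, ∀ n : ℕ, 0 < n → g ^ n = 1 ∨ g ^ n = -1 → g = 1 ∨ g = -1

/-- the norm-one units act properly discontinuously -/
def SPd : Prop :=
  ∀ K : Set ℍ, IsCompact K → {g : SL(2, ℝ) | g ∈ La ∧ ((fun z : ℍ => g • z) '' K ∩ K).Nonempty}.Finite

/-- `Ga` is cocompact -/
def SCpt : Prop := ∃ K : Set ℍ, IsCompact K ∧ ∀ z : ℍ, ∃ g ∈ Ga, g • z ∈ K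

/-- the quaternion of the elements of `Ga` -/
def InG (x : O) : Prop := nrd x = 1 ∧ UU 7 (th7 x) ∧ UU 17 (th17 x)

/-- the coordinates of `b` have no common prime factor -/
def Prim (b : O) : Prop := ∀ p : ℕ, p.Prime → ¬ ∃ b' : O, b = (p : O) * b'

/-- elements of the normalizer are multiples of primitive elements of `O` -/
def SNa : Prop :=
  ∀ g : SL(2, ℝ), (∀ h, h ∈ Ga ↔ g * h * g⁻¹ ∈ Ga) →
    ∃ (b : O) (c : ℝ), Prim b ∧ 0 < nrd b ∧ c ^ 2 * nrd b = 1 ∧ g.1 = c • rho b ∧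
      (∀ x : O, ∃ y : O, b * x * star b = (nrd b : O) * y) ∧
      ∀ x : O, InG x → ∃ y : O, InG y ∧ b * x * star b = (nrd b : O) * y

/-- primitive elements which normalize the order -/
def SNb : Prop :=
  ∀ b : O, Prim b → 0 < nrd b → (∀ x : O, ∃ y : O, b * x * star b = (nrd b : O) * y) → nrd b ∣ 65

/-- elements which normalize `Ga` permute the axes modulo 7 -/
def SN7 : Prop :=
  ∀ b : O, 0 < nrd b → nrd b ∣ 65 → (∀ x : O, InG x → ∃ y : O, InG y ∧ b * x * star b = (nrd b : O) * y) →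
    ∃ s : ZMod 7, (nrd b : ZMod 7) = s ^ 2 ∧ (nrd b = 1 → UU 7 (th7 b))

/-- elements which normalize `Ga` permute the axes modulo 17 -/
def SN17 : Prop :=
  ∀ b : O, 0 < nrd b → nrd b ∣ 65 → (∀ x : O, InG x → ∃ y : O, InG y ∧ b * x * star b = (nrd b : O) * y) →
    ∃ s : ZMod 17, (nrd b : ZMod 17) = s ^ 2 ∧ (nrd b = 1 → UU 17 (th17 b))

/-- the norm of an element which normalizes `Ga` -/
def SNd : Prop :=
  ∀ b : O, 0 < nrd b → nrd b ∣ 65 → (∀ x : O, InG x → ∃ y : O, InG y ∧ b * x * star b = (nrd b : O) * y) →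
    InG b

/-- `Ga` is its own normalizer -/
def SNorm : Prop := ∀ g : SL(2, ℝ), (∀ h, h ∈ Ga ↔ g * h * g⁻¹ ∈ Ga) → g ∈ Ga

theorem norm_of (ha : SNa) (hb : SNb) (hd : SNd) : SNorm := by
  intro g hg
  obtain ⟨b, c, hp, h0, hc, hgb, h1, h2⟩ := ha g hg
  have h65 := hb b hp h0 h1
  obtain ⟨hn, h7, h17⟩ := hd b h0 h65 h2
  rw [hn] at hc
  have hc' : c = 1 ∨ c = -1 := by
    have : (c - 1) * (c + 1) = 0 := by push_cast at hc; linear_combination hc
    rcases mul_eq_zero.1 this with h | h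
    · left; linarith
    · right; linarith
  rcases hc' with rfl | rfl
  · exact ⟨b, hn, h7, h17, by simpa using hgb⟩
  · refine ⟨-b, by simpa using hn, ?_, ?_, by simpa using hgb⟩
    · rw [map_neg]; exact h7.neg
    · rw [map_neg]; exact h17.neg

/-- `Ga` has finite index in the group of the norm-one units -/
def SIdx : Prop := Ga.relIndex La ≠ 0

/-- `Ga` is arithmetic -/
def SArith : Prop := IsArithmetic (Ga.map (QuotientGroup.mk' (Subgroup.center SL(2, ℝ))))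

/-! ### Hecke correspondence -/

open Classical in
/-- the isometry of the upper half plane which belongs to a quaternion of positive norm -/
def gl (x : O) : SL(2, ℝ) :=
  if h : 0 < nrd x then
    ⟨(√(nrd x : ℝ))⁻¹ • rho x, by
      have h' : (0 : ℝ) < nrd x := by exact_mod_cast h
      rw [Matrix.det_smul, rho_det]
      simp only [Fintype.card_fin, inv_pow]
      rw [Real.sq_sqrt h'.le, inv_mul_cancel₀ h'.ne']⟩
  else 1

/-- the six elements of norm 17 -/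
def Gs : Fin 6 → O :=
  ![⟨-2, -2, -3, 2⟩, ⟨-4, 2, -1, -2⟩, ⟨-4, -6, -8, 5⟩, ⟨-4, -6, 8, -5⟩, ⟨-4, -6, -3, 2⟩, ⟨-4, 2, -3, -5⟩]

/-- the correspondence -/
def TT (f : ℍ → ℝ) (z : ℍ) : ℝ := ∑ i, f (gl (Gs i) • z)

/-- invariance -/
def Invt (Γ : Subgroup SL(2, ℝ)) (f : ℍ → ℝ) : Prop := ∀ g ∈ Γ, ∀ z : ℍ, f (g • z) = f z

/-- the element of norm 289 -/
def ww : O := ⟨18, -25, 4, 12⟩

def STinv : Prop := ∀ f, Invt La f → Invt Ga (TT f)

def SRel : Prop := ∀ f, Invt La f → Invt La (TT f) → ∀ z : ℍ, f (gl ww • z) = f z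

/-- smooth functions on the upper half plane -/
def Sm (f : ℍ → ℝ) : Prop := ContDiffOn ℝ ∞ (f ∘ ofComplex) {z : ℂ | 0 < z.im}

def SConst : Prop :=
  ∀ f, Sm f → Invt La f → (∀ z : ℍ, f (gl ww • z) = f z) → ∃ c, ∀ z, f z = c

/-- the Laplacian commutes with isometries -/
def SLap : Prop :=
  ∀ (g : SL(2, ℝ)) (f : ℍ → ℝ), Sm f → Sm (fun z => f (g • z)) ∧
    ∀ z : ℍ, lap (fun z => f (g • z)) z = lap f (g • z)

/-- doubling -/
def SDbl : Prop :=
  ∀ μ : ℝ, 0 < μ → eigenspace La μ ≠ ⊥ → 2 ≤ Module.rank ℝ (eigenspace Ga μ)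

/-! ### Counting -/

/-- two listings of the spectrum agree -/
def SUniq : Prop := ∀ (Γ : Subgroup SL(2, ℝ)) (lam nu : ℕ → ℝ), IsSpectrum Γ lam → IsSpectrum Γ nu → lam = nu

/-- multiplicities in positive proportion contradict the Poisson pair correlation -/
def SCount : Prop :=
  ∀ (lam nu : ℕ → ℝ) (A c d : ℝ), 0 ≤ A → Monotone lam → (∀ k, 0 ≤ lam k) → Tendsto lam atTop atTop →
    Monotone nu → (∀ k, 0 ≤ nu k) → Tendsto nu atTop atTop → 0 < c → 0 < d →
    Tendsto (fun T : ℝ => (Set.ncard {k | lam k ^ 2 ≤ T} : ℝ) / T) atTop (𝓝 c) →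
    Tendsto (fun T : ℝ => (Set.ncard {k | nu k ^ 2 ≤ T} : ℝ) / T) atTop (𝓝 d) →
    (∀ t : ℝ, 0 < t → {k | nu k = t}.Nonempty →
      2 ≤ Set.ncard {k | lam k = t} ∧ Set.ncard {k | nu k = t} ≤ Set.ncard {k | lam k = t}) →
    ∃ a b : ℝ, a < b ∧
      ¬ Tendsto (fun N : ℕ => R2 (fun k => A * lam k ^ 2 / (4 * Real.pi)) N a b) atTop (𝓝 (b - a))

end Pool.Agent.H852PC
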