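/- JOB of helper852 (MP_7a2702_mp, Poisson pair correlation fails for an arithmetic surface).
  Get the imported files (on origin/main, light imports):
  cd /workdir/pool && git -C outputs/live fetch -q && mkdir -p Pool/Agent/H852PC && for f in Defs Alg StmB; do
  git -C outputs/live show origin/main:Pool/Agent/H852PC/$f.lean > Pool/Agent/H852PC/$f.lean; done; lake build Pool.Agent.H852PC.StmB
  All definitions (O, nrd, trd, rho, mat, th7, th17, UU, La, Ga, gl, Gs, TT, ...) and the statements S... are in these files: read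
  them first. Prove the TARGET exactly as stated (hypotheses S... are proved in other jobs), return the whole file in result;
  auxiliary lemmas before it are welcome (give them names beginning with the theorem name). If the statement is false as written
  or a hypothesis is missing, tell me in note. Do not use the words macro, notation, syntax, prefix, tactic, partial, meta
  outside comments, and no straight double quote. -/
import Pool.Agent.H852PC.StmB

set_option autoImplicit false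

open scoped MatrixGroups UpperHalfPlane ContDiff Topology
open MeasureTheory UpperHalfPlane Filter

noncomputable section

namespace Pool.Agent.H852PC

theorem pf_an_mod : ∀ x y : ZMod 13, x ^ 2 + x * y - y ^ 2 = 0 → x = 0 ∧ y = 0 := by
  decide

theorem pf_an_dvd {x y : ℤ} (h : (13 : ℤ) ∣ x ^ 2 + x * y - y ^ 2) : (13 : ℤ) ∣ x ∧ (13 : ℤ) ∣ y := by
  have h1 : (((x ^ 2 + x * y - y ^ 2 : ℤ)) : ZMod 13) = 0 := (ZMod.intCast_zmod_eq_zero_iff_dvd _ 13).2 h
  have h2 := pf_an_mod (x : ZMod 13) (y : ZMod 13) (by push_cast at h1; exact h1)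
  exact ⟨(ZMod.intCast_zmod_eq_zero_iff_dvd _ 13).1 h2.1, (ZMod.intCast_zmod_eq_zero_iff_dvd _ 13).1 h2.2⟩

theorem pf_an_int : ∀ (n : ℕ) (a b c d : ℤ), a ^ 2 + a * b - b ^ 2 - 13 * (c ^ 2 + c * d - d ^ 2) = 0 →
    (13 : ℤ) ^ n ∣ a ∧ (13 : ℤ) ^ n ∣ b ∧ (13 : ℤ) ^ n ∣ c ∧ (13 : ℤ) ^ n ∣ d := by
  intro n
  induction n with
  | zero => intro a b c d _; simp
  | succ n ih =>
    intro a b c d h
    obtain ⟨⟨a', ha⟩, ⟨b', hb⟩⟩ := pf_an_dvd (x := a) (y := b) ⟨c ^ 2 + c * d - d ^ 2, by linarith⟩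
    subst ha hb
    obtain ⟨⟨c', hc⟩, ⟨d', hd⟩⟩ := pf_an_dvd (x := c) (y := d) ⟨a' ^ 2 + a' * b' - b' ^ 2, by linarith⟩
    subst hc hd
    have h' : a' ^ 2 + a' * b' - b' ^ 2 - 13 * (c' ^ 2 + c' * d' - d' ^ 2) = 0 := by linarith
    obtain ⟨h1, h2, h3, h4⟩ := ih a' b' c' d' h'
    rw [pow_succ']
    exact ⟨mul_dvd_mul_left _ h1, mul_dvd_mul_left _ h2, mul_dvd_mul_left _ h3, mul_dvd_mul_left _ h4⟩

theorem pf_an_zero {z : ℤ} (h : ∀ n : ℕ, (13 : ℤ) ^ n ∣ z) : z = 0 := by
  by_contra hz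
  have h1 : z.natAbs < 13 ^ z.natAbs := Nat.lt_pow_self (by norm_num)
  have h2 : ((13 : ℤ) ^ z.natAbs).natAbs ∣ z.natAbs := Int.natAbs_dvd_natAbs.2 (h z.natAbs)
  rw [Int.natAbs_pow] at h2
  have h3 := Nat.le_of_dvd (Int.natAbs_pos.2 hz) h2
  simp only [Int.reduceAbs] at h3
  omega

/- PLAIN PROOF. x = (a,b,c,d), nrd x = N(a,b) - 13 N(c,d), N(x,y) = x² + xy - y². In ZMod 13: N(x,y) = 0 only for x = y = 0 (decide).
nrd x = 0: 13 | N(a,b), so a = 13 a', b = 13 b', then 13 N(a',b') = N(c,d), so c = 13 c', d = 13 d', and x' = (a',b',c',d') again has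
nrd x' = 0. Infinite descent (induction on n: all coordinates are divisible by 13^n; or strong induction on |a|+|b|+|c|+|d|). -/
theorem pf_an : SAniso := by
  intro x hx
  have h : ∀ n : ℕ, (13 : ℤ) ^ n ∣ x.re ∧ (13 : ℤ) ^ n ∣ x.imI ∧ (13 : ℤ) ^ n ∣ x.imJ ∧ (13 : ℤ) ^ n ∣ x.imK :=
    fun n => pf_an_int n _ _ _ _ hx
  have h1 := pf_an_zero (fun n => (h n).1)
  have h2 := pf_an_zero (fun n => (h n).2.1)
  have h3 := pf_an_zero (fun n => (h n).2.2.1)
  have h4 := pf_an_zero (fun n => (h n).2.2.2)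
  ext
  · exact h1
  · exact h2
  · exact h3
  · exact h4

end Pool.Agent.H852PC
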