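import Pool.Agent.H852PC.StmB

set_option autoImplicit false

open scoped MatrixGroups UpperHalfPlane ContDiff Topology
open MeasureTheory UpperHalfPlane Filter

noncomputable section

namespace Pool.Agent.H852PC

abbrev pf_ar_B : Type := QuaternionAlgebra ℚ 5 0 13

theorem pf_ar_s5 : √5 * √5 = (5 : ℝ) := Real.mul_self_sqrt (by norm_num)

/-- the splitting -/
def pf_ar_rho : pf_ar_B →+* Matrix (Fin 2) (Fin 2) ℝ where
  toFun x := !![(x.re : ℝ) + x.imI * √5, 13 * ((x.imJ : ℝ) + x.imK * √5);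
    (x.imJ : ℝ) - x.imK * √5, (x.re : ℝ) - x.imI * √5]
  map_one' := by
    ext i j
    fin_cases i <;> fin_cases j <;> simp
  map_mul' x y := by
    have h := pf_ar_s5
    ext i j
    fin_cases i <;> fin_cases j <;>
      simp [Matrix.mul_apply, Fin.sum_univ_two]
    · linear_combination (-((x.imI : ℝ) * y.imI) + 13 * x.imK * y.imK) * h
    · linear_combination (-13 * (x.imI : ℝ) * y.imK + 13 * x.imK * y.imI) * h
    · linear_combination ((x.imK : ℝ) * y.imI - x.imI * y.imK) * h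
    · linear_combination (-(x.imI : ℝ) * y.imI + 13 * x.imK * y.imK) * h
  map_zero' := by
    ext i j
    fin_cases i <;> fin_cases j <;> simp
  map_add' x y := by
    ext i j
    fin_cases i <;> fin_cases j <;> simp <;> ring

/-- the embedding of the order -/
def pf_ar_eps : O →+* pf_ar_B where
  toFun x := ⟨(x.re : ℚ) + x.imI / 2, (x.imI : ℚ) / 2, (x.imJ : ℚ) + x.imK / 2, (x.imK : ℚ) / 2⟩
  map_one' := by ext <;> simp
  map_mul' x y := by
    ext <;> simp <;> ring
  map_zero' := by ext <;> simp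
  map_add' x y := by ext <;> simp <;> ring

theorem pf_ar_eps_star (x : O) : pf_ar_eps (star x) = star (pf_ar_eps x) := by
  rw [star_eq]
  ext <;> simp [pf_ar_eps] <;> ring

theorem pf_ar_rho_eps (x : O) : pf_ar_rho (pf_ar_eps x) = rho x := by
  rw [rho_apply, mat]
  ext i j
  fin_cases i <;> fin_cases j <;> simp [pf_ar_rho, pf_ar_eps, gr, gc] <;> ring

theorem pf_ar_eps_inj : Function.Injective pf_ar_eps := by
  rw [injective_iff_map_eq_zero]
  intro x hx
  have h1 := congrArg QuaternionAlgebra.imI hx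
  have h2 := congrArg QuaternionAlgebra.imK hx
  have h3 := congrArg QuaternionAlgebra.re hx
  have h4 := congrArg QuaternionAlgebra.imJ hx
  simp [pf_ar_eps] at h1 h2 h3 h4
  rw [h1] at h3
  rw [h2] at h4
  simp at h3 h4
  ext <;> simp [h1, h2, h3, h4]

theorem pf_ar_normOne : normOne pf_ar_rho pf_ar_eps.range = La := by
  ext g
  constructor
  · rintro ⟨y, ⟨x, rfl⟩, -, h1, h2⟩
    refine ⟨x, ?_, ?_⟩
    · rw [← pf_ar_eps_star, ← map_mul, mul_star_eq, ← map_one pf_ar_eps] at h1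
      have h3 := pf_ar_eps_inj h1
      have h4 := congrArg QuaternionAlgebra.re h3
      simpa using h4
    · rw [h2, pf_ar_rho_eps]
  · rintro ⟨x, hx, hg⟩
    refine ⟨pf_ar_eps x, ⟨x, rfl⟩, ⟨star x, pf_ar_eps_star x⟩, ?_, ?_⟩
    · rw [← pf_ar_eps_star, ← map_mul, mul_star_eq, hx]
      simp
    · rw [pf_ar_rho_eps, hg]

theorem pf_ar_order : IsOrder (F := ℚ) pf_ar_eps.range where
  int := by
    intro x
    obtain ⟨n, hn⟩ : ∃ n : ℤ, (n : ℚ) = (x : ℚ) := by
      refine ⟨Rat.ringOfIntegersEquiv x, ?_⟩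
      exact Rat.ringOfIntegersEquiv_apply_coe x
    refine ⟨⟨n, 0, 0, 0⟩, ?_⟩
    rw [← hn]
    ext <;> simp [pf_ar_eps]
  fg := by
    classical
    refine ⟨{pf_ar_eps 1, pf_ar_eps ⟨0, 1, 0, 0⟩, pf_ar_eps ⟨0, 0, 1, 0⟩, pf_ar_eps ⟨0, 0, 0, 1⟩}, ?_⟩
    apply le_antisymm
    · rw [AddSubgroup.closure_le]
      intro y hy
      simp only [Finset.coe_insert, Finset.coe_singleton, Set.mem_insert_iff,
        Set.mem_singleton_iff] at hy
      rcases hy with rfl | rfl | rfl | rfl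
      · exact ⟨_, rfl⟩
      · exact ⟨_, rfl⟩
      · exact ⟨_, rfl⟩
      · exact ⟨_, rfl⟩
    · rintro y ⟨x, rfl⟩
      have e : x = x.re • (1 : O) + x.imI • (⟨0, 1, 0, 0⟩ : O) + x.imJ • (⟨0, 0, 1, 0⟩ : O) +
          x.imK • (⟨0, 0, 0, 1⟩ : O) := by
        ext <;> simp
      rw [e, map_add, map_add, map_add, map_zsmul, map_zsmul, map_zsmul, map_zsmul]
      refine add_mem (add_mem (add_mem ?_ ?_) ?_) ?_ <;>
        exact zsmul_mem (AddSubgroup.subset_closure (by simp)) _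
  span := by
    rw [eq_top_iff]
    intro q _
    have e : q = q.re • pf_ar_eps 1 + q.imI • pf_ar_eps ⟨-1, 2, 0, 0⟩ +
        q.imJ • pf_ar_eps ⟨0, 0, 1, 0⟩ + q.imK • pf_ar_eps ⟨0, 0, -1, 2⟩ := by
      ext <;> simp [pf_ar_eps]
    rw [e]
    refine add_mem (add_mem (add_mem ?_ ?_) ?_) ?_ <;>
      exact Submodule.smul_mem _ _ (Submodule.subset_span ⟨_, rfl⟩)

theorem pf_ar (h : SIdx) : SArith := by
  refine ⟨ℚ, inferInstance, inferInstance, 5, 13, algebraMap ℚ ℝ, pf_ar_rho, pf_ar_eps.range,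
    inferInstance, by norm_num, by norm_num, ?_, ?_, pf_ar_order, ?_⟩
  · intro x
    ext i j
    fin_cases i <;> fin_cases j <;> simp [pf_ar_rho, Matrix.algebraMap_matrix_apply]
  · intro τ hτ
    exact absurd (Subsingleton.elim _ _) hτ
  · rw [pf_ar_normOne]
    constructor
    · rw [← Subgroup.relIndex_comap]
      intro h0
      have h1 := Subgroup.relIndex_dvd_of_le_left La
        (Subgroup.le_comap_map (QuotientGroup.mk' (Subgroup.center SL(2, ℝ))) Ga)
      rw [h0, zero_dvd_iff] at h1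
      exact h h1
    · rw [Subgroup.relIndex_eq_one.2 (Subgroup.map_mono Ga_le_La)]
      exact one_ne_zero

end Pool.Agent.H852PC
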