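import Pool.Agent.H852PC.StmB

set_option autoImplicit false

open scoped MatrixGroups UpperHalfPlane ContDiff Topology
open MeasureTheory UpperHalfPlane Filter

noncomputable section

namespace Pool.Agent.H852PC

theorem pf_cp_cosh (g : SL(2, ℝ)) : Real.cosh (dist UpperHalfPlane.I (g • UpperHalfPlane.I)) =
    (g 0 0 ^ 2 + g 0 1 ^ 2 + g 1 0 ^ 2 + g 1 1 ^ 2) / 2 := by
  have hdet : g 0 0 * g 1 1 - g 0 1 * g 1 0 = 1 := by
    have := g.2
    rw [Matrix.det_fin_two] at this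
    exact this
  have hne : g 1 0 ^ 2 + g 1 1 ^ 2 ≠ 0 := by
    intro h
    have h1 : g 1 0 = 0 := by nlinarith [sq_nonneg (g 1 0), sq_nonneg (g 1 1)]
    have h2 : g 1 1 = 0 := by nlinarith [sq_nonneg (g 1 0), sq_nonneg (g 1 1)]
    rw [h1, h2] at hdet
    simp at hdet
  have hz : ((g • UpperHalfPlane.I : ℍ) : ℂ) =
      ((g 0 0 : ℂ) * Complex.I + g 0 1) / ((g 1 0 : ℂ) * Complex.I + g 1 1) := by
    rw [UpperHalfPlane.coe_specialLinearGroup_apply]
    simp
  have hden : ((g 1 0 : ℂ) * Complex.I + g 1 1) ≠ 0 := by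
    intro h
    have h1 := congrArg Complex.re h
    have h2 := congrArg Complex.im h
    simp at h1 h2
    apply hne
    rw [h1, h2]
    simp
  have hnsq : Complex.normSq ((g 1 0 : ℂ) * Complex.I + g 1 1) = g 1 0 ^ 2 + g 1 1 ^ 2 := by
    simp [Complex.normSq_apply]
    ring
  have him : (g • UpperHalfPlane.I : ℍ).im = 1 / (g 1 0 ^ 2 + g 1 1 ^ 2) := by
    rw [← UpperHalfPlane.coe_im, hz, Complex.div_im, hnsq]
    simp
    field_simp
    linarith
  rw [UpperHalfPlane.cosh_dist, him, UpperHalfPlane.I_im, Complex.dist_eq, hz]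
  have hsub : (UpperHalfPlane.I : ℂ) - ((g 0 0 : ℂ) * Complex.I + g 0 1) /
      ((g 1 0 : ℂ) * Complex.I + g 1 1) = (-((g 0 1 + g 1 0 : ℝ) : ℂ) +
        ((g 1 1 - g 0 0 : ℝ) : ℂ) * Complex.I) / ((g 1 0 : ℂ) * Complex.I + g 1 1) := by
    rw [eq_div_iff hden, sub_mul, div_mul_cancel₀ _ hden, UpperHalfPlane.coe_I]
    push_cast
    linear_combination (g 1 0 : ℂ) * Complex.I_mul_I
  rw [hsub, norm_div, div_pow, ← Complex.normSq_eq_norm_sq, ← Complex.normSq_eq_norm_sq, hnsq]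
  have hn2 : Complex.normSq (-((g 0 1 + g 1 0 : ℝ) : ℂ) +
        ((g 1 1 - g 0 0 : ℝ) : ℂ) * Complex.I) = (g 0 1 + g 1 0) ^ 2 + (g 1 1 - g 0 0) ^ 2 := by
    simp [Complex.normSq_apply]
    ring
  rw [hn2]
  field_simp
  nlinarith

/-- The matrix of the linear map `v ↦ rho(v) h`. -/
def pf_cp_bigM (a b c d : ℝ) : Matrix (Fin 4) (Fin 4) ℝ :=
  !![a, a * gr, 13 * c, 13 * c * gr;
     b, b * gr, 13 * d, 13 * d * gr;
     c, c * gc, a, a * gc;
     d, d * gc, b, b * gc]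

theorem pf_cp_gr5 : (gr - gc) * (gr - gc) = 5 := by
  have h := gr_sq
  rw [gc_eq]
  linear_combination 4 * h

theorem pf_cp_det (a b c d : ℝ) (h : a * d - b * c = 1) : (pf_cp_bigM a b c d).det ^ 2 = 65 ^ 2 := by
  have h2 := pf_cp_gr5
  have h3 : (pf_cp_bigM a b c d).det = 65 * (a * d - b * c) ^ 2 ∨
      (pf_cp_bigM a b c d).det = -(65 * (a * d - b * c) ^ 2) := by
    unfold pf_cp_bigM
    rw [Matrix.det_succ_row_zero]
    simp [Fin.sum_univ_succ, Matrix.det_fin_three, Matrix.submatrix, Fin.succAbove]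
    left
    linear_combination (13 * (a * d - b * c) ^ 2) * h2
  rcases h3 with h3 | h3 <;> rw [h3, h] <;> norm_num

theorem pf_cp_minkowski (h : SL(2, ℝ)) : ∃ x : O, x ≠ 0 ∧ ∀ i j, |(rho x * h.1) i j| < 3 := by
  have hdet : h 0 0 * h 1 1 - h 0 1 * h 1 0 = 1 := by
    have := h.2
    rw [Matrix.det_fin_two] at this
    exact this
  set A := pf_cp_bigM (h 0 0) (h 0 1) (h 1 0) (h 1 1) with hA
  have hdA := pf_cp_det (h 0 0) (h 0 1) (h 1 0) (h 1 1) hdet
  rw [← hA] at hdA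
  have hdA' : |A.det| = 65 := by
    rw [← Real.sqrt_sq_eq_abs, hdA]
    exact Real.sqrt_sq (by norm_num)
  set b := Pi.basisFun ℝ (Fin 4) with hb
  set cube : Set (Fin 4 → ℝ) := Set.pi Set.univ fun _ => Set.Ioo (-3 : ℝ) 3 with hcube
  set s : Set (Fin 4 → ℝ) := (Matrix.toLin' A) ⁻¹' cube with hs
  have hlin : LinearMap.det (Matrix.toLin' A) ≠ 0 := by
    rw [LinearMap.det_toLin']
    intro h0
    rw [h0] at hdA'
    norm_num at hdA'
  have hvol : volume s = ENNReal.ofReal (1296 / 65) := by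
    rw [hs, Measure.addHaar_preimage_linearMap volume hlin, LinearMap.det_toLin', abs_inv, hdA',
      hcube, Real.volume_pi_Ioo]
    simp only [sub_neg_eq_add]
    rw [Finset.prod_const, Finset.card_univ, Fintype.card_fin, ← ENNReal.ofReal_pow (by norm_num),
      ← ENNReal.ofReal_mul (by norm_num)]
    norm_num
  have hfund := ZSpan.isAddFundamentalDomain' b (volume : Measure (Fin 4 → ℝ))
  have hcount : Countable (Submodule.span ℤ (Set.range b)).toAddSubgroup :=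
    inferInstanceAs (Countable (Submodule.span ℤ (Set.range b)))
  obtain ⟨v, hv0, hvs⟩ := exists_ne_zero_mem_lattice_of_measure_mul_two_pow_lt_measure (s := s)
    hfund (by
      intro v hv
      rw [hs, Set.mem_preimage, hcube, Set.mem_univ_pi] at hv ⊢
      intro i
      rw [map_neg]
      have := hv i
      exact ⟨by simpa using neg_lt_neg this.2, by simpa using neg_lt_neg this.1⟩)
    ((convex_pi fun i _ => convex_Ioo _ _).linear_preimage _) (by
      rw [hvol, hb, ZSpan.fundamentalDomain_pi_basisFun, volume_pi, Measure.pi_pi]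
      simp
      rw [show (2 : ENNReal) ^ 4 = ENNReal.ofReal 16 by
        rw [show (16 : ℝ) = 2 ^ 4 by norm_num, ENNReal.ofReal_pow (by norm_num)]; simp]
      exact (ENNReal.ofReal_lt_ofReal_iff (by norm_num)).2 (by norm_num))
  have hmem : (v : Fin 4 → ℝ) ∈ Submodule.span ℤ (Set.range b) := v.2
  rw [b.mem_span_iff_repr_mem ℤ] at hmem
  have hint : ∀ i, ∃ k : ℤ, (k : ℝ) = (v : Fin 4 → ℝ) i := by
    intro i
    obtain ⟨k, hk⟩ := hmem i
    exact ⟨k, by simpa [hb] using hk⟩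
  obtain ⟨x, hx⟩ := hint 0
  obtain ⟨y, hy⟩ := hint 1
  obtain ⟨z, hz⟩ := hint 2
  obtain ⟨w, hw⟩ := hint 3
  refine ⟨⟨x, y, z, w⟩, ?_, ?_⟩
  · intro h0
    have e0 := congrArg QuaternionAlgebra.re h0
    have e1 := congrArg QuaternionAlgebra.imI h0
    have e2 := congrArg QuaternionAlgebra.imJ h0
    have e3 := congrArg QuaternionAlgebra.imK h0
    simp at e0 e1 e2 e3
    subst e0 e1 e2 e3
    apply hv0
    apply Subtype.ext
    funext i
    fin_cases i
    · simpa using hx.symm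
    · simpa using hy.symm
    · simpa using hz.symm
    · simpa using hw.symm
  · rw [hs, Set.mem_preimage, hcube, Set.mem_univ_pi] at hvs
    have e0 := hvs 0
    have e1 := hvs 1
    have e2 := hvs 2
    have e3 := hvs 3
    rw [Matrix.toLin'_apply] at e0 e1 e2 e3
    simp only [hA, pf_cp_bigM, Matrix.mulVec, dotProduct, Fin.sum_univ_four, Set.mem_Ioo] at e0 e1 e2 e3
    simp at e0 e1 e2 e3
    rw [← hx, ← hy, ← hz, ← hw] at e0 e1 e2 e3
    intro i j
    rw [abs_lt]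
    fin_cases i <;> fin_cases j <;>
      simp [rho_apply, mat, Matrix.mul_apply, Fin.sum_univ_two]
    · constructor <;> nlinarith [e0.1, e0.2]
    · constructor <;> nlinarith [e1.1, e1.2]
    · constructor <;> nlinarith [e2.1, e2.2]
    · constructor <;> nlinarith [e3.1, e3.2]

/-- Size of a quaternion. -/
def pf_cp_sz (q : O) : ℕ := q.re.natAbs + q.imI.natAbs + q.imJ.natAbs + q.imK.natAbs

/-- The class of a quaternion. -/
def pf_cp_cls (q : O) : ℤ × ℤ × ℤ × ℤ × ℤ :=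
  (nrd q, q.re % (nrd q * 119), q.imI % (nrd q * 119), q.imJ % (nrd q * 119), q.imK % (nrd q * 119))

theorem pf_cp_reps : ∃ B : ℕ, ∀ q : O, nrd q ≠ 0 → |nrd q| ≤ 18 →
    ∃ q', pf_cp_cls q' = pf_cp_cls q ∧ pf_cp_sz q' ≤ B := by
  classical
  set P : Set O := {q | nrd q ≠ 0 ∧ |nrd q| ≤ 18} with hP
  have hfin : (pf_cp_cls '' P).Finite := by
    refine Set.Finite.subset (Set.finite_Icc ((-18 : ℤ), (0 : ℤ), (0 : ℤ), (0 : ℤ), (0 : ℤ))
      (18, 18 * 119, 18 * 119, 18 * 119, 18 * 119)) ?_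
    rintro _ ⟨q, ⟨hq0, hq⟩, rfl⟩
    rw [abs_le] at hq
    have hne : nrd q * 119 ≠ 0 := mul_ne_zero hq0 (by norm_num)
    have hb : ∀ t : ℤ, 0 ≤ t % (nrd q * 119) ∧ t % (nrd q * 119) ≤ 18 * 119 := by
      intro t
      refine ⟨Int.emod_nonneg _ hne, ?_⟩
      have h1 : t % (nrd q * 119) < |nrd q * 119| := Int.emod_lt_abs _ hne
      have h2 : |nrd q * 119| ≤ 18 * 119 := by
        rw [abs_mul, abs_of_pos (by norm_num : (0 : ℤ) < 119)]
        exact mul_le_mul_of_nonneg_right (abs_le.mpr hq) (by norm_num)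
      linarith
    exact ⟨⟨hq.1, (hb _).1, (hb _).1, (hb _).1, (hb _).1⟩,
      ⟨hq.2, (hb _).2, (hb _).2, (hb _).2, (hb _).2⟩⟩
  have hch : ∀ c : ℤ × ℤ × ℤ × ℤ × ℤ, ∃ B : ℕ, c ∈ pf_cp_cls '' P →
      ∃ q', pf_cp_cls q' = c ∧ pf_cp_sz q' ≤ B := by
    intro c
    by_cases hc : c ∈ pf_cp_cls '' P
    · obtain ⟨q, -, rfl⟩ := hc
      exact ⟨pf_cp_sz q, fun _ => ⟨q, rfl, le_rfl⟩⟩
    · exact ⟨0, fun h => absurd h hc⟩
  choose B hB using hch
  refine ⟨hfin.toFinset.sup B, fun q h0 h1 => ?_⟩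
  have hc : pf_cp_cls q ∈ pf_cp_cls '' P := ⟨q, ⟨h0, h1⟩, rfl⟩
  obtain ⟨q', h2, h3⟩ := hB _ hc
  exact ⟨q', h2, h3.trans (Finset.le_sup (f := B) (hfin.mem_toFinset.mpr hc))⟩

theorem pf_cp_intmul (n : ℤ) (x : O) : (n : O) * x = ⟨n * x.re, n * x.imI, n * x.imJ, n * x.imK⟩ := by
  ext <;> simp

theorem pf_cp_nrd_int (n : ℤ) : nrd (n : O) = n ^ 2 := by
  simp [nrd]

theorem pf_cp_unit {x x' : O} (h0 : nrd x ≠ 0) (hc : pf_cp_cls x' = pf_cp_cls x) :
    ∃ g ∈ Ga, g.1 = ((nrd x : ℤ) : ℝ)⁻¹ • ((rho x').adjugate * rho x) := by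
  set n := nrd x with hn
  simp only [pf_cp_cls, Prod.mk.injEq] at hc
  obtain ⟨hn', hx, hy, hz, hw⟩ := hc
  rw [hn'] at hx hy hz hw
  rw [← hn] at hx hy hz hw hn'
  have key : ∀ {t t' : ℤ}, t' % (n * 119) = t % (n * 119) → ∃ k, t - t' = n * 119 * k := by
    intro t t' h
    exact Int.ModEq.dvd h
  obtain ⟨p, hp⟩ := key hx
  obtain ⟨q, hq⟩ := key hy
  obtain ⟨r, hr⟩ := key hz
  obtain ⟨s, hs⟩ := key hw
  have hnR : (n : ℝ) ≠ 0 := by exact_mod_cast h0
  set w : O := ⟨p, q, r, s⟩ with hwdef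
  have h1 : x = x' + ((n * 119 : ℤ) : O) * w := by
    rw [pf_cp_intmul, hwdef]
    ext <;> simp <;> linarith
  set y : O := 1 + ((119 : ℤ) : O) * (star x' * w) with hy
  have h2 : (n : O) * y = star x' * x := by
    have hcomm : ∀ (m : ℤ) (a b : O), a * ((m : O) * b) = (m : O) * (a * b) := by
      intro m a b
      rw [← mul_assoc, ← mul_assoc, (Int.cast_commute m a).eq]
    rw [h1, mul_add (star x') x', star_mul_eq, hn', hy, mul_add, mul_one, hcomm (n * 119),
      Int.cast_mul, mul_assoc]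
  have h3 : nrd y = 1 := by
    have h4 := congrArg nrd h2
    rw [nrd_mul, nrd_mul, nrd_star, hn', ← hn, pf_cp_nrd_int] at h4
    have h5 : n * n * (nrd y - 1) = 0 := by linear_combination h4
    rcases mul_eq_zero.1 h5 with h6 | h6
    · exact absurd h6 (mul_ne_zero h0 h0)
    · linarith
  have h7 : th7 y = 1 := by
    have : ((119 : ℤ) : HQ 7) = 0 := by
      have h9 : ((119 : ℤ) : ZMod 7) = 0 := by decide
      ext
      · rw [QuaternionAlgebra.re_intCast, h9]; rfl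
      · rw [QuaternionAlgebra.imI_intCast]; rfl
      · rw [QuaternionAlgebra.imJ_intCast]; rfl
      · rw [QuaternionAlgebra.imK_intCast]; rfl
    rw [hy, map_add, map_mul, map_intCast, this, zero_mul, add_zero, map_one]
  have h17 : th17 y = 1 := by
    have : ((119 : ℤ) : HQ 17) = 0 := by
      have h9 : ((119 : ℤ) : ZMod 17) = 0 := by decide
      ext
      · rw [QuaternionAlgebra.re_intCast, h9]; rfl
      · rw [QuaternionAlgebra.imI_intCast]; rfl
      · rw [QuaternionAlgebra.imJ_intCast]; rfl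
      · rw [QuaternionAlgebra.imK_intCast]; rfl
    rw [hy, map_add, map_mul, map_intCast, this, zero_mul, add_zero, map_one]
  have hdet : (rho y).det = 1 := by
    rw [rho_det, h3]
    simp
  refine ⟨⟨rho y, hdet⟩, ⟨y, h3, by rw [h7]; exact UU.one 7, by rw [h17]; exact UU.one 17, rfl⟩, ?_⟩
  have h8 := congrArg rho h2
  rw [map_mul, map_mul, rho_intCast, rho_star, Matrix.smul_mul, Matrix.one_mul] at h8
  change rho y = _
  rw [← h8, smul_smul, inv_mul_cancel₀ hnR, one_smul]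

theorem pf_cp_abs_le (x : O) (B : ℕ) (h : pf_cp_sz x ≤ B) (i j : Fin 2) :
    |(rho x) i j| ≤ 26 * B := by
  have h5 : √(5 : ℝ) ≤ 3 := by
    rw [Real.sqrt_le_left (by norm_num)]
    norm_num
  have h5' : 1 ≤ √(5 : ℝ) := by
    rw [Real.one_le_sqrt]
    norm_num
  have g1 : |gr| ≤ 2 := by
    unfold gr
    rw [abs_le]
    constructor <;> linarith
  have g2 : |gc| ≤ 2 := by
    unfold gc
    rw [abs_le]
    constructor <;> linarith
  simp only [pf_cp_sz] at h
  have hc : ((x.re.natAbs : ℝ) + x.imI.natAbs + x.imJ.natAbs + x.imK.natAbs) ≤ B := by exact_mod_cast h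
  simp only [Nat.cast_natAbs, Int.cast_abs] at hc
  have a1 := abs_nonneg (x.re : ℝ)
  have a2 := abs_nonneg (x.imI : ℝ)
  have a3 := abs_nonneg (x.imJ : ℝ)
  have a4 := abs_nonneg (x.imK : ℝ)
  have m1 : |(x.imI : ℝ) * gr| ≤ 2 * |(x.imI : ℝ)| := by
    rw [abs_mul]
    nlinarith
  have m2 : |(x.imI : ℝ) * gc| ≤ 2 * |(x.imI : ℝ)| := by
    rw [abs_mul]
    nlinarith
  have m3 : |(x.imK : ℝ) * gr| ≤ 2 * |(x.imK : ℝ)| := by
    rw [abs_mul]
    nlinarith
  have m4 : |(x.imK : ℝ) * gc| ≤ 2 * |(x.imK : ℝ)| := by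
    rw [abs_mul]
    nlinarith
  have t1 := abs_add_le (x.re : ℝ) (x.imI * gr)
  have t2 := abs_add_le (x.re : ℝ) (x.imI * gc)
  have t3 := abs_add_le (x.imJ : ℝ) (x.imK * gr)
  have t4 := abs_add_le (x.imJ : ℝ) (x.imK * gc)
  fin_cases i <;> fin_cases j
  · simp [rho_apply, mat]; linarith
  · simp [rho_apply, mat, abs_mul]; linarith
  · simp [rho_apply, mat]; linarith
  · simp [rho_apply, mat]; linarith

theorem pf_cp_adj_le (x : O) (B : ℕ) (h : pf_cp_sz x ≤ B) (i j : Fin 2) :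
    |(rho x).adjugate i j| ≤ 26 * B := by
  rw [Matrix.adjugate_fin_two]
  fin_cases i <;> fin_cases j
  · simpa using pf_cp_abs_le x B h 1 1
  · simpa using pf_cp_abs_le x B h 0 1
  · simpa using pf_cp_abs_le x B h 1 0
  · simpa using pf_cp_abs_le x B h 0 0

theorem pf_cp (h : SAniso) : SCpt := by
  obtain ⟨B, hB⟩ := pf_cp_reps
  set R : ℝ := 2 * (2 * (156 * (B : ℝ)) ^ 2) with hR
  refine ⟨Metric.closedBall UpperHalfPlane.I R, isCompact_closedBall _ _, fun z => ?_⟩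
  set t := z.toSL2R with ht
  have hz : t • UpperHalfPlane.I = z := UpperHalfPlane.toSL2R_smul_I z
  obtain ⟨x, hne, hbd⟩ := pf_cp_minkowski t
  have hdh : t.1.det = 1 := t.2
  have hnf : ((nrd x : ℤ) : ℝ) = (rho x * t.1).det := by
    rw [Matrix.det_mul, hdh, mul_one, rho_det]
  have h0 : nrd x ≠ 0 := fun h' => hne (h x h')
  have h18 : |nrd x| ≤ 18 := by
    have h1 : |((nrd x : ℤ) : ℝ)| ≤ 18 := by
      rw [hnf, Matrix.det_fin_two]
      have b00 := (hbd 0 0).le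
      have b01 := (hbd 0 1).le
      have b10 := (hbd 1 0).le
      have b11 := (hbd 1 1).le
      refine (abs_sub _ _).trans ?_
      rw [abs_mul, abs_mul]
      have := mul_le_mul b00 b11 (abs_nonneg _) (by norm_num)
      have := mul_le_mul b01 b10 (abs_nonneg _) (by norm_num)
      linarith
    exact_mod_cast h1
  obtain ⟨x', hcl, hsz⟩ := hB _ h0 h18
  obtain ⟨g, hg, hgm⟩ := pf_cp_unit h0 hcl
  refine ⟨g, hg, ?_⟩
  have hn1 : (1 : ℝ) ≤ |((nrd x : ℤ) : ℝ)| := by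
    have : 1 ≤ |nrd x| := Int.one_le_abs h0
    exact_mod_cast this
  have hent : ∀ i j, |(g * t).1 i j| ≤ 156 * B := by
    intro i j
    have h1 : (g * t).1 = ((nrd x : ℤ) : ℝ)⁻¹ • ((rho x').adjugate * (rho x * t.1)) := by
      rw [Matrix.SpecialLinearGroup.coe_mul, hgm, Matrix.smul_mul, Matrix.mul_assoc]
    rw [h1, Matrix.smul_apply, Matrix.mul_apply, Fin.sum_univ_two, smul_eq_mul, abs_mul, abs_inv]
    have q0 := pf_cp_adj_le x' B hsz i 0
    have q1 := pf_cp_adj_le x' B hsz i 1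
    have r0 := (hbd 0 j).le
    have r1 := (hbd 1 j).le
    have hB0 : (0 : ℝ) ≤ 26 * B := by positivity
    have s1 : |(rho x').adjugate i 0 * (rho x * t.1) 0 j +
        (rho x').adjugate i 1 * (rho x * t.1) 1 j| ≤ 156 * B := by
      refine (abs_add_le _ _).trans ?_
      rw [abs_mul, abs_mul]
      have := mul_le_mul q0 r0 (abs_nonneg _) hB0
      have := mul_le_mul q1 r1 (abs_nonneg _) hB0
      linarith
    have s2 : |((nrd x : ℤ) : ℝ)|⁻¹ ≤ 1 := inv_le_one_of_one_le₀ hn1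
    calc _ ≤ 1 * (156 * (B : ℝ)) := mul_le_mul s2 s1 (abs_nonneg _) zero_le_one
      _ = _ := one_mul _
  rw [Metric.mem_closedBall, dist_comm, ← hz, ← mul_smul]
  have hcosh := pf_cp_cosh (g * t)
  set k := g * t with hk
  have e := fun i j => sq_le_sq' (neg_le_of_abs_le (hent i j)) (le_of_abs_le (hent i j))
  have e00 := e 0 0
  have e01 := e 0 1
  have e10 := e 1 0
  have e11 := e 1 1
  have h3 : Real.cosh (dist UpperHalfPlane.I (k • UpperHalfPlane.I)) ≤ 2 * (156 * (B : ℝ)) ^ 2 := by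
    rw [hcosh]
    linarith
  have h4 : dist UpperHalfPlane.I (k • UpperHalfPlane.I) ≤
      2 * Real.cosh (dist UpperHalfPlane.I (k • UpperHalfPlane.I)) := by
    rw [Real.cosh_eq]
    have h5 := Real.add_one_le_exp (dist UpperHalfPlane.I (k • UpperHalfPlane.I))
    have h6 := Real.exp_pos (-(dist UpperHalfPlane.I (k • UpperHalfPlane.I)))
    linarith
  rw [hR]
  linarith

end Pool.Agent.H852PC
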