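/- JOB of helper852 (MP_7a2702_mp, Poisson pair correlation fails for an arithmetic surface).
  Get the imported files (on origin/main, light imports):
  cd /workdir/pool && git -C outputs/live fetch -q && mkdir -p Pool/Agent/H852PC && for f in Defs Alg StmB; do
  git -C outputs/live show origin/main:Pool/Agent/H852PC/$f.lean > Pool/Agent/H852PC/$f.lean; done; lake build Pool.Agent.H852PC.StmB
  All definitions (O, nrd, trd, rho, mat, th7, th17, UU, La, Ga, gl, Gs, TT, ...) and the statements S... are in these files: read
  them first. Prove the TARGET exactly as stated (hypotheses S... are proved in other jobs), return the whole file in result;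
  auxiliary lemmas before it are welcome (give them names beginning with the theorem name). If the statement is false as written
  or a hypothesis is missing, tell me in note. Do not use the words macro, notation, syntax, prefix, tactic, partial, meta
  outside comments, and no straight double quote. -/
import Pool.Agent.H852PC.StmB

set_option autoImplicit false

open scoped MatrixGroups UpperHalfPlane ContDiff Topology
open MeasureTheory UpperHalfPlane Filter

noncomputable section

namespace Pool.Agent.H852PC

/- PLAIN PROOF. Take f ≠ 0 in eigenspace La μ. f is in eigenspace Ga μ (Ga_le_La). T f = TT f = sum of six translates f (gl (Gs i) • z): smooth, -lap (TT f) = μ TT f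
(SLap and linearity: eigenspace ⊥-trick: each translate z ↦ f (gl x • z) satisfies the conditions of eigenspace ⊥ μ (trivial group), which is a
submodule, so the sum does), and Invt Ga by STinv. So TT f is in eigenspace Ga μ. If dim < 2 (rank ≤ 1) then TT f = c f for a real c (f ≠ 0), so
TT f is La-invariant, so by SRel f (gl ww • z) = f z, by SConst f = const = k, then lap f = 0 (f ∘ ofComplex is constant on the
upper half plane... in fact equal to the constant function everywhere), so 0 = μ k, k = 0, f = 0: contradiction.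
rank: if not 2 ≤ rank then rank < 2, i.e. rank ≤ 1 (rank_le_one_iff : ∃ v0, ∀ v, ∃ r, r • v0 = v). -/
theorem pf_db_lap_const (k : ℝ) (z : ℍ) : lap (fun _ : ℍ => k) z = 0 := by
  have e : ((fun _ : ℍ => k) ∘ ofComplex) = fun _ => k := rfl
  have e1 : dx (fun _ => k) = fun _ => 0 := by
    funext w
    simp [dx]
  have e2 : dy (fun _ => k) = fun _ => 0 := by
    funext w
    simp [dy]
  have e3 : dx (fun _ => (0 : ℝ)) = fun _ => 0 := by
    funext w
    simp [dx]
  have e4 : dy (fun _ => (0 : ℝ)) = fun _ => 0 := by
    funext w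
    simp [dy]
  unfold lap
  rw [e, e1, e2, e3, e4]
  simp

theorem pf_db (h1 : STinv) (h2 : SRel) (h3 : SConst) (h4 : SLap) : SDbl := by
  intro μ hμ hne
  obtain ⟨f, hf, hf0⟩ := (Submodule.ne_bot_iff _).1 hne
  obtain ⟨f1, f2, f3⟩ := hf
  by_contra hrank
  have hfG : f ∈ eigenspace Ga μ := ⟨f1, fun g hg z => f2 g (Ga_le_La hg) z, f3⟩
  have htr : ∀ x : O, (fun z => f (gl x • z)) ∈ eigenspace ⊥ μ := fun x => by
    obtain ⟨a1, a2⟩ := h4 (gl x) f f1
    refine ⟨a1, ?_, ?_⟩
    · intro g hg z
      rw [Subgroup.mem_bot] at hg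
      subst hg
      rw [one_smul]
    · intro z
      rw [a2]
      exact f3 _
  have hTT : TT f ∈ eigenspace ⊥ μ := by
    have e : TT f = ∑ i, fun z => f (gl (Gs i) • z) := by
      funext z
      simp [TT, Finset.sum_apply]
    rw [e]
    exact Submodule.sum_mem _ fun i _ => htr (Gs i)
  have hTG : TT f ∈ eigenspace Ga μ := ⟨hTT.1, h1 f f2, hTT.2.2⟩
  have hlt : Module.rank ℝ (eigenspace Ga μ) < ((2 : ℕ) : Cardinal) := by
    rw [not_le] at hrank
    exact_mod_cast hrank
  have hfin : Module.Finite ℝ (eigenspace Ga μ) :=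
    Module.rank_lt_aleph0_iff.1 (hlt.trans (Cardinal.natCast_lt_aleph0))
  have hr : Module.finrank ℝ (eigenspace Ga μ) ≤ 1 := by
    have := Module.finrank_lt_of_rank_lt hlt
    omega
  obtain ⟨v0, hv0⟩ := finrank_le_one_iff.1 hr
  obtain ⟨r, hr1⟩ := hv0 ⟨f, hfG⟩
  obtain ⟨s, hs1⟩ := hv0 ⟨TT f, hTG⟩
  have hr2 : r • (v0 : ℍ → ℝ) = f := congrArg Subtype.val hr1
  have hs2 : s • (v0 : ℍ → ℝ) = TT f := congrArg Subtype.val hs1
  have hr0 : r ≠ 0 := by
    rintro rfl
    rw [zero_smul] at hr2
    exact hf0 hr2.symm
  have hT : TT f = (s / r) • f := by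
    rw [← hs2, ← hr2, smul_smul, div_mul_cancel₀ _ hr0]
  have hTL : Invt La (TT f) := by
    intro g hg z
    rw [hT]
    simp only [Pi.smul_apply, smul_eq_mul]
    rw [f2 g hg z]
  obtain ⟨k, hk⟩ := h3 f f1 f2 (h2 f f2 hTL)
  have hfk : f = fun _ => k := funext hk
  apply hf0
  have h5 := f3 UpperHalfPlane.I
  rw [hfk, pf_db_lap_const] at h5
  have hk0 : k = 0 := by
    have : μ * k = 0 := by linarith
    rcases mul_eq_zero.1 this with h | h
    · exact absurd h hμ.ne'
    · exact h
  rw [hfk, hk0]
  rfl

end Pool.Agent.H852PC
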