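import Pool.Agent.H852PC.StmB

set_option autoImplicit false

open scoped MatrixGroups UpperHalfPlane ContDiff Topology
open MeasureTheory UpperHalfPlane Filter

noncomputable section

namespace Pool.Agent.H852PC

theorem pf_fr (h : STr) : SFree := by
  intro g hg z hz
  obtain ⟨x, hx, hgx⟩ := hg
  have htr : g.1 0 0 + g.1 1 1 = (trd x : ℝ) := by
    rw [← rho_trace x, ← hgx, Matrix.trace_fin_two]
  have hdet : g.1 0 0 * g.1 1 1 - g.1 0 1 * g.1 1 0 = 1 := by
    have := g.2
    rwa [Matrix.det_fin_two] at this
  have hz1 := congrArg (fun w : ℍ => (w : ℂ)) hz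
  simp only [UpperHalfPlane.coe_specialLinearGroup_apply] at hz1
  have hden : ((algebraMap ℝ ℝ (g.1 1 0) : ℝ) : ℂ) * (z : ℂ) + ((algebraMap ℝ ℝ (g.1 1 1) : ℝ) : ℂ) ≠ 0 := by
    intro h0
    have hre := congrArg Complex.re h0
    have him := congrArg Complex.im h0
    simp at hre him
    rcases him with h1 | h1
    · rw [h1] at hre hdet
      simp at hre
      rw [hre] at hdet
      simp at hdet
    · exact z.im_ne_zero h1
  rw [div_eq_iff hden] at hz1
  have hre := congrArg Complex.re hz1
  have him := congrArg Complex.im hz1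
  simp at hre him
  have hv : 0 < z.im := z.im_pos
  set p := g.1 0 0
  set q := g.1 0 1
  set r := g.1 1 0
  set s := g.1 1 1
  have h1 : p = 2 * r * z.re + s := by
    have : p * z.im = (2 * r * z.re + s) * z.im := by rw [him]; ring
    exact mul_right_cancel₀ hv.ne' this
  have h2 : q = -(r * (z.re ^ 2 + z.im ^ 2)) := by
    rw [h1] at hre
    linear_combination hre
  have h3 : (p + s) ^ 2 - 4 = -(4 * r ^ 2 * z.im ^ 2) := by
    have : (p + s) ^ 2 - 4 * (p * s - q * r) = (p - s) ^ 2 + 4 * q * r := by ring
    rw [hdet, mul_one] at this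
    rw [this, h1, h2]
    ring
  by_cases hr : r = 0
  · have hq : q = 0 := by rw [h2, hr]; ring
    have hps : p = s := by rw [h1, hr]; ring
    rw [hq, zero_mul, sub_zero, ← hps] at hdet
    have hp : (p - 1) * (p + 1) = 0 := by linear_combination hdet
    rcases mul_eq_zero.1 hp with h4 | h4
    · left
      have hp1 : p = 1 := by linarith
      apply Subtype.ext
      ext i j
      fin_cases i <;> fin_cases j
      · simpa using hp1
      · simpa using hq
      · simpa using hr
      · simpa using (hps ▸ hp1 : s = 1)
    · right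
      have hp1 : p = -1 := by linarith
      apply Subtype.ext
      ext i j
      fin_cases i <;> fin_cases j
      · simpa using hp1
      · simpa using hq
      · simpa using hr
      · simpa using (hps ▸ hp1 : s = -1)
  · exfalso
    have h4 : 0 < 4 * r ^ 2 * z.im ^ 2 := by positivity
    rw [htr] at h3
    have h5 : ((trd x : ℤ) : ℝ) ^ 2 < 4 := by linarith
    have h6 : (trd x) ^ 2 < 4 := by exact_mod_cast h5
    have h7 : -2 < trd x ∧ trd x < 2 := by
      constructor <;> nlinarith
    obtain ⟨a, b, c⟩ := h x hx
    omega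

end Pool.Agent.H852PC
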