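import Pool.Agent.H852PC.StmA

set_option autoImplicit false

open scoped MatrixGroups UpperHalfPlane ContDiff Topology
open MeasureTheory UpperHalfPlane Filter

noncomputable section

namespace Pool.Agent.H852PC

section pf_gr_aux

open Pool.Agent.Y262.EG Pool.Agent.Y262.EX Set

variable {M P : Type}

theorem pf_gr_chain {Ω : Set ℂ} {φ : ℂ → ℝ} {pr : ℂ → M} {z z' : ℂ} {θ θ' : ℝ}
    (hG : Germ Ω φ pr (z, θ) (z', θ')) :
    ∃ a : ℂ, a ≠ 0 ∧ φ z' + Real.log ‖a‖ = φ z ∧ ∀ u : M → ℝ,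
      DifferentiableAt ℝ (fun ζ => u (pr ζ)) z' → ∀ v : ℂ,
      fderiv ℝ (fun ζ => u (pr ζ)) z v = fderiv ℝ (fun ζ => u (pr ζ)) z' (a * v) := by
  obtain ⟨r, γ, hr, hsub, hd, hγz, hall, -⟩ := hG
  simp only at hsub hd hγz hall
  have hz : z ∈ Metric.ball z r := Metric.mem_ball_self hr
  have hnh : Metric.ball z r ∈ 𝓝 z := Metric.ball_mem_nhds z hr
  obtain ⟨-, -, hne, hφ⟩ := hall z hz
  rw [hγz] at hφ
  refine ⟨deriv γ z, hne, hφ, ?_⟩
  intro u hu v
  have hdz : HasDerivAt γ (deriv γ z) z := (hd.differentiableAt hnh).hasDerivAt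
  have h1 : HasFDerivAt γ ((ContinuousLinearMap.toSpanSingleton ℂ (deriv γ z)).restrictScalars ℝ) z :=
    hdz.hasFDerivAt.restrictScalars ℝ
  have hu' : HasFDerivAt (fun ζ => u (pr ζ)) (fderiv ℝ (fun ζ => u (pr ζ)) z') (γ z) := by
    rw [hγz]; exact hu.hasFDerivAt
  have h2 := hu'.comp z h1
  have h3 : (fun ζ => u (pr ζ)) =ᶠ[𝓝 z] (fun ζ => u (pr ζ)) ∘ γ := by
    filter_upwards [hnh] with ζ hζ
    simp only [Function.comp_apply]
    rw [(hall ζ hζ).2.1]
  have h4 := (h2.congr_of_eventuallyEq h3).fderiv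
  rw [h4]
  simp [mul_comm]

theorem pf_gr_lin (L : ℂ →L[ℝ] ℝ) (a : ℂ) :
    L (a * 1) = a.re * L 1 + a.im * L Complex.I ∧
    L (a * Complex.I) = -a.im * L 1 + a.re * L Complex.I := by
  constructor
  · have : a * 1 = a.re • (1 : ℂ) + a.im • Complex.I := by
      apply Complex.ext <;> simp
    rw [this, map_add, map_smul, map_smul]
    simp
  · have : a * Complex.I = (-a.im) • (1 : ℂ) + a.re • Complex.I := by
      apply Complex.ext <;> simp
    rw [this, map_add, map_smul, map_smul]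
    simp

theorem pf_gr_inv {Ω : Set ℂ} {φ : ℂ → ℝ} {pr : ℂ → M} {z z' : ℂ} {θ θ' : ℝ}
    (hG : Germ Ω φ pr (z, θ) (z', θ')) (u w : M → ℝ)
    (hu : DifferentiableAt ℝ (fun ζ => u (pr ζ)) z')
    (hw : DifferentiableAt ℝ (fun ζ => w (pr ζ)) z') :
    Real.exp (-2 * φ z) *
      (px (fun z => u (pr z)) z * px (fun z => w (pr z)) z +
        py (fun z => u (pr z)) z * py (fun z => w (pr z)) z) =
    Real.exp (-2 * φ z') *
      (px (fun z => u (pr z)) z' * px (fun z => w (pr z)) z' +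
        py (fun z => u (pr z)) z' * py (fun z => w (pr z)) z') := by
  obtain ⟨a, ha, hφ, hf⟩ := pf_gr_chain hG
  unfold px py
  rw [hf u hu, hf u hu, hf w hw, hf w hw, (pf_gr_lin _ a).1, (pf_gr_lin _ a).1,
    (pf_gr_lin _ a).2, (pf_gr_lin _ a).2]
  have hn : 0 < ‖a‖ := norm_pos_iff.2 ha
  have h1 : Real.exp (-2 * φ z) = Real.exp (-2 * φ z') / ‖a‖ ^ 2 := by
    rw [← hφ]
    have : -2 * (φ z' + Real.log ‖a‖) = -2 * φ z' - (2 : ℕ) * Real.log ‖a‖ := by
      push_cast; ring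
    rw [this, Real.exp_sub, Real.exp_nat_mul, Real.exp_log hn]
  have h2 : ‖a‖ ^ 2 = a.re ^ 2 + a.im ^ 2 := by
    rw [← Complex.normSq_eq_norm_sq, Complex.normSq_apply]; ring
  rw [h1]
  have h3 : ‖a‖ ^ 2 ≠ 0 := by positivity
  rw [div_mul_eq_mul_div, div_eq_iff h3, h2]
  ring

variable [TopologicalSpace M] [TopologicalSpace P]

theorem pf_gr_cont {Ω : Set ℂ} {φ : ℂ → ℝ} {pr : ℂ → M} {q : Y → P} (h : IsUT Ω φ pr q)
    (F : M → ℝ) (hF : ContinuousOn (fun z => F (pr z)) Ω) : Continuous F := by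
  rw [continuous_def]
  intro V hV
  have h1 : IsOpen (Ω ∩ (fun z => F (pr z)) ⁻¹' V) := hF.isOpen_inter_preimage h.opn hV
  have h2 : F ⁻¹' V = pr '' (Ω ∩ (fun z => F (pr z)) ⁻¹' V) := by
    ext x
    constructor
    · intro hx
      have : x ∈ pr '' Ω := by rw [h.surjp]; trivial
      obtain ⟨z, hz, rfl⟩ := this
      exact ⟨z, ⟨hz, hx⟩, rfl⟩
    · rintro ⟨z, ⟨_, hz⟩, rfl⟩
      exact hz
  rw [h2]
  exact h.opnp _ h1 inter_subset_left

theorem pf_gr_zero [T2Space M] {Ω : Set ℂ} {φ : ℂ → ℝ} {pr : ℂ → M} {q : Y → P}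
    (h : IsUT Ω φ pr q) {K : Set ℂ} (hK : IsCompact K) (hKΩ : K ⊆ Ω) {w : ℂ} (hw : w ∈ Ω)
    (hwK : pr w ∉ pr '' K) : ∀ᶠ ζ in 𝓝 w, pr ζ ∉ pr '' K := by
  have h1 : IsClosed (pr '' K) := (hK.image_of_continuousOn (h.contp.mono hKΩ)).isClosed
  have h2 : ContinuousAt pr w := h.contp.continuousAt (h.opn.mem_nhds hw)
  exact h2 (h1.isOpen_compl.mem_nhds hwK)

theorem pf_gr_lift [T2Space M] {Ω : Set ℂ} {φ : ℂ → ℝ} {pr : ℂ → M} {q : Y → P}
    (h : IsUT Ω φ pr q) {B K : Set ℂ} (hB : IsOpen B) (hBΩ : B ⊆ Ω) (hi : InjOn pr B)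
    (hK : IsCompact K) (hKB : K ⊆ B) (χ : ℂ → ℝ) (hχ : ContDiff ℝ ∞ χ)
    (h0 : ∀ z, z ∉ K → χ z = 0) :
    ∃ χt : M → ℝ, (∀ z ∈ B, χt (pr z) = χ z) ∧ (∀ x, x ∉ pr '' B → χt x = 0) ∧
      (∀ x, x ∉ pr '' K → χt x = 0) ∧
      ContDiffOn ℝ ∞ (fun z => χt (pr z)) Ω := by
  classical
  set χt : M → ℝ := (pr '' B).indicator (fun x => χ (Function.invFunOn pr B x)) with hdef
  have h1 : ∀ z ∈ B, χt (pr z) = χ z := by
    intro z hz
    rw [hdef, indicator_of_mem (mem_image_of_mem pr hz)]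
    rw [hi.leftInvOn_invFunOn hz]
  have h2 : ∀ x, x ∉ pr '' B → χt x = 0 := fun x hx => indicator_of_notMem hx _
  have h3 : ∀ x, x ∉ pr '' K → χt x = 0 := by
    intro x hx
    by_cases hxB : x ∈ pr '' B
    · obtain ⟨z, hz, rfl⟩ := hxB
      rw [h1 z hz]
      exact h0 z fun hzK => hx ⟨z, hzK, rfl⟩
    · exact h2 x hxB
  refine ⟨χt, h1, h2, h3, ?_⟩
  intro w hw
  apply ContDiffAt.contDiffWithinAt
  by_cases hwB : pr w ∈ pr '' B
  · obtain ⟨z, hz, hzw⟩ := hwB
    obtain ⟨θ', hG⟩ := h.deck w hw z (hBΩ hz) hzw.symm 0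
    obtain ⟨r, γ, hr, hsub, hd, hγz, hall, -⟩ := hG
    simp only at hsub hd hγz hall
    have hnh : Metric.ball w r ∈ 𝓝 w := Metric.ball_mem_nhds w hr
    have hd1 : ContDiffAt ℝ ∞ γ w :=
      ((hd.contDiffOn Metric.isOpen_ball).contDiffAt hnh).restrict_scalars ℝ
    have hc : ContinuousAt γ w := hd1.continuousAt
    have hB' : ∀ᶠ ζ in 𝓝 w, γ ζ ∈ B := hc (by rw [hγz]; exact hB.mem_nhds hz)
    have heq : (fun z => χt (pr z)) =ᶠ[𝓝 w] χ ∘ γ := by
      filter_upwards [hnh, hB'] with ζ hζ hζB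
      simp only [Function.comp_apply]
      rw [← (hall ζ hζ).2.1, h1 _ hζB]
    exact (hχ.contDiffAt.comp w hd1).congr_of_eventuallyEq heq
  · have hwK : pr w ∉ pr '' K := fun hk => hwB (image_mono hKB hk)
    have heq : (fun z => χt (pr z)) =ᶠ[𝓝 w] fun _ => (0 : ℝ) := by
      filter_upwards [pf_gr_zero h hK (hKB.trans hBΩ) hw hwK] with ζ hζ
      exact h3 _ hζ
    exact contDiffAt_const.congr_of_eventuallyEq heq

theorem pf_gr_pou [T2Space M] [CompactSpace M] {Ω : Set ℂ} {φ : ℂ → ℝ} {pr : ℂ → M} {q : Y → P}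
    (h : IsUT Ω φ pr q) :
    ∃ (s : Finset M) (c : M → ℂ) (r : M → ℝ) (w : M → M → ℝ),
      (∀ x, 0 < r x ∧ Metric.ball (c x) (r x) ⊆ Ω ∧ InjOn pr (Metric.ball (c x) (r x))) ∧
      (∀ x, ContDiffOn ℝ ∞ (fun z => w x (pr z)) Ω) ∧
      (∀ x y, y ∉ pr '' Metric.closedBall (c x) (r x / 2) → w x y = 0) ∧
      ∀ y, ∑ x ∈ s, w x y = 1 := by
  classical
  have hex : ∀ x : M, ∃ z : ℂ, z ∈ Ω ∧ pr z = x := by
    intro x
    have : x ∈ pr '' Ω := by rw [h.surjp]; trivial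
    obtain ⟨z, hz, hx⟩ := this
    exact ⟨z, hz, hx⟩
  choose c hcΩ hcx using hex
  have hr : ∀ x : M, ∃ r : ℝ, 0 < r ∧ Metric.ball (c x) r ⊆ Ω ∧ InjOn pr (Metric.ball (c x) r) :=
    fun x => h.injp (c x) (hcΩ x)
  choose r hr0 hrΩ hri using hr
  set bu : (x : M) → ContDiffBump (c x) := fun x =>
    { rIn := r x / 4, rOut := r x / 2, rIn_pos := by linarith [hr0 x],
      rIn_lt_rOut := by linarith [hr0 x] } with hbu
  have hlift : ∀ x : M, ∃ χt : M → ℝ, (∀ z ∈ Metric.ball (c x) (r x), χt (pr z) = bu x z) ∧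
      (∀ y, y ∉ pr '' Metric.ball (c x) (r x) → χt y = 0) ∧
      (∀ y, y ∉ pr '' Metric.closedBall (c x) (r x / 2) → χt y = 0) ∧
      ContDiffOn ℝ ∞ (fun z => χt (pr z)) Ω := by
    intro x
    apply pf_gr_lift h Metric.isOpen_ball (hrΩ x) (hri x) (isCompact_closedBall _ _)
      (Metric.closedBall_subset_ball (by linarith [hr0 x])) (bu x) (bu x).contDiff
    intro z hz
    have : z ∉ Function.support (bu x) := by
      rw [(bu x).support_eq]
      exact fun hzb => hz (Metric.ball_subset_closedBall hzb)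
    exact Function.notMem_support.1 this
  choose χt h1 h2 h3 h4 using hlift
  have hnn : ∀ x y, 0 ≤ χt x y := by
    intro x y
    by_cases hy : y ∈ pr '' Metric.ball (c x) (r x)
    · obtain ⟨z, hz, rfl⟩ := hy
      rw [h1 x z hz]
      exact (bu x).nonneg
    · rw [h2 x y hy]
  obtain ⟨s, hs⟩ := isCompact_univ.elim_finite_subcover
    (fun x : M => pr '' Metric.ball (c x) (r x / 4))
    (fun x => h.opnp _ Metric.isOpen_ball
      ((Metric.ball_subset_ball (by linarith [hr0 x])).trans (hrΩ x)))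
    (fun x _ => mem_iUnion.2 ⟨x, ⟨c x, Metric.mem_ball_self (by linarith [hr0 x]), hcx x⟩⟩)
  have hpos : ∀ y, 0 < ∑ x ∈ s, χt x y := by
    intro y
    obtain ⟨x, hx, hy⟩ := mem_iUnion₂.1 (hs (mem_univ y))
    obtain ⟨z, hz, rfl⟩ := hy
    apply Finset.sum_pos' (fun i _ => hnn i _)
    refine ⟨x, hx, ?_⟩
    rw [h1 x z (Metric.ball_subset_ball (by linarith [hr0 x]) hz)]
    rw [(bu x).one_of_mem_closedBall (Metric.ball_subset_closedBall hz)]
    exact one_pos
  refine ⟨s, c, r, fun x y => χt x y / ∑ x' ∈ s, χt x' y, fun x => ⟨hr0 x, hrΩ x, hri x⟩, ?_, ?_, ?_⟩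
  · intro x
    exact (h4 x).div (ContDiffOn.sum fun i _ => h4 i) fun z _ => (hpos (pr z)).ne'
  · intro x y hy
    simp only
    rw [h3 x y hy, zero_div]
  · intro y
    rw [← Finset.sum_div, div_self (hpos y).ne']


theorem pf_gr_ind {T K : Set ℂ} (hT : IsOpen T) (hK : IsCompact K) (hKT : K ⊆ T) {Q : ℂ → ℝ}
    (hP : ContDiffOn ℝ ∞ Q T) (h0 : ∀ y ∈ T, y ∉ K → Q y = 0) :
    ContDiff ℝ ∞ (T.indicator Q) ∧ tsupport (T.indicator Q) ⊆ K := by
  constructor
  · rw [contDiff_iff_contDiffAt]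
    intro y
    by_cases hy : y ∈ T
    · have h1 := hP.contDiffAt (hT.mem_nhds hy)
      apply h1.congr_of_eventuallyEq
      filter_upwards [hT.mem_nhds hy] with z hz
      exact indicator_of_mem hz _
    · have hyK : y ∉ K := fun h => hy (hKT h)
      have : T.indicator Q =ᶠ[𝓝 y] fun _ => 0 := by
        filter_upwards [hK.isClosed.isOpen_compl.mem_nhds hyK] with z hz
        by_cases hzT : z ∈ T
        · rw [indicator_of_mem hzT]; exact h0 z hzT hz
        · exact indicator_of_notMem hzT _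
      exact contDiffAt_const.congr_of_eventuallyEq this
  · apply closure_minimal _ hK.isClosed
    intro y hy
    by_contra hyK
    apply hy
    by_cases hyT : y ∈ T
    · rw [indicator_of_mem hyT]; exact h0 y hyT hyK
    · exact indicator_of_notMem hyT _

theorem pf_gr_int0 {Q : ℂ → ℝ} (hQ : ContDiff ℝ ∞ Q) (hc : HasCompactSupport Q) (v : ℂ) :
    Integrable (fun z => fderiv ℝ Q z v) ∧ ∫ z, fderiv ℝ Q z v = 0 := by
  have hQ' : Continuous (fun z => fderiv ℝ Q z v) :=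
    (hQ.continuous_fderiv (by simp)).clm_apply continuous_const
  have hi : Integrable (fun z => fderiv ℝ Q z v) :=
    hQ'.integrable_of_hasCompactSupport (hc.fderiv_apply (𝕜 := ℝ) v)
  refine ⟨hi, ?_⟩
  have h := integral_mul_fderiv_eq_neg_fderiv_mul_of_integrable (μ := (volume : Measure ℂ))
    (f := fun _ => (1 : ℝ)) (g := Q) (v := v) (by simp) (by simpa using hi)
    (by simpa using hQ.continuous.integrable_of_hasCompactSupport hc)
    (fun x _ => differentiableAt_const _)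
    (fun x _ => (hQ.differentiable (by simp)) x)
  simpa using h

theorem pf_gr_loc [T2Space M] [MeasurableSpace M] [BorelSpace M] {Ω : Set ℂ} {φ : ℂ → ℝ}
    {pr : ℂ → M} {q : Y → P} (h : IsUT Ω φ pr q) {B K : Set ℂ} (hB : IsOpen B) (hBΩ : B ⊆ Ω)
    (hi : InjOn pr B) (hK : IsCompact K) (hKB : K ⊆ B) (μ : Measure M)
    (hcv : MeasurableSet (pr '' B) ∧ ∀ G : M → ℝ, Measurable G → ∫ x in pr '' B, G x ∂μ =
        ∫ z in B, G (pr z) * Real.exp (2 * φ z)) (lam : ℝ) (u w g : M → ℝ)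
    (hu : ContDiffOn ℝ ∞ (fun z => u (pr z)) Ω) (hw : ContDiffOn ℝ ∞ (fun z => w (pr z)) Ω)
    (he : ∀ z ∈ Ω, -(Real.exp (-2 * φ z) * Pool.Agent.Y262.EL.lap (fun z => u (pr z)) z) =
      lam * u (pr z))
    (hg : ∀ z ∈ Ω, g (pr z) = Real.exp (-2 * φ z) *
      (px (fun z => u (pr z)) z * px (fun z => w (pr z)) z +
        py (fun z => u (pr z)) z * py (fun z => w (pr z)) z))
    (hgc : Continuous g) (huc : Continuous u) (hwc : Continuous w)
    (hw0 : ∀ x, x ∉ pr '' K → w x = 0) :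
    ∫ x, (g x - lam * (u x * w x)) ∂μ = 0 := by
  have hKΩ : K ⊆ Ω := hKB.trans hBΩ
  set U : ℂ → ℝ := fun z => u (pr z) with hU
  set W : ℂ → ℝ := fun z => w (pr z) with hW
  -- vanishing outside
  have hz : ∀ x, x ∉ pr '' K → g x - lam * (u x * w x) = 0 := by
    intro x hx
    have : x ∈ pr '' Ω := by rw [h.surjp]; trivial
    obtain ⟨z, hz, rfl⟩ := this
    have h1 : W =ᶠ[𝓝 z] fun _ => (0 : ℝ) := by
      filter_upwards [pf_gr_zero h hK hKΩ hz hx] with ζ hζ
      exact hw0 _ hζ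
    have h2 : fderiv ℝ W z = 0 := by
      rw [h1.fderiv_eq]; simp
    rw [hg z hz, hw0 _ hx]
    unfold px py
    rw [h2]
    simp
  have hsub : pr '' K ⊆ pr '' B := image_mono hKB
  have e1 : ∫ x, (g x - lam * (u x * w x)) ∂μ = ∫ x in pr '' B, (g x - lam * (u x * w x)) ∂μ := by
    symm
    apply setIntegral_eq_integral_of_forall_compl_eq_zero
    intro x hx
    exact hz x fun hk => hx (hsub hk)
  have hm : Measurable fun x => g x - lam * (u x * w x) :=
    (hgc.sub (continuous_const.mul (huc.mul hwc))).measurable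
  rw [e1, hcv.2 _ hm]
  -- the functions in the chart
  have hUd : ∀ v : ℂ, ContDiffOn ℝ ∞ (fun z => fderiv ℝ U z v) Ω := fun v =>
    (hu.fderiv_of_isOpen h.opn (by simp)).clm_apply contDiffOn_const
  have hWK : ∀ z ∈ B, z ∉ K → W z = 0 := by
    intro z hzB hzK
    apply hw0
    rintro ⟨z', hz', he'⟩
    exact hzK (hi (hKB hz') hzB he' ▸ hz')
  have hQ : ∀ v : ℂ, ContDiffOn ℝ ∞ (fun z => W z * fderiv ℝ U z v) B := fun v =>
    (hw.mul (hUd v)).mono hBΩ
  have hQ0 : ∀ v : ℂ, ∀ z ∈ B, z ∉ K → W z * fderiv ℝ U z v = 0 := by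
    intro v z hzB hzK
    rw [hWK z hzB hzK, zero_mul]
  set Q : ℂ → ℂ → ℝ := fun v => B.indicator (fun z => W z * fderiv ℝ U z v) with hQdef
  have hQs : ∀ v, ContDiff ℝ ∞ (Q v) := fun v => (pf_gr_ind hB hK hKB (hQ v) (hQ0 v)).1
  have hQt : ∀ v, tsupport (Q v) ⊆ K := fun v => (pf_gr_ind hB hK hKB (hQ v) (hQ0 v)).2
  have hQc : ∀ v, HasCompactSupport (Q v) := fun v =>
    hK.of_isClosed_subset (isClosed_tsupport _) (hQt v)
  have hQd : ∀ v, ∀ z ∈ B, fderiv ℝ (Q v) z v =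
      W z * fderiv ℝ (fun z => fderiv ℝ U z v) z v + fderiv ℝ U z v * fderiv ℝ W z v := by
    intro v z hzB
    have h1 : Q v =ᶠ[𝓝 z] fun z => W z * fderiv ℝ U z v := by
      filter_upwards [hB.mem_nhds hzB] with ζ hζ
      exact indicator_of_mem hζ _
    have hd1 : DifferentiableAt ℝ W z :=
      (hw.contDiffAt (h.opn.mem_nhds (hBΩ hzB))).differentiableAt (by simp)
    have hd2 : DifferentiableAt ℝ (fun z => fderiv ℝ U z v) z :=
      ((hUd v).contDiffAt (h.opn.mem_nhds (hBΩ hzB))).differentiableAt (by simp)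
    rw [h1.fderiv_eq, fderiv_fun_mul hd1 hd2]
    simp
  have e2 : ∫ z in B, (g (pr z) - lam * (u (pr z) * w (pr z))) * Real.exp (2 * φ z) =
      ∫ z in B, (fderiv ℝ (Q 1) z 1 + fderiv ℝ (Q Complex.I) z Complex.I) := by
    apply setIntegral_congr_fun hB.measurableSet
    intro z hzB
    simp only
    rw [hQd 1 z hzB, hQd Complex.I z hzB, hg z (hBΩ hzB)]
    have hh := he z (hBΩ hzB)
    unfold Pool.Agent.Y262.EL.lap px py at hh
    unfold px py
    have hE : Real.exp (-2 * φ z) * Real.exp (2 * φ z) = 1 := by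
      rw [← Real.exp_add]; simp
    have hUz : u (pr z) = U z := rfl
    have hWz : w (pr z) = W z := rfl
    rw [hUz] at hh
    rw [hUz, hWz]
    generalize Real.exp (-2 * φ z) = E at *
    generalize Real.exp (2 * φ z) = E' at *
    linear_combination (fderiv ℝ U z 1 * fderiv ℝ W z 1 +
      fderiv ℝ U z Complex.I * fderiv ℝ W z Complex.I) * hE + E' * W z * hh +
      (fderiv ℝ (fun z => fderiv ℝ U z 1) z 1 +
        fderiv ℝ (fun z => fderiv ℝ U z Complex.I) z Complex.I) * W z * hE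
  have hz0 : ∀ v, ∀ z, z ∉ B → fderiv ℝ (Q v) z v = 0 := by
    intro v z hzB
    have h1 : z ∉ tsupport (Q v) := fun hzt => hzB (hKB (hQt v hzt))
    have h2 : Q v =ᶠ[𝓝 z] 0 := notMem_tsupport_iff_eventuallyEq.1 h1
    rw [h2.fderiv_eq]
    simp
  rw [e2, setIntegral_eq_integral_of_forall_compl_eq_zero (fun z hzB => by
    rw [hz0 1 z hzB, hz0 Complex.I z hzB, add_zero])]
  rw [integral_add (pf_gr_int0 (hQs 1) (hQc 1) 1).1 (pf_gr_int0 (hQs _) (hQc _) Complex.I).1,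
    (pf_gr_int0 (hQs 1) (hQc 1) 1).2, (pf_gr_int0 (hQs _) (hQc _) Complex.I).2, add_zero]

end pf_gr_aux

/- Green identity -/
theorem pf_gr (hC : Pool.Agent.Y262.EL.StCVM) : SGreen := by
  classical
  intro M P _ _ _ _ _ _ Ω φ pr q μ h hμ lam u v hu hv he g hg
  obtain ⟨hcv, hfin, -, -⟩ := hC M P Ω φ pr q μ h hμ
  obtain ⟨s, c, r, w, hr, hw, hw0, hw1⟩ := pf_gr_pou h
  have hex : ∀ x : M, ∃ z : ℂ, z ∈ Ω ∧ pr z = x := by
    intro x
    have : x ∈ pr '' Ω := by rw [h.surjp]; trivial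
    obtain ⟨z, hz, hx⟩ := this
    exact ⟨z, hz, hx⟩
  choose a haΩ hax using hex
  -- continuity
  have huc : Continuous u := pf_gr_cont h u hu.continuousOn
  have hvc : Continuous v := pf_gr_cont h v hv.continuousOn
  have hbi : ∀ (w' : M → ℝ), ContDiffOn ℝ ∞ (fun z => w' (pr z)) Ω →
      ∀ g' : M → ℝ, (∀ z ∈ Ω, g' (pr z) = Real.exp (-2 * φ z) *
      (Pool.Agent.Y262.EG.px (fun z => u (pr z)) z * Pool.Agent.Y262.EG.px (fun z => w' (pr z)) z +
        Pool.Agent.Y262.EG.py (fun z => u (pr z)) z *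
          Pool.Agent.Y262.EG.py (fun z => w' (pr z)) z)) → Continuous g' := by
    intro w' hw' g' hg'
    apply pf_gr_cont h
    have hUd : ∀ v : ℂ, ContDiffOn ℝ ∞ (fun z => fderiv ℝ (fun z => u (pr z)) z v) Ω := fun v =>
      (hu.fderiv_of_isOpen h.opn (by simp)).clm_apply contDiffOn_const
    have hWd : ∀ v : ℂ, ContDiffOn ℝ ∞ (fun z => fderiv ℝ (fun z => w' (pr z)) z v) Ω := fun v =>
      (hw'.fderiv_of_isOpen h.opn (by simp)).clm_apply contDiffOn_const
    have hE : ContinuousOn (fun z => Real.exp (-2 * φ z)) Ω :=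
      Real.continuous_exp.comp_continuousOn (continuousOn_const.mul h.smooth.continuousOn)
    refine ContinuousOn.congr (f := fun z => Real.exp (-2 * φ z) *
      (fderiv ℝ (fun z => u (pr z)) z 1 * fderiv ℝ (fun z => w' (pr z)) z 1 +
        fderiv ℝ (fun z => u (pr z)) z Complex.I * fderiv ℝ (fun z => w' (pr z)) z Complex.I)) ?_ ?_
    · exact hE.mul (((hUd 1).continuousOn.mul (hWd 1).continuousOn).add
        ((hUd _).continuousOn.mul (hWd _).continuousOn))
    · intro z hz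
      exact hg' z hz
  have hdu : ∀ (w' : M → ℝ), ContDiffOn ℝ ∞ (fun z => w' (pr z)) Ω → ∀ z ∈ Ω,
      DifferentiableAt ℝ (fun z => w' (pr z)) z := by
    intro w' hw' z hz
    exact (hw'.contDiffAt (h.opn.mem_nhds hz)).differentiableAt (by simp)
  -- the pieces
  set W : M → M → ℝ := fun i x => v x * w i x with hW
  have hWs : ∀ i, ContDiffOn ℝ ∞ (fun z => W i (pr z)) Ω := fun i => hv.mul (hw i)
  set G : M → M → ℝ := fun i x => Real.exp (-2 * φ (a x)) *
      (Pool.Agent.Y262.EG.px (fun z => u (pr z)) (a x) *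
        Pool.Agent.Y262.EG.px (fun z => W i (pr z)) (a x) +
        Pool.Agent.Y262.EG.py (fun z => u (pr z)) (a x) *
          Pool.Agent.Y262.EG.py (fun z => W i (pr z)) (a x)) with hG
  have hGs : ∀ i, ∀ z ∈ Ω, G i (pr z) = Real.exp (-2 * φ z) *
      (Pool.Agent.Y262.EG.px (fun z => u (pr z)) z *
        Pool.Agent.Y262.EG.px (fun z => W i (pr z)) z +
        Pool.Agent.Y262.EG.py (fun z => u (pr z)) z *
          Pool.Agent.Y262.EG.py (fun z => W i (pr z)) z) := by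
    intro i z hz
    obtain ⟨θ', hGe⟩ := h.deck (a (pr z)) (haΩ _) z hz (hax _) 0
    exact pf_gr_inv hGe u (W i) (hdu u hu z hz) (hdu _ (hWs i) z hz)
  have hGc : ∀ i, Continuous (G i) := fun i => hbi _ (hWs i) _ (hGs i)
  have hWc : ∀ i, Continuous (W i) := fun i => pf_gr_cont h _ (hWs i).continuousOn
  have hloc : ∀ i, ∫ x, (G i x - lam * (u x * W i x)) ∂μ = 0 := by
    intro i
    obtain ⟨hri, hriΩ, hinj⟩ := hr i
    have hcvi := hcv (Metric.ball (c i) (r i)) Metric.isOpen_ball.measurableSet hriΩ hinj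
    refine pf_gr_loc h Metric.isOpen_ball hriΩ hinj (isCompact_closedBall (c i) (r i / 2))
      (Metric.closedBall_subset_ball (by linarith)) μ ⟨hcvi.1, hcvi.2.2⟩ lam u (W i) (G i) hu (hWs i)
      he (hGs i) (hGc i) huc (hWc i) ?_
    intro x hx
    simp only [hW]
    rw [hw0 i x hx, mul_zero]
  -- summation
  have hint : ∀ f : M → ℝ, Continuous f → Integrable f μ := fun f hf =>
    hf.integrable_of_hasCompactSupport (HasCompactSupport.of_compactSpace _)
  have hgc : Continuous g := hbi v hv g hg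
  have hsum : ∀ x, g x - lam * (u x * v x) = ∑ i ∈ s, (G i x - lam * (u x * W i x)) := by
    intro x
    have hx : x = pr (a x) := (hax x).symm
    have h1 : v x = ∑ i ∈ s, W i x := by
      simp only [hW]
      rw [← Finset.mul_sum, hw1 x, mul_one]
    have h2 : g x = ∑ i ∈ s, G i x := by
      have h3 : (fun z => v (pr z)) = fun z => ∑ i ∈ s, W i (pr z) := by
        funext z
        simp only [hW]
        rw [← Finset.mul_sum, hw1, mul_one]
      rw [hx, hg (a x) (haΩ x)]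
      simp only [hG]
      rw [← hx, h3]
      unfold Pool.Agent.Y262.EG.px Pool.Agent.Y262.EG.py
      rw [fderiv_fun_sum (fun i _ => hdu _ (hWs i) (a x) (haΩ x))]
      simp only [_root_.sum_apply]
      rw [Finset.mul_sum, Finset.mul_sum, ← Finset.sum_add_distrib, Finset.mul_sum]
    rw [h2, h1, Finset.sum_sub_distrib, Finset.mul_sum, Finset.mul_sum]
  have h4 : ∫ x, (g x - lam * (u x * v x)) ∂μ = 0 := by
    simp only [hsum]
    have hI : ∀ i ∈ s, Integrable (fun x => G i x - lam * (u x * W i x)) μ := fun i _ =>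
      hint _ ((hGc i).sub (continuous_const.mul (huc.mul (hWc i))))
    rw [integral_finsetSum s hI]
    exact Finset.sum_eq_zero fun i _ => hloc i
  have hI2 : Integrable (fun x => lam * (u x * v x)) μ :=
    hint _ (continuous_const.mul (huc.mul hvc))
  rw [integral_sub (hint _ hgc) hI2, integral_const_mul] at h4
  linarith

end Pool.Agent.H852PC
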