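/- JOB of helper852 (MP_7a2702_mp, Poisson pair correlation fails for an arithmetic surface).
  Get the imported files (on origin/main, light imports):
  cd /workdir/pool && git -C outputs/live fetch -q && mkdir -p Pool/Agent/H852PC && for f in Defs Alg StmB; do
  git -C outputs/live show origin/main:Pool/Agent/H852PC/$f.lean > Pool/Agent/H852PC/$f.lean; done; lake build Pool.Agent.H852PC.StmB
  All definitions (O, nrd, trd, rho, mat, th7, th17, UU, La, Ga, gl, Gs, TT, ...) and the statements S... are in these files: read
  them first. Prove the TARGET exactly as stated (hypotheses S... are proved in other jobs), return the whole file in result;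
  auxiliary lemmas before it are welcome (give them names beginning with the theorem name). If the statement is false as written
  or a hypothesis is missing, tell me in note. Do not use the words macro, notation, syntax, prefix, tactic, partial, meta
  outside comments, and no straight double quote. -/
import Pool.Agent.H852PC.StmB

set_option autoImplicit false

open scoped MatrixGroups UpperHalfPlane ContDiff Topology
open MeasureTheory UpperHalfPlane Filter

noncomputable section

namespace Pool.Agent.H852PC

/- PLAIN PROOF. relIndex = index of Ga.subgroupOf La. The set HQ 7 × HQ 17 is finite (equivalent to (ZMod 7)^4 × (ZMod 17)^4). For g in La choose x with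
nrd x = 1, g.1 = rho x; if g = rho x, h = rho y in La have (th7 x, th17 x) = (th7 y, th17 y) then g⁻¹ h = rho (star x * y) (rho_star,
coe_inv) with th7 (star x * y) = star (th7 x) * th7 x = nrd = 1 (th7_star, star_mul_eq), so UU 7, UU 17 (UU.one) and g⁻¹ h in Ga.
So the quotient La / Ga injects into a finite set, the index is not 0. -/
theorem pf_ix : SIdx := by
  classical
  have hx : ∀ g : La, ∃ x : O, nrd x = 1 ∧ g.1.1 = rho x := fun g => g.2
  choose f hf1 hf2 using hx
  have key : ∀ g h : La, (th7 (f g), th17 (f g)) = (th7 (f h), th17 (f h)) →
      g⁻¹ * h ∈ Ga.subgroupOf La := by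
    intro g h e
    have e7 : th7 (f g) = th7 (f h) := congrArg Prod.fst e
    have e17 : th17 (f g) = th17 (f h) := congrArg Prod.snd e
    rw [Subgroup.mem_subgroupOf]
    refine ⟨star (f g) * f h, ?_, ?_, ?_, ?_⟩
    · rw [nrd_mul, nrd_star, hf1, hf1, one_mul]
    · have h1 : th7 (star (f g) * f h) = 1 := by
        rw [map_mul, ← e7, ← map_mul, star_mul_eq, hf1, Int.cast_one, map_one]
      rw [h1]
      exact UU.one 7
    · have h1 : th17 (star (f g) * f h) = 1 := by
        rw [map_mul, ← e17, ← map_mul, star_mul_eq, hf1, Int.cast_one, map_one]
      rw [h1]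
      exact UU.one 17
    · rw [map_mul, rho_star, Subgroup.coe_mul, Subgroup.coe_inv,
        Matrix.SpecialLinearGroup.coe_mul, Matrix.SpecialLinearGroup.coe_inv, ← hf2, ← hf2]
  have f7 : Finite (HQ 7) := Finite.of_equiv _ (QuaternionAlgebra.equivProd (-1 : ZMod 7) 0 (-1)).symm
  have f17 : Finite (HQ 17) :=
    Finite.of_equiv _ (QuaternionAlgebra.equivProd (-1 : ZMod 17) 0 (-1)).symm
  have hfin : Finite (La ⧸ Ga.subgroupOf La) := by
    refine Finite.of_injective (fun q : La ⧸ Ga.subgroupOf La =>
      (th7 (f q.out), th17 (f q.out))) ?_
    intro q q' h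
    have h1 := key _ _ h
    rw [← QuotientGroup.out_eq' q, ← QuotientGroup.out_eq' q']
    exact QuotientGroup.eq.2 h1
  exact Subgroup.index_ne_zero_of_finite

end Pool.Agent.H852PC
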