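import Pool.Agent.H852PC.StmB

set_option autoImplicit false

open scoped MatrixGroups UpperHalfPlane ContDiff Topology
open MeasureTheory UpperHalfPlane Filter

noncomputable section

namespace Pool.Agent.H852PC

theorem pf_la_lin (L : ℂ →L[ℝ] ℝ) (v : ℂ) : L v = v.re * L 1 + v.im * L Complex.I := by
  conv_lhs => rw [← Complex.re_add_im v]
  rw [map_add]
  have e1 : L ((v.re : ℂ)) = v.re * L 1 := by
    have : ((v.re : ℂ)) = v.re • (1 : ℂ) := by simp
    rw [this, map_smul, smul_eq_mul]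
  have e2 : L ((v.im : ℂ) * Complex.I) = v.im * L Complex.I := by
    have : ((v.im : ℂ)) * Complex.I = v.im • Complex.I := by simp
    rw [this, map_smul, smul_eq_mul]
  rw [e1, e2]

/-- chain rule along a holomorphic map -/
theorem pf_la_chain (F : ℂ → ℝ) (m : ℂ → ℂ) (d : ℂ) (z : ℂ) (hm : HasDerivAt m d z)
    (hF : DifferentiableAt ℝ F (m z)) : DifferentiableAt ℝ (F ∘ m) z ∧
      dx (F ∘ m) z = d.re * dx F (m z) + d.im * dy F (m z) ∧
      dy (F ∘ m) z = -d.im * dx F (m z) + d.re * dy F (m z) := by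
  have hd := hm.hasFDerivAt.restrictScalars ℝ
  have h2 := hF.hasFDerivAt.comp z hd
  refine ⟨h2.differentiableAt, ?_, ?_⟩
  · unfold dx dy
    rw [h2.fderiv, ContinuousLinearMap.comp_apply, pf_la_lin]
    simp
  · unfold dx dy
    rw [h2.fderiv, ContinuousLinearMap.comp_apply, pf_la_lin]
    simp

theorem pf_la_comp (F : ℂ → ℝ) (m m' : ℂ → ℂ) (z c : ℂ)
    (hm : ∀ᶠ w in 𝓝 z, HasDerivAt m (m' w) w) (hm' : HasDerivAt m' c z)
    (hF : ∀ᶠ w in 𝓝 (m z), DifferentiableAt ℝ F w) (hFx : DifferentiableAt ℝ (dx F) (m z))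
    (hFy : DifferentiableAt ℝ (dy F) (m z)) :
    dx (dx (F ∘ m)) z + dy (dy (F ∘ m)) z =
      Complex.normSq (m' z) * (dx (dx F) (m z) + dy (dy F) (m z)) := by
  have hmz : HasDerivAt m (m' z) z := hm.self_of_nhds
  have hev : ∀ᶠ w in 𝓝 z, DifferentiableAt ℝ F (m w) := hmz.continuousAt.eventually hF
  have hX : dx (F ∘ m) =ᶠ[𝓝 z] fun w => (m' w).re * dx F (m w) + (m' w).im * dy F (m w) := by
    filter_upwards [hm, hev] with w h1 h2
    exact (pf_la_chain F m _ w h1 h2).2.1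
  have hY : dy (F ∘ m) =ᶠ[𝓝 z] fun w => -(m' w).im * dx F (m w) + (m' w).re * dy F (m w) := by
    filter_upwards [hm, hev] with w h1 h2
    exact (pf_la_chain F m _ w h1 h2).2.2
  obtain ⟨dX, x1, x2⟩ := pf_la_chain (dx F) m _ z hmz hFx
  obtain ⟨dY, y1, y2⟩ := pf_la_chain (dy F) m _ z hmz hFy
  have hd := hm'.hasFDerivAt.restrictScalars ℝ
  have hre : HasFDerivAt (fun w => (m' w).re)
      (Complex.reCLM.comp (ContinuousLinearMap.restrictScalars ℝ
        (ContinuousLinearMap.toSpanSingleton ℂ c))) z := Complex.reCLM.hasFDerivAt.comp z hd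
  have him : HasFDerivAt (fun w => (m' w).im)
      (Complex.imCLM.comp (ContinuousLinearMap.restrictScalars ℝ
        (ContinuousLinearMap.toSpanSingleton ℂ c))) z := Complex.imCLM.hasFDerivAt.comp z hd
  have hXX := (hre.mul dX.hasFDerivAt).add (him.mul dY.hasFDerivAt)
  have hYY := (him.neg.mul dX.hasFDerivAt).add (hre.mul dY.hasFDerivAt)
  have e1 : dx (dx (F ∘ m)) z = (m' z).re * dx (dx F ∘ m) z + c.re * dx F (m z) +
      ((m' z).im * dx (dy F ∘ m) z + c.im * dy F (m z)) := by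
    have e : fderiv ℝ (dx (F ∘ m)) z = _ := hX.fderiv_eq.trans hXX.fderiv
    change fderiv ℝ (dx (F ∘ m)) z 1 = (m' z).re * (fderiv ℝ (dx F ∘ m) z 1) + c.re * dx F (m z) +
      ((m' z).im * (fderiv ℝ (dy F ∘ m) z 1) + c.im * dy F (m z))
    rw [e]
    simp
    ring
  have e2 : dy (dy (F ∘ m)) z = -(m' z).im * dy (dx F ∘ m) z - c.re * dx F (m z) +
      ((m' z).re * dy (dy F ∘ m) z - c.im * dy F (m z)) := by
    have e : fderiv ℝ (dy (F ∘ m)) z = _ := hY.fderiv_eq.trans hYY.fderiv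
    change fderiv ℝ (dy (F ∘ m)) z Complex.I = -(m' z).im * (fderiv ℝ (dx F ∘ m) z Complex.I) -
      c.re * dx F (m z) +
      ((m' z).re * (fderiv ℝ (dy F ∘ m) z Complex.I) - c.im * dy F (m z))
    rw [e]
    simp
    ring
  rw [e1, e2, x1, x2, y1, y2, Complex.normSq_apply]
  ring

theorem pf_la_pos (h : SL(2, ℝ)) : 0 < (h : GL (Fin 2) ℝ).val.det := by
  simp

theorem pf_la : SLap := by
  intro g f hf
  set m : ℂ → ℂ := fun z => ((g • ofComplex z : ℍ) : ℂ) with hmdef
  set F : ℂ → ℝ := f ∘ ofComplex with hFdef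
  have hcomp : ((fun w : ℍ => f (g • w)) ∘ ofComplex) = F ∘ m := by
    funext z
    simp only [hFdef, hmdef, Function.comp, ofComplex_apply]
  have han : ∀ w : ℍ, AnalyticAt ℂ m w := fun w => analyticAt_smul (pf_la_pos g) w
  have hder : ∀ w : ℍ, HasDerivAt m (1 / denom g w ^ 2) w := by
    intro w
    have h1 : HasDerivAt m (((g : GL (Fin 2) ℝ).val.det : ℂ) / denom g w ^ 2) w :=
      (hasStrictDerivAt_smul (pf_la_pos g) w).hasDerivAt
    refine h1.congr_deriv ?_
    simp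
  have hU : IsOpen {z : ℂ | 0 < z.im} := isOpen_lt continuous_const Complex.continuous_im
  have hm0 : ∀ w : ℍ, m (w : ℂ) = ((g • w : ℍ) : ℂ) := by
    intro w
    simp [hmdef, ofComplex_apply]
  have hFat : ∀ w : ℍ, ContDiffAt ℝ ∞ F (w : ℂ) := fun w =>
    hf.contDiffAt (hU.mem_nhds w.im_pos)
  constructor
  · unfold Sm
    rw [hcomp]
    intro z hz
    refine ContDiffAt.contDiffWithinAt ?_
    have hz' : ((⟨z, hz⟩ : ℍ) : ℂ) = z := rfl
    have h1 : ContDiffAt ℝ ∞ m z := ((han ⟨z, hz⟩).contDiffAt (n := ∞)).restrict_scalars ℝ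
    have h2 : ContDiffAt ℝ ∞ F (m z) := by
      rw [← hz', hm0]
      exact hFat _
    exact h2.comp z h1
  · intro z
    unfold lap
    rw [hcomp]
    have hF' : ContDiffAt ℝ ∞ F (m (z : ℂ)) := by
      rw [hm0]
      exact hFat _
    have hF2 : ContDiffAt ℝ 2 F (m (z : ℂ)) := hF'.of_le (by
      exact WithTop.coe_le_coe.2 le_top)
    have hfd : DifferentiableAt ℝ (fderiv ℝ F) (m (z : ℂ)) :=
      (hF2.fderiv_right (m := 1) (by norm_num)).differentiableAt (by norm_num)
    have hev : ∀ᶠ w in 𝓝 (m (z : ℂ)), DifferentiableAt ℝ F w := by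
      filter_upwards [hF2.eventually (by simp)] with w hw
      exact hw.differentiableAt (by norm_num)
    have hm1 : ∀ᶠ w in 𝓝 (z : ℂ), HasDerivAt m (deriv m w) w := by
      filter_upwards [(han z).eventually_analyticAt] with w hw
      exact hw.differentiableAt.hasDerivAt
    have key := pf_la_comp F m (deriv m) (z : ℂ) (deriv (deriv m) z) hm1
      (han z).deriv.differentiableAt.hasDerivAt hev
      (hfd.clm_apply (differentiableAt_const _)) (hfd.clm_apply (differentiableAt_const _))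
    rw [key, (hder z).deriv, hm0]
    have h3 := UpperHalfPlane.im_smul_eq_div_normSq (g : GL (Fin 2) ℝ) z
    have h4 : ((g : GL (Fin 2) ℝ) • z : ℍ) = g • z := rfl
    rw [h4] at h3
    have h5 : (g • z : ℍ).im ^ 2 = z.im ^ 2 * Complex.normSq (1 / denom g z ^ 2) := by
      rw [h3, map_div₀, map_pow, map_one]
      simp
      field_simp
    rw [h5]
    ring

end Pool.Agent.H852PC
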