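import Pool.Agent.H852PC.StmB

set_option autoImplicit false

open scoped MatrixGroups UpperHalfPlane ContDiff Topology
open MeasureTheory UpperHalfPlane Filter

noncomputable section

namespace Pool.Agent.H852PC

theorem pf_n17_mem (v : HQ 17) : v ∈ Ax 17 ↔
    (v.re = 0 ∧ v.imI = 1 ∧ v.imJ = 0 ∧ v.imK = 0) ∨ (v.re = 0 ∧ v.imI = -1 ∧ v.imJ = 0 ∧ v.imK = 0) ∨
    (v.re = 0 ∧ v.imI = 0 ∧ v.imJ = 1 ∧ v.imK = 0) ∨ (v.re = 0 ∧ v.imI = 0 ∧ v.imJ = -1 ∧ v.imK = 0) ∨
    (v.re = 0 ∧ v.imI = 0 ∧ v.imJ = 0 ∧ v.imK = 1) ∨ (v.re = 0 ∧ v.imI = 0 ∧ v.imJ = 0 ∧ v.imK = -1) := by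
  simp only [Ax, Set.mem_insert_iff, Set.mem_singleton_iff, QuaternionAlgebra.ext_iff]

theorem pf_n17_prod (α β : HQ 17) (hα : α ∈ Ax 17) (hβ : β ∈ Ax 17) :
    α * β ∈ Ax 17 ∨ α * β = 1 ∨ α * β = -1 := by
  rw [pf_n17_mem] at hα hβ
  rw [pf_n17_mem, QuaternionAlgebra.ext_iff, QuaternionAlgebra.ext_iff]
  obtain ⟨a0, a1, a2, a3⟩ := α
  obtain ⟨b0, b1, b2, b3⟩ := β
  simp only at hα hβ
  rcases hα with ⟨rfl, rfl, rfl, rfl⟩ | ⟨rfl, rfl, rfl, rfl⟩ | ⟨rfl, rfl, rfl, rfl⟩ | ⟨rfl, rfl, rfl, rfl⟩ |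
    ⟨rfl, rfl, rfl, rfl⟩ | ⟨rfl, rfl, rfl, rfl⟩ <;>
  rcases hβ with ⟨rfl, rfl, rfl, rfl⟩ | ⟨rfl, rfl, rfl, rfl⟩ | ⟨rfl, rfl, rfl, rfl⟩ | ⟨rfl, rfl, rfl, rfl⟩ |
    ⟨rfl, rfl, rfl, rfl⟩ | ⟨rfl, rfl, rfl, rfl⟩ <;>
  simp

theorem pf_n17_perm (α β γ δ : HQ 17) (hα : α ∈ Ax 17) (hβ : β ∈ Ax 17)
    (hγ : γ = α.imI • α + α.imJ • β + α.imK • (α * β)) (hδ : δ = β.imI • α + β.imJ • β + β.imK • (α * β)) :
    (γ.imJ = 0 ∧ γ.imK = 0 ∧ δ.imK = 0) ∨ γ.imJ ≠ δ.imI ∨ γ.re ≠ 0 := by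
  rw [pf_n17_mem] at hα hβ
  obtain ⟨a0, a1, a2, a3⟩ := α
  obtain ⟨b0, b1, b2, b3⟩ := β
  simp only at hα hβ
  subst hγ hδ
  rcases hα with ⟨rfl, rfl, rfl, rfl⟩ | ⟨rfl, rfl, rfl, rfl⟩ | ⟨rfl, rfl, rfl, rfl⟩ | ⟨rfl, rfl, rfl, rfl⟩ |
    ⟨rfl, rfl, rfl, rfl⟩ | ⟨rfl, rfl, rfl, rfl⟩ <;>
  rcases hβ with ⟨rfl, rfl, rfl, rfl⟩ | ⟨rfl, rfl, rfl, rfl⟩ | ⟨rfl, rfl, rfl, rfl⟩ | ⟨rfl, rfl, rfl, rfl⟩ |
    ⟨rfl, rfl, rfl, rfl⟩ | ⟨rfl, rfl, rfl, rfl⟩ <;>
  simp <;> decide

/-- the unit quaternions -/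
def pf_n17_I : HQ 17 := ⟨0, 1, 0, 0⟩
def pf_n17_J : HQ 17 := ⟨0, 0, 1, 0⟩
def pf_n17_K : HQ 17 := ⟨0, 0, 0, 1⟩

theorem pf_n17_IJ : pf_n17_I * pf_n17_J = pf_n17_K := by
  ext <;> simp [pf_n17_I, pf_n17_J, pf_n17_K]

theorem pf_n17_KI : pf_n17_K * pf_n17_I = pf_n17_J := by
  ext <;> simp [pf_n17_I, pf_n17_J, pf_n17_K]

theorem pf_n17_II : pf_n17_I * pf_n17_I = -1 := by
  ext <;> simp [pf_n17_I]

theorem pf_n17_JJ : pf_n17_J * pf_n17_J = -1 := by
  ext <;> simp [pf_n17_J]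

theorem pf_n17_KK : pf_n17_K * pf_n17_K = -1 := by
  ext <;> simp [pf_n17_K]

theorem pf_n17_Imem : pf_n17_I ∈ Ax 17 := by rw [pf_n17_mem]; simp [pf_n17_I]
theorem pf_n17_Jmem : pf_n17_J ∈ Ax 17 := by rw [pf_n17_mem]; simp [pf_n17_J]
theorem pf_n17_Kmem : pf_n17_K ∈ Ax 17 := by rw [pf_n17_mem]; simp [pf_n17_K]

/-- conjugation is linear on the pure quaternions -/
theorem pf_n17_lin (w γ : HQ 17) (h : γ.re = 0) :
    w * γ * star w = γ.imI • (w * pf_n17_I * star w) + γ.imJ • (w * pf_n17_J * star w) +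
      γ.imK • (w * pf_n17_K * star w) := by
  have e : γ = γ.imI • pf_n17_I + γ.imJ • pf_n17_J + γ.imK • pf_n17_K := by
    ext <;> simp [pf_n17_I, pf_n17_J, pf_n17_K, h]
  conv_lhs => rw [e]
  simp only [mul_add, add_mul, mul_smul_comm, smul_mul_assoc]

theorem pf_n17_re (v : HQ 17) (h : v ∈ Ax 17) : v.re = 0 := by
  rw [pf_n17_mem] at h
  rcases h with h | h | h | h | h | h <;> exact h.1

theorem pf_n17_ne1 : ¬ (1 : ZMod 17) = -1 := by decide

theorem pf_n17_ne4 : (4 : ZMod 17) ≠ 0 := by decide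

theorem pf_n17_neg : ∀ a : ZMod 17, a = -a → a = 0 := by decide

/-- an element which is the square of an element of `UU` and squares to `-1` is an axis -/
theorem pf_n17_axis (w : HQ 17) (hw : UU 17 w) (hw1 : w * star w = 1) (h2 : (w * w) * (w * w) = -1) :
    w * w ∈ Ax 17 := by
  have : Fact (Nat.Prime 17) := ⟨by norm_num⟩
  have hw2 : star w * w = 1 := by rw [star_comm_self' w, hw1]
  set v := w * w with hv
  have hvs : v * star v = 1 := by
    rw [hv, star_mul]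
    calc w * w * (star w * star w) = w * (w * star w) * star w := by noncomm_ring
      _ = 1 := by rw [hw1, mul_one, hw1]
  have hvs' : star v * v = 1 := by rw [star_comm_self' v, hvs]
  have hneg : star v = -v := by
    have h3 : v * (v + star v) = 0 := by rw [mul_add, h2, hvs]; simp
    have h4 : v + star v = 0 := by
      calc v + star v = star v * v * (v + star v) := by rw [hvs', one_mul]
        _ = 0 := by rw [mul_assoc, h3, mul_zero]
    exact (neg_eq_of_add_eq_zero_right h4).symm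
  have hre : v.re = 0 := by
    have := congrArg QuaternionAlgebra.re hneg
    simp at this
    exact pf_n17_neg _ this
  -- the two images
  set α := w * pf_n17_I * star w with hα
  set β := w * pf_n17_J * star w with hβ
  have hαm : α ∈ Ax 17 := hw.1 _ pf_n17_Imem
  have hβm : β ∈ Ax 17 := hw.1 _ pf_n17_Jmem
  have hαβ : w * pf_n17_K * star w = α * β := by
    rw [hα, hβ, ← pf_n17_IJ]
    calc w * (pf_n17_I * pf_n17_J) * star w = w * pf_n17_I * 1 * pf_n17_J * star w := by noncomm_ring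
      _ = w * pf_n17_I * (star w * w) * pf_n17_J * star w := by rw [hw2]
      _ = _ := by noncomm_ring
  have hγ : v * pf_n17_I * star v = α.imI • α + α.imJ • β + α.imK • (α * β) := by
    have e : v * pf_n17_I * star v = w * α * star w := by
      rw [hv, star_mul, hα]; noncomm_ring
    rw [e, pf_n17_lin w α (pf_n17_re _ hαm), hαβ]
  have hδ : v * pf_n17_J * star v = β.imI • α + β.imJ • β + β.imK • (α * β) := by
    have e : v * pf_n17_J * star v = w * β * star w := by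
      rw [hv, star_mul, hβ]; noncomm_ring
    rw [e, pf_n17_lin w β (pf_n17_re _ hβm), hαβ]
  have key := pf_n17_perm α β _ _ hαm hβm hγ hδ
  clear hγ hδ hαβ hαm hβm hα hβ
  clear_value α β v
  obtain ⟨x0, x, y, z⟩ := v
  simp only at hre
  subst hre
  simp [pf_n17_I, pf_n17_J] at key
  have h2' := congrArg QuaternionAlgebra.re h2
  simp at h2'
  have hk : x * y + y * x = 0 ∧ x * z + z * x = 0 ∧ y * z + z * y = 0 := by
    rcases key with h | h | h
    · exact h
    · exact (h (by ring)).elim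
    · exact (h (by ring)).elim
  obtain ⟨k1, k2, k3⟩ := hk
  have k1' : x * y = 0 := pf_n17_neg _ (by linear_combination k1)
  have k2' : x * z = 0 := pf_n17_neg _ (by linear_combination k2)
  have k3' : y * z = 0 := pf_n17_neg _ (by linear_combination k3)
  rw [pf_n17_mem]
  simp only
  have sq1 : ∀ a : ZMod 17, a * a = 1 → a = 1 ∨ a = -1 := by
    intro a ha
    have : (a - 1) * (a + 1) = 0 := by linear_combination ha
    rcases mul_eq_zero.1 this with h | h
    · left; linear_combination h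
    · right; linear_combination h
  rcases mul_eq_zero.1 k1' with hx | hy
  · subst hx
    rcases mul_eq_zero.1 k3' with hy | hz
    · subst hy
      rcases sq1 z (by linear_combination -h2') with h | h <;> subst h <;> simp
    · subst hz
      rcases sq1 y (by linear_combination -h2') with h | h <;> subst h <;> simp
  · subst hy
    rcases mul_eq_zero.1 k2' with hx | hz
    · subst hx
      rcases sq1 z (by linear_combination -h2') with h | h <;> subst h <;> simp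
    · subst hz
      rcases sq1 x (by linear_combination -h2') with h | h <;> subst h <;> simp

/-- main algebraic statement: `u I star u` is a multiple of an axis element -/
theorem pf_n17_step (N : ZMod 17) (hN : N ≠ 0) (u P L w : HQ 17) (hP : P * P = L) (hL : L * L = -1)
    (hu : u * star u = algebraMap (ZMod 17) (HQ 17) N) (hw : UU 17 w) (hw1 : w * star w = 1)
    (h : u * P * star u = N • w) : u * L * star u = N • (w * w) ∧ w * w ∈ Ax 17 := by
  have : Fact (Nat.Prime 17) := ⟨by norm_num⟩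
  have hu' : star u * u = algebraMap (ZMod 17) (HQ 17) N := by rw [star_comm_self' u, hu]
  have conj : ∀ X Y : HQ 17, (u * X * star u) * (u * Y * star u) = N • (u * (X * Y) * star u) := by
    intro X Y
    calc (u * X * star u) * (u * Y * star u) = u * X * (star u * u) * Y * star u := by noncomm_ring
      _ = N • (u * (X * Y) * star u) := by
        rw [hu', ← Algebra.commutes N (u * X), Algebra.algebraMap_eq_smul_one]
        simp only [smul_mul_assoc, one_mul, mul_assoc]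
  have h1 : N • (u * L * star u) = N • (N • (w * w)) := by
    rw [← hP, ← conj, h, smul_mul_smul_comm, smul_smul]
  have cancel : ∀ X Y : HQ 17, N • X = N • Y → X = Y := by
    intro X Y hXY
    have := congrArg (fun Z => N⁻¹ • Z) hXY
    simpa [smul_smul, inv_mul_cancel₀ hN] using this
  have h2 : u * L * star u = N • (w * w) := cancel _ _ h1
  refine ⟨h2, pf_n17_axis w hw hw1 ?_⟩
  apply cancel
  apply cancel
  have h3 := conj L L
  rw [h2, hL] at h3
  have h4 : u * -1 * star u = - algebraMap (ZMod 17) (HQ 17) N := by rw [← hu]; noncomm_ring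
  rw [h4] at h3
  rw [smul_mul_smul_comm, ← smul_smul] at h3
  rw [h3, Algebra.algebraMap_eq_smul_one]
  simp

theorem pf_n17_axneg (v : HQ 17) (h : v ∈ Ax 17) : -v ∈ Ax 17 := by
  rw [pf_n17_mem] at h ⊢
  simp only [QuaternionAlgebra.re_neg, QuaternionAlgebra.imI_neg, QuaternionAlgebra.imJ_neg,
    QuaternionAlgebra.imK_neg]
  rcases h with ⟨h0, h1, h2, h3⟩ | ⟨h0, h1, h2, h3⟩ | ⟨h0, h1, h2, h3⟩ | ⟨h0, h1, h2, h3⟩ |
    ⟨h0, h1, h2, h3⟩ | ⟨h0, h1, h2, h3⟩ <;> rw [h0, h1, h2, h3] <;> simp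

theorem pf_n17_cases (v : HQ 17) (h : v ∈ Ax 17) : v = pf_n17_I ∨ v = -pf_n17_I ∨ v = pf_n17_J ∨ v = -pf_n17_J ∨
    v = pf_n17_K ∨ v = -pf_n17_K := by
  rw [pf_n17_mem] at h
  simp only [QuaternionAlgebra.ext_iff, QuaternionAlgebra.re_neg, QuaternionAlgebra.imI_neg,
    QuaternionAlgebra.imJ_neg, QuaternionAlgebra.imK_neg, pf_n17_I, pf_n17_J, pf_n17_K, neg_zero]
  exact h

theorem pf_n17_J' (N : ZMod 17) (hN : N ≠ 0) (u E F : HQ 17)
    (hu : u * star u = algebraMap (ZMod 17) (HQ 17) N) (hE : E ∈ Ax 17) (hF : F ∈ Ax 17)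
    (h1 : u * pf_n17_I * star u = N • E) (h2 : u * pf_n17_K * star u = N • F) :
    u * pf_n17_J * star u = N • (F * E) ∧ F * E ∈ Ax 17 := by
  have : Fact (Nat.Prime 17) := ⟨by norm_num⟩
  have hu' : star u * u = algebraMap (ZMod 17) (HQ 17) N := by rw [star_comm_self' u, hu]
  have conj : ∀ X Y : HQ 17, (u * X * star u) * (u * Y * star u) = N • (u * (X * Y) * star u) := by
    intro X Y
    calc (u * X * star u) * (u * Y * star u) = u * X * (star u * u) * Y * star u := by noncomm_ring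
      _ = N • (u * (X * Y) * star u) := by
        rw [hu', ← Algebra.commutes N (u * X), Algebra.algebraMap_eq_smul_one]
        simp only [smul_mul_assoc, one_mul, mul_assoc]
  have cancel : ∀ X Y : HQ 17, N • X = N • Y → X = Y := by
    intro X Y hXY
    have := congrArg (fun Z => N⁻¹ • Z) hXY
    simpa [smul_smul, inv_mul_cancel₀ hN] using this
  have h3 : u * pf_n17_J * star u = N • (F * E) := by
    apply cancel
    rw [← pf_n17_KI, ← conj, h1, h2, smul_mul_smul_comm, smul_smul]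
  refine ⟨h3, ?_⟩
  have h4 := conj pf_n17_J pf_n17_J
  rw [pf_n17_JJ, h3, smul_mul_smul_comm] at h4
  have h5 : u * -1 * star u = - algebraMap (ZMod 17) (HQ 17) N := by rw [← hu]; noncomm_ring
  rw [h5] at h4
  have h6 : (F * E) * (F * E) = -1 := by
    apply cancel
    apply cancel
    rw [smul_smul, h4, Algebra.algebraMap_eq_smul_one]
    simp
  rcases pf_n17_prod F E hF hE with h | h | h
  · exact h
  · rw [h] at h6
    have := congrArg QuaternionAlgebra.re h6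
    simp at this
    exact absurd this pf_n17_ne1
  · rw [h] at h6
    have := congrArg QuaternionAlgebra.re h6
    simp at this
    exact absurd this pf_n17_ne1

theorem pf_n17_sq1 : ∀ E F : HQ 17, E ∈ Ax 17 → F ∈ Ax 17 →
    (∃ t : ZMod 17, t ^ 2 = 1 + E.imI + (F * E).imJ + F.imK) ∧
    (∃ t : ZMod 17, t ^ 2 = 1 + E.imI - (F * E).imJ - F.imK) ∧
    (∃ t : ZMod 17, t ^ 2 = 1 - E.imI + (F * E).imJ - F.imK) ∧
    (∃ t : ZMod 17, t ^ 2 = 1 - E.imI - (F * E).imJ + F.imK) := by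
  intro E F hE hF
  rw [pf_n17_mem] at hE hF
  obtain ⟨a0, a1, a2, a3⟩ := E
  obtain ⟨b0, b1, b2, b3⟩ := F
  simp only at hE hF
  simp only [QuaternionAlgebra.imJ_mul]
  rcases hE with ⟨rfl, rfl, rfl, rfl⟩ | ⟨rfl, rfl, rfl, rfl⟩ | ⟨rfl, rfl, rfl, rfl⟩ | ⟨rfl, rfl, rfl, rfl⟩ |
    ⟨rfl, rfl, rfl, rfl⟩ | ⟨rfl, rfl, rfl, rfl⟩ <;>
  rcases hF with ⟨rfl, rfl, rfl, rfl⟩ | ⟨rfl, rfl, rfl, rfl⟩ | ⟨rfl, rfl, rfl, rfl⟩ | ⟨rfl, rfl, rfl, rfl⟩ |
    ⟨rfl, rfl, rfl, rfl⟩ | ⟨rfl, rfl, rfl, rfl⟩ <;>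
  decide

theorem pf_n17_sq (N : ZMod 17) (hN : N ≠ 0) (u E F : HQ 17)
    (hu : u * star u = algebraMap (ZMod 17) (HQ 17) N) (hE : E ∈ Ax 17) (hF : F ∈ Ax 17)
    (h1 : u * pf_n17_I * star u = N • E) (h2 : u * pf_n17_K * star u = N • F)
    (h3 : u * pf_n17_J * star u = N • (F * E)) : ∃ s : ZMod 17, N = s ^ 2 := by
  have : Fact (Nat.Prime 17) := ⟨by norm_num⟩
  obtain ⟨⟨t0, c0⟩, ⟨t1, c1⟩, ⟨t2, c2⟩, ⟨t3, c3⟩⟩ := pf_n17_sq1 E F hE hF
  have e0 := congrArg QuaternionAlgebra.re hu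
  have e1 := congrArg QuaternionAlgebra.imI h1
  have e2 := congrArg QuaternionAlgebra.imK h2
  have e3 := congrArg QuaternionAlgebra.imJ h3
  rw [QuaternionAlgebra.imI_smul] at e1
  rw [QuaternionAlgebra.imK_smul] at e2
  rw [QuaternionAlgebra.imJ_smul] at e3
  generalize (F * E).imJ = r2 at *
  generalize E.imI = r1 at *
  generalize F.imK = r3 at *
  clear h1 h2 h3 hu
  obtain ⟨u0, u1, u2, u3⟩ := u
  simp [pf_n17_I, pf_n17_J, pf_n17_K] at e0 e1 e2 e3
  have fin : ∀ a t : ZMod 17, a ≠ 0 → N * t ^ 2 = 4 * a ^ 2 → ∃ s : ZMod 17, N = s ^ 2 := by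
    intro a t ha h
    have h4 : (4 : ZMod 17) ≠ 0 := pf_n17_ne4
    have ht : t ≠ 0 := by
      rintro rfl
      have : 4 * a ^ 2 = 0 := by rw [← h]; ring
      rcases mul_eq_zero.1 this with h | h
      · exact h4 h
      · exact ha (pow_eq_zero_iff two_ne_zero |>.1 h)
    refine ⟨2 * a / t, ?_⟩
    field_simp
    linear_combination h
  by_cases z0 : u0 = 0
  · by_cases z1 : u1 = 0
    · by_cases z2 : u2 = 0
      · by_cases z3 : u3 = 0
        · subst z0 z1 z2 z3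
          simp at e0
          exact (hN e0.symm).elim
        · exact fin u3 t3 z3 (by rw [c3]; linear_combination -e0 + e1 - e2 + e3)
      · exact fin u2 t2 z2 (by rw [c2]; linear_combination -e0 + e1 + e2 - e3)
    · exact fin u1 t1 z1 (by rw [c1]; linear_combination -e0 - e1 + e2 + e3)
  · exact fin u0 t0 z0 (by rw [c0]; linear_combination -e0 - e1 - e2 - e3)

theorem pf_n17_UU (u E F : HQ 17) (hu : u * star u = 1) (hE : E ∈ Ax 17) (hF : F ∈ Ax 17)
    (h1 : u * pf_n17_I * star u = E) (h2 : u * pf_n17_K * star u = F)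
    (h3 : u * pf_n17_J * star u = F * E) (h4 : F * E ∈ Ax 17) : UU 17 u := by
  have hu' : star u * u = 1 := by rw [star_comm_self' u, hu]
  have first : ∀ L ∈ Ax 17, u * L * star u ∈ Ax 17 := by
    intro L hL
    rcases pf_n17_cases L hL with rfl | rfl | rfl | rfl | rfl | rfl
    · rw [h1]; exact hE
    · have : u * -pf_n17_I * star u = -E := by rw [← h1]; noncomm_ring
      rw [this]; exact pf_n17_axneg _ hE
    · rw [h3]; exact h4
    · have : u * -pf_n17_J * star u = -(F * E) := by rw [← h3]; noncomm_ring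
      rw [this]; exact pf_n17_axneg _ h4
    · rw [h2]; exact hF
    · have : u * -pf_n17_K * star u = -F := by rw [← h2]; noncomm_ring
      rw [this]; exact pf_n17_axneg _ hF
  refine ⟨first, ?_⟩
  have hfin : Finite (Ax 17) := by
    have : (Ax 17).Finite := by unfold Ax; exact Set.toFinite _
    exact this
  let f : Ax 17 → Ax 17 := fun L => ⟨u * L.1 * star u, first _ L.2⟩
  have hf : Function.Injective f := by
    intro L L' h
    have h' : u * L.1 * star u = u * L'.1 * star u := congrArg Subtype.val h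
    apply Subtype.ext
    calc L.1 = (star u * u) * L.1 * (star u * u) := by rw [hu', one_mul, mul_one]
      _ = star u * (u * L.1 * star u) * u := by noncomm_ring
      _ = star u * (u * L'.1 * star u) * u := by rw [h']
      _ = (star u * u) * L'.1 * (star u * u) := by noncomm_ring
      _ = L'.1 := by rw [hu', one_mul, mul_one]
  have hs := Finite.injective_iff_surjective.1 hf
  intro L hL
  obtain ⟨L', hL'⟩ := hs ⟨L, hL⟩
  have h' : u * L'.1 * star u = L := congrArg Subtype.val hL'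
  have : star u * L * u = L'.1 := by
    rw [← h']
    calc star u * (u * L'.1 * star u) * u = (star u * u) * L'.1 * (star u * u) := by noncomm_ring
      _ = L'.1 := by rw [hu', one_mul, mul_one]
  rw [this]
  exact L'.2

def pf_n17_A : O := ⟨40, -52, -7, 14⟩
def pf_n17_B : O := ⟨79, 91, -72, 42⟩

theorem pf_n17_thA : th17 pf_n17_A = ⟨14, 14, 0, 0⟩ := by
  ext <;> simp [th17, pf_n17_A] <;> decide

theorem pf_n17_thB : th17 pf_n17_B = ⟨14, 0, 0, 14⟩ := by
  ext <;> simp [th17, pf_n17_B] <;> decide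

theorem pf_n17_A2 : th17 pf_n17_A * th17 pf_n17_A = pf_n17_I := by
  rw [pf_n17_thA]
  ext <;> simp [pf_n17_I] <;> decide

theorem pf_n17_B2 : th17 pf_n17_B * th17 pf_n17_B = pf_n17_K := by
  rw [pf_n17_thB]
  ext <;> simp [pf_n17_K] <;> decide

theorem pf_n17_th7A : th7 pf_n17_A = ⟨0, 6, 0, 0⟩ := by
  ext <;> simp [th7, pf_n17_A] <;> decide

theorem pf_n17_th7B : th7 pf_n17_B = ⟨2, 0, 5, 0⟩ := by
  ext <;> simp [th7, pf_n17_B] <;> decide

theorem pf_n17_inA : InG pf_n17_A := by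
  refine ⟨by simp [nrd, pf_n17_A], ?_, ?_⟩
  · rw [pf_n17_th7A]
    constructor
    · rintro L (rfl | rfl | rfl | rfl | rfl | rfl) <;>
        simp only [Ax, Set.mem_insert_iff, Set.mem_singleton_iff, QuaternionAlgebra.ext_iff] <;> simp <;> decide
    · rintro L (rfl | rfl | rfl | rfl | rfl | rfl) <;>
        simp only [Ax, Set.mem_insert_iff, Set.mem_singleton_iff, QuaternionAlgebra.ext_iff] <;> simp <;> decide
  · rw [pf_n17_thA]
    constructor
    · rintro L (rfl | rfl | rfl | rfl | rfl | rfl) <;>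
        simp only [Ax, Set.mem_insert_iff, Set.mem_singleton_iff, QuaternionAlgebra.ext_iff] <;> simp <;> decide
    · rintro L (rfl | rfl | rfl | rfl | rfl | rfl) <;>
        simp only [Ax, Set.mem_insert_iff, Set.mem_singleton_iff, QuaternionAlgebra.ext_iff] <;> simp <;> decide

theorem pf_n17_inB : InG pf_n17_B := by
  refine ⟨by simp [nrd, pf_n17_B], ?_, ?_⟩
  · rw [pf_n17_th7B]
    constructor
    · rintro L (rfl | rfl | rfl | rfl | rfl | rfl) <;>
        simp only [Ax, Set.mem_insert_iff, Set.mem_singleton_iff, QuaternionAlgebra.ext_iff] <;> simp <;> decide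
    · rintro L (rfl | rfl | rfl | rfl | rfl | rfl) <;>
        simp only [Ax, Set.mem_insert_iff, Set.mem_singleton_iff, QuaternionAlgebra.ext_iff] <;> simp <;> decide
  · rw [pf_n17_thB]
    constructor
    · rintro L (rfl | rfl | rfl | rfl | rfl | rfl) <;>
        simp only [Ax, Set.mem_insert_iff, Set.mem_singleton_iff, QuaternionAlgebra.ext_iff] <;> simp <;> decide
    · rintro L (rfl | rfl | rfl | rfl | rfl | rfl) <;>
        simp only [Ax, Set.mem_insert_iff, Set.mem_singleton_iff, QuaternionAlgebra.ext_iff] <;> simp <;> decide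

theorem pf_n17_ndvd : ∀ m : ℤ, 0 < m → m ∣ 65 → (m : ZMod 17) ≠ 0 := by
  intro m h0 h1 h2
  rw [ZMod.intCast_zmod_eq_zero_iff_dvd] at h2
  have : ((17 : ℕ) : ℤ) ∣ 65 := h2.trans h1
  norm_num at this

theorem pf_n17_use (b x : O) (hb : ∀ x : O, InG x → ∃ y : O, InG y ∧ b * x * star b = (nrd b : O) * y)
    (hx : InG x) : ∃ w : HQ 17, UU 17 w ∧ w * star w = 1 ∧
      th17 b * th17 x * star (th17 b) = (nrd b : ZMod 17) • w := by
  obtain ⟨y, hy, h⟩ := hb x hx
  refine ⟨th17 y, hy.2.2, ?_, ?_⟩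
  · rw [← th17_star, ← map_mul, mul_star_eq, hy.1]
    simp
  · rw [← th17_star, ← map_mul, ← map_mul, h, map_mul, map_intCast]
    ext <;> simp

theorem pf_n17 : SN17 := by
  intro b h0 h65 hb
  have hN := pf_n17_ndvd _ h0 h65
  have hu : th17 b * star (th17 b) = algebraMap (ZMod 17) (HQ 17) (nrd b : ZMod 17) := by
    rw [← th17_star, ← map_mul, mul_star_eq, map_intCast, map_intCast]
  obtain ⟨w, hw, hw1, hA⟩ := pf_n17_use b _ hb pf_n17_inA
  obtain ⟨w', hw', hw1', hB⟩ := pf_n17_use b _ hb pf_n17_inB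
  obtain ⟨h1, hE⟩ := pf_n17_step _ hN _ _ _ _ pf_n17_A2 pf_n17_II hu hw hw1 hA
  obtain ⟨h2, hF⟩ := pf_n17_step _ hN _ _ _ _ pf_n17_B2 pf_n17_KK hu hw' hw1' hB
  obtain ⟨h3, hG⟩ := pf_n17_J' _ hN _ _ _ hu hE hF h1 h2
  obtain ⟨s, hs⟩ := pf_n17_sq _ hN _ _ _ hu hE hF h1 h2 h3
  refine ⟨s, hs, fun h => ?_⟩
  rw [h] at hu h1 h2 h3
  simp only [Int.cast_one, one_smul, map_one] at hu h1 h2 h3
  exact pf_n17_UU _ _ _ hu hE hF h1 h2 h3 hG

end Pool.Agent.H852PC
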