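import Pool.Agent.H852PC.StmB

set_option autoImplicit false

open scoped MatrixGroups UpperHalfPlane ContDiff Topology
open MeasureTheory UpperHalfPlane Filter

noncomputable section

namespace Pool.Agent.H852PC

/-- the vector is `m` times an axis -/
def pf_n7_C (m x y z : ZMod 7) : Prop :=
  ((x = m ∨ x = -m) ∧ y = 0 ∧ z = 0) ∨ (x = 0 ∧ (y = m ∨ y = -m) ∧ z = 0) ∨
    (x = 0 ∧ y = 0 ∧ (z = m ∨ z = -m))

instance pf_n7_dec (m x y z : ZMod 7) : Decidable (pf_n7_C m x y z) := by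
  unfold pf_n7_C; infer_instance

/-- the three conjugates of the axes are multiples of axes -/
def pf_n7_D (m a b c d : ZMod 7) : Prop :=
  pf_n7_C m (a * a + b * b - c * c - d * d) (2 * (b * c + a * d)) (2 * (b * d - a * c)) ∧
  pf_n7_C m (2 * (b * c - a * d)) (a * a - b * b + c * c - d * d) (2 * (c * d + a * b)) ∧
  pf_n7_C m (2 * (b * d + a * c)) (2 * (c * d - a * b)) (a * a - b * b - c * c + d * d)

instance pf_n7_dec2 (m a b c d : ZMod 7) : Decidable (pf_n7_D m a b c d) := by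
  unfold pf_n7_D; infer_instance

set_option maxRecDepth 100000 in
theorem pf_n7_W : ∀ a b c d : ZMod 7, a * a + b * b + c * c + d * d = 1 →
    a * a - b * b - c * c - d * d = 0 → pf_n7_D 1 a b c d →
    pf_n7_C 1 (2 * (a * b)) (2 * (a * c)) (2 * (a * d)) := by
  decide +kernel

/-- the hypotheses on the element -/
def pf_n7_E (a b c d : ZMod 7) : Prop :=
  a * a + b * b + c * c + d * d ≠ 0 ∧
    pf_n7_C (a * a + b * b + c * c + d * d)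
      (2 * (b * c - a * d)) (a * a - b * b + c * c - d * d) (2 * (c * d + a * b)) ∧
    pf_n7_C (a * a + b * b + c * c + d * d)
      (2 * (b * d + a * c)) (2 * (c * d - a * b)) (a * a - b * b - c * c + d * d)

instance pf_n7_dec3 (a b c d : ZMod 7) : Decidable (pf_n7_E a b c d) := by
  unfold pf_n7_E; infer_instance

set_option maxRecDepth 100000 in
theorem pf_n7_U : ∀ a b c d : ZMod 7, pf_n7_E a b c d →
    a * a + b * b + c * c + d * d = 1 ∨ a * a + b * b + c * c + d * d = 2 ∨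
      a * a + b * b + c * c + d * d = 4 := by
  decide +kernel

set_option maxRecDepth 100000 in
theorem pf_n7_U1 : ∀ a b c d : ZMod 7, pf_n7_E a b c d → a * a + b * b + c * c + d * d = 1 →
      pf_n7_D 1 a b c d ∧ pf_n7_D 1 a (-b) (-c) (-d) := by
  decide +kernel

theorem pf_n7_mem (x : HQ 7) : x ∈ Ax 7 ↔ x.re = 0 ∧ pf_n7_C 1 x.imI x.imJ x.imK := by
  obtain ⟨r, i, j, k⟩ := x
  simp only [Ax, Set.mem_insert_iff, Set.mem_singleton_iff, QuaternionAlgebra.mk.injEq, pf_n7_C]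
  constructor
  · rintro (⟨h1, h2, h3, h4⟩ | ⟨h1, h2, h3, h4⟩ | ⟨h1, h2, h3, h4⟩ | ⟨h1, h2, h3, h4⟩ |
      ⟨h1, h2, h3, h4⟩ | ⟨h1, h2, h3, h4⟩)
    · exact ⟨h1, Or.inl ⟨Or.inl h2, h3, h4⟩⟩
    · exact ⟨h1, Or.inl ⟨Or.inr h2, h3, h4⟩⟩
    · exact ⟨h1, Or.inr (Or.inl ⟨h2, Or.inl h3, h4⟩)⟩
    · exact ⟨h1, Or.inr (Or.inl ⟨h2, Or.inr h3, h4⟩)⟩
    · exact ⟨h1, Or.inr (Or.inr ⟨h2, h3, Or.inl h4⟩)⟩
    · exact ⟨h1, Or.inr (Or.inr ⟨h2, h3, Or.inr h4⟩)⟩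
  · rintro ⟨h1, ⟨h2 | h2, h3, h4⟩ | ⟨h2, h3 | h3, h4⟩ | ⟨h2, h3, h4 | h4⟩⟩
    · exact Or.inl ⟨h1, h2, h3, h4⟩
    · exact Or.inr (Or.inl ⟨h1, h2, h3, h4⟩)
    · exact Or.inr (Or.inr (Or.inl ⟨h1, h2, h3, h4⟩))
    · exact Or.inr (Or.inr (Or.inr (Or.inl ⟨h1, h2, h3, h4⟩)))
    · exact Or.inr (Or.inr (Or.inr (Or.inr (Or.inl ⟨h1, h2, h3, h4⟩))))
    · exact Or.inr (Or.inr (Or.inr (Or.inr (Or.inr ⟨h1, h2, h3, h4⟩))))

theorem pf_n7_i (a b c d : ZMod 7) : (⟨a, b, c, d⟩ : HQ 7) * ⟨0, 1, 0, 0⟩ * star ⟨a, b, c, d⟩ =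
    ⟨0, a * a + b * b - c * c - d * d, 2 * (b * c + a * d), 2 * (b * d - a * c)⟩ := by
  ext <;> simp <;> ring

theorem pf_n7_j (a b c d : ZMod 7) : (⟨a, b, c, d⟩ : HQ 7) * ⟨0, 0, 1, 0⟩ * star ⟨a, b, c, d⟩ =
    ⟨0, 2 * (b * c - a * d), a * a - b * b + c * c - d * d, 2 * (c * d + a * b)⟩ := by
  ext <;> simp <;> ring

theorem pf_n7_k (a b c d : ZMod 7) : (⟨a, b, c, d⟩ : HQ 7) * ⟨0, 0, 0, 1⟩ * star ⟨a, b, c, d⟩ =
    ⟨0, 2 * (b * d + a * c), 2 * (c * d - a * b), a * a - b * b - c * c + d * d⟩ := by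
  ext <;> simp <;> ring

theorem pf_n7_norm (a b c d : ZMod 7) : (⟨a, b, c, d⟩ : HQ 7) * star ⟨a, b, c, d⟩ =
    ⟨a * a + b * b + c * c + d * d, 0, 0, 0⟩ := by
  ext <;> simp <;> ring

theorem pf_n7_P (a b c d : ZMod 7) : (⟨a, b, c, d⟩ : HQ 7) * ⟨2, 0, 5, 0⟩ * star ⟨a, b, c, d⟩ =
    ⟨2 * (a * a + b * b + c * c + d * d), 5 * (2 * (b * c - a * d)),
      5 * (a * a - b * b + c * c - d * d), 5 * (2 * (c * d + a * b))⟩ := by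
  ext <;> simp <;> ring

theorem pf_n7_Q (a b c d : ZMod 7) : (⟨a, b, c, d⟩ : HQ 7) * ⟨2, 0, 0, 5⟩ * star ⟨a, b, c, d⟩ =
    ⟨2 * (a * a + b * b + c * c + d * d), 5 * (2 * (b * d + a * c)),
      5 * (2 * (c * d - a * b)), 5 * (a * a - b * b - c * c + d * d)⟩ := by
  ext <;> simp <;> ring

theorem pf_n7_neg {q : ℕ} {x : HQ q} (h : x ∈ Ax q) : -x ∈ Ax q := by
  simp only [Ax, Set.mem_insert_iff, Set.mem_singleton_iff] at h ⊢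
  rcases h with rfl | rfl | rfl | rfl | rfl | rfl
  · right; left; ext <;> simp
  · left; ext <;> simp
  · right; right; right; left; ext <;> simp
  · right; right; left; ext <;> simp
  · right; right; right; right; right; ext <;> simp
  · right; right; right; right; left; ext <;> simp

theorem pf_n7_uu {q : ℕ} (u : HQ q) (h1 : u * ⟨0, 1, 0, 0⟩ * star u ∈ Ax q)
    (h2 : u * ⟨0, 0, 1, 0⟩ * star u ∈ Ax q) (h3 : u * ⟨0, 0, 0, 1⟩ * star u ∈ Ax q)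
    (h4 : star u * ⟨0, 1, 0, 0⟩ * u ∈ Ax q)
    (h5 : star u * ⟨0, 0, 1, 0⟩ * u ∈ Ax q) (h6 : star u * ⟨0, 0, 0, 1⟩ * u ∈ Ax q) : UU q u := by
  have e1 : (⟨0, -1, 0, 0⟩ : HQ q) = -⟨0, 1, 0, 0⟩ := by ext <;> simp
  have e2 : (⟨0, 0, -1, 0⟩ : HQ q) = -⟨0, 0, 1, 0⟩ := by ext <;> simp
  have e3 : (⟨0, 0, 0, -1⟩ : HQ q) = -⟨0, 0, 0, 1⟩ := by ext <;> simp
  refine ⟨fun L hL => ?_, fun L hL => ?_⟩
  · simp only [Ax, Set.mem_insert_iff, Set.mem_singleton_iff] at hL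
    rcases hL with rfl | rfl | rfl | rfl | rfl | rfl
    · exact h1
    · rw [e1, mul_neg, neg_mul]; exact pf_n7_neg h1
    · exact h2
    · rw [e2, mul_neg, neg_mul]; exact pf_n7_neg h2
    · exact h3
    · rw [e3, mul_neg, neg_mul]; exact pf_n7_neg h3
  · simp only [Ax, Set.mem_insert_iff, Set.mem_singleton_iff] at hL
    rcases hL with rfl | rfl | rfl | rfl | rfl | rfl
    · exact h4
    · rw [e1, mul_neg, neg_mul]; exact pf_n7_neg h4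
    · exact h5
    · rw [e2, mul_neg, neg_mul]; exact pf_n7_neg h5
    · exact h6
    · rw [e3, mul_neg, neg_mul]; exact pf_n7_neg h6

theorem pf_n7_star (a b c d : ZMod 7) : star (⟨a, b, c, d⟩ : HQ 7) = ⟨a, -b, -c, -d⟩ := by
  ext <;> simp

theorem pf_n7_UU (a b c d : ZMod 7) :
    UU 7 ⟨a, b, c, d⟩ ↔ pf_n7_D 1 a b c d ∧ pf_n7_D 1 a (-b) (-c) (-d) := by
  have hst : (⟨a, b, c, d⟩ : HQ 7) = star ⟨a, -b, -c, -d⟩ := by
    rw [pf_n7_star, neg_neg, neg_neg, neg_neg]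
  have hi : (⟨0, 1, 0, 0⟩ : HQ 7) ∈ Ax 7 := by simp [Ax]
  have hj : (⟨0, 0, 1, 0⟩ : HQ 7) ∈ Ax 7 := by simp [Ax]
  have hk : (⟨0, 0, 0, 1⟩ : HQ 7) ∈ Ax 7 := by simp [Ax]
  constructor
  · intro h
    have h1 := h.1 _ hi
    have h2 := h.1 _ hj
    have h3 := h.1 _ hk
    rw [pf_n7_i, pf_n7_mem] at h1
    rw [pf_n7_j, pf_n7_mem] at h2
    rw [pf_n7_k, pf_n7_mem] at h3
    have h4 := h.star.1 _ hi
    have h5 := h.star.1 _ hj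
    have h6 := h.star.1 _ hk
    rw [pf_n7_star] at h4 h5 h6
    rw [pf_n7_i, pf_n7_mem] at h4
    rw [pf_n7_j, pf_n7_mem] at h5
    rw [pf_n7_k, pf_n7_mem] at h6
    exact ⟨⟨h1.2, h2.2, h3.2⟩, h4.2, h5.2, h6.2⟩
  · rintro ⟨⟨h1, h2, h3⟩, h4, h5, h6⟩
    refine pf_n7_uu _ ?_ ?_ ?_ ?_ ?_ ?_
    · rw [pf_n7_i, pf_n7_mem]; exact ⟨rfl, h1⟩
    · rw [pf_n7_j, pf_n7_mem]; exact ⟨rfl, h2⟩
    · rw [pf_n7_k, pf_n7_mem]; exact ⟨rfl, h3⟩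
    · rw [pf_n7_star]
      rw [hst]
      rw [pf_n7_i, pf_n7_mem]; exact ⟨rfl, h4⟩
    · rw [pf_n7_star]
      rw [hst]
      rw [pf_n7_j, pf_n7_mem]; exact ⟨rfl, h5⟩
    · rw [pf_n7_star]
      rw [hst]
      rw [pf_n7_k, pf_n7_mem]; exact ⟨rfl, h6⟩

theorem pf_n7_B7 : th7 ⟨79, 91, -72, 42⟩ = ⟨2, 0, 5, 0⟩ := by
  ext <;> simp [th7] <;> decide

theorem pf_n7_C7 : th7 ⟨51, 91, -4, 8⟩ = ⟨2, 0, 0, 5⟩ := by
  ext <;> simp [th7] <;> decide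

theorem pf_n7_B17 : th17 ⟨79, 91, -72, 42⟩ = ⟨14, 0, 0, 14⟩ := by
  ext <;> simp [th17] <;> decide

theorem pf_n7_C17 : th17 ⟨51, 91, -4, 8⟩ = ⟨3, 0, 0, 14⟩ := by
  ext <;> simp [th17] <;> decide

theorem pf_n7_GB : InG ⟨79, 91, -72, 42⟩ := by
  refine ⟨by norm_num [nrd], ?_, ?_⟩
  · rw [pf_n7_B7, pf_n7_UU]
    decide
  · rw [pf_n7_B17]
    refine pf_n7_uu _ ?_ ?_ ?_ ?_ ?_ ?_
    · rw [show (⟨14, 0, 0, 14⟩ : HQ 17) * ⟨0, 1, 0, 0⟩ * star ⟨14, 0, 0, 14⟩ = ⟨0, 0, 1, 0⟩ by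
        ext <;> simp <;> decide]
      simp [Ax]
    · rw [show (⟨14, 0, 0, 14⟩ : HQ 17) * ⟨0, 0, 1, 0⟩ * star ⟨14, 0, 0, 14⟩ = ⟨0, -1, 0, 0⟩ by
        ext <;> simp <;> decide]
      simp [Ax]
    · rw [show (⟨14, 0, 0, 14⟩ : HQ 17) * ⟨0, 0, 0, 1⟩ * star ⟨14, 0, 0, 14⟩ = ⟨0, 0, 0, 1⟩ by
        ext <;> simp <;> decide]
      simp [Ax]
    · rw [show star (⟨14, 0, 0, 14⟩ : HQ 17) * ⟨0, 1, 0, 0⟩ * ⟨14, 0, 0, 14⟩ = ⟨0, 0, -1, 0⟩ by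
        ext <;> simp <;> decide]
      simp [Ax]
    · rw [show star (⟨14, 0, 0, 14⟩ : HQ 17) * ⟨0, 0, 1, 0⟩ * ⟨14, 0, 0, 14⟩ = ⟨0, 1, 0, 0⟩ by
        ext <;> simp <;> decide]
      simp [Ax]
    · rw [show star (⟨14, 0, 0, 14⟩ : HQ 17) * ⟨0, 0, 0, 1⟩ * ⟨14, 0, 0, 14⟩ = ⟨0, 0, 0, 1⟩ by
        ext <;> simp <;> decide]
      simp [Ax]

theorem pf_n7_GC : InG ⟨51, 91, -4, 8⟩ := by
  refine ⟨by norm_num [nrd], ?_, ?_⟩
  · rw [pf_n7_C7, pf_n7_UU]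
    decide
  · rw [pf_n7_C17]
    refine pf_n7_uu _ ?_ ?_ ?_ ?_ ?_ ?_
    · rw [show (⟨3, 0, 0, 14⟩ : HQ 17) * ⟨0, 1, 0, 0⟩ * star ⟨3, 0, 0, 14⟩ = ⟨0, 0, -1, 0⟩ by
        ext <;> simp <;> decide]
      simp [Ax]
    · rw [show (⟨3, 0, 0, 14⟩ : HQ 17) * ⟨0, 0, 1, 0⟩ * star ⟨3, 0, 0, 14⟩ = ⟨0, 1, 0, 0⟩ by
        ext <;> simp <;> decide]
      simp [Ax]
    · rw [show (⟨3, 0, 0, 14⟩ : HQ 17) * ⟨0, 0, 0, 1⟩ * star ⟨3, 0, 0, 14⟩ = ⟨0, 0, 0, 1⟩ by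
        ext <;> simp <;> decide]
      simp [Ax]
    · rw [show star (⟨3, 0, 0, 14⟩ : HQ 17) * ⟨0, 1, 0, 0⟩ * ⟨3, 0, 0, 14⟩ = ⟨0, 0, 1, 0⟩ by
        ext <;> simp <;> decide]
      simp [Ax]
    · rw [show star (⟨3, 0, 0, 14⟩ : HQ 17) * ⟨0, 0, 1, 0⟩ * ⟨3, 0, 0, 14⟩ = ⟨0, -1, 0, 0⟩ by
        ext <;> simp <;> decide]
      simp [Ax]
    · rw [show star (⟨3, 0, 0, 14⟩ : HQ 17) * ⟨0, 0, 0, 1⟩ * ⟨3, 0, 0, 14⟩ = ⟨0, 0, 0, 1⟩ by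
        ext <;> simp <;> decide]
      simp [Ax]

theorem pf_n7_nrd (x : O) : th7 x * star (th7 x) = ⟨(nrd x : ZMod 7), 0, 0, 0⟩ := by
  rw [← th7_star, ← map_mul, mul_star_eq, map_intCast]
  ext <;> simp

/-- from the conjugate of `2 + 5 L` to the conjugate of `L` -/
theorem pf_n7_key (m X Y Z e f g h : ZMod 7) (hm : m ≠ 0) (he : m * e = 2 * m)
    (hf : m * f = 5 * X) (hg : m * g = 5 * Y) (hh : m * h = 5 * Z)
    (hn : e * e + f * f + g * g + h * h = 1) (hU : UU 7 ⟨e, f, g, h⟩) : pf_n7_C m X Y Z := by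
  have h7 : (7 : ZMod 7) = 0 := by decide
  have : Fact (Nat.Prime 7) := ⟨by norm_num⟩
  have he2 : e = 2 := by
    apply mul_left_cancel₀ hm
    rw [he, mul_comm]
  subst he2
  have h0 : (2 : ZMod 7) * 2 - f * f - g * g - h * h = 0 := by
    linear_combination (-1 : ZMod 7) * hn + h7
  have hW := pf_n7_W 2 f g h hn h0 ((pf_n7_UU _ _ _ _).1 hU).1
  have hX : X = -(m * (2 * (2 * f))) := by linear_combination (4 : ZMod 7) * hf + 3 * X * h7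
  have hY : Y = -(m * (2 * (2 * g))) := by linear_combination (4 : ZMod 7) * hg + 3 * Y * h7
  have hZ : Z = -(m * (2 * (2 * h))) := by linear_combination (4 : ZMod 7) * hh + 3 * Z * h7
  rcases hW with ⟨h1 | h1, h2, h3⟩ | ⟨h1, h2 | h2, h3⟩ | ⟨h1, h2, h3 | h3⟩ <;>
    rw [h1] at hX <;> rw [h2] at hY <;> rw [h3] at hZ <;>
    simp only [mul_zero, neg_zero, mul_one, mul_neg, neg_neg] at hX hY hZ
  · exact Or.inl ⟨Or.inr hX, hY, hZ⟩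
  · exact Or.inl ⟨Or.inl hX, hY, hZ⟩
  · exact Or.inr (Or.inl ⟨hX, Or.inr hY, hZ⟩)
  · exact Or.inr (Or.inl ⟨hX, Or.inl hY, hZ⟩)
  · exact Or.inr (Or.inr ⟨hX, hY, Or.inr hZ⟩)
  · exact Or.inr (Or.inr ⟨hX, hY, Or.inl hZ⟩)

theorem pf_n7 : SN7 := by
  intro b hb hdiv hyp
  have hm : (nrd b : ZMod 7) ≠ 0 := by
    intro h
    have h1 : (7 : ℤ) ∣ nrd b := by
      have := (ZMod.intCast_zmod_eq_zero_iff_dvd (nrd b) 7).1 h
      exact_mod_cast this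
    have h2 : (7 : ℤ) ∣ 65 := h1.trans hdiv
    omega
  obtain ⟨y, ⟨hy1, hy7, -⟩, hy⟩ := hyp _ pf_n7_GB
  obtain ⟨z, ⟨hz1, hz7, -⟩, hz⟩ := hyp _ pf_n7_GC
  have ey := congrArg th7 hy
  have ez := congrArg th7 hz
  rw [map_mul, map_mul, map_mul, th7_star, map_intCast, pf_n7_B7] at ey
  rw [map_mul, map_mul, map_mul, th7_star, map_intCast, pf_n7_C7] at ez
  have ny := pf_n7_nrd y
  have nz := pf_n7_nrd z
  have nb := pf_n7_nrd b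
  rw [hy1] at ny
  rw [hz1] at nz
  generalize th7 y = w at *
  generalize th7 z = w' at *
  generalize hub : th7 b = u at *
  obtain ⟨a, b', c, d⟩ := u
  obtain ⟨e, f, g, h⟩ := w
  obtain ⟨e', f', g', h'⟩ := w'
  rw [pf_n7_norm] at ny nz nb
  rw [pf_n7_P] at ey
  rw [pf_n7_Q] at ez
  have hmN : (nrd b : ZMod 7) = a * a + b' * b' + c * c + d * d := by
    have := congrArg QuaternionAlgebra.re nb
    simpa using this.symm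
  have cast_mul : ∀ x1 x2 x3 x4 : ZMod 7, ((nrd b : ℤ) : HQ 7) * ⟨x1, x2, x3, x4⟩ =
      ⟨(nrd b : ZMod 7) * x1, (nrd b : ZMod 7) * x2, (nrd b : ZMod 7) * x3,
        (nrd b : ZMod 7) * x4⟩ := by
    intro x1 x2 x3 x4
    ext <;> simp
  rw [cast_mul, QuaternionAlgebra.mk.injEq] at ey ez
  rw [hmN] at ey ez hm
  obtain ⟨ey1, ey2, ey3, ey4⟩ := ey
  obtain ⟨ez1, ez2, ez3, ez4⟩ := ez
  have hyn : e * e + f * f + g * g + h * h = 1 := by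
    have := congrArg QuaternionAlgebra.re ny
    simpa using this
  have hzn : e' * e' + f' * f' + g' * g' + h' * h' = 1 := by
    have := congrArg QuaternionAlgebra.re nz
    simpa using this
  have hE : pf_n7_E a b' c d := ⟨hm,
    pf_n7_key _ _ _ _ e f g h hm ey1.symm ey2.symm ey3.symm ey4.symm hyn hy7,
    pf_n7_key _ _ _ _ e' f' g' h' hm ez1.symm ez2.symm ez3.symm ez4.symm hzn hz7⟩
  have hsq : ∃ s : ZMod 7, (nrd b : ZMod 7) = s ^ 2 := by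
    rw [hmN]
    rcases pf_n7_U a b' c d hE with h1 | h1 | h1
    · exact ⟨1, by rw [h1]; decide⟩
    · exact ⟨3, by rw [h1]; decide⟩
    · exact ⟨2, by rw [h1]; decide⟩
  obtain ⟨s, hs⟩ := hsq
  refine ⟨s, hs, fun h1 => ?_⟩
  rw [pf_n7_UU]
  apply pf_n7_U1 a b' c d hE
  rw [← hmN, h1]
  simp

end Pool.Agent.H852PC
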