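import Pool.Agent.H852PC.StmB

set_option autoImplicit false

open scoped MatrixGroups UpperHalfPlane ContDiff Topology
open MeasureTheory UpperHalfPlane Filter

noncomputable section

namespace Pool.Agent.H852PC

theorem pf_na_UUa : UU 7 (th7 ⟨40, -52, -7, 14⟩) := by
  have e : th7 ⟨40, -52, -7, 14⟩ = ⟨0, 6, 0, 0⟩ := by
    ext <;> simp [th7] <;> decide
  rw [e]
  constructor
  · intro L hL
    simp only [Ax, Set.mem_insert_iff, Set.mem_singleton_iff] at hL ⊢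
    rcases hL with rfl | rfl | rfl | rfl | rfl | rfl <;> simp [QuaternionAlgebra.ext_iff] <;> decide
  · intro L hL
    simp only [Ax, Set.mem_insert_iff, Set.mem_singleton_iff] at hL ⊢
    rcases hL with rfl | rfl | rfl | rfl | rfl | rfl <;> simp [QuaternionAlgebra.ext_iff] <;> decide

theorem pf_na_UUe : UU 7 (th7 ⟨14, 91, -62, 42⟩) := by
  have e : th7 ⟨14, 91, -62, 42⟩ = ⟨0, 0, 1, 0⟩ := by
    ext <;> simp [th7] <;> decide
  rw [e]
  constructor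
  · intro L hL
    simp only [Ax, Set.mem_insert_iff, Set.mem_singleton_iff] at hL ⊢
    rcases hL with rfl | rfl | rfl | rfl | rfl | rfl <;> simp [QuaternionAlgebra.ext_iff] <;> decide
  · intro L hL
    simp only [Ax, Set.mem_insert_iff, Set.mem_singleton_iff] at hL ⊢
    rcases hL with rfl | rfl | rfl | rfl | rfl | rfl <;> simp [QuaternionAlgebra.ext_iff] <;> decide

theorem pf_na_UUd : UU 7 (th7 ⟨96, -16, -44, -65⟩) := by
  have e : th7 ⟨96, -16, -44, -65⟩ = ⟨4, 4, 4, 4⟩ := by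
    ext <;> simp [th7] <;> decide
  rw [e]
  constructor
  · intro L hL
    simp only [Ax, Set.mem_insert_iff, Set.mem_singleton_iff] at hL ⊢
    rcases hL with rfl | rfl | rfl | rfl | rfl | rfl <;> simp [QuaternionAlgebra.ext_iff] <;> decide
  · intro L hL
    simp only [Ax, Set.mem_insert_iff, Set.mem_singleton_iff] at hL ⊢
    rcases hL with rfl | rfl | rfl | rfl | rfl | rfl <;> simp [QuaternionAlgebra.ext_iff] <;> decide

theorem pf_na_UUh : UU 7 (th7 ⟨105, -91, -20, -42⟩) := by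
  have e : th7 ⟨105, -91, -20, -42⟩ = ⟨0, 0, 1, 0⟩ := by
    ext <;> simp [th7] <;> decide
  rw [e]
  constructor
  · intro L hL
    simp only [Ax, Set.mem_insert_iff, Set.mem_singleton_iff] at hL ⊢
    rcases hL with rfl | rfl | rfl | rfl | rfl | rfl <;> simp [QuaternionAlgebra.ext_iff] <;> decide
  · intro L hL
    simp only [Ax, Set.mem_insert_iff, Set.mem_singleton_iff] at hL ⊢
    rcases hL with rfl | rfl | rfl | rfl | rfl | rfl <;> simp [QuaternionAlgebra.ext_iff] <;> decide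

theorem pf_na_VVa : UU 17 (th17 ⟨40, -52, -7, 14⟩) := by
  have e : th17 ⟨40, -52, -7, 14⟩ = ⟨14, 14, 0, 0⟩ := by
    ext <;> simp [th17] <;> decide
  rw [e]
  constructor
  · intro L hL
    simp only [Ax, Set.mem_insert_iff, Set.mem_singleton_iff] at hL ⊢
    rcases hL with rfl | rfl | rfl | rfl | rfl | rfl <;> simp [QuaternionAlgebra.ext_iff] <;> decide
  · intro L hL
    simp only [Ax, Set.mem_insert_iff, Set.mem_singleton_iff] at hL ⊢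
    rcases hL with rfl | rfl | rfl | rfl | rfl | rfl <;> simp [QuaternionAlgebra.ext_iff] <;> decide

theorem pf_na_VVe : UU 17 (th17 ⟨14, 91, -62, 42⟩) := by
  have e : th17 ⟨14, 91, -62, 42⟩ = ⟨0, 0, 3, 14⟩ := by
    ext <;> simp [th17] <;> decide
  rw [e]
  constructor
  · intro L hL
    simp only [Ax, Set.mem_insert_iff, Set.mem_singleton_iff] at hL ⊢
    rcases hL with rfl | rfl | rfl | rfl | rfl | rfl <;> simp [QuaternionAlgebra.ext_iff] <;> decide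
  · intro L hL
    simp only [Ax, Set.mem_insert_iff, Set.mem_singleton_iff] at hL ⊢
    rcases hL with rfl | rfl | rfl | rfl | rfl | rfl <;> simp [QuaternionAlgebra.ext_iff] <;> decide

theorem pf_na_VVd : UU 17 (th17 ⟨96, -16, -44, -65⟩) := by
  have e : th17 ⟨96, -16, -44, -65⟩ = ⟨3, 3, 0, 0⟩ := by
    ext <;> simp [th17] <;> decide
  rw [e]
  constructor
  · intro L hL
    simp only [Ax, Set.mem_insert_iff, Set.mem_singleton_iff] at hL ⊢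
    rcases hL with rfl | rfl | rfl | rfl | rfl | rfl <;> simp [QuaternionAlgebra.ext_iff] <;> decide
  · intro L hL
    simp only [Ax, Set.mem_insert_iff, Set.mem_singleton_iff] at hL ⊢
    rcases hL with rfl | rfl | rfl | rfl | rfl | rfl <;> simp [QuaternionAlgebra.ext_iff] <;> decide

theorem pf_na_VVh : UU 17 (th17 ⟨105, -91, -20, -42⟩) := by
  have e : th17 ⟨105, -91, -20, -42⟩ = ⟨0, 0, 3, 3⟩ := by
    ext <;> simp [th17] <;> decide
  rw [e]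
  constructor
  · intro L hL
    simp only [Ax, Set.mem_insert_iff, Set.mem_singleton_iff] at hL ⊢
    rcases hL with rfl | rfl | rfl | rfl | rfl | rfl <;> simp [QuaternionAlgebra.ext_iff] <;> decide
  · intro L hL
    simp only [Ax, Set.mem_insert_iff, Set.mem_singleton_iff] at hL ⊢
    rcases hL with rfl | rfl | rfl | rfl | rfl | rfl <;> simp [QuaternionAlgebra.ext_iff] <;> decide

/-- the elements of the order which stay in it -/
def pf_na_P (g : SL(2, ℝ)) : AddSubgroup O where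
  carrier := {x | ∃ y : O, g.1 * rho x * (g⁻¹).1 = rho y}
  zero_mem' := ⟨0, by simp⟩
  add_mem' := by
    rintro a b ⟨y, hy⟩ ⟨z, hz⟩
    exact ⟨y + z, by rw [map_add, map_add, mul_add, add_mul, hy, hz]⟩
  neg_mem' := by
    rintro a ⟨y, hy⟩
    exact ⟨-y, by rw [map_neg, map_neg, mul_neg, neg_mul, hy]⟩

theorem pf_na_mem_P {g : SL(2, ℝ)} {x : O} :
    x ∈ pf_na_P g ↔ ∃ y : O, g.1 * rho x * (g⁻¹).1 = rho y := Iff.rfl

theorem pf_na_inG {g : SL(2, ℝ)} (hg : ∀ h, h ∈ Ga ↔ g * h * g⁻¹ ∈ Ga) {x : O} (hx : InG x) :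
    ∃ y : O, InG y ∧ g.1 * rho x * (g⁻¹).1 = rho y := by
  obtain ⟨h1, h7, h17⟩ := hx
  let h : SL(2, ℝ) := ⟨rho x, by rw [rho_det, h1]; simp⟩
  have hh : h ∈ Ga := ⟨x, h1, h7, h17, rfl⟩
  obtain ⟨y, hy1, hy7, hy17, hy⟩ := (hg h).1 hh
  refine ⟨y, ⟨hy1, hy7, hy17⟩, ?_⟩
  rw [← hy, Matrix.SpecialLinearGroup.coe_mul, Matrix.SpecialLinearGroup.coe_mul]

theorem pf_na_all {g : SL(2, ℝ)} (hg : ∀ h, h ∈ Ga ↔ g * h * g⁻¹ ∈ Ga) (x : O) :
    ∃ y : O, g.1 * rho x * (g⁻¹).1 = rho y := by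
  have h0 : ∀ x : O, InG x → x ∈ pf_na_P g := fun x hx => by
    obtain ⟨y, _, hy⟩ := pf_na_inG hg hx
    exact ⟨y, hy⟩
  have e1 : (⟨1, 0, 0, 0⟩ : O) ∈ pf_na_P g := h0 1 ⟨by simp, by rw [map_one]; exact UU.one 7,
    by rw [map_one]; exact UU.one 17⟩
  have eA : (⟨40, -52, -7, 14⟩ : O) ∈ pf_na_P g := h0 _ ⟨by norm_num [nrd], pf_na_UUa, pf_na_VVa⟩
  have eE : (⟨14, 91, -62, 42⟩ : O) ∈ pf_na_P g := h0 _ ⟨by norm_num [nrd], pf_na_UUe, pf_na_VVe⟩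
  have eD : (⟨96, -16, -44, -65⟩ : O) ∈ pf_na_P g := h0 _ ⟨by norm_num [nrd], pf_na_UUd, pf_na_VVd⟩
  have eH : (⟨105, -91, -20, -42⟩ : O) ∈ pf_na_P g :=
    h0 _ ⟨by norm_num [nrd], pf_na_UUh, pf_na_VVh⟩
  have comb : ∀ a b c d e : ℤ, a • (⟨1, 0, 0, 0⟩ : O) + b • (⟨40, -52, -7, 14⟩ : O) +
      c • (⟨14, 91, -62, 42⟩ : O) + d • (⟨96, -16, -44, -65⟩ : O) +
      e • (⟨105, -91, -20, -42⟩ : O) ∈ pf_na_P g := fun a b c d e =>
    add_mem (add_mem (add_mem (add_mem (zsmul_mem e1 a) (zsmul_mem eA b)) (zsmul_mem eE c))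
      (zsmul_mem eD d)) (zsmul_mem eH e)
  have v1 : (⟨0, 0, -2, -1⟩ : O) ∈ pf_na_P g := by
    have h := comb 6914 5854 (-1590) 3861 (-5614)
    have e : (⟨0, 0, -2, -1⟩ : O) = (6914 : ℤ) • (⟨1, 0, 0, 0⟩ : O) + (5854 : ℤ) • (⟨40, -52, -7, 14⟩ : O) +
      (-1590 : ℤ) • (⟨14, 91, -62, 42⟩ : O) + (3861 : ℤ) • (⟨96, -16, -44, -65⟩ : O) +
      (-5614 : ℤ) • (⟨105, -91, -20, -42⟩ : O) := by ext <;> simp
    rw [e]; exact h
  have v2 : (⟨0, 0, -1, 2⟩ : O) ∈ pf_na_P g := by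
    have h := comb (-7640) (-6465) 1756 (-4264) 6200
    have e : (⟨0, 0, -1, 2⟩ : O) = (-7640 : ℤ) • (⟨1, 0, 0, 0⟩ : O) + (-6465 : ℤ) • (⟨40, -52, -7, 14⟩ : O) +
      (1756 : ℤ) • (⟨14, 91, -62, 42⟩ : O) + (-4264 : ℤ) • (⟨96, -16, -44, -65⟩ : O) +
      (6200 : ℤ) • (⟨105, -91, -20, -42⟩ : O) := by ext <;> simp
    rw [e]; exact h
  have v3 : (⟨0, 1, 0, -1⟩ : O) ∈ pf_na_P g := by
    have h := comb (-12220) (-10342) 2809 (-6821) 9918
    have e : (⟨0, 1, 0, -1⟩ : O) = (-12220 : ℤ) • (⟨1, 0, 0, 0⟩ : O) + (-10342 : ℤ) • (⟨40, -52, -7, 14⟩ : O) +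
      (2809 : ℤ) • (⟨14, 91, -62, 42⟩ : O) + (-6821 : ℤ) • (⟨96, -16, -44, -65⟩ : O) +
      (9918 : ℤ) • (⟨105, -91, -20, -42⟩ : O) := by ext <;> simp
    rw [e]; exact h
  have v4 : (⟨0, 5, 1, 2⟩ : O) ∈ pf_na_P g := by
    have h := comb 8193 6929 (-1882) 4570 (-6645)
    have e : (⟨0, 5, 1, 2⟩ : O) = (8193 : ℤ) • (⟨1, 0, 0, 0⟩ : O) + (6929 : ℤ) • (⟨40, -52, -7, 14⟩ : O) +
      (-1882 : ℤ) • (⟨14, 91, -62, 42⟩ : O) + (4570 : ℤ) • (⟨96, -16, -44, -65⟩ : O) +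
      (-6645 : ℤ) • (⟨105, -91, -20, -42⟩ : O) := by ext <;> simp
    rw [e]; exact h
  have wk : (⟨0, 0, 0, 1⟩ : O) ∈ pf_na_P g := by
    have e : (⟨0, 0, 0, 1⟩ : O) = (3 : ℤ) • (⟨0, 0, -1, 2⟩ : O) + (-2 : ℤ) • (⟨0, 0, -2, -1⟩ : O) +
      (-1 : ℤ) • (⟨0, 5, 1, 2⟩ : O) + (5 : ℤ) • (⟨0, 1, 0, -1⟩ : O) := by ext <;> simp
    rw [e]
    exact add_mem (add_mem (add_mem (zsmul_mem v2 _) (zsmul_mem v1 _)) (zsmul_mem v4 _))
      (zsmul_mem v3 _)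
  have wi : (⟨0, 1, 0, 0⟩ : O) ∈ pf_na_P g := by
    have e : (⟨0, 1, 0, 0⟩ : O) = (⟨0, 1, 0, -1⟩ : O) + (⟨0, 0, 0, 1⟩ : O) := by ext <;> simp
    rw [e]
    exact add_mem v3 wk
  have wj : (⟨0, 0, 1, 0⟩ : O) ∈ pf_na_P g := by
    have e : (⟨0, 0, 1, 0⟩ : O) = (-1 : ℤ) • (⟨0, 0, -1, 2⟩ : O) + (2 : ℤ) • (⟨0, 0, 0, 1⟩ : O) := by
      ext <;> simp
    rw [e]
    exact add_mem (zsmul_mem v2 _) (zsmul_mem wk _)
  have e : x = x.re • (⟨1, 0, 0, 0⟩ : O) + x.imI • (⟨0, 1, 0, 0⟩ : O) + x.imJ • (⟨0, 0, 1, 0⟩ : O) +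
      x.imK • (⟨0, 0, 0, 1⟩ : O) := by
    ext <;> simp
  have hx : x ∈ pf_na_P g := by
    rw [e]
    exact add_mem (add_mem (add_mem (zsmul_mem e1 _) (zsmul_mem wi _)) (zsmul_mem wj _))
      (zsmul_mem wk _)
  exact hx

/-- the dual bases -/
theorem pf_na_dual (z : Matrix (Fin 2) (Fin 2) ℝ) :
    rho ⟨1, 0, 0, 0⟩ * z * rho ⟨39, -13, 0, 0⟩ + rho ⟨0, 1, 0, 0⟩ * z * rho ⟨-13, 26, 0, 0⟩ +
      rho ⟨0, 0, 1, 0⟩ * z * rho ⟨0, 0, 2, 1⟩ + rho ⟨0, 0, 0, 1⟩ * z * rho ⟨0, 0, 1, -2⟩ =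
      (65 * z.trace) • (1 : Matrix (Fin 2) (Fin 2) ℝ) := by
  have h := gr_sq
  obtain ⟨p, q, r, s, rfl⟩ : ∃ p q r s : ℝ, z = !![p, q; r, s] :=
    ⟨z 0 0, z 0 1, z 1 0, z 1 1, by ext i j; fin_cases i <;> fin_cases j <;> rfl⟩
  ext i j
  fin_cases i <;> fin_cases j <;>
    simp [rho_apply, mat, gc_eq, Matrix.trace_fin_two]
  · linear_combination (26 * p + 26 * s) * h
  · linear_combination (-26 * q - 338 * r) * h
  · linear_combination (-26 * r - 2 * q) * h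
  · linear_combination (26 * p + 26 * s) * h

theorem pf_na_gap : gr - gc ≠ 0 := by
  have e : gr - gc = √5 := by unfold gr gc; ring
  rw [e]
  positivity

/-- some trace does not vanish -/
theorem pf_na_tr (z : Matrix (Fin 2) (Fin 2) ℝ) (hz : z.det = 1) :
    ∃ y : O, (z * rho y).trace ≠ 0 := by
  by_contra hcon
  push Not at hcon
  obtain ⟨p, q, r, s, rfl⟩ : ∃ p q r s : ℝ, z = !![p, q; r, s] :=
    ⟨z 0 0, z 0 1, z 1 0, z 1 1, by ext i j; fin_cases i <;> fin_cases j <;> rfl⟩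
  have h1 := hcon ⟨1, 0, 0, 0⟩
  have h2 := hcon ⟨0, 1, 0, 0⟩
  have h3 := hcon ⟨0, 0, 1, 0⟩
  have h4 := hcon ⟨0, 0, 0, 1⟩
  simp [rho_apply, mat, Matrix.trace_fin_two] at h1 h2 h3 h4 hz
  have hg := pf_na_gap
  have hp : p = 0 := by
    have : p * (gr - gc) = 0 := by linear_combination h2 - gc * h1
    exact (mul_eq_zero.1 this).resolve_right hg
  have hs : s = 0 := by rw [hp] at h1; simpa using h1
  have hr : r = 0 := by
    have : r * (gr - gc) = 0 := by linear_combination (h4 - gc * h3) / 13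
    exact (mul_eq_zero.1 this).resolve_right hg
  rw [hp, hs, hr] at hz
  simp at hz

/-- elements of the normalizer are multiples of elements of the order -/
theorem pf_na_mul {g : SL(2, ℝ)} (hg : ∀ h, h ∈ Ga ↔ g * h * g⁻¹ ∈ Ga) :
    ∃ (b : O) (c : ℝ), g.1 = c • rho b := by
  have hdet : ((g⁻¹).1).det = 1 := (g⁻¹).2
  obtain ⟨y, hy⟩ := pf_na_tr (g⁻¹).1 hdet
  obtain ⟨s1, hs1⟩ := pf_na_all hg ⟨1, 0, 0, 0⟩
  obtain ⟨s2, hs2⟩ := pf_na_all hg ⟨0, 1, 0, 0⟩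
  obtain ⟨s3, hs3⟩ := pf_na_all hg ⟨0, 0, 1, 0⟩
  obtain ⟨s4, hs4⟩ := pf_na_all hg ⟨0, 0, 0, 1⟩
  have hd := pf_na_dual ((g⁻¹).1 * rho y)
  set t := ((g⁻¹).1 * rho y).trace with ht
  have key : rho (s1 * y * ⟨39, -13, 0, 0⟩ + s2 * y * ⟨-13, 26, 0, 0⟩ + s3 * y * ⟨0, 0, 2, 1⟩ +
      s4 * y * ⟨0, 0, 1, -2⟩) = (65 * t) • g.1 := by
    rw [map_add, map_add, map_add, map_mul, map_mul, map_mul, map_mul, map_mul, map_mul, map_mul,
      map_mul, ← hs1, ← hs2, ← hs3, ← hs4]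
    have e : g.1 * (rho ⟨1, 0, 0, 0⟩ * ((g⁻¹).1 * rho y) * rho ⟨39, -13, 0, 0⟩ +
        rho ⟨0, 1, 0, 0⟩ * ((g⁻¹).1 * rho y) * rho ⟨-13, 26, 0, 0⟩ +
        rho ⟨0, 0, 1, 0⟩ * ((g⁻¹).1 * rho y) * rho ⟨0, 0, 2, 1⟩ +
        rho ⟨0, 0, 0, 1⟩ * ((g⁻¹).1 * rho y) * rho ⟨0, 0, 1, -2⟩) = (65 * t) • g.1 := by
      rw [hd, Matrix.mul_smul, mul_one]
    rw [← e]
    simp only [mul_add, mul_assoc]
  refine ⟨s1 * y * ⟨39, -13, 0, 0⟩ + s2 * y * ⟨-13, 26, 0, 0⟩ + s3 * y * ⟨0, 0, 2, 1⟩ +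
      s4 * y * ⟨0, 0, 1, -2⟩, (65 * t)⁻¹, ?_⟩
  rw [key, smul_smul, inv_mul_cancel₀, one_smul]
  exact mul_ne_zero (by norm_num) hy

/-- the size of a quaternion -/
def pf_na_size (b : O) : ℕ := b.re.natAbs + b.imI.natAbs + b.imJ.natAbs + b.imK.natAbs

theorem pf_na_size_mul (p : ℕ) (b : O) : pf_na_size ((p : O) * b) = p * pf_na_size b := by
  have e : (p : O) * b = ⟨p * b.re, p * b.imI, p * b.imJ, p * b.imK⟩ := by
    ext <;> simp
  rw [e]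
  simp only [pf_na_size, Int.natAbs_mul, Int.natAbs_natCast]
  ring

theorem pf_na_size_pos {b : O} (hb : b ≠ 0) : 0 < pf_na_size b := by
  rw [Nat.pos_iff_ne_zero]
  intro h
  apply hb
  unfold pf_na_size at h
  have h1 : b.re = 0 := by omega
  have h2 : b.imI = 0 := by omega
  have h3 : b.imJ = 0 := by omega
  have h4 : b.imK = 0 := by omega
  ext <;> simp [h1, h2, h3, h4]

/-- elements of the normalizer are multiples of primitive elements of the order -/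
theorem pf_na_prim {g : SL(2, ℝ)} (hg : ∀ h, h ∈ Ga ↔ g * h * g⁻¹ ∈ Ga) :
    ∃ (b : O) (c : ℝ), Prim b ∧ g.1 = c • rho b := by
  classical
  have hex : ∃ n : ℕ, ∃ (b : O) (c : ℝ), pf_na_size b = n ∧ g.1 = c • rho b := by
    obtain ⟨b, c, h⟩ := pf_na_mul hg
    exact ⟨_, b, c, rfl, h⟩
  obtain ⟨b, c, hb, hgb⟩ := Nat.find_spec hex
  refine ⟨b, c, ?_, hgb⟩
  rintro p hp ⟨b', rfl⟩
  have hb0 : b' ≠ 0 := by
    rintro rfl
    have h1 : g.1.det = 1 := g.2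
    rw [hgb] at h1
    simp at h1
  have h1 : pf_na_size b' < Nat.find hex := by
    rw [← hb, pf_na_size_mul]
    have := pf_na_size_pos hb0
    have := hp.two_le
    nlinarith
  refine Nat.find_min hex h1 ⟨b', c * p, rfl, ?_⟩
  rw [hgb, map_mul, map_natCast, mul_smul]
  congr 1
  rw [← nsmul_eq_mul]
  ext i j
  simp

/-- Noether-Skolem -/
theorem pf_na : SNa := by
  intro g hg
  obtain ⟨b, c, hprim, hgb⟩ := pf_na_prim hg
  have hdet : c ^ 2 * nrd b = 1 := by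
    have h1 : g.1.det = 1 := g.2
    rw [hgb, Matrix.det_smul, rho_det] at h1
    simpa using h1
  have hpos : 0 < nrd b := by
    by_contra hn
    have h1 : (nrd b : ℝ) ≤ 0 := by exact_mod_cast not_lt.1 hn
    nlinarith [sq_nonneg c]
  have hpos' : (nrd b : ℝ) ≠ 0 := by exact_mod_cast hpos.ne'
  have hinv : (g⁻¹).1 = c • rho (star b) := by
    rw [Matrix.SpecialLinearGroup.coe_inv, rho_star]
    have e : (g : Matrix (Fin 2) (Fin 2) ℝ) = c • rho b := hgb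
    rw [e, Matrix.adjugate_smul]
    simp
  have hconj : ∀ x y : O, g.1 * rho x * (g⁻¹).1 = rho y → b * x * star b = (nrd b : O) * y := by
    intro x y h
    apply rho_injective
    rw [hgb, hinv] at h
    have h2 : (c ^ 2) • rho (b * x * star b) = rho y := by
      rw [← h, map_mul, map_mul]
      simp only [Matrix.smul_mul, Matrix.mul_smul, smul_smul]
      rw [pow_two]
    have h3 : rho (b * x * star b) = (nrd b : ℝ) • rho y := by
      rw [← h2, smul_smul, mul_comm, hdet, one_smul]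
    rw [h3, map_mul, rho_intCast, Matrix.smul_mul, one_mul]
  refine ⟨b, c, hprim, hpos, hdet, hgb, ?_, ?_⟩
  · intro x
    obtain ⟨y, hy⟩ := pf_na_all hg x
    exact ⟨y, hconj x y hy⟩
  · intro x hx
    obtain ⟨y, hyG, hy⟩ := pf_na_inG hg hx
    exact ⟨y, hyG, hconj x y hy⟩

end Pool.Agent.H852PC
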