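/- JOB of helper852 (MP_7a2702_mp, Poisson pair correlation fails for an arithmetic surface).
  Get the imported files (on origin/main, light imports):
  cd /workdir/pool && git -C outputs/live fetch -q && mkdir -p Pool/Agent/H852PC && for f in Defs Alg StmB; do
  git -C outputs/live show origin/main:Pool/Agent/H852PC/$f.lean > Pool/Agent/H852PC/$f.lean; done; lake build Pool.Agent.H852PC.StmB
  All definitions (O, nrd, trd, rho, mat, th7, th17, UU, La, Ga, gl, Gs, TT, ...) and the statements S... are in these files: read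
  them first. Prove the TARGET exactly as stated (hypotheses S... are proved in other jobs), return the whole file in result;
  auxiliary lemmas before it are welcome (give them names beginning with the theorem name). If the statement is false as written
  or a hypothesis is missing, tell me in note. Do not use the words macro, notation, syntax, prefix, tactic, partial, meta
  outside comments, and no straight double quote. -/
import Pool.Agent.H852PC.StmB

set_option autoImplicit false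

open scoped MatrixGroups UpperHalfPlane ContDiff Topology
open MeasureTheory UpperHalfPlane Filter

noncomputable section

namespace Pool.Agent.H852PC

theorem pf_nb_key0 (z : O) :
    z * (⟨39, -13, 0, 0⟩ : O) + (⟨0, 1, 0, 0⟩ : O) * z * (⟨-13, 26, 0, 0⟩ : O) +
      (⟨0, 0, 1, 0⟩ : O) * z * (⟨0, 0, 2, 1⟩ : O) + (⟨0, 0, 0, 1⟩ : O) * z * (⟨0, 0, 1, -2⟩ : O) =
      ((65 * trd z : ℤ) : O) := by
  ext <;> simp only [QuaternionAlgebra.re_mul, QuaternionAlgebra.imI_mul,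
    QuaternionAlgebra.imJ_mul, QuaternionAlgebra.imK_mul, QuaternionAlgebra.re_intCast,
    QuaternionAlgebra.imI_intCast, QuaternionAlgebra.imJ_intCast, QuaternionAlgebra.imK_intCast,
    QuaternionAlgebra.re_add, QuaternionAlgebra.imI_add, QuaternionAlgebra.imJ_add,
    QuaternionAlgebra.imK_add, trd, Int.cast_id] <;> ring

theorem pf_nb_key (b y : O) :
    (b * 1 * star b) * y * (⟨39, -13, 0, 0⟩ : O) +
      (b * (⟨0, 1, 0, 0⟩ : O) * star b) * y * (⟨-13, 26, 0, 0⟩ : O) +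
      (b * (⟨0, 0, 1, 0⟩ : O) * star b) * y * (⟨0, 0, 2, 1⟩ : O) +
      (b * (⟨0, 0, 0, 1⟩ : O) * star b) * y * (⟨0, 0, 1, -2⟩ : O) =
      ((65 * trd (star b * y) : ℤ) : O) * b := by
  have h := congrArg (fun w => b * w) (pf_nb_key0 (star b * y))
  simp only [mul_add] at h
  rw [← (Int.cast_commute (65 * trd (star b * y)) b).eq] at h
  rw [← h]
  simp only [mul_assoc, one_mul]

theorem pf_nb_bez (b : O) (h : Prim b) :
    ∃ u1 u2 u3 u4 : ℤ, u1 * b.re + u2 * b.imI + u3 * b.imJ + u4 * b.imK = 1 := by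
  by_cases hd : Int.gcd (Int.gcd b.re b.imI) (Int.gcd b.imJ b.imK) = 1
  · obtain ⟨x1, y1, h1⟩ : ∃ x y : ℤ, (Int.gcd b.re b.imI : ℤ) = b.re * x + b.imI * y :=
      ⟨_, _, Int.gcd_eq_gcd_ab b.re b.imI⟩
    obtain ⟨x2, y2, h2⟩ : ∃ x y : ℤ, (Int.gcd b.imJ b.imK : ℤ) = b.imJ * x + b.imK * y :=
      ⟨_, _, Int.gcd_eq_gcd_ab b.imJ b.imK⟩
    obtain ⟨x3, y3, h3⟩ : ∃ x y : ℤ, (1 : ℤ) =
        (Int.gcd b.re b.imI : ℤ) * x + (Int.gcd b.imJ b.imK : ℤ) * y := by
      have := Int.gcd_eq_gcd_ab (Int.gcd b.re b.imI) (Int.gcd b.imJ b.imK)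
      rw [hd] at this
      exact ⟨_, _, this⟩
    rw [h1, h2] at h3
    exact ⟨x1 * x3, y1 * x3, x2 * y3, y2 * y3, by linear_combination -h3⟩
  · exfalso
    obtain ⟨p, hp, hpd⟩ := Nat.exists_prime_and_dvd hd
    have hz : (p : ℤ) ∣ (Int.gcd (Int.gcd b.re b.imI) (Int.gcd b.imJ b.imK) : ℤ) := by
      exact_mod_cast hpd
    have h12 : (p : ℤ) ∣ (Int.gcd b.re b.imI : ℤ) := hz.trans (Int.gcd_dvd_left _ _)
    have h34 : (p : ℤ) ∣ (Int.gcd b.imJ b.imK : ℤ) := hz.trans (Int.gcd_dvd_right _ _)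
    obtain ⟨c1, h1⟩ := h12.trans (Int.gcd_dvd_left _ _)
    obtain ⟨c2, h2⟩ := h12.trans (Int.gcd_dvd_right _ _)
    obtain ⟨c3, h3⟩ := h34.trans (Int.gcd_dvd_left _ _)
    obtain ⟨c4, h4⟩ := h34.trans (Int.gcd_dvd_right _ _)
    refine h p hp ⟨⟨c1, c2, c3, c4⟩, ?_⟩
    ext <;> simp [h1, h2, h3, h4]

/- PLAIN PROOF. m = nrd b. (1) For y in O: sum_l (b e_l star b) y e_l' = b (sum_l e_l (star b y) e_l') = 65 trd(star b y) b, where e_l = 1,i,j,k
and e_l' = (39,-13,0,0), (-13,26,0,0), (0,0,2,1), (0,0,1,-2) (identity sum_l e_l z e_l' = 65 trd z for z in O, by coordinates). The left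
side is in m O, so m divides 65 trd(star b y) b, and since the coordinates of b have gcd 1: m | 65 trd(star b y) for all y in O.
(Prim b: no prime divides all coordinates, so the gcd of the coordinates is 1 and a Bezout combination gives it.)
(2) 65 star b = sum_l trd(star b e_l') e_l, so m | 65·65·(coordinates of b), so m | 65² = 4225, so m is a divisor of 4225.
(3) 25 does not divide m: if 25 | m then 5 | 13... from m | 65 trd(star b y): 5 | trd(star b y) for all y. With b = (a1,a2,a3,a4):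
star b = (a1+a2,-a2,-a3,-a4). trd(star b · 1) = 2a1 + a2, trd(star b · i) = a1 - 2 a2 (check), so a2 = -2 a1 mod 5; y = j, k: trd(star b j) =
-13·(2 a3 + a4) up to sign conventions, trd (star b k) similarly, so a4 = -2 a3 mod 5 (compute). Write a2 = -2 a1 + 5 u,
a4 = -2 a3 + 5 v: then m = nrd b is, mod 25, equal to 5·(...) with (...) = -a1² + 13 a3² + ... mod 5 (compute); it has to vanish mod 5,
so a1² = 3 a3² mod 5, so a1 = a3 = 0 mod 5 (3 is not a square), so all coordinates are divisible by 5: contradiction to Prim.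
In fact this is a finite check modulo 25: for all (a1,a2,a3,a4) mod 25 with the above congruences and m = 0 mod 25 all a_i = 0 mod 5.
(4) 169 does not divide m: if 169 | m then 13 | trd(star b y) for all y, y = 1, i give 13 | 2a1 + a2, 13 | a1 - 2a2 , so 13 | a1, a2 (det -5),
then 169 | m = N(a1,a2) - 13 N(a3,a4) gives 13 | N(a3,a4) = a3² + a3 a4 - a4², so 13 | a3, a4 (decide in ZMod 13): contradiction.
So m | 4225, 25 and 169 do not divide m, m > 0: m in {1,5,13,65}. -/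
theorem pf_nb : SNb := by
  intro b hprim hpos hb
  obtain ⟨m, hm⟩ : ∃ m : ℤ, m = nrd b := ⟨_, rfl⟩
  obtain ⟨u1, u2, u3, u4, hu⟩ := pf_nb_bez b hprim
  have hdvd : ∀ c : ℤ, m ∣ c * b.re → m ∣ c * b.imI → m ∣ c * b.imJ → m ∣ c * b.imK → m ∣ c := by
    rintro c ⟨k1, h1⟩ ⟨k2, h2⟩ ⟨k3, h3⟩ ⟨k4, h4⟩
    refine ⟨u1 * k1 + u2 * k2 + u3 * k3 + u4 * k4, ?_⟩
    linear_combination -c * hu + u1 * h1 + u2 * h2 + u3 * h3 + u4 * h4
  have htr : ∀ y : O, m ∣ 65 * trd (star b * y) := by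
    intro y
    have hk := pf_nb_key b y
    obtain ⟨y0, h0⟩ := hb 1
    obtain ⟨y1, h1⟩ := hb ⟨0, 1, 0, 0⟩
    obtain ⟨y2, h2⟩ := hb ⟨0, 0, 1, 0⟩
    obtain ⟨y3, h3⟩ := hb ⟨0, 0, 0, 1⟩
    rw [h0, h1, h2, h3] at hk
    simp only [mul_assoc] at hk
    rw [← mul_add, ← mul_add, ← mul_add, ← hm] at hk
    obtain ⟨z, hz⟩ : ∃ z : O, z = (y0 * (y * (⟨39, -13, 0, 0⟩ : O)) +
      y1 * (y * (⟨-13, 26, 0, 0⟩ : O)) + y2 * (y * (⟨0, 0, 2, 1⟩ : O)) +
      y3 * (y * (⟨0, 0, 1, -2⟩ : O))) := ⟨_, rfl⟩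
    rw [← hz] at hk
    have e1 := congrArg QuaternionAlgebra.re hk
    have e2 := congrArg QuaternionAlgebra.imI hk
    have e3 := congrArg QuaternionAlgebra.imJ hk
    have e4 := congrArg QuaternionAlgebra.imK hk
    simp only [QuaternionAlgebra.re_mul, QuaternionAlgebra.imI_mul,
      QuaternionAlgebra.imJ_mul, QuaternionAlgebra.imK_mul, QuaternionAlgebra.re_intCast,
      QuaternionAlgebra.imI_intCast, QuaternionAlgebra.imJ_intCast,
      QuaternionAlgebra.imK_intCast, Int.cast_id] at e1 e2 e3 e4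
    refine hdvd _ ⟨z.re, ?_⟩ ⟨z.imI, ?_⟩ ⟨z.imJ, ?_⟩ ⟨z.imK, ?_⟩
    · linear_combination -e1
    · linear_combination -e2
    · linear_combination -e3
    · linear_combination -e4
  have t1 := htr 1
  have ti := htr ⟨0, 1, 0, 0⟩
  have tj := htr ⟨0, 0, 1, 0⟩
  have tk := htr ⟨0, 0, 0, 1⟩
  obtain ⟨a1, a2, a3, a4⟩ := b
  simp only [star_eq, trd, nrd, QuaternionAlgebra.re_mul, QuaternionAlgebra.imI_mul, mul_one]
    at t1 ti tj tk hm
  have hnr : nrd (⟨a1, a2, a3, a4⟩ : O) = m := by rw [hm]; rfl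
  rw [hnr] at hpos ⊢
  simp only at hdvd
  have t1' : m ∣ 130 * a1 + 65 * a2 := by
    have h := t1
    ring_nf at h ⊢
    exact h
  have ti' : m ∣ 65 * a1 - 130 * a2 := by
    have h := ti
    ring_nf at h ⊢
    exact h
  have tj' : m ∣ 1690 * a3 + 845 * a4 := by
    rw [← dvd_neg]
    have h := tj
    ring_nf at h ⊢
    exact h
  have tk' : m ∣ 845 * a3 - 1690 * a4 := by
    rw [← dvd_neg]
    have h := tk
    ring_nf at h ⊢
    exact h
  have h4225 : m ∣ 4225 := by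
    refine hdvd 4225 ?_ ?_ ?_ ?_
    · have := dvd_add (t1'.mul_left 26) (ti'.mul_left 13)
      ring_nf at this ⊢
      exact this
    · have := dvd_sub (t1'.mul_left 13) (ti'.mul_left 26)
      ring_nf at this ⊢
      exact this
    · have := dvd_add (tj'.mul_left 2) tk'
      ring_nf at this ⊢
      exact this
    · have := dvd_sub tj' (tk'.mul_left 2)
      ring_nf at this ⊢
      exact this
  have hP : ∀ p : ℕ, p.Prime → (p : ℤ) ∣ a1 → (p : ℤ) ∣ a2 → (p : ℤ) ∣ a3 → (p : ℤ) ∣ a4 →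
      False := by
    rintro p hp ⟨c1, h1⟩ ⟨c2, h2⟩ ⟨c3, h3⟩ ⟨c4, h4⟩
    refine hprim p hp ⟨⟨c1, c2, c3, c4⟩, ?_⟩
    ext <;> simp [h1, h2, h3, h4]
  have h25 : ¬ (25 : ℤ) ∣ m := by
    intro h25
    have s1 := h25.trans t1'
    have s3 := h25.trans tj'
    obtain ⟨u, hu'⟩ : (5 : ℤ) ∣ a2 + 2 * a1 := by omega
    obtain ⟨v, hv'⟩ : (5 : ℤ) ∣ a4 + 2 * a3 := by omega
    obtain ⟨c, hc⟩ := h25
    have ha2 : a2 = 5 * u - 2 * a1 := by linarith
    have ha4 : a4 = 5 * v - 2 * a3 := by linarith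
    have h5 : (5 : ℤ) * (a1 ^ 2 - 13 * a3 ^ 2) = 5 * (5 * (u * a1 - u ^ 2 -
        13 * (v * a3 - v ^ 2) - c)) := by
      have := hm
      rw [hc, ha2, ha4] at this
      linear_combination this
    have h6 := mul_left_cancel₀ (by norm_num : (5 : ℤ) ≠ 0) h5
    have h7 : ((a1 : ZMod 5)) ^ 2 - 13 * (a3 : ZMod 5) ^ 2 = 0 := by
      have := congrArg (Int.cast : ℤ → ZMod 5) h6
      push_cast at this
      rw [this]
      have h50 : (5 : ZMod 5) = 0 := by decide
      rw [h50, zero_mul]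
    have h8 : ∀ x y : ZMod 5, x ^ 2 - 13 * y ^ 2 = 0 → x = 0 ∧ y = 0 := by decide
    obtain ⟨h9, h10⟩ := h8 _ _ h7
    have h11 : (5 : ℤ) ∣ a1 := (ZMod.intCast_zmod_eq_zero_iff_dvd a1 5).1 h9
    have h12 : (5 : ℤ) ∣ a3 := (ZMod.intCast_zmod_eq_zero_iff_dvd a3 5).1 h10
    exact hP 5 (by norm_num) h11 (by push_cast; omega) h12 (by push_cast; omega)
  have h169 : ¬ (169 : ℤ) ∣ m := by
    intro h169
    have s1 := h169.trans t1'
    have s2 := h169.trans ti'
    obtain ⟨c1, h1⟩ : (13 : ℤ) ∣ a1 := by omega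
    obtain ⟨c2, h2⟩ : (13 : ℤ) ∣ a2 := by omega
    obtain ⟨c, hc⟩ := h169
    have h5 : (13 : ℤ) * (a3 ^ 2 + a3 * a4 - a4 ^ 2) =
        13 * (13 * (c1 ^ 2 + c1 * c2 - c2 ^ 2 - c)) := by
      have := hm
      rw [hc, h1, h2] at this
      linear_combination this
    have h6 := mul_left_cancel₀ (by norm_num : (13 : ℤ) ≠ 0) h5
    have h7 : ((a3 : ZMod 13)) ^ 2 + a3 * a4 - (a4 : ZMod 13) ^ 2 = 0 := by
      have := congrArg (Int.cast : ℤ → ZMod 13) h6
      push_cast at this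
      rw [this]
      have h50 : (13 : ZMod 13) = 0 := by decide
      rw [h50, zero_mul]
    have h8 : ∀ x y : ZMod 13, x ^ 2 + x * y - y ^ 2 = 0 → x = 0 ∧ y = 0 := by decide
    obtain ⟨h9, h10⟩ := h8 _ _ h7
    have h11 : (13 : ℤ) ∣ a3 := (ZMod.intCast_zmod_eq_zero_iff_dvd a3 13).1 h9
    have h12 : (13 : ℤ) ∣ a4 := (ZMod.intCast_zmod_eq_zero_iff_dvd a4 13).1 h10
    exact hP 13 (by norm_num) ⟨c1, h1⟩ ⟨c2, h2⟩ h11 h12
  lift m to ℕ using hpos.le
  have hd : m ∣ 4225 := by exact_mod_cast h4225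
  have h25' : ¬ 25 ∣ m := by exact_mod_cast h25
  have h169' : ¬ 169 ∣ m := by exact_mod_cast h169
  have hmem : m ∈ Nat.divisors 4225 := Nat.mem_divisors.2 ⟨hd, by norm_num⟩
  have hdiv : Nat.divisors 4225 = {1, 5, 13, 25, 65, 169, 325, 845, 4225} := by
    decide +kernel
  rw [hdiv] at hmem
  simp only [Finset.mem_insert, Finset.mem_singleton] at hmem
  have : m ∣ 65 := by
    clear hdiv h4225 hm hdvd htr t1 ti tj tk hnr t1' ti' tj' tk' hu h25 h169 hP hb hpos hd
    rcases hmem with h | h | h | h | h | h | h | h | h <;> subst h <;> omega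
  exact_mod_cast this

end Pool.Agent.H852PC
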