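import Pool.Agent.H852PC.StmB

set_option autoImplicit false

open scoped MatrixGroups UpperHalfPlane ContDiff Topology
open MeasureTheory UpperHalfPlane Filter

noncomputable section

namespace Pool.Agent.H852PC

theorem pf_nd_div (m : ℤ) (h0 : 0 < m) (h : m ∣ 65) : m = 1 ∨ m = 5 ∨ m = 13 ∨ m = 65 := by
  have h1 : m ≤ 65 := Int.le_of_dvd (by norm_num) h
  interval_cases m <;> revert h <;> decide

theorem pf_nd (h7 : SN7) (h17 : SN17) : SNd := by
  intro b h0 h65 hb
  obtain ⟨s, hs, k7⟩ := h7 b h0 h65 hb
  obtain ⟨t, ht, k17⟩ := h17 b h0 h65 hb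
  have h1 : nrd b = 1 := by
    rcases pf_nd_div _ h0 h65 with h | h | h | h
    · exact h
    · exfalso
      rw [h] at hs
      revert s
      decide
    · exfalso
      rw [h] at hs
      revert s
      decide
    · exfalso
      rw [h] at ht
      revert t
      decide
  exact ⟨h1, k7 h1, k17 h1⟩

end Pool.Agent.H852PC
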