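import Pool.Agent.H852PC.StmB

set_option autoImplicit false

open scoped MatrixGroups UpperHalfPlane ContDiff Topology
open MeasureTheory UpperHalfPlane Filter

noncomputable section

namespace Pool.Agent.H852PC

theorem pf_pd_entries (g : SL(2, ℝ)) (z : ℍ) (C : ℝ) (hC : 1 ≤ C)
    (hz : ‖(z : ℂ)‖ ≤ C) (hz' : (z.im)⁻¹ ≤ C) (hw : ‖((g • z : ℍ) : ℂ)‖ ≤ C)
    (hw' : ((g • z).im)⁻¹ ≤ C) :
    |g 0 0| ≤ 2 * C ^ 4 ∧ |g 0 1| ≤ 2 * C ^ 4 ∧ |g 1 0| ≤ 2 * C ^ 4 ∧ |g 1 1| ≤ 2 * C ^ 4 := by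
  have hC0 : 0 < C := by linarith
  have hzim : 0 < z.im := z.im_pos
  have hwim : 0 < (g • z).im := (g • z).im_pos
  set den : ℂ := (g 1 0 : ℂ) * z + (g 1 1 : ℂ) with hden
  set num : ℂ := (g 0 0 : ℂ) * z + (g 0 1 : ℂ) with hnum
  have hdet : g 0 0 * g 1 1 - g 0 1 * g 1 0 = 1 := by
    have := g.det_coe
    rw [Matrix.det_fin_two] at this
    exact this
  have hden_ne : den ≠ 0 := by
    intro h
    have him : g 1 0 * z.im = 0 := by
      have := congrArg Complex.im h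
      simpa [hden] using this
    have hr : g 1 0 = 0 := (mul_eq_zero.1 him).resolve_right hzim.ne'
    have hre : g 1 1 = 0 := by
      have := congrArg Complex.re h
      simpa [hden, hr] using this
    rw [hr, hre] at hdet
    norm_num at hdet
  have hgz : ((g • z : ℍ) : ℂ) = num / den := by
    have := coe_specialLinearGroup_apply g z
    simpa [hnum, hden] using this
  have hmul : ((g • z : ℍ) : ℂ) * den = num := by
    rw [hgz]; field_simp
  have hdn : ‖den‖ ^ 2 * (g • z).im = z.im := by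
    have h1 : (g • z).im = (num / den).im := by rw [← hgz]; rfl
    have h2 : (num / den).im = (num * (starRingEnd ℂ) den).im / ‖den‖ ^ 2 := by
      rw [div_eq_mul_inv, Complex.inv_def, ← mul_assoc, Complex.normSq_eq_norm_sq]
      rw [Complex.im_mul_ofReal]
      rw [div_eq_mul_inv]
    have h3 : (num * (starRingEnd ℂ) den).im = z.im := by
      simp only [hnum, hden, map_add, map_mul, Complex.conj_ofReal, Complex.mul_im, Complex.add_re,
        Complex.add_im, Complex.mul_re, Complex.ofReal_re, Complex.ofReal_im, Complex.conj_re,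
        Complex.conj_im, coe_im, coe_re]
      linear_combination z.im * hdet
    have h4 : ‖den‖ ^ 2 ≠ 0 := by
      have := norm_pos_iff.2 hden_ne
      positivity
    rw [h1, h2, h3]
    field_simp
  have hzimle : z.im ≤ C := by
    have := Complex.abs_im_le_norm (z : ℂ)
    rw [coe_im, abs_of_pos hzim] at this
    linarith
  have hden_le : ‖den‖ ≤ C := by
    have h1 : ‖den‖ ^ 2 = z.im * ((g • z).im)⁻¹ := by
      field_simp
      linarith
    have h2 : ‖den‖ ^ 2 ≤ C ^ 2 := by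
      rw [h1, sq]
      exact mul_le_mul hzimle hw' (inv_nonneg.2 hwim.le) hC0.le
    exact (abs_le_of_sq_le_sq' h2 hC0.le).2
  have hnum_le : ‖num‖ ≤ C ^ 2 := by
    rw [← hmul, norm_mul, sq]
    exact mul_le_mul hw hden_le (norm_nonneg _) hC0.le
  have hC2 : C ≤ C ^ 2 := by nlinarith
  have hC3 : C ^ 2 ≤ C ^ 3 := by nlinarith [sq_nonneg C]
  have hC4 : C ^ 3 ≤ C ^ 4 := by nlinarith [sq_nonneg C, pow_pos hC0 3]
  -- a general bound
  have key : ∀ (u v : ℝ) (D : ℝ), 0 ≤ D → ‖(u : ℂ) * z + (v : ℂ)‖ ≤ D →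
      |u| ≤ D * C ∧ |v| ≤ D + D * C * C := by
    intro u v D hD h
    have h1 : |u| * z.im ≤ D := by
      have h2 := Complex.abs_im_le_norm ((u : ℂ) * z + (v : ℂ))
      have h3 : ((u : ℂ) * z + (v : ℂ)).im = u * z.im := by simp
      rw [h3, abs_mul, abs_of_pos hzim] at h2
      linarith
    have h2 : |u| ≤ D * C := by
      calc |u| = |u| * z.im * (z.im)⁻¹ := by field_simp
        _ ≤ D * C := mul_le_mul h1 hz' (inv_nonneg.2 hzim.le) hD
    refine ⟨h2, ?_⟩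
    have h4 : |v| = ‖((u : ℂ) * z + (v : ℂ)) - (u : ℂ) * z‖ := by
      rw [add_sub_cancel_left, Complex.norm_real, Real.norm_eq_abs]
    rw [h4]
    refine (norm_sub_le _ _).trans (add_le_add h ?_)
    rw [norm_mul, Complex.norm_real, Real.norm_eq_abs]
    exact mul_le_mul h2 hz (norm_nonneg _) (by positivity)
  obtain ⟨k1, k2⟩ := key (g 1 0) (g 1 1) C hC0.le hden_le
  obtain ⟨k3, k4⟩ := key (g 0 0) (g 0 1) (C ^ 2) (by positivity) hnum_le
  refine ⟨?_, ?_, ?_, ?_⟩ <;> nlinarith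

theorem pf_pd_finite (B : ℝ) : {x : O | |(x.re : ℝ)| ≤ B ∧ |(x.imI : ℝ)| ≤ B ∧
    |(x.imJ : ℝ)| ≤ B ∧ |(x.imK : ℝ)| ≤ B}.Finite := by
  set n : ℤ := ⌈B⌉ with hn
  have hfin : ((Set.Icc (-n) n) ×ˢ ((Set.Icc (-n) n) ×ˢ ((Set.Icc (-n) n) ×ˢ
      (Set.Icc (-n) n))) : Set (ℤ × ℤ × ℤ × ℤ)).Finite :=
    (Set.finite_Icc _ _).prod ((Set.finite_Icc _ _).prod ((Set.finite_Icc _ _).prod
      (Set.finite_Icc _ _)))
  refine (hfin.image (fun t : ℤ × ℤ × ℤ × ℤ => (⟨t.1, t.2.1, t.2.2.1, t.2.2.2⟩ : O))).subset ?_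
  rintro ⟨a, b, c, d⟩ ⟨h1, h2, h3, h4⟩
  simp only at h1 h2 h3 h4
  have key : ∀ a : ℤ, |(a : ℝ)| ≤ B → a ∈ Set.Icc (-n) n := by
    intro a ha
    have h5 : |(a : ℝ)| ≤ n := ha.trans (Int.le_ceil B)
    have h6 : |a| ≤ n := by exact_mod_cast h5
    exact abs_le.1 h6
  exact ⟨(a, b, c, d), ⟨key a h1, key b h2, key c h3, key d h4⟩, rfl⟩

theorem pf_pd_coord (a b : ℤ) (B : ℝ) (h1 : |(a : ℝ) + b * gr| ≤ B) (h2 : |(a : ℝ) + b * gc| ≤ B) :
    |(a : ℝ)| ≤ 5 * B ∧ |(b : ℝ)| ≤ 5 * B := by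
  have h5 : (1 : ℝ) ≤ √5 := by
    rw [Real.one_le_sqrt]; norm_num
  have h5' : √5 ≤ 3 := by
    rw [Real.sqrt_le_left (by norm_num)]; norm_num
  have hb : |(b : ℝ)| * √5 ≤ 2 * B := by
    have h3 : (b : ℝ) * √5 = ((a : ℝ) + b * gr) - ((a : ℝ) + b * gc) := by
      unfold gr gc; ring
    have h4 : |(b : ℝ) * √5| ≤ 2 * B := by
      rw [h3]
      refine (abs_sub _ _).trans ?_
      linarith
    rwa [abs_mul, abs_of_pos (by linarith : (0 : ℝ) < √5)] at h4
  have hb' : |(b : ℝ)| ≤ 2 * B := by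
    have := abs_nonneg (b : ℝ)
    nlinarith
  have hB : 0 ≤ B := (abs_nonneg _).trans h1
  have hgr : |gr| ≤ 2 := by
    unfold gr
    rw [abs_of_pos (by positivity)]
    linarith
  refine ⟨?_, by linarith⟩
  have h6 : (a : ℝ) = ((a : ℝ) + b * gr) - b * gr := by ring
  rw [h6]
  refine (abs_sub _ _).trans ?_
  rw [abs_mul]
  have h7 : |(b : ℝ)| * |gr| ≤ (2 * B) * 2 :=
    mul_le_mul hb' hgr (abs_nonneg _) (by linarith)
  linarith

theorem pf_pd : SPd := by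
  intro K hK
  obtain ⟨C1, hC1⟩ := hK.exists_bound_of_continuousOn (f := fun z : ℍ => (z : ℂ))
    UpperHalfPlane.continuous_coe.continuousOn
  obtain ⟨C2, hC2⟩ := hK.exists_bound_of_continuousOn (f := fun z : ℍ => (z.im)⁻¹)
    ((UpperHalfPlane.continuous_im.inv₀ (fun z => z.im_ne_zero)).continuousOn)
  set C : ℝ := max 1 (max C1 C2) with hC
  have hCa : 1 ≤ C := le_max_left _ _
  have hCb : C1 ≤ C := (le_max_left _ _).trans (le_max_right _ _)
  have hCc : C2 ≤ C := (le_max_right _ _).trans (le_max_right _ _)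
  have hfin := (pf_pd_finite (5 * (2 * C ^ 4))).image (fun x : O => rho x)
  refine Set.Finite.of_finite_image (f := fun g : SL(2, ℝ) => g.1) (hfin.subset ?_) ?_
  · rintro M ⟨g, ⟨hg, w, ⟨z, hz, hgz⟩, hw⟩, rfl⟩
    obtain ⟨x, hx, hgx⟩ := hg
    simp only at hgz
    subst hgz
    have e1 := hC1 z hz
    have e2 := hC1 (g • z) hw
    have e3 := hC2 z hz
    have e4 := hC2 (g • z) hw
    rw [Real.norm_eq_abs, abs_of_pos (inv_pos.2 z.im_pos)] at e3
    rw [Real.norm_eq_abs, abs_of_pos (inv_pos.2 (g • z).im_pos)] at e4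
    obtain ⟨b1, b2, b3, b4⟩ := pf_pd_entries g z C hCa (e1.trans hCb) (e3.trans hCc)
      (e2.trans hCb) (e4.trans hCc)
    have f1 : g 0 0 = (x.re : ℝ) + x.imI * gr := by
      show g.1 0 0 = _
      rw [hgx, rho_apply]; simp [mat]
    have f2 : g 0 1 = 13 * ((x.imJ : ℝ) + x.imK * gr) := by
      show g.1 0 1 = _
      rw [hgx, rho_apply]; simp [mat]
    have f3 : g 1 0 = (x.imJ : ℝ) + x.imK * gc := by
      show g.1 1 0 = _
      rw [hgx, rho_apply]; simp [mat]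
    have f4 : g 1 1 = (x.re : ℝ) + x.imI * gc := by
      show g.1 1 1 = _
      rw [hgx, rho_apply]; simp [mat]
    rw [f1] at b1
    rw [f2, abs_mul, abs_of_pos (by norm_num : (0 : ℝ) < 13)] at b2
    rw [f3] at b3
    rw [f4] at b4
    have b2' : |(x.imJ : ℝ) + x.imK * gr| ≤ 2 * C ^ 4 := by
      have := abs_nonneg ((x.imJ : ℝ) + x.imK * gr)
      linarith
    obtain ⟨c1, c2⟩ := pf_pd_coord _ _ _ b1 b4
    obtain ⟨c3, c4⟩ := pf_pd_coord _ _ _ b2' b3
    exact ⟨x, ⟨c1, c2, c3, c4⟩, hgx.symm⟩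
  · intro g _ h _ hgh
    exact Subtype.ext hgh

end Pool.Agent.H852PC
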