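import Pool.Agent.H852PC.StmA

set_option autoImplicit false

open scoped MatrixGroups UpperHalfPlane ContDiff Topology
open MeasureTheory UpperHalfPlane Filter

noncomputable section

namespace Pool.Agent.H852PC

open Pool.Agent.Y262.EG Pool.Agent.Y262.EX

/-- the domain -/
def pf_sa_Om : Set ℂ := {z | 0 < z.im}

/-- the action -/
def pf_sa_a (Γ : Subgroup SL(2, ℝ)) (g : Γ) (z : ℂ) : ℂ := (((g : SL(2, ℝ)) • ofComplex z : ℍ) : ℂ)

/-- the metric -/
def pf_sa_phi (z : ℂ) : ℝ := -Real.log z.im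

lemma pf_sa_coe {z : ℂ} (hz : z ∈ pf_sa_Om) : ((ofComplex z : ℍ) : ℂ) = z := by
  rw [ofComplex_apply_of_im_pos hz]

lemma pf_sa_mem (z : ℍ) : (z : ℂ) ∈ pf_sa_Om := z.im_pos

lemma pf_sa_open : IsOpen pf_sa_Om := isOpen_lt continuous_const Complex.continuous_im

lemma pf_sa_a_coe (Γ : Subgroup SL(2, ℝ)) (g : Γ) (z : ℍ) :
    pf_sa_a Γ g z = (((g : SL(2, ℝ)) • z : ℍ) : ℂ) := by
  unfold pf_sa_a
  rw [ofComplex_apply]

lemma pf_sa_det (g : SL(2, ℝ)) : (Matrix.SpecialLinearGroup.mapGL ℝ g).val.det = 1 := by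
  have h := Matrix.SpecialLinearGroup.det_mapGL (R := ℝ) (S := ℝ) g
  have h2 := congrArg Units.val h
  simp

lemma pf_sa_deriv (Γ : Subgroup SL(2, ℝ)) (g : Γ) (z : ℍ) :
    HasDerivAt (pf_sa_a Γ g)
      (1 / denom (Matrix.SpecialLinearGroup.mapGL ℝ (g : SL(2, ℝ))) z ^ 2) (z : ℂ) := by
  have h := hasStrictDerivAt_smul (g := Matrix.SpecialLinearGroup.mapGL ℝ (g : SL(2, ℝ)))
    (by rw [pf_sa_det]; exact one_pos) z
  rw [pf_sa_det, Complex.ofReal_one] at h
  exact h.hasDerivAt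

lemma pf_sa_im (g : SL(2, ℝ)) (z : ℍ) :
    (g • z : ℍ).im = z.im / Complex.normSq (denom (Matrix.SpecialLinearGroup.mapGL ℝ g) z) := by
  have h := im_smul_eq_div_normSq (Matrix.SpecialLinearGroup.mapGL ℝ g) z
  have h2 : (Matrix.SpecialLinearGroup.mapGL ℝ g).det.val = 1 := pf_sa_det g
  rw [h2, abs_one, one_mul] at h
  exact h

lemma pf_sa_neg (z : ℍ) : ((-1 : SL(2, ℝ)) • z : ℍ) = z := by
  apply UpperHalfPlane.ext
  rw [coe_specialLinearGroup_apply]
  simp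

lemma pf_sa_act (Γ : Subgroup SL(2, ℝ)) (h1 : ∀ g ∈ Γ, ∀ z : ℍ, g • z = z → g = 1 ∨ g = -1)
    (h2 : ∀ K : Set ℍ, IsCompact K →
      {g : SL(2, ℝ) | g ∈ Γ ∧ ((fun z : ℍ => g • z) '' K ∩ K).Nonempty}.Finite)
    (h3 : ∃ K : Set ℍ, IsCompact K ∧ ∀ z : ℍ, ∃ g ∈ Γ, g • z ∈ K) :
    Act Γ pf_sa_Om (pf_sa_a Γ) where
  opn := pf_sa_open
  conn := (convex_halfSpace_im_gt 0).isPreconnected
  ne := ⟨Complex.I, by simp [pf_sa_Om]⟩
  maps γ z _ := ((γ : SL(2, ℝ)) • ofComplex z : ℍ).im_pos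
  one z hz := by
    unfold pf_sa_a
    rw [Subgroup.coe_one, one_smul, pf_sa_coe hz]
  mul γ γ' z _ := by
    unfold pf_sa_a
    rw [ofComplex_apply, Subgroup.coe_mul, mul_smul]
  hol γ z hz := by
    have := (pf_sa_deriv Γ γ ⟨z, hz⟩).differentiableAt
    exact this.differentiableWithinAt
  free γ z hz he w hw := by
    have h4 : ((γ : SL(2, ℝ)) • (⟨z, hz⟩ : ℍ)) = ⟨z, hz⟩ := by
      apply UpperHalfPlane.ext
      have h5 := pf_sa_a_coe Γ γ ⟨z, hz⟩
      rw [← h5]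
      exact he
    have h6 := pf_sa_a_coe Γ γ ⟨w, hw⟩
    have h7 : pf_sa_a Γ γ w = (((γ : SL(2, ℝ)) • (⟨w, hw⟩ : ℍ) : ℍ) : ℂ) := h6
    rw [h7]
    rcases h1 γ γ.2 _ h4 with h8 | h8
    · rw [h8, one_smul]
    · rw [h8, pf_sa_neg]
  fin K hK hKΩ := by
    set K' : Set ℍ := UpperHalfPlane.coe ⁻¹' K with hK'
    have hKK : UpperHalfPlane.coe '' K' = K := by
      rw [hK', Set.image_preimage_eq_iff]
      intro z hz
      exact ⟨⟨z, hKΩ hz⟩, rfl⟩
    have hc : IsCompact K' := by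
      rw [isEmbedding_coe.isCompact_iff, hKK]
      exact hK
    refine ((h2 K' hc).preimage Subtype.val_injective.injOn).subset ?_
    rintro γ ⟨_, ⟨z, hz, rfl⟩, hz2⟩
    refine ⟨γ.2, (γ : SL(2, ℝ)) • (⟨z, hKΩ hz⟩ : ℍ), ⟨⟨z, hKΩ hz⟩, hz, rfl⟩, ?_⟩
    change (((γ : SL(2, ℝ)) • (⟨z, hKΩ hz⟩ : ℍ) : ℍ) : ℂ) ∈ K
    rw [← pf_sa_a_coe]
    exact hz2
  cpt := by
    obtain ⟨K, hK, hK2⟩ := h3
    refine ⟨UpperHalfPlane.coe '' K, hK.image continuous_coe, ?_, fun z hz => ?_⟩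
    · rintro _ ⟨z, -, rfl⟩
      exact z.im_pos
    · obtain ⟨g, hg, hgz⟩ := hK2 ⟨z, hz⟩
      refine ⟨⟨g, hg⟩, ?_⟩
      have h5 := pf_sa_a_coe Γ ⟨g, hg⟩ ⟨z, hz⟩
      have h6 : pf_sa_a Γ ⟨g, hg⟩ z = ((g • (⟨z, hz⟩ : ℍ) : ℍ) : ℂ) := h5
      rw [h6]
      exact ⟨_, hgz, rfl⟩

lemma pf_sa_inva (Γ : Subgroup SL(2, ℝ)) : Inva pf_sa_Om pf_sa_phi (pf_sa_a Γ) := by
  constructor
  · unfold pf_sa_phi
    refine ContDiffOn.neg (ContDiffOn.log ?_ fun z hz => (ne_of_gt hz))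
    exact Complex.imCLM.contDiff.contDiffOn
  · intro γ z hz
    have hd := (pf_sa_deriv Γ γ ⟨z, hz⟩).deriv
    have hd' : deriv (pf_sa_a Γ γ) z =
        1 / denom (Matrix.SpecialLinearGroup.mapGL ℝ (γ : SL(2, ℝ))) (⟨z, hz⟩ : ℍ) ^ 2 := hd
    have hne : denom (Matrix.SpecialLinearGroup.mapGL ℝ (γ : SL(2, ℝ))) (⟨z, hz⟩ : ℍ) ≠ 0 :=
      denom_ne_zero _ _
    constructor
    · rw [hd']
      exact one_div_ne_zero (pow_ne_zero _ hne)
    · have him := pf_sa_im (γ : SL(2, ℝ)) ⟨z, hz⟩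
      have h7 : pf_sa_a Γ γ z = (((γ : SL(2, ℝ)) • (⟨z, hz⟩ : ℍ) : ℍ) : ℂ) :=
        pf_sa_a_coe Γ γ ⟨z, hz⟩
      unfold pf_sa_phi
      rw [hd', h7]
      have h8 : ((((γ : SL(2, ℝ)) • (⟨z, hz⟩ : ℍ) : ℍ) : ℂ)).im =
        z.im / Complex.normSq (denom (Matrix.SpecialLinearGroup.mapGL ℝ (γ : SL(2, ℝ)))
          (⟨z, hz⟩ : ℍ)) := him
      have hz0 : z.im ≠ 0 := ne_of_gt hz
      have hn0 : Complex.normSq (denom (Matrix.SpecialLinearGroup.mapGL ℝ (γ : SL(2, ℝ)))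
          (⟨z, hz⟩ : ℍ)) ≠ 0 := fun h => hne (Complex.normSq_eq_zero.1 h)
      rw [h8, Real.log_div hz0 hn0, norm_div, norm_one, norm_pow, ← Complex.normSq_eq_norm_sq,
        Real.log_div one_ne_zero hn0, Real.log_one]
      ring

/-- comparison of the Laplacians -/
lemma pf_sa_lap {f : ℍ → ℝ} {w : ℂ → ℝ} (h : ∀ z ∈ pf_sa_Om, f (ofComplex z) = w z) (z : ℍ) :
    lap f z = Real.exp (-2 * pf_sa_phi z) * Pool.Agent.Y262.EL.lap w z := by
  have hn : pf_sa_Om ∈ 𝓝 (z : ℂ) := pf_sa_open.mem_nhds z.im_pos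
  have e0 : ∀ y ∈ pf_sa_Om, (f ∘ ofComplex) =ᶠ[𝓝 y] w := by
    intro y hy
    filter_upwards [pf_sa_open.mem_nhds hy] with x hx
    exact h x hx
  have e1 : dx (f ∘ ofComplex) =ᶠ[𝓝 (z : ℂ)] px w := by
    filter_upwards [hn] with y hy
    unfold dx px
    rw [(e0 y hy).fderiv_eq]
  have e2 : dy (f ∘ ofComplex) =ᶠ[𝓝 (z : ℂ)] py w := by
    filter_upwards [hn] with y hy
    unfold dy py
    rw [(e0 y hy).fderiv_eq]
  have e3 : dx (dx (f ∘ ofComplex)) z = px (px w) z := by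
    unfold dx px at *
    rw [e1.fderiv_eq]
  have e4 : dy (dy (f ∘ ofComplex)) z = py (py w) z := by
    unfold dy py at *
    rw [e2.fderiv_eq]
  unfold lap Pool.Agent.Y262.EL.lap
  rw [e3, e4]
  congr 1
  unfold pf_sa_phi
  have hp : 0 < (z : ℂ).im := z.im_pos
  have : -2 * -Real.log (z : ℂ).im = Real.log ((z : ℂ).im ^ 2) := by
    rw [Real.log_pow]
    push_cast
    ring
  rw [this, Real.exp_log (by positivity)]
  rfl

theorem pf_sa (h : SBasis) : SAn := by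
  classical
  intro Γ h1 h2 h3
  obtain ⟨M, _, _, pr, u, L, hP, hmono, hnn, hli, hu, hspan, c, hc, hcount⟩ :=
    h Γ pf_sa_Om (pf_sa_a Γ) pf_sa_phi (pf_sa_act Γ h1 h2 h3) (pf_sa_inva Γ)
  refine ⟨fun k => Real.sqrt (L k), ?_, c, hc, ?_⟩
  · -- the spectrum
    have htend : Tendsto L atTop atTop := by
      refine tendsto_atTop_atTop_of_monotone hmono fun B => ?_
      by_contra hcon
      push Not at hcon
      have h4 : (fun T : ℝ => (Set.ncard {k | L k ≤ T} : ℝ) / T) =ᶠ[atTop] fun _ => 0 := by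
        filter_upwards [eventually_ge_atTop B] with T hT
        have h5 : {k | L k ≤ T} = Set.univ := by
          ext k
          simp only [Set.mem_ofPred_eq, Set.mem_univ, iff_true]
          exact (hcon k).le.trans hT
        rw [h5, Set.ncard_univ, Nat.card_eq_zero_of_infinite]
        simp
      have h6 := hcount.congr' h4
      have h7 := tendsto_nhds_unique h6 tendsto_const_nhds
      exact hc.ne' h7
    refine ⟨fun i j hij => Real.sqrt_le_sqrt (hmono hij), fun k => Real.sqrt_nonneg _,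
      Real.tendsto_sqrt_atTop.comp htend, fun t ht => ?_⟩
    -- the linear map
    let F : (M → ℝ) →ₗ[ℝ] (ℍ → ℝ) := LinearMap.funLeft ℝ ℝ (fun z : ℍ => pr z)
    have hsurj : Function.Surjective (fun z : ℍ => pr z) := by
      intro m
      have : m ∈ pr '' pf_sa_Om := by
        rw [hP.surj]
        exact Set.mem_univ m
      obtain ⟨z, hz, rfl⟩ := this
      exact ⟨⟨z, hz⟩, rfl⟩
    have hF : Function.Injective F := LinearMap.funLeft_injective_of_surjective ℝ ℝ _ hsurj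
    have hFa : ∀ (v : M → ℝ) (z : ℍ), F v z = v (pr z) := fun v z => rfl
    have hinv : ∀ g ∈ Γ, ∀ z : ℍ, pr ((g • z : ℍ) : ℂ) = pr z := by
      intro g hg z
      refine ((hP.rel z z.im_pos _ (g • z : ℍ).im_pos).2 ⟨⟨g, hg⟩, ?_⟩).symm
      rw [pf_sa_a_coe]
    have hrel : ∀ z w : ℍ, pr z = pr w → ∃ g ∈ Γ, g • z = w := by
      intro z w hzw
      obtain ⟨γ, hγ⟩ := (hP.rel z z.im_pos w w.im_pos).1 hzw
      refine ⟨γ, γ.2, UpperHalfPlane.ext ?_⟩
      rw [← pf_sa_a_coe]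
      exact hγ
    let S : Set ℕ := {k | L k = t ^ 2}
    let v : S → (ℍ → ℝ) := fun k => F (u k.1)
    have hv : LinearIndependent ℝ v :=
      (hli.comp (fun k : S => k.1) Subtype.val_injective).map' F (LinearMap.ker_eq_bot.2 hF)
    have heig : eigenspace Γ (t ^ 2) = Submodule.span ℝ (Set.range v) := by
      apply le_antisymm
      · intro f hf
        obtain ⟨hf1, hf2, hf3⟩ := hf
        let w : M → ℝ := fun m => f (hsurj m).choose
        have hw : ∀ z : ℍ, w (pr z) = f z := by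
          intro z
          have h4 := (hsurj (pr z)).choose_spec
          obtain ⟨g, hg, hgz⟩ := hrel _ _ h4
          have h5 := hf2 g hg (hsurj (pr z)).choose
          rw [hgz] at h5
          exact h5.symm
        have hw' : ∀ z ∈ pf_sa_Om, f (ofComplex z) = w (pr z) := by
          intro z hz
          rw [← hw, pf_sa_coe hz]
        have hsm : ContDiffOn ℝ ∞ (fun z => w (pr z)) pf_sa_Om :=
          hf1.congr fun z hz => (hw' z hz).symm
        have hws := hspan (t ^ 2) w hsm fun z hz => by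
          have h4 := hf3 ⟨z, hz⟩
          rw [pf_sa_lap (w := fun z => w (pr z)) hw'] at h4
          have h5 : f ⟨z, hz⟩ = w (pr z) := (hw ⟨z, hz⟩).symm
          rw [h5] at h4
          exact h4
        have hFw : F w = f := funext fun z => hw z
        rw [← hFw]
        have h6 : Submodule.map F (Submodule.span ℝ (u '' {k | L k = t ^ 2})) ≤
            Submodule.span ℝ (Set.range v) := by
          rw [Submodule.map_span]
          apply Submodule.span_mono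
          rintro _ ⟨_, ⟨k, hk, rfl⟩, rfl⟩
          exact ⟨⟨k, hk⟩, rfl⟩
        exact h6 (Submodule.mem_map_of_mem hws)
      · rw [Submodule.span_le]
        rintro _ ⟨k, rfl⟩
        obtain ⟨hk1, hk2⟩ := hu k.1
        have hkc : ∀ z ∈ pf_sa_Om, (v k) (ofComplex z) = u k.1 (pr z) := by
          intro z hz
          change u k.1 (pr ((ofComplex z : ℍ) : ℂ)) = _
          rw [pf_sa_coe hz]
        refine ⟨hk1.congr fun z hz => hkc z hz, fun g hg z => ?_, fun z => ?_⟩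
        · change u k.1 (pr ((g • z : ℍ) : ℂ)) = u k.1 (pr z)
          rw [hinv g hg]
        · rw [pf_sa_lap (w := fun z => u k.1 (pr z)) hkc]
          have h4 := hk2 z z.im_pos
          have h5 : L k.1 = t ^ 2 := k.2
          rw [h5] at h4
          exact h4
    have hS : {k : ℕ | (fun k => Real.sqrt (L k)) k = t} = S := by
      ext k
      simp only [Set.mem_ofPred_eq, S]
      constructor
      · intro hk
        rw [← hk, Real.sq_sqrt (hnn k)]
      · intro hk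
        rw [hk, Real.sqrt_sq ht]
    rw [hS, heig, rank_span hv, Cardinal.mk_range_eq v hv.injective]
  · have : ∀ T : ℝ, {k : ℕ | Real.sqrt (L k) ^ 2 ≤ T} = {k | L k ≤ T} := by
      intro T
      ext k
      simp only [Set.mem_ofPred_eq]
      rw [Real.sq_sqrt (hnn k)]
    simp only [this]
    exact hcount

end Pool.Agent.H852PC
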