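/- JOB of helper852 (MP_7a2702_mp, Poisson pair correlation fails for an arithmetic surface).
  Get the imported files (on origin/main, light imports):
  cd /workdir/pool && git -C outputs/live fetch -q && mkdir -p Pool/Agent/H852PC && for f in Defs Alg StmB; do
  git -C outputs/live show origin/main:Pool/Agent/H852PC/$f.lean > Pool/Agent/H852PC/$f.lean; done; lake build Pool.Agent.H852PC.StmB
  All definitions (O, nrd, trd, rho, mat, th7, th17, UU, La, Ga, gl, Gs, TT, ...) and the statements S... are in these files: read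
  them first. Prove the TARGET exactly as stated (hypotheses S... are proved in other jobs), return the whole file in result;
  auxiliary lemmas before it are welcome (give them names beginning with the theorem name). If the statement is false as written
  or a hypothesis is missing, tell me in note. Do not use the words macro, notation, syntax, prefix, tactic, partial, meta
  outside comments, and no straight double quote. -/
import Pool.Agent.H852PC.StmB

set_option autoImplicit false

open scoped MatrixGroups UpperHalfPlane ContDiff Topology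
open MeasureTheory UpperHalfPlane Filter

noncomputable section

namespace Pool.Agent.H852PC

/-- the quaternion of trace zero and norm 1035 -/
def pf_sc1_x : O := ⟨25, -50, 8, 24⟩

theorem pf_sc1_sq : rho pf_sc1_x * rho pf_sc1_x =
    (-1035 : ℝ) • (1 : Matrix (Fin 2) (Fin 2) ℝ) := by
  rw [← map_mul]
  have h : pf_sc1_x * pf_sc1_x = ((-1035 : ℤ) : O) := by
    ext <;> simp only [pf_sc1_x, QuaternionAlgebra.re_mul, QuaternionAlgebra.imI_mul,
      QuaternionAlgebra.imJ_mul, QuaternionAlgebra.imK_mul, QuaternionAlgebra.re_intCast,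
      QuaternionAlgebra.imI_intCast, QuaternionAlgebra.imJ_intCast, QuaternionAlgebra.imK_intCast,
      Int.cast_id] <;> norm_num
  rw [h, rho_intCast]
  norm_num

theorem pf_sc1_s (s : ℝ) : (Real.sin s / √1035) ^ 2 * 1035 = Real.sin s ^ 2 := by
  have h : √1035 ^ 2 = (1035 : ℝ) := Real.sq_sqrt (by norm_num)
  rw [div_pow, h]
  ring

theorem pf_sc1_det (s : ℝ) : (Real.cos s • (1 : Matrix (Fin 2) (Fin 2) ℝ) +
    (Real.sin s / √1035) • rho pf_sc1_x).det = 1 := by
  have h1 := pf_sc1_s s
  have h2 := Real.cos_sq_add_sin_sq s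
  have h := gr_sq
  rw [rho_apply, mat, Matrix.det_fin_two]
  simp only [pf_sc1_x, gc_eq, Matrix.add_apply, Matrix.smul_apply, Matrix.one_apply_eq,
    Matrix.of_apply, Matrix.cons_val', Matrix.cons_val_zero, Matrix.cons_val_one,
    Matrix.cons_val_fin_one, smul_eq_mul, ne_eq, one_ne_zero, zero_ne_one, not_false_eq_true,
    Matrix.one_apply_ne]
  push_cast
  linear_combination h2 + h1 + 4988 * (Real.sin s / √1035) ^ 2 * h

/-- the one-parameter group -/
def pf_sc1_R (s : ℝ) : SL(2, ℝ) :=
  ⟨Real.cos s • (1 : Matrix (Fin 2) (Fin 2) ℝ) + (Real.sin s / √1035) • rho pf_sc1_x,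
    pf_sc1_det s⟩

theorem pf_sc1_add (s t : ℝ) : pf_sc1_R (s + t) = pf_sc1_R s * pf_sc1_R t := by
  apply Subtype.ext
  rw [Matrix.SpecialLinearGroup.coe_mul]
  show Real.cos (s + t) • (1 : Matrix (Fin 2) (Fin 2) ℝ) + (Real.sin (s + t) / √1035) •
    rho pf_sc1_x = (Real.cos s • (1 : Matrix (Fin 2) (Fin 2) ℝ) + (Real.sin s / √1035) •
    rho pf_sc1_x) * (Real.cos t • (1 : Matrix (Fin 2) (Fin 2) ℝ) + (Real.sin t / √1035) •
    rho pf_sc1_x)
  have key : ∀ (a b c d : ℝ) (X : Matrix (Fin 2) (Fin 2) ℝ),
      (a • (1 : Matrix (Fin 2) (Fin 2) ℝ) + b • X) * (c • (1 : Matrix (Fin 2) (Fin 2) ℝ) + d • X) =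
        (a * c) • (1 : Matrix (Fin 2) (Fin 2) ℝ) + (a * d + b * c) • X + (b * d) • (X * X) := by
    intro a b c d X
    simp only [mul_add, add_mul, smul_mul_assoc, mul_smul_comm, one_mul, mul_one]
    module
  rw [key, pf_sc1_sq, smul_smul, Real.cos_add, Real.sin_add]
  have h : √1035 * √1035 = (1035 : ℝ) := Real.mul_self_sqrt (by norm_num)
  have h0 : √1035 ≠ 0 := by
    intro h0
    rw [h0] at h
    norm_num at h
  have e1 : Real.sin s / √1035 * (Real.sin t / √1035) * -1035 = -(Real.sin s * Real.sin t) := by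
    rw [div_mul_div_comm, h]
    ring
  rw [e1]
  have e2 : Real.cos s * (Real.sin t / √1035) + Real.sin s / √1035 * Real.cos t =
      (Real.sin s * Real.cos t + Real.cos s * Real.sin t) / √1035 := by
    field_simp
    ring
  rw [e2]
  module

theorem pf_sc1_zero : pf_sc1_R 0 = 1 := by
  apply Subtype.ext
  simp [pf_sc1_R]

theorem pf_sc1_two_pi : pf_sc1_R (2 * Real.pi) = 1 := by
  apply Subtype.ext
  simp [pf_sc1_R]

theorem pf_sc1_ww : pf_sc1_R (Real.arccos (11 / 34)) = gl ww := by
  have hn : nrd ww = 289 := by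
    simp only [nrd, ww]
    norm_num
  have hpos : 0 < nrd ww := by rw [hn]; norm_num
  have h : √1035 * √1035 = (1035 : ℝ) := Real.mul_self_sqrt (by norm_num)
  have h0 : 0 < √1035 := Real.sqrt_pos.mpr (by norm_num)
  have hsin : Real.sin (Real.arccos (11 / 34)) = √1035 / 34 := by
    rw [Real.sin_arccos, Real.sqrt_eq_iff_mul_self_eq (by norm_num) (by positivity)]
    rw [div_mul_div_comm, h]
    norm_num
  have hcos : Real.cos (Real.arccos (11 / 34)) = 11 / 34 :=
    Real.cos_arccos (by norm_num) (by norm_num)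
  have hgl : (gl ww).1 = (√(nrd ww : ℝ))⁻¹ • rho ww := by
    unfold gl
    · rfl
  apply Subtype.ext
  show Real.cos (Real.arccos (11 / 34)) • (1 : Matrix (Fin 2) (Fin 2) ℝ) +
    (Real.sin (Real.arccos (11 / 34)) / √1035) • rho pf_sc1_x = (gl ww).1
  rw [hgl]
  have h17 : √((nrd ww : ℤ) : ℝ) = 17 := by
    rw [hn, Real.sqrt_eq_iff_mul_self_eq (by norm_num) (by norm_num)]
    norm_num
  have hx : pf_sc1_x = ww + ww - ((11 : ℤ) : O) := by
    ext <;> simp only [pf_sc1_x, ww, QuaternionAlgebra.re_add, QuaternionAlgebra.imI_add,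
      QuaternionAlgebra.imJ_add, QuaternionAlgebra.imK_add, QuaternionAlgebra.re_sub,
      QuaternionAlgebra.imI_sub, QuaternionAlgebra.imJ_sub, QuaternionAlgebra.imK_sub,
      QuaternionAlgebra.re_intCast, QuaternionAlgebra.imI_intCast, QuaternionAlgebra.imJ_intCast,
      QuaternionAlgebra.imK_intCast, Int.cast_id] <;> norm_num
  rw [h17, hsin, hcos, hx, map_sub, map_add, rho_intCast]
  have e1 : √1035 / 34 / √1035 = (1 : ℝ) / 34 := by
    field_simp
  rw [e1]
  push_cast
  module

theorem pf_sc1_cont : Continuous pf_sc1_R := by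
  unfold pf_sc1_R
  refine Continuous.subtype_mk ?_ _
  exact (Real.continuous_cos.smul continuous_const).add
    ((Real.continuous_sin.div_const _).smul continuous_const)

theorem pf_sc1_irr : Irrational (Real.arccos (11 / 34) / (2 * Real.pi)) := by
  rintro ⟨q, hq⟩
  have hpi : (2 * Real.pi) ≠ 0 := by positivity
  have h1 : Real.arccos (11 / 34) = ((2 * q : ℚ) : ℝ) * Real.pi := by
    rw [eq_div_iff hpi] at hq
    rw [← hq]
    push_cast
    ring
  have hcos : Real.cos (Real.arccos (11 / 34)) = 11 / 34 :=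
    Real.cos_arccos (by norm_num) (by norm_num)
  have h2 := niven ⟨2 * q, h1⟩ ⟨11 / 34, by rw [hcos]; norm_num⟩
  rw [hcos] at h2
  simp only [Set.mem_insert_iff, Set.mem_singleton_iff] at h2
  norm_num at h2

theorem pf_sc1 (f : ℍ → ℝ) (hc : Continuous f) (hf : ∀ z : ℍ, f (gl ww • z) = f z) (s : ℝ) (g : SL(2, ℝ))
    (hg : g.1 = Real.cos s • (1 : Matrix (Fin 2) (Fin 2) ℝ) +
      (Real.sin s / √1035) • rho ⟨25, -50, 8, 24⟩) (z : ℍ) : f (g • z) = f z := by
  let S : AddSubgroup ℝ :=
    { carrier := {s | ∀ z : ℍ, f (pf_sc1_R s • z) = f z}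
      zero_mem' := by
        intro z
        rw [pf_sc1_zero, one_smul]
      add_mem' := by
        intro a b ha hb z
        rw [pf_sc1_add, mul_smul, ha, hb]
      neg_mem' := by
        intro a ha z
        have h1 := ha (pf_sc1_R (-a) • z)
        rw [smul_smul, ← pf_sc1_add, add_neg_cancel, pf_sc1_zero, one_smul] at h1
        exact h1.symm }
  have hcl : IsClosed (S : Set ℝ) := by
    have e : (S : Set ℝ) = ⋂ z : ℍ, {s | f (pf_sc1_R s • z) = f z} := by
      ext s
      simp only [Set.mem_iInter, Set.mem_ofPred_eq]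
      rfl
    rw [e]
    refine isClosed_iInter fun z => isClosed_eq ?_ continuous_const
    exact hc.comp (pf_sc1_cont.smul continuous_const)
  have hd := dense_addSubgroupClosure_pair_iff.mpr pf_sc1_irr
  have hle : AddSubgroup.closure {Real.arccos (11 / 34), 2 * Real.pi} ≤ S := by
    rw [AddSubgroup.closure_le]
    rintro x (rfl | hx)
    · intro z
      rw [pf_sc1_ww]
      exact hf z
    · rw [Set.mem_singleton_iff] at hx
      subst hx
      intro z
      rw [pf_sc1_two_pi, one_smul]
  have hs : s ∈ (S : Set ℝ) := by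
    have h1 := hd.mono (show _ ⊆ (S : Set ℝ) from hle)
    have h2 := h1.closure_eq
    rw [hcl.closure_eq] at h2
    rw [h2]
    trivial
  have hgs : g = pf_sc1_R s := Subtype.ext hg
  rw [hgs]
  exact hs z

end Pool.Agent.H852PC
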