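/- JOB of helper852 (MP_7a2702_mp, Poisson pair correlation fails for an arithmetic surface).
  Get the imported files (on origin/main, light imports):
  cd /workdir/pool && git -C outputs/live fetch -q && mkdir -p Pool/Agent/H852PC && for f in Defs Alg StmB; do
  git -C outputs/live show origin/main:Pool/Agent/H852PC/$f.lean > Pool/Agent/H852PC/$f.lean; done; lake build Pool.Agent.H852PC.StmB
  All definitions (O, nrd, trd, rho, mat, th7, th17, UU, La, Ga, gl, Gs, TT, ...) and the statements S... are in these files: read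
  them first. Prove the TARGET exactly as stated (hypotheses S... are proved in other jobs), return the whole file in result;
  auxiliary lemmas before it are welcome (give them names beginning with the theorem name). If the statement is false as written
  or a hypothesis is missing, tell me in note. Do not use the words macro, notation, syntax, prefix, tactic, partial, meta
  outside comments, and no straight double quote. -/
import Pool.Agent.H852PC.StmB

set_option autoImplicit false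

open scoped MatrixGroups UpperHalfPlane ContDiff Topology
open MeasureTheory UpperHalfPlane Filter

noncomputable section

namespace Pool.Agent.H852PC

/- PLAIN PROOF. X = !![a,b;c,-a] with -a² - bc = 1 (trace 0, det 1). R(s) = cos s·1 + sin s·X has det cos² s + sin² s = 1 (trace 0), so it is in SL(2,ℝ) and
f (R(s) • z) = f z for all s. R(s) • z = ((cos s + a sin s) z + b sin s)/(c sin s z + cos s - a sin s), with derivative in s at s = 0:
a z + b - z (c z - a) = b + 2 a z - c z². F = f ∘ ofComplex is differentiable at z (Sm f, the upper half plane is open), and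
F((R(s) • z : ℂ)) = f (R(s) • z) = f z is constant in s, so by the chain rule fderiv F z (b + 2 a z - c z²) = 0.
(UpperHalfPlane.specialLinearGroup_apply or similar gives the coercion of g • z.) -/
theorem pf_sc2 (f : ℍ → ℝ) (hf : Sm f) (X : Matrix (Fin 2) (Fin 2) ℝ) (ht : X.trace = 0) (hd : X.det = 1)
    (h : ∀ (s : ℝ) (g : SL(2, ℝ)), g.1 = Real.cos s • (1 : Matrix (Fin 2) (Fin 2) ℝ) + Real.sin s • X →
      ∀ z : ℍ, f (g • z) = f z) (z : ℍ) :
    fderiv ℝ (f ∘ ofComplex) (z : ℂ) ((X 0 1 : ℂ) + 2 * (X 0 0 : ℂ) * z - (X 1 0 : ℂ) * (z : ℂ) ^ 2) = 0 := by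
  have htr : X 1 1 = - X 0 0 := by
    rw [Matrix.trace_fin_two] at ht
    linarith
  have hdet : X 0 0 * X 1 1 - X 0 1 * X 1 0 = 1 := by
    rw [← hd, Matrix.det_fin_two]
  have hdet2 : ∀ s : ℝ, (Real.cos s • (1 : Matrix (Fin 2) (Fin 2) ℝ) + Real.sin s • X).det = 1 := by
    intro s
    rw [Matrix.det_fin_two]
    simp only [Matrix.add_apply, Matrix.smul_apply, smul_eq_mul, Matrix.one_apply_eq, mul_one]
    have e1 : (1 : Matrix (Fin 2) (Fin 2) ℝ) 0 1 = 0 := rfl
    have e2 : (1 : Matrix (Fin 2) (Fin 2) ℝ) 1 0 = 0 := rfl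
    rw [e1, e2]
    have := Real.sin_sq_add_cos_sq s
    rw [htr] at hdet ⊢
    linear_combination this + Real.sin s ^ 2 * hdet
  obtain ⟨w, hw⟩ : ∃ w : ℝ → ℂ, w = fun s : ℝ =>
    ((((Real.cos s + Real.sin s * X 0 0 : ℝ) : ℂ) * z + ((Real.sin s * X 0 1 : ℝ) : ℂ)) /
      (((Real.sin s * X 1 0 : ℝ) : ℂ) * z + ((Real.cos s + Real.sin s * X 1 1 : ℝ) : ℂ))) :=
    ⟨_, rfl⟩
  have hw0 : w 0 = (z : ℂ) := by
    rw [hw]
    simp
  have hcos : HasDerivAt Real.cos 0 0 := by
    simpa using Real.hasDerivAt_cos 0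
  have hsin : HasDerivAt Real.sin 1 0 := by
    simpa using Real.hasDerivAt_sin 0
  have hder : HasDerivAt w ((X 0 1 : ℂ) + 2 * (X 0 0 : ℂ) * z - (X 1 0 : ℂ) * (z : ℂ) ^ 2) 0 := by
    rw [hw]
    have n1 : HasDerivAt (fun s : ℝ => ((Real.cos s + Real.sin s * X 0 0 : ℝ) : ℂ))
        ((0 + 1 * X 0 0 : ℝ) : ℂ) 0 := (hcos.add (hsin.mul_const _)).ofReal_comp
    have n2 : HasDerivAt (fun s : ℝ => ((Real.sin s * X 0 1 : ℝ) : ℂ))
        ((1 * X 0 1 : ℝ) : ℂ) 0 := (hsin.mul_const _).ofReal_comp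
    have d1 : HasDerivAt (fun s : ℝ => ((Real.sin s * X 1 0 : ℝ) : ℂ))
        ((1 * X 1 0 : ℝ) : ℂ) 0 := (hsin.mul_const _).ofReal_comp
    have d2 : HasDerivAt (fun s : ℝ => ((Real.cos s + Real.sin s * X 1 1 : ℝ) : ℂ))
        ((0 + 1 * X 1 1 : ℝ) : ℂ) 0 := (hcos.add (hsin.mul_const _)).ofReal_comp
    have hN := (n1.mul_const (z : ℂ)).add n2
    have hD := (d1.mul_const (z : ℂ)).add d2
    have hD0 : (((Real.sin (0 : ℝ) * X 1 0 : ℝ) : ℂ) * z +
        ((Real.cos (0 : ℝ) + Real.sin (0 : ℝ) * X 1 1 : ℝ) : ℂ)) ≠ 0 := by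
      simp
    have h3 := hN.div hD hD0
    refine h3.congr_deriv ?_
    simp [htr]
    ring
  have hF : DifferentiableAt ℝ (f ∘ ofComplex) (z : ℂ) := by
    have hopen : {z : ℂ | 0 < z.im} ∈ 𝓝 (z : ℂ) :=
      (isOpen_lt continuous_const Complex.continuous_im).mem_nhds z.im_pos
    exact (hf.contDiffAt hopen).differentiableAt (by simp)
  have hcomp : ∀ s : ℝ, (f ∘ ofComplex) (w s) = f z := by
    intro s
    obtain ⟨g, hg⟩ : ∃ g : SL(2, ℝ), g.1 =
        Real.cos s • (1 : Matrix (Fin 2) (Fin 2) ℝ) + Real.sin s • X := ⟨⟨_, hdet2 s⟩, rfl⟩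
    have g00 : g 0 0 = Real.cos s + Real.sin s * X 0 0 := by
      change g.1 0 0 = _
      rw [hg]; simp
    have g01 : g 0 1 = Real.sin s * X 0 1 := by
      change g.1 0 1 = _
      rw [hg]; simp
    have g10 : g 1 0 = Real.sin s * X 1 0 := by
      change g.1 1 0 = _
      rw [hg]; simp
    have g11 : g 1 1 = Real.cos s + Real.sin s * X 1 1 := by
      change g.1 1 1 = _
      rw [hg]; simp
    have e : w s = ((g • z : ℍ) : ℂ) := by
      rw [coe_specialLinearGroup_apply, hw, g00, g01, g10, g11]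
      rfl
    rw [Function.comp_apply, e, ofComplex_apply]
    exact h s g hg z
  have h1 : HasDerivAt ((f ∘ ofComplex) ∘ w) (fderiv ℝ (f ∘ ofComplex) (w 0)
      ((X 0 1 : ℂ) + 2 * (X 0 0 : ℂ) * z - (X 1 0 : ℂ) * (z : ℂ) ^ 2)) 0 := by
    refine HasFDerivAt.comp_hasDerivAt (0 : ℝ) ?_ hder
    rw [hw0]
    exact hF.hasFDerivAt
  have h2 : ((f ∘ ofComplex) ∘ w) = fun _ => f z := by
    funext s
    exact hcomp s
  rw [h2, hw0] at h1
  exact h1.unique (hasDerivAt_const (0 : ℝ) (f z))

end Pool.Agent.H852PC
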