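/- JOB of helper852 (MP_7a2702_mp, Poisson pair correlation fails for an arithmetic surface).
  Get the imported files (on origin/main, light imports):
  cd /workdir/pool && git -C outputs/live fetch -q && mkdir -p Pool/Agent/H852PC && for f in Defs Alg StmB; do
  git -C outputs/live show origin/main:Pool/Agent/H852PC/$f.lean > Pool/Agent/H852PC/$f.lean; done; lake build Pool.Agent.H852PC.StmB
  All definitions (O, nrd, trd, rho, mat, th7, th17, UU, La, Ga, gl, Gs, TT, ...) and the statements S... are in these files: read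
  them first. Prove the TARGET exactly as stated (hypotheses S... are proved in other jobs), return the whole file in result;
  auxiliary lemmas before it are welcome (give them names beginning with the theorem name). If the statement is false as written
  or a hypothesis is missing, tell me in note. Do not use the words macro, notation, syntax, prefix, tactic, partial, meta
  outside comments, and no straight double quote. -/
import Pool.Agent.H852PC.StmB

set_option autoImplicit false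

open scoped MatrixGroups UpperHalfPlane ContDiff Topology
open MeasureTheory UpperHalfPlane Filter

noncomputable section

namespace Pool.Agent.H852PC


theorem pf_sc3_conj1 : (⟨1, 1, 0, 0⟩ : O) * ⟨25, -50, 8, 24⟩ * star (⟨1, 1, 0, 0⟩ : O) =
    ⟨25, -50, 88, 144⟩ := by
  rw [star_eq]
  ext <;> simp

theorem pf_sc3_conj2 : (⟨0, 8, -1, 2⟩ : O) * ⟨25, -50, 8, 24⟩ * star (⟨0, 8, -1, 2⟩ : O) =
    ⟨-11545, 23090, -32, 7144⟩ := by
  rw [star_eq]
  ext <;> simp

/-- invariance under the conjugate rotations -/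
theorem pf_sc3_inv (f : ℍ → ℝ) (hL : Invt La f) (X0 l : O) (hl : nrd l = 1)
    (h : ∀ (s : ℝ) (g : SL(2, ℝ)),
      g.1 = Real.cos s • (1 : Matrix (Fin 2) (Fin 2) ℝ) + (Real.sin s / √1035) • rho X0 →
      ∀ z : ℍ, f (g • z) = f z) (s : ℝ) (g : SL(2, ℝ))
    (hg : g.1 = Real.cos s • (1 : Matrix (Fin 2) (Fin 2) ℝ) +
      (Real.sin s / √1035) • rho (l * X0 * star l)) (z : ℍ) : f (g • z) = f z := by
  obtain ⟨L, hLdef⟩ : ∃ L : SL(2, ℝ), L.1 = rho l := by
    refine ⟨⟨rho l, ?_⟩, rfl⟩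
    rw [rho_det, hl]
    simp
  have hLm : L ∈ La := ⟨l, hl, hLdef⟩
  have hLi : (L⁻¹ : SL(2, ℝ)).1 = rho (star l) := by
    rw [Matrix.SpecialLinearGroup.coe_inv, hLdef, rho_star]
  have hll : star l * l = 1 := by
    rw [star_mul_eq, hl]
    simp
  have h1 : (L⁻¹ * g * L : SL(2, ℝ)).1 = Real.cos s • (1 : Matrix (Fin 2) (Fin 2) ℝ) +
      (Real.sin s / √1035) • rho X0 := by
    rw [Matrix.SpecialLinearGroup.coe_mul, Matrix.SpecialLinearGroup.coe_mul, hLi, hLdef, hg,
      mul_add, add_mul, mul_smul_comm, smul_mul_assoc, mul_smul_comm, smul_mul_assoc, mul_one,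
      ← map_mul, ← map_mul, ← map_mul, hll, map_one]
    congr 3
    have e : star l * (l * X0 * star l) * l = (star l * l) * X0 * (star l * l) := by
      simp only [mul_assoc]
    rw [e, hll, one_mul, mul_one]
  have h2 := h s (L⁻¹ * g * L) h1 (L⁻¹ • z)
  have h3 : (L⁻¹ * g * L) • (L⁻¹ • z) = L⁻¹ • (g • z) := by
    rw [mul_smul, mul_smul, smul_inv_smul]
  rw [h3, hL _ (La.inv_mem hLm), hL _ (La.inv_mem hLm)] at h2
  exact h2

/-- the derivative in the directions given by the trace-zero quaternions -/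
theorem pf_sc3_dir (D : ℂ →L[ℝ] ℝ) (z : ℂ) (a b c r : ℤ) (hr : 2 * r + a = 0)
    (h : D ((((1 / √1035 : ℝ) • rho ⟨r, a, b, c⟩ : Matrix (Fin 2) (Fin 2) ℝ) 0 1 : ℂ) +
      2 * (((1 / √1035 : ℝ) • rho ⟨r, a, b, c⟩ : Matrix (Fin 2) (Fin 2) ℝ) 0 0 : ℂ) * z -
      (((1 / √1035 : ℝ) • rho ⟨r, a, b, c⟩ : Matrix (Fin 2) (Fin 2) ℝ) 1 0 : ℂ) * z ^ 2) = 0) :
    (a : ℝ) * (√5 * D z) + (b : ℝ) * (13 * D 1 - D (z ^ 2)) +
      (c : ℝ) * (13 * gr * D 1 - gc * D (z ^ 2)) = 0 := by
  have hpos : (0 : ℝ) < 1 / √1035 := by positivity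
  have e : ((((1 / √1035 : ℝ) • rho ⟨r, a, b, c⟩ : Matrix (Fin 2) (Fin 2) ℝ) 0 1 : ℂ) +
      2 * (((1 / √1035 : ℝ) • rho ⟨r, a, b, c⟩ : Matrix (Fin 2) (Fin 2) ℝ) 0 0 : ℂ) * z -
      (((1 / √1035 : ℝ) • rho ⟨r, a, b, c⟩ : Matrix (Fin 2) (Fin 2) ℝ) 1 0 : ℂ) * z ^ 2) =
      (1 / √1035 : ℝ) • ((13 * ((b : ℝ) + c * gr)) • (1 : ℂ) +
        (2 * ((r : ℝ) + a * gr)) • z - ((b : ℝ) + c * gc) • z ^ 2) := by
    simp only [rho_apply, mat, Matrix.smul_apply, Matrix.of_apply, Matrix.cons_val', Matrix.cons_val_zero,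
      Matrix.cons_val_one, smul_eq_mul, Complex.real_smul]
    push_cast
    simp
    ring
  rw [e, map_smul, map_sub, map_add, map_smul, map_smul, map_smul, smul_eq_mul, smul_eq_mul,
    smul_eq_mul, smul_eq_mul] at h
  have h1 := (mul_eq_zero.mp h).resolve_left hpos.ne'
  have hr' : (r : ℝ) = -(a : ℝ) / 2 := by
    have : (2 * (r : ℝ) + a) = 0 := by exact_mod_cast hr
    linarith
  rw [hr'] at h1
  have h5 : 2 * (-(a : ℝ) / 2 + a * gr) = a * √5 := by
    unfold gr
    ring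
  rw [h5] at h1
  linear_combination h1

theorem pf_sc3_zero (D : ℂ →L[ℝ] ℝ) (z : ℂ) (hz : 0 < z.im)
    (h : ∀ q ∈ ({(-50, 8, 24), (-50, 88, 144), (23090, -32, 7144)} : Set (ℝ × ℝ × ℝ)),
      q.1 * (√5 * D z) + q.2.1 * (13 * D 1 - D (z ^ 2)) +
      q.2.2 * (13 * gr * D 1 - gc * D (z ^ 2)) = 0) : D = 0 := by
  have a0 := h (-50, 8, 24) (by simp)
  have a1 := h (-50, 88, 144) (by simp)
  have a2 := h (23090, -32, 7144) (by simp)
  simp only at a0 a1 a2
  obtain ⟨A, hA⟩ : ∃ A, A = √5 * D z := ⟨_, rfl⟩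
  obtain ⟨B, hB⟩ : ∃ B, B = 13 * D 1 - D (z ^ 2) := ⟨_, rfl⟩
  obtain ⟨C, hC⟩ : ∃ C, C = 13 * gr * D 1 - gc * D (z ^ 2) := ⟨_, rfl⟩
  rw [← hA, ← hB, ← hC] at a0 a1 a2
  have hA0 : A = 0 := by linarith
  have hB0 : B = 0 := by linarith
  have hC0 : C = 0 := by linarith
  have h5 : 0 < √5 := by positivity
  have hDz : D z = 0 := by
    rw [hA0] at hA
    exact (mul_eq_zero.mp hA.symm).resolve_left h5.ne'
  have hg : gr - gc = √5 := by
    unfold gr gc
    ring
  have hD1 : D 1 = 0 := by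
    have h6 : 13 * (gr - gc) * D 1 = C - gc * B := by
      rw [hB, hC]
      ring
    rw [hB0, hC0, hg] at h6
    have h7 : 13 * √5 * D 1 = 0 := by linarith
    exact (mul_eq_zero.mp h7).resolve_left (by positivity)
  have hDI : D Complex.I = 0 := by
    have e : z = z.re • (1 : ℂ) + z.im • Complex.I := by
      simp only [Complex.real_smul, mul_one]
      exact (Complex.re_add_im z).symm
    rw [e, map_add, map_smul, map_smul, hD1, smul_zero, zero_add, smul_eq_mul] at hDz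
    exact (mul_eq_zero.mp hDz).resolve_left hz.ne'
  ext x
  have e : x = x.re • (1 : ℂ) + x.im • Complex.I := by
    simp only [Complex.real_smul, mul_one]
    exact (Complex.re_add_im x).symm
  rw [e, map_add, map_smul, map_smul, hD1, hDI]
  simp

/- PLAIN PROOF. Write X0 = ⟨25,-50,8,24⟩, X1 = l1 X0 star l1 = ⟨25,-50,88,144⟩ with l1 = ⟨1,1,0,0⟩, X2 = l2 X0 star l2 = ⟨-11545,23090,-32,7144⟩ with
l2 = ⟨0,8,-1,2⟩ (nrd l1 = nrd l2 = 1; all have nrd 1035, trd 0). f is invariant under cos s + (sin s/√1035) rho X0 (h1, f continuous by Sm), and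
under l in La, so it is invariant under l (cos s + (sin s/√1035) rho X0) l⁻¹ = cos s + (sin s/√1035) rho (l X0 star l). By h2 with
X = (1/√1035) rho X_i: dF_z(V_i) = 0, V_i = (x12 + 2 x11 z - x21 z²), (x11, x12, x21) = (re + imI gr, 13 (imJ + imK gr), imJ + imK gc)
of X_i. The three matrices rho X_i are linearly independent over ℝ and span the trace-zero matrices (det of the coordinates
(imI, imJ, imK): (-50,8,24), (-50,88,144), (23090,-32,7144) is -50934400 ≠ 0), so dF_z(v) = 0 for all v of the form p + 2 q z - r z² with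
p, q, r real, in particular v = 1 (p = 1) and v = z (q = 1/2), which span ℂ over ℝ as im z > 0. So dF = 0 on the upper half plane, which is
convex/preconnected and open, so F = f ∘ ofComplex is constant there. -/
theorem pf_sc3
    (h1 : ∀ f : ℍ → ℝ, Continuous f → (∀ z : ℍ, f (gl ww • z) = f z) → ∀ (s : ℝ) (g : SL(2, ℝ)),
      g.1 = Real.cos s • (1 : Matrix (Fin 2) (Fin 2) ℝ) + (Real.sin s / √1035) • rho ⟨25, -50, 8, 24⟩ →
      ∀ z : ℍ, f (g • z) = f z)
    (h2 : ∀ f : ℍ → ℝ, Sm f → ∀ X : Matrix (Fin 2) (Fin 2) ℝ, X.trace = 0 → X.det = 1 →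
      (∀ (s : ℝ) (g : SL(2, ℝ)), g.1 = Real.cos s • (1 : Matrix (Fin 2) (Fin 2) ℝ) + Real.sin s • X →
        ∀ z : ℍ, f (g • z) = f z) → ∀ z : ℍ,
      fderiv ℝ (f ∘ ofComplex) (z : ℂ) ((X 0 1 : ℂ) + 2 * (X 0 0 : ℂ) * z - (X 1 0 : ℂ) * (z : ℂ) ^ 2) = 0) :
    SConst := by
  intro f hf hL hw
  have hopen : IsOpen {z : ℂ | 0 < z.im} := isOpen_lt continuous_const Complex.continuous_im
  have hcont : Continuous f := by
    have e : f = fun z : ℍ => (f ∘ ofComplex) (z : ℂ) := by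
      funext z
      simp
    rw [e, continuous_iff_continuousAt]
    intro z
    have h3 : ContinuousAt (f ∘ ofComplex) (z : ℂ) :=
      hf.continuousOn.continuousAt (hopen.mem_nhds z.im_pos)
    exact h3.comp UpperHalfPlane.continuous_coe.continuousAt
  have hrot := h1 f hcont hw
  have key : ∀ l : O, nrd l = 1 → ∀ (a b c r : ℤ), l * ⟨25, -50, 8, 24⟩ * star l = ⟨r, a, b, c⟩ →
      2 * r + a = 0 → ∀ z : ℍ,
      (a : ℝ) * (√5 * fderiv ℝ (f ∘ ofComplex) (z : ℂ) z) +
        (b : ℝ) * (13 * fderiv ℝ (f ∘ ofComplex) (z : ℂ) 1 -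
          fderiv ℝ (f ∘ ofComplex) (z : ℂ) ((z : ℂ) ^ 2)) +
      (c : ℝ) * (13 * gr * fderiv ℝ (f ∘ ofComplex) (z : ℂ) 1 -
        gc * fderiv ℝ (f ∘ ofComplex) (z : ℂ) ((z : ℂ) ^ 2)) = 0 := by
    intro l hl a b c r hlX hra z
    refine pf_sc3_dir _ z a b c r hra ?_
    refine h2 f hf ((1 / √1035 : ℝ) • rho ⟨r, a, b, c⟩) ?_ ?_ ?_ z
    · rw [Matrix.trace_smul, rho_trace, trd]
      have : ((2 * r + a : ℤ) : ℝ) = 0 := by rw [hra]; simp
      simp only
      rw [this, smul_zero]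
    · have hn : nrd (⟨r, a, b, c⟩ : O) = 1035 := by
        rw [← hlX, nrd_mul, nrd_mul, nrd_star, hl]
        simp [nrd]
      rw [Matrix.det_smul, rho_det, hn]
      simp only [Fintype.card_fin]
      have h3 : √1035 * √1035 = (1035 : ℝ) := Real.mul_self_sqrt (by norm_num)
      have h4 : √1035 ≠ 0 := by positivity
      field_simp
      push_cast
      nlinarith
    · intro s g hg z
      refine pf_sc3_inv f hL ⟨25, -50, 8, 24⟩ l hl hrot s g ?_ z
      rw [hg, hlX, smul_smul]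
      congr 2
      ring
  have hD : ∀ z : ℂ, 0 < z.im → fderiv ℝ (f ∘ ofComplex) z = 0 := by
    intro z hz
    have k0 := key 1 nrd_one (-50) 8 24 25 (by simp) (by norm_num) ⟨z, hz⟩
    have k1 := key ⟨1, 1, 0, 0⟩ (by simp [nrd]) (-50) 88 144 25 pf_sc3_conj1 (by norm_num) ⟨z, hz⟩
    have k2 := key ⟨0, 8, -1, 2⟩ (by simp [nrd]) 23090 (-32) 7144 (-11545) pf_sc3_conj2
      (by norm_num) ⟨z, hz⟩
    refine pf_sc3_zero _ z hz ?_
    intro q hq
    simp only [Set.mem_insert_iff, Set.mem_singleton_iff] at hq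
    push_cast at k0 k1 k2
    rcases hq with rfl | rfl | rfl
    · exact k0
    · exact k1
    · exact k2
  refine ⟨f I, fun z => ?_⟩
  have h3 := hopen.is_const_of_fderiv_eq_zero (𝕜 := ℝ) (f := f ∘ ofComplex)
    (convex_halfSpace_im_gt 0).isPreconnected (hf.differentiableOn (by simp))
    (fun w hw => hD w hw) (x := (z : ℂ)) (y := ((I : ℍ) : ℂ)) z.im_pos I.im_pos
  rw [Function.comp_apply, Function.comp_apply, ofComplex_apply, ofComplex_apply] at h3
  exact h3

end Pool.Agent.H852PC
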