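/- JOB of helper852 (MP_7a2702_mp, Poisson pair correlation fails for an arithmetic surface).
  Get the imported files (on origin/main, light imports):
  cd /workdir/pool && git -C outputs/live fetch -q && mkdir -p Pool/Agent/H852PC && for f in Defs Alg StmB; do
  git -C outputs/live show origin/main:Pool/Agent/H852PC/$f.lean > Pool/Agent/H852PC/$f.lean; done; lake build Pool.Agent.H852PC.StmB
  All definitions (O, nrd, trd, rho, mat, th7, th17, UU, La, Ga, gl, Gs, TT, ...) and the statements S... are in these files: read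
  them first. Prove the TARGET exactly as stated (hypotheses S... are proved in other jobs), return the whole file in result;
  auxiliary lemmas before it are welcome (give them names beginning with the theorem name). If the statement is false as written
  or a hypothesis is missing, tell me in note. Do not use the words macro, notation, syntax, prefix, tactic, partial, meta
  outside comments, and no straight double quote. -/
import Pool.Agent.H852PC.StmB

set_option autoImplicit false

open scoped MatrixGroups UpperHalfPlane ContDiff Topology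
open MeasureTheory UpperHalfPlane Filter

noncomputable section

namespace Pool.Agent.H852PC

theorem pf_ti_gl_coe {x : O} (h : 0 < nrd x) : (gl x).1 = (√(nrd x : ℝ))⁻¹ • rho x := by
  have h' : (0 : ℝ) < nrd x := by exact_mod_cast h
  have e : gl x = (⟨(√(nrd x : ℝ))⁻¹ • rho x, by
      rw [Matrix.det_smul, rho_det]
      simp only [Fintype.card_fin, inv_pow]
      rw [Real.sq_sqrt h'.le, inv_mul_cancel₀ h'.ne']⟩ : SL(2, ℝ)) := dif_pos h
  rw [e]

theorem pf_ti_gl_mul {x y : O} (hx : 0 < nrd x) (hy : 0 < nrd y) : gl (x * y) = gl x * gl y := by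
  have hxy : 0 < nrd (x * y) := by rw [nrd_mul]; exact mul_pos hx hy
  apply Subtype.ext
  rw [Matrix.SpecialLinearGroup.coe_mul, pf_ti_gl_coe hx, pf_ti_gl_coe hy, pf_ti_gl_coe hxy, map_mul,
    Matrix.smul_mul, Matrix.mul_smul, smul_smul, nrd_mul]
  congr 1
  push_cast
  rw [Real.sqrt_mul (by exact_mod_cast hx.le), mul_inv]

theorem pf_ti_gl_one {x : O} (h : nrd x = 1) : (gl x).1 = rho x := by
  rw [pf_ti_gl_coe (by omega), h]
  simp

/-- the six axis elements -/
def pf_ti_L : Fin 6 → HQ 17 :=
  ![⟨0, 1, 0, 0⟩, ⟨0, -1, 0, 0⟩, ⟨0, 0, 1, 0⟩, ⟨0, 0, -1, 0⟩, ⟨0, 0, 0, 1⟩, ⟨0, 0, 0, -1⟩]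

theorem pf_ti_L_mem (i : Fin 6) : pf_ti_L i ∈ Ax 17 := by
  fin_cases i <;> simp [pf_ti_L, Ax]

theorem pf_ti_mem_L {L : HQ 17} (h : L ∈ Ax 17) : ∃ i, pf_ti_L i = L := by
  simp only [Ax, Set.mem_insert_iff, Set.mem_singleton_iff] at h
  rcases h with h | h | h | h | h | h
  · exact ⟨0, h.symm⟩
  · exact ⟨1, h.symm⟩
  · exact ⟨2, h.symm⟩
  · exact ⟨3, h.symm⟩
  · exact ⟨4, h.symm⟩
  · exact ⟨5, h.symm⟩

theorem pf_ti_L_inj : Function.Injective pf_ti_L := by
  intro i j h
  have h1 := congrArg QuaternionAlgebra.imI h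
  have h2 := congrArg QuaternionAlgebra.imJ h
  have h3 := congrArg QuaternionAlgebra.imK h
  clear h
  revert i j
  decide

theorem pf_ti_L_star (i : Fin 6) : star (pf_ti_L i) = -pf_ti_L i := by
  fin_cases i <;> ext <;> simp [pf_ti_L]

theorem pf_ti_kill (i : Fin 6) : th17 (Gs i) * (pf_ti_L i + 4) = 0 := by
  fin_cases i <;> ext <;> decide

theorem pf_ti_nrd (i : Fin 6) : nrd (Gs i) = 17 := by
  fin_cases i <;> decide

theorem pf_ti_17 (y : O) : (17 : O) * y = ⟨17 * y.re, 17 * y.imI, 17 * y.imJ, 17 * y.imK⟩ := by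
  have e : (17 : O) = ((17 : ℤ) : O) := by norm_num
  rw [e]
  ext <;> simp only [QuaternionAlgebra.re_mul, QuaternionAlgebra.imI_mul,
    QuaternionAlgebra.imJ_mul, QuaternionAlgebra.imK_mul, QuaternionAlgebra.re_intCast,
    QuaternionAlgebra.imI_intCast, QuaternionAlgebra.imJ_intCast, QuaternionAlgebra.imK_intCast] <;>
    ring

theorem pf_ti_ker {X : O} (h : th17 X = 0) : ∃ y : O, X = 17 * y := by
  have h1 : (X.re : ZMod 17) + 9 * X.imI = 0 := congrArg QuaternionAlgebra.re h
  have h2 : (X.imI : ZMod 17) + 12 * X.imK = 0 := congrArg QuaternionAlgebra.imI h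
  have h3 : 2 * (X.imJ : ZMod 17) + X.imK = 0 := congrArg QuaternionAlgebra.imJ h
  have h4 : 11 * (X.imI : ZMod 17) + 2 * X.imK = 0 := congrArg QuaternionAlgebra.imK h
  have key : ∀ a b c d : ZMod 17, a + 9 * b = 0 → b + 12 * d = 0 → 2 * c + d = 0 →
      11 * b + 2 * d = 0 → a = 0 ∧ b = 0 ∧ c = 0 ∧ d = 0 := by
    intro a b c d h1 h2 h3 h4
    have e17 : (17 : ZMod 17) = 0 := by decide
    have hd : d = 0 := by
      have : d = 2 * (11 * b + 2 * d) - 22 * (b + 12 * d) + 17 * (15 * d + 0) + 6 * d := by ring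
      have h6 : (6 : ZMod 17) * d = 0 := by
        linear_combination h4 - 11 * h2 + 8 * d * e17
      have h7 : (3 : ZMod 17) * (6 * d) = d := by linear_combination d * e17
      rw [← h7, h6, mul_zero]
    subst hd
    have hb : b = 0 := by simpa using h2
    subst hb
    have ha : a = 0 := by simpa using h1
    have hc : c = 0 := by
      have h7 : (9 : ZMod 17) * (2 * c + 0) = c := by linear_combination c * e17
      rw [← h7, h3, mul_zero]
    exact ⟨ha, rfl, hc, rfl⟩
  obtain ⟨a, b, c, d⟩ := key _ _ _ _ h1 h2 h3 h4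
  obtain ⟨a', ha⟩ := (ZMod.intCast_zmod_eq_zero_iff_dvd _ 17).1 a
  obtain ⟨b', hb⟩ := (ZMod.intCast_zmod_eq_zero_iff_dvd _ 17).1 b
  obtain ⟨c', hc⟩ := (ZMod.intCast_zmod_eq_zero_iff_dvd _ 17).1 c
  obtain ⟨d', hd⟩ := (ZMod.intCast_zmod_eq_zero_iff_dvd _ 17).1 d
  refine ⟨⟨a', b', c', d'⟩, ?_⟩
  rw [pf_ti_17]
  ext
  · exact ha
  · exact hb
  · exact hc
  · exact hd

theorem pf_ti_cancel {a b : O} (h : (17 : O) * a = 17 * b) : a = b := by
  rw [pf_ti_17, pf_ti_17] at h
  have h1 : 17 * a.re = 17 * b.re := congrArg QuaternionAlgebra.re h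
  have h2 : 17 * a.imI = 17 * b.imI := congrArg QuaternionAlgebra.imI h
  have h3 : 17 * a.imJ = 17 * b.imJ := congrArg QuaternionAlgebra.imJ h
  have h4 : 17 * a.imK = 17 * b.imK := congrArg QuaternionAlgebra.imK h
  ext <;> omega

theorem pf_ti_step {x : O} (hx : nrd x = 1) {i j : Fin 6}
    (hj : th17 x * pf_ti_L j = pf_ti_L i * th17 x) :
    ∃ y : O, nrd y = 1 ∧ y * Gs j = Gs i * x := by
  have hX : th17 (Gs i * x * star (Gs j)) = 0 := by
    rw [map_mul, map_mul, th17_star]
    have h1 := pf_ti_kill j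
    have h2 := congrArg star h1
    rw [star_mul, star_add, pf_ti_L_star, star_zero] at h2
    have e4 : star (4 : HQ 17) = 4 := by ext <;> decide
    rw [e4] at h2
    have h3 := pf_ti_kill i
    set s := th17 (Gs i)
    set s' := th17 (Gs j)
    set u := th17 x
    set L' := pf_ti_L j
    set L := pf_ti_L i
    have h5 : s * u * (L' + 4) = 0 := by
      have : s * u * (L' + 4) = s * (u * L') + 4 * (s * u) := by
        rw [mul_add, mul_assoc]
        congr 1
        have e : (4 : HQ 17) = ((4 : ℤ) : HQ 17) := by norm_num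
        rw [e]
        exact (Int.cast_commute 4 (s * u)).symm.eq
      rw [this, hj]
      have : s * (L * u) + 4 * (s * u) = (s * (L + 4)) * u := by
        rw [mul_add, add_mul, mul_assoc]
        congr 1
        have e : (4 : HQ 17) = ((4 : ℤ) : HQ 17) := by norm_num
        rw [e, ← mul_assoc, (Int.cast_commute 4 s).eq]
      rw [this, h3, zero_mul]
    have h6 : (L' + 4) * star s' = 8 * star s' := by
      have h7 : (-L' + 4) * star s' = 0 := h2
      have e8 : (8 : HQ 17) = 4 + 4 := by norm_num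
      have : (L' + 4) * star s' = (L' + 4) * star s' + (-L' + 4) * star s' := by
        rw [h7, add_zero]
      rw [this, ← add_mul, e8]
      congr 1
      abel
    have h8 : (8 : HQ 17) * (s * u * star s') = 0 := by
      have e : (8 : HQ 17) = ((8 : ℤ) : HQ 17) := by norm_num
      calc (8 : HQ 17) * (s * u * star s') = s * u * (8 * star s') := by
            rw [e, ← mul_assoc, (Int.cast_commute 8 (s * u)).eq, mul_assoc]
        _ = s * u * ((L' + 4) * star s') := by rw [h6]
        _ = (s * u * (L' + 4)) * star s' := by simp only [mul_assoc]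
        _ = 0 := by rw [h5, zero_mul]
    have h9 : (15 : HQ 17) * 8 = 1 := by ext <;> decide
    calc s * u * star s' = (15 * 8) * (s * u * star s') := by rw [h9, one_mul]
      _ = 15 * (8 * (s * u * star s')) := by rw [mul_assoc]
      _ = 0 := by rw [h8, mul_zero]
  obtain ⟨y, hy⟩ := pf_ti_ker hX
  have hyG : y * Gs j = Gs i * x := by
    apply pf_ti_cancel
    have e : ((nrd (Gs j) : ℤ) : O) = 17 := by rw [pf_ti_nrd]; norm_num
    have e' : (17 : O) = ((17 : ℤ) : O) := by norm_num
    calc 17 * (y * Gs j) = (17 * y) * Gs j := by rw [mul_assoc]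
      _ = Gs i * x * star (Gs j) * Gs j := by rw [← hy]
      _ = Gs i * x * 17 := by rw [mul_assoc, star_mul_eq, e]
      _ = 17 * (Gs i * x) := by rw [e']; exact (Int.cast_commute 17 (Gs i * x)).symm.eq
  refine ⟨y, ?_, hyG⟩
  have h1 := congrArg nrd hyG
  rw [nrd_mul, nrd_mul, pf_ti_nrd, pf_ti_nrd, hx] at h1
  omega

/- PLAIN PROOF. gl x = (√nrd x)⁻¹ • rho x for nrd x > 0. gl (x * y) = gl x * gl y for positive norms; gl x ∈ La for nrd x = 1.
The six elements Gs i have norm 17, and th17 (Gs i) * (L i + 4) = 0 for L = i, -i, j, -j, k, -k (i = 0..5) in this order (L i ∈ Ax 17; check by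
decide/simp). γ ∈ Ga: γ.1 = rho x, nrd x = 1, u = th17 x, u star u = 1, UU 17 u. For every axis element L the element L' = star u L u ∈ Ax 17
satisfies u L' = L u. Claim: Gs L * x = y * Gs L' for some y in O with nrd y = 1. Proof: put X = Gs L * x * star (Gs L') in O.
th17 X = 0: with s = th17 (Gs L), s' = th17 (Gs L'): s' (L' + 4) = 0, so taking star: (4 - L') star s' = 0 (star L' = -L'), so
L' star s' = 4 star s', (L' + 4) star s' = 8 star s'. And s (L + 4) = 0, so s u (L' + 4) = s (L + 4) u = 0, so 8 s u star s' =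
s u (L' + 4) star s' = 0, and 8 is invertible mod 17. The kernel of th17 is 17 O (from the formula: coordinates (re + 9 imI,
imI + 12 imK, 2 imJ + imK, 11 imI + 2 imK) all 0 mod 17 imply re = imI = imJ = imK = 0 mod 17). So X = 17 y, and y * Gs L' = X * Gs L' / 17 =
Gs L * x * 17 / 17 = Gs L * x (star_mul_eq), nrd y = 17·17/17² = 1. So f (gl (Gs L) • γ • z) = f (gl (Gs L * x) • z) = f (gl y • gl (Gs L') • z) =
f (gl (Gs L') • z), and L ↦ L' is a bijection of the six axis elements (inverse L' ↦ u L' star u), so the sum over the six is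
unchanged (Fintype.sum_bijective / Equiv.sum_comp with an explicit map Fin 6 → Fin 6). -/
theorem pf_ti : STinv := by
  intro f hf γ hγ z
  obtain ⟨x, hx, -, hU, hγx⟩ := hγ
  have hγ' : γ = gl x := by
    apply Subtype.ext
    rw [pf_ti_gl_one hx]
    exact hγx
  have huu : th17 x * star (th17 x) = 1 := by
    rw [← th17_star, ← map_mul, mul_star_eq, hx]
    simp
  have hex : ∀ i : Fin 6, ∃ j : Fin 6, pf_ti_L j = star (th17 x) * pf_ti_L i * th17 x := fun i =>
    pf_ti_mem_L (hU.2 _ (pf_ti_L_mem i))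
  choose π hπ using hex
  have hconj : ∀ i, th17 x * pf_ti_L (π i) = pf_ti_L i * th17 x := by
    intro i
    rw [hπ, ← mul_assoc, ← mul_assoc, huu, one_mul]
  have hinj : Function.Injective π := by
    intro i i' h
    apply pf_ti_L_inj
    have h1 := hconj i
    have h2 := hconj i'
    rw [h] at h1
    have h3 : pf_ti_L i * th17 x = pf_ti_L i' * th17 x := h1.symm.trans h2
    have h4 := congrArg (fun t => t * star (th17 x)) h3
    simpa [mul_assoc, huu] using h4
  have hbij : Function.Bijective π := Finite.injective_iff_bijective.1 hinj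
  have hterm : ∀ i, f (gl (Gs i) • γ • z) = f (gl (Gs (π i)) • z) := by
    intro i
    obtain ⟨y, hy, hyG⟩ := pf_ti_step hx (hconj i)
    have hG : ∀ i, 0 < nrd (Gs i) := fun i => by rw [pf_ti_nrd]; norm_num
    rw [hγ', ← mul_smul, ← pf_ti_gl_mul (hG i) (by omega), ← hyG, pf_ti_gl_mul (by omega) (hG _),
      mul_smul]
    exact hf (gl y) ⟨y, hy, pf_ti_gl_one hy⟩ _
  unfold TT
  rw [Finset.sum_congr rfl fun i _ => hterm i]
  exact hbij.sum_comp fun j => f (gl (Gs j) • z)

end Pool.Agent.H852PC
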