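/- JOB of helper852 (MP_7a2702_mp, Poisson pair correlation fails for an arithmetic surface). -/
import Pool.Agent.H852PC.StmB

set_option autoImplicit false

open scoped MatrixGroups UpperHalfPlane ContDiff Topology
open MeasureTheory UpperHalfPlane Filter

noncomputable section

namespace Pool.Agent.H852PC

theorem pf_to_sq (x : O) (hx : nrd x = 1) : x * x = ((trd x : ℤ) : O) * x - 1 := by
  simp only [nrd] at hx
  obtain ⟨t, ht⟩ : ∃ t, t = trd x := ⟨_, rfl⟩
  rw [← ht]
  have ht' : t = 2 * x.re + x.imI := ht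
  ext
  · simp; rw [ht']; linear_combination -hx
  · simp; rw [ht']; ring
  · simp; rw [ht']; ring
  · simp; rw [ht']; ring

theorem pf_to_rec (x : O) (hx : nrd x = 1) (n : ℕ) :
    trd (x ^ (n + 2)) = trd x * trd (x ^ (n + 1)) - trd (x ^ n) := by
  have h1 : x ^ (n + 2) = ((trd x : ℤ) : O) * x ^ (n + 1) - x ^ n := by
    calc x ^ (n + 2) = (x * x) * x ^ n := by rw [pow_add, ← pow_two, ← pow_add, ← pow_add, add_comm]
      _ = ((trd x : ℤ) : O) * x ^ (n + 1) - x ^ n := by
        rw [pf_to_sq x hx, sub_mul, one_mul, mul_assoc, ← pow_succ']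
  rw [h1]
  generalize trd x = t
  simp [trd]
  ring

theorem pf_to_grow (x : O) (hx : nrd x = 1) (ht : 3 ≤ |trd x|) (n : ℕ) :
    |trd (x ^ n)| ≤ |trd (x ^ (n + 1))| ∧ 3 ≤ |trd (x ^ (n + 1))| := by
  induction n with
  | zero =>
    have h0 : trd (x ^ 0) = 2 := by simp [trd]
    rw [h0, zero_add, pow_one]
    exact ⟨by simpa using (by norm_num : (2 : ℤ) ≤ 3).trans ht, ht⟩
  | succ n ih =>
    have h1 : 2 * |trd (x ^ (n + 1))| ≤ |trd (x ^ (n + 2))| := by
      rw [pf_to_rec x hx n]
      have h2 : |trd x * trd (x ^ (n + 1))| - |trd (x ^ n)| ≤ |trd x * trd (x ^ (n + 1)) - trd (x ^ n)| :=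
        abs_sub_abs_le_abs_sub _ _
      rw [abs_mul] at h2
      have h3 : 3 * |trd (x ^ (n + 1))| ≤ |trd x| * |trd (x ^ (n + 1))| :=
        mul_le_mul_of_nonneg_right ht (abs_nonneg _)
      linarith [ih.1]
    have h2 := abs_nonneg (trd (x ^ (n + 1)))
    refine ⟨by linarith, by linarith [ih.2]⟩

/- PLAIN PROOF. If |t| ≥ 3 the traces of the powers of x are at least 3 in absolute value; and x ^ n = 1 or -1. Otherwise t = 2 or
-2 and nrd (x - 1) = 0 or nrd (x + 1) = 0. -/
theorem pf_to (h : STr) (h0 : SAniso) : STors := by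
  rintro g ⟨x, hx, hg⟩ n hn hgn
  obtain ⟨h1, h2, h3⟩ := h x hx
  by_cases ht : 3 ≤ |trd x|
  · exfalso
    obtain ⟨m, rfl⟩ : ∃ m, n = m + 1 := ⟨n - 1, by omega⟩
    have h4 := (pf_to_grow x hx ht m).2
    have h5 : (g ^ (m + 1)).1 = rho (x ^ (m + 1)) := by
      rw [Matrix.SpecialLinearGroup.coe_pow, hg, map_pow]
    rcases hgn with hgn | hgn
    · have h6 : rho (x ^ (m + 1)) = rho 1 := by
        rw [← h5, hgn, map_one]; simp
      have h7 := rho_injective h6
      rw [h7] at h4
      simp [trd] at h4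
    · have h6 : rho (x ^ (m + 1)) = rho (-1) := by
        rw [← h5, hgn, map_neg, map_one]; simp
      have h7 := rho_injective h6
      rw [h7] at h4
      simp [trd] at h4
  · rw [not_le, abs_lt] at ht
    have h4 : trd x = 2 ∨ trd x = -2 := by omega
    rcases h4 with h4 | h4
    · left
      have h5 : nrd (x - 1) = 0 := by
        have : nrd (x - 1) = nrd x - trd x + 1 := by simp [nrd, trd]; ring
        rw [this, hx, h4]; norm_num
      have h6 : x = 1 := sub_eq_zero.1 (h0 _ h5)
      apply Subtype.ext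
      rw [hg, h6, map_one]; rfl
    · right
      have h5 : nrd (x + 1) = 0 := by
        have : nrd (x + 1) = nrd x + trd x + 1 := by simp [nrd, trd]; ring
        rw [this, hx, h4]; norm_num
      have h6 : x = -1 := eq_neg_of_add_eq_zero_left (h0 _ h5)
      apply Subtype.ext
      rw [hg, h6, map_neg, map_one]; simp

end Pool.Agent.H852PC
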