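import Pool.Agent.H852PC.StmB

set_option autoImplicit false

open scoped MatrixGroups UpperHalfPlane ContDiff Topology
open MeasureTheory UpperHalfPlane Filter

noncomputable section

namespace Pool.Agent.H852PC

theorem pf_tr_five : ∀ c d : ZMod 5, -(13 * (c ^ 2 + c * d - d ^ 2)) ≠ 1 := by decide

theorem pf_tr_thirteen : ∀ a : ZMod 13, a ^ 2 + a * (1 - 2 * a) - (1 - 2 * a) ^ 2 ≠ 1 := by decide

theorem pf_tr_thirteen' : ∀ a : ZMod 13,
    a ^ 2 + a * (-1 - 2 * a) - (-1 - 2 * a) ^ 2 ≠ 1 := by decide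

theorem pf_tr : STr := by
  intro x hx
  unfold nrd at hx
  unfold trd
  refine ⟨fun h => ?_, fun h => ?_, fun h => ?_⟩
  · have hb : x.imI = -2 * x.re := by linarith
    rw [hb] at hx
    have h5 := congrArg (fun z : ℤ => (z : ZMod 5)) hx
    push_cast at h5
    apply pf_tr_five (x.imJ : ZMod 5) (x.imK : ZMod 5)
    have e5 : (5 : ZMod 5) = 0 := by decide
    linear_combination h5 + (x.re : ZMod 5) ^ 2 * e5
  · have hb : x.imI = 1 - 2 * x.re := by linarith
    rw [hb] at hx
    have h5 := congrArg (fun z : ℤ => (z : ZMod 13)) hx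
    push_cast at h5
    apply pf_tr_thirteen (x.re : ZMod 13)
    have e : (13 : ZMod 13) = 0 := by decide
    linear_combination h5 + ((x.imJ : ZMod 13) ^ 2 + x.imJ * x.imK - x.imK ^ 2) * e
  · have hb : x.imI = -1 - 2 * x.re := by linarith
    rw [hb] at hx
    have h5 := congrArg (fun z : ℤ => (z : ZMod 13)) hx
    push_cast at h5
    apply pf_tr_thirteen' (x.re : ZMod 13)
    have e : (13 : ZMod 13) = 0 := by decide
    linear_combination h5 + ((x.imJ : ZMod 13) ^ 2 + x.imJ * x.imK - x.imK ^ 2) * e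

end Pool.Agent.H852PC
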