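/- JOB of helper852 (MP_7a2702_mp, Poisson pair correlation fails for an arithmetic surface).
  Get the imported files (on origin/main, light imports):
  cd /workdir/pool && git -C outputs/live fetch -q && mkdir -p Pool/Agent/H852PC && for f in Defs Alg StmB; do
  git -C outputs/live show origin/main:Pool/Agent/H852PC/$f.lean > Pool/Agent/H852PC/$f.lean; done; lake build Pool.Agent.H852PC.StmB
  All definitions (O, nrd, trd, rho, mat, th7, th17, UU, La, Ga, gl, Gs, TT, ...) and the statements S... are in these files: read
  them first. Prove the TARGET exactly as stated (hypotheses S... are proved in other jobs), return the whole file in result;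
  auxiliary lemmas before it are welcome (give them names beginning with the theorem name). If the statement is false as written
  or a hypothesis is missing, tell me in note. Do not use the words macro, notation, syntax, prefix, tactic, partial, meta
  outside comments, and no straight double quote. -/
import Pool.Agent.H852PC.StmB

set_option autoImplicit false

open scoped MatrixGroups UpperHalfPlane ContDiff Topology
open MeasureTheory UpperHalfPlane Filter

noncomputable section

namespace Pool.Agent.H852PC

theorem pf_uq_le (lam nu : ℕ → ℝ) (hl : Monotone lam) (hn : Monotone nu) (e : ℕ → ℕ)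
    (he : Function.Injective e) (h : ∀ k, nu (e k) = lam k) (k : ℕ) : nu k ≤ lam k := by
  by_contra hlt
  rw [not_le] at hlt
  have h1 : ∀ j ∈ Finset.range (k + 1), e j ∈ Finset.range k := by
    intro j hj
    rw [Finset.mem_range] at hj ⊢
    by_contra hk
    have h2 : nu k ≤ nu (e j) := hn (not_lt.1 hk)
    rw [h] at h2
    have h3 : lam j ≤ lam k := hl (by omega)
    exact absurd (h2.trans h3) (not_le.2 hlt)
  have h2 := Finset.card_le_card_of_injOn e h1 he.injOn
  rw [Finset.card_range, Finset.card_range] at h2
  omega

theorem pf_uq_equiv (lam nu : ℕ → ℝ)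
    (h : ∀ t : ℝ, Cardinal.mk {k : ℕ | lam k = t} = Cardinal.mk {k : ℕ | nu k = t}) :
    ∃ e : ℕ ≃ ℕ, ∀ k, nu (e k) = lam k := by
  have h1 : ∀ t : ℝ, Nonempty ({k : ℕ // lam k = t} ≃ {k : ℕ // nu k = t}) := fun t =>
    Cardinal.eq.1 (h t)
  obtain ⟨F⟩ : Nonempty (∀ t : ℝ, {k : ℕ // lam k = t} ≃ {k : ℕ // nu k = t}) :=
    ⟨fun t => (h1 t).some⟩
  refine ⟨(Equiv.sigmaFiberEquiv lam).symm.trans
    ((Equiv.sigmaCongrRight F).trans (Equiv.sigmaFiberEquiv nu)), fun k => ?_⟩
  exact (F (lam k) ⟨k, rfl⟩).2

/- PLAIN PROOF. For all t ≥ 0 the sets {k | lam k = t} and {k | nu k = t} have the same cardinality (both equal the rank, IsSpectrum.mult), and for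
t < 0 both are empty (nonneg). So there is a bijection e : ℕ → ℕ with nu (e k) = lam k (glue the bijections of the fibres).
If lam k < nu k then e maps the k + 1 numbers j ≤ k into {j | nu j ≤ lam k}, a subset of the k numbers j < k. So nu k ≤ lam k, and
symmetrically. -/
theorem pf_uq : SUniq := by
  intro Γ lam nu hlam hnu
  have h : ∀ t : ℝ, Cardinal.mk {k : ℕ | lam k = t} = Cardinal.mk {k : ℕ | nu k = t} := by
    intro t
    rcases lt_or_ge t 0 with ht | ht
    · have h1 : {k : ℕ | lam k = t} = ∅ := by
        rw [Set.eq_empty_iff_forall_notMem]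
        rintro k rfl
        exact absurd (hlam.nonneg k) (not_le.2 ht)
      have h2 : {k : ℕ | nu k = t} = ∅ := by
        rw [Set.eq_empty_iff_forall_notMem]
        rintro k rfl
        exact absurd (hnu.nonneg k) (not_le.2 ht)
      rw [h1, h2]
    · rw [← hlam.mult t ht, ← hnu.mult t ht]
  obtain ⟨e, he⟩ := pf_uq_equiv lam nu h
  funext k
  refine le_antisymm ?_ (pf_uq_le lam nu hlam.mono hnu.mono e e.injective he k)
  refine pf_uq_le nu lam hnu.mono hlam.mono e.symm e.symm.injective (fun j => ?_) k
  rw [← he, e.apply_symm_apply]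

end Pool.Agent.H852PC
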