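import Pool.Agent.H852PC.StmA
import Pool.Agent.H852PC.Count

/-!
# The group in `PSL(2, ℝ)` and the final theorem from its parts
-/

set_option autoImplicit false

open scoped MatrixGroups UpperHalfPlane ContDiff Topology
open MeasureTheory UpperHalfPlane Filter

noncomputable section

namespace Pool.Agent.H852PC

/-- the group -/
def GG : Subgroup PSL(2, ℝ) := Ga.map (QuotientGroup.mk' (Subgroup.center SL(2, ℝ)))

theorem center_eq {g : SL(2, ℝ)} (hg : g ∈ Subgroup.center SL(2, ℝ)) : g = 1 ∨ g = -1 := by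
  rw [Matrix.SpecialLinearGroup.mem_center_iff] at hg
  obtain ⟨r, hr, hg⟩ := hg
  have hr' : r ^ 2 = 1 := by simpa using hr
  have : (r - 1) * (r + 1) = 0 := by linear_combination hr'
  rcases mul_eq_zero.1 this with h | h
  · left
    have hr1 : r = 1 := by linarith
    apply Subtype.ext
    rw [← hg, hr1]
    simp
  · right
    have hr1 : r = -1 := by linarith
    apply Subtype.ext
    rw [← hg, hr1]
    ext i j
    fin_cases i <;> fin_cases j <;> simp

theorem center_le : Subgroup.center SL(2, ℝ) ≤ Ga := by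
  intro g hg
  rcases center_eq hg with rfl | rfl
  · exact Ga.one_mem
  · exact neg_one_mem_Ga

theorem neg_one_mem_center : (-1 : SL(2, ℝ)) ∈ Subgroup.center SL(2, ℝ) := by
  rw [Subgroup.mem_center_iff]
  intro g
  simp

theorem mk_mem_GG {g : SL(2, ℝ)} : (QuotientGroup.mk' (Subgroup.center SL(2, ℝ)) g) ∈ GG ↔ g ∈ Ga := by
  unfold GG
  rw [Subgroup.mem_map]
  constructor
  · rintro ⟨h, hh, he⟩
    have h1 : h⁻¹ * g ∈ Subgroup.center SL(2, ℝ) := by
      rw [QuotientGroup.mk'_apply, QuotientGroup.mk'_apply, QuotientGroup.eq] at he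
      exact he
    have h2 := Ga.mul_mem hh (center_le h1)
    simpa using h2
  · intro h
    exact ⟨g, h, rfl⟩

theorem lift_GG : lift GG = Ga := by
  ext g
  exact mk_mem_GG

theorem GG_normal (h : SNorm) : Subgroup.normalizer (GG : Set PSL(2, ℝ)) = GG := by
  refine le_antisymm ?_ Subgroup.le_normalizer
  intro x hx
  rw [Subgroup.mem_normalizer_iff] at hx
  obtain ⟨g, rfl⟩ := QuotientGroup.mk'_surjective (Subgroup.center SL(2, ℝ)) x
  rw [mk_mem_GG]
  apply h
  intro k
  have := hx (QuotientGroup.mk' _ k)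
  rw [← map_mul, ← map_inv, ← map_mul] at this
  exact (mk_mem_GG.symm.trans this).trans mk_mem_GG

theorem GG_tors (h : STors) : ∀ g ∈ GG, IsOfFinOrder g → g = 1 := by
  intro x hx ho
  obtain ⟨g, rfl⟩ := QuotientGroup.mk'_surjective (Subgroup.center SL(2, ℝ)) x
  rw [mk_mem_GG] at hx
  obtain ⟨n, hn, hn1⟩ := isOfFinOrder_iff_pow_eq_one.1 ho
  rw [← map_pow, QuotientGroup.mk'_apply, QuotientGroup.eq_one_iff] at hn1
  rw [QuotientGroup.mk'_apply, QuotientGroup.eq_one_iff]
  rcases h g (Ga_le_La hx) n hn (center_eq hn1) with rfl | rfl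
  · exact Subgroup.one_mem _
  · exact neg_one_mem_center

theorem La_sep {x : O} (h : ∀ i j, |rho x i j - (1 : Matrix (Fin 2) (Fin 2) ℝ) i j| < 1 / 10) :
    x = 1 := by
  have h00 := h 0 0
  have h01 := h 0 1
  have h10 := h 1 0
  have h11 := h 1 1
  simp only [rho_apply, mat, Matrix.of_apply, Matrix.cons_val', Matrix.cons_val_zero,
    Matrix.cons_val_one, Matrix.cons_val_fin_one, Matrix.one_apply_eq, ne_eq, zero_ne_one,
    not_false_eq_true, Matrix.one_apply_ne, one_ne_zero, sub_zero] at h00 h01 h10 h11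
  rw [abs_lt] at h00 h01 h10 h11
  have h5 : (2 : ℝ) < √5 := by
    rw [Real.lt_sqrt (by norm_num)]
    norm_num
  have hg : gr - gc = √5 := by unfold gr gc; ring
  have hz : ∀ n : ℤ, |(n : ℝ)| < 1 → n = 0 := by
    intro n hn
    have : |n| < 1 := by exact_mod_cast hn
    exact Int.abs_lt_one_iff.1 this
  have b0 : x.imI = 0 := by
    apply hz
    have e : (x.imI : ℝ) * √5 = (x.re + x.imI * gr - 1) - (x.re + x.imI * gc - 1) := by
      rw [← hg]; ring
    have e2 : |(x.imI : ℝ) * √5| < 2 := by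
      rw [e, abs_lt]
      constructor <;> linarith [h00.1, h00.2, h11.1, h11.2]
    rw [abs_mul, abs_of_pos (by positivity : (0 : ℝ) < √5)] at e2
    nlinarith [abs_nonneg (x.imI : ℝ)]
  have d0 : x.imK = 0 := by
    apply hz
    have e : (x.imK : ℝ) * √5 = (x.imJ + x.imK * gr) - (x.imJ + x.imK * gc) := by
      rw [← hg]; ring
    have e2 : |(x.imK : ℝ) * √5| < 2 := by
      rw [e, abs_lt]
      constructor <;> linarith [h01.1, h01.2, h10.1, h10.2]
    rw [abs_mul, abs_of_pos (by positivity : (0 : ℝ) < √5)] at e2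
    nlinarith [abs_nonneg (x.imK : ℝ)]
  have a0 : x.re - 1 = 0 := by
    apply hz
    rw [b0] at h00
    push_cast
    rw [abs_lt]
    constructor <;> [have := h00.1; have := h00.2] <;> norm_num at this <;> linarith
  have c0 : x.imJ = 0 := by
    apply hz
    rw [d0] at h10
    rw [abs_lt]
    constructor <;> [have := h10.1; have := h10.2] <;> norm_num at this <;> linarith
  ext
  · simp; linarith
  · simp [b0]
  · simp [c0]
  · simp [d0]

theorem Ga_discrete : DiscreteTopology Ga := by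
  apply discreteTopology_of_isOpen_singleton_one
  rw [isOpen_induced_iff]
  refine ⟨{g : SL(2, ℝ) | ∀ i j, |g.1 i j - (1 : Matrix (Fin 2) (Fin 2) ℝ) i j| < 1 / 10}, ?_, ?_⟩
  · have : {g : SL(2, ℝ) | ∀ i j, |g.1 i j - (1 : Matrix (Fin 2) (Fin 2) ℝ) i j| < 1 / 10} =
        ⋂ i, ⋂ j, {g : SL(2, ℝ) | |g.1 i j - (1 : Matrix (Fin 2) (Fin 2) ℝ) i j| < 1 / 10} := by
      ext g
      simp
    rw [this]
    refine isOpen_iInter_of_finite fun i => isOpen_iInter_of_finite fun j => ?_
    refine isOpen_lt ?_ continuous_const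
    refine continuous_abs.comp (Continuous.sub ?_ continuous_const)
    exact (continuous_apply_apply i j).comp continuous_subtype_val
  · ext g
    constructor
    · intro hg
      obtain ⟨x, hx, hx2, hx3, hgx⟩ := g.2
      have h1 : x = 1 := by
        apply La_sep
        intro i j
        rw [← hgx]
        exact hg i j
      rw [Set.mem_singleton_iff]
      apply Subtype.ext
      apply Subtype.ext
      rw [hgx, h1]
      simp
    · intro hg
      rw [Set.mem_singleton_iff] at hg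
      subst hg
      intro i j
      simp

theorem Ga_cocompact (h : SCpt) : CompactSpace (MulAction.orbitRel.Quotient Ga ℍ) := by
  obtain ⟨K, hK, h⟩ := h
  constructor
  have h1 : (Set.univ : Set (MulAction.orbitRel.Quotient Ga ℍ)) =
      (Quotient.mk _ : ℍ → MulAction.orbitRel.Quotient Ga ℍ) '' K := by
    symm
    rw [Set.eq_univ_iff_forall]
    intro x
    induction x using Quotient.inductionOn with
    | h z =>
      obtain ⟨g, hg, hz⟩ := h z
      refine ⟨g • z, hz, ?_⟩
      apply Quotient.sound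
      exact ⟨⟨g, hg⟩, rfl⟩
  rw [h1]
  exact hK.image continuous_quot_mk

theorem R2_zero_mono {x y : ℕ → ℝ} (h : ∀ j k, x j = x k → y j = y k) (N : ℕ) :
    R2 x N 0 0 ≤ R2 y N 0 0 := by
  unfold R2
  refine div_le_div_of_nonneg_right ?_ (Nat.cast_nonneg _)
  rw [Nat.cast_le]
  refine Finset.card_le_card ?_
  intro p hp
  rw [Finset.mem_filter] at hp ⊢
  have := h p.1 p.2 (by linarith [hp.2.2.1, hp.2.2.2])
  exact ⟨hp.1, hp.2.1, by linarith, by linarith⟩

/-- levels which coincide in positive proportion are not Poissonian -/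
theorem not_poisson (x : ℕ → ℝ) (h : ∃ c : ℝ, 0 < c ∧ ∀ᶠ N : ℕ in atTop, c ≤ R2 x N 0 0) :
    ¬ IsPoissonian x := by
  obtain ⟨c, hc, h⟩ := h
  intro hP
  have h1 := hP (-(c / 4)) (c / 4) (by linarith)
  have h2 : ∀ N : ℕ, R2 x N 0 0 ≤ R2 x N (-(c / 4)) (c / 4) := by
    intro N
    unfold R2
    refine div_le_div_of_nonneg_right ?_ (Nat.cast_nonneg _)
    rw [Nat.cast_le]
    refine Finset.card_le_card ?_
    intro p hp
    rw [Finset.mem_filter] at hp ⊢
    exact ⟨hp.1, hp.2.1, by linarith [hp.2.2.1], by linarith [hp.2.2.2]⟩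
  have h3 : c ≤ c / 4 - -(c / 4) := by
    refine ge_of_tendsto h1 ?_
    filter_upwards [h] with N hN
    exact hN.trans (h2 N)
  linarith

/-- the final theorem from its parts -/
theorem final (h1 : SFree) (h2 : STors) (h3 : SPd) (h4 : SCpt) (h5 : SNorm) (h6 : SArith)
    (h7 : SDbl) (h8 : SUniq) (h10 : SAn) :
    ∃ Γ : Subgroup PSL(2, ℝ), IsCocompactArithmetic Γ ∧ (∀ g ∈ Γ, IsOfFinOrder g → g = 1) ∧
      Subgroup.normalizer (Γ : Set PSL(2, ℝ)) = Γ ∧ (∃ lam, IsSpectrum (lift Γ) lam) ∧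
      ∀ lam, IsSpectrum (lift Γ) lam →
        (∃ c : ℝ, 0 < c ∧ ∀ᶠ N : ℕ in atTop, c ≤ R2 lam N 0 0) ∧
        ¬ IsPoissonian (unfolded (lift Γ) lam) := by
  refine ⟨GG, ⟨?_, ?_, h6⟩, GG_tors h2, GG_normal h5, ?_⟩
  · rw [lift_GG]
    exact Ga_discrete
  · rw [lift_GG]
    exact Ga_cocompact h4
  rw [lift_GG]
  obtain ⟨K, hK, hKG⟩ := h4
  obtain ⟨lam, hlam, c, hc, hcW⟩ := h10 Ga (fun g hg => h1 g (Ga_le_La hg))
    (fun K hK => (h3 K hK).subset fun g hg => ⟨Ga_le_La hg.1, hg.2⟩) ⟨K, hK, hKG⟩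
  obtain ⟨nu, hnu, d, hd, hdW⟩ := h10 La h1 h3
    ⟨K, hK, fun z => by obtain ⟨g, hg, hz⟩ := hKG z; exact ⟨g, Ga_le_La hg, hz⟩⟩
  refine ⟨⟨lam, hlam⟩, fun lam' hlam' => ?_⟩
  rw [h8 Ga lam' lam hlam' hlam]
  have hle : ∀ t : ℝ, eigenspace La t ≤ eigenspace Ga t := by
    rintro t f ⟨hf1, hf2, hf3⟩
    exact ⟨hf1, fun g hg => hf2 g (Ga_le_La hg), hf3⟩
  have hfin : ∀ (x : ℕ → ℝ), Tendsto x atTop atTop → ∀ t : ℝ, {k | x k = t}.Finite := by
    intro x hx t
    have h := (hx.eventually (eventually_gt_atTop t))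
    rw [eventually_atTop] at h
    obtain ⟨n, hn⟩ := h
    refine (Set.finite_lt_nat n).subset fun k hk => ?_
    by_contra hkn
    have h1 := hn k (not_lt.1 hkn)
    rw [Set.mem_ofPred_eq] at hk
    linarith
  have hmult : ∀ t : ℝ, 0 < t → {k | nu k = t}.Nonempty →
      2 ≤ Set.ncard {k | lam k = t} ∧ Set.ncard {k | nu k = t} ≤ Set.ncard {k | lam k = t} := by
    intro t ht hne
    have e1 := hlam.mult t ht.le
    have e2 := hnu.mult t ht.le
    have f1 := hfin lam hlam.tendsto t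
    have f2 := hfin nu hnu.tendsto t
    rw [← Set.cast_ncard f1] at e1
    rw [← Set.cast_ncard f2] at e2
    constructor
    · have hbot : eigenspace La (t ^ 2) ≠ ⊥ := by
        intro h0
        rw [h0] at e2
        simp only [rank_bot] at e2
        have h0' : Set.ncard {k | nu k = t} = 0 := by exact_mod_cast e2.symm
        rw [Set.ncard_eq_zero f2] at h0'
        rw [h0'] at hne
        exact Set.not_nonempty_empty hne
      have h := h7 (t ^ 2) (by positivity) hbot
      rw [e1] at h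
      exact_mod_cast h
    · have h := Submodule.rank_mono (hle (t ^ 2))
      rw [e1, e2] at h
      exact_mod_cast h
  have hmain : ∃ e : ℝ, 0 < e ∧ ∀ᶠ N : ℕ in atTop, e ≤ R2 lam N 0 0 := by
    obtain ⟨e, he, hN⟩ := ct_main lam nu (4 * Real.pi) c d hlam.mono hlam.nonneg hlam.tendsto
      hnu.nonneg hnu.tendsto hc hd hcW hdW hmult
    refine ⟨e, he, ?_⟩
    filter_upwards [hN] with N hN
    refine hN.trans (R2_zero_mono (fun j k hjk => ?_) N)
    have hpi : (0 : ℝ) < 4 * Real.pi := by positivity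
    rw [mul_div_assoc, mul_div_assoc] at hjk
    have h2 : lam j ^ 2 / (4 * Real.pi) = lam k ^ 2 / (4 * Real.pi) :=
      mul_left_cancel₀ hpi.ne' hjk
    have h3 : lam j ^ 2 = lam k ^ 2 := by
      rwa [div_left_inj' hpi.ne'] at h2
    exact (sq_eq_sq₀ (hlam.nonneg j) (hlam.nonneg k)).1 h3
  refine ⟨hmain, not_poisson _ ?_⟩
  obtain ⟨e, he, hN⟩ := hmain
  refine ⟨e, he, ?_⟩
  filter_upwards [hN] with N hN
  refine hN.trans (R2_zero_mono (fun j k hjk => ?_) N)
  unfold unfolded
  rw [hjk]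

end Pool.Agent.H852PC
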