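import Pool.Agent.H852PC.Gl

/-!
# The relation between the cosets
-/

set_option autoImplicit false

open scoped MatrixGroups UpperHalfPlane ContDiff Topology
open MeasureTheory UpperHalfPlane Filter

noncomputable section

namespace Pool.Agent.H852PC

theorem pf_re_aux {f : ℍ → ℝ} (hf : Invt La f) (g l y r : O) (h : g * l = y * r) (hg : 0 < nrd g)
    (hl : nrd l = 1) (hy : nrd y = 1) (hr : 0 < nrd r) (z : ℍ) :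
    f (gl g • gl l • z) = f (gl r • z) := by
  rw [← mul_smul, ← gl_mul hg (by rw [hl]; norm_num), h]
  exact hf.gl hy hr z

theorem pf_re_w : gl ww = gl ⟨-1, -1, 0, 0⟩ * (gl (Gs 0) * gl (star (⟨-2, 0, 0, -1⟩ : O))) := by
  rw [← gl_mul (by decide) (by decide), ← gl_mul (by decide) (by decide)]
  congr 1

theorem pf_re_0_0 {f : ℍ → ℝ} (hf : Invt La f) (z : ℍ) :
    f (gl (Gs 0) • gl ⟨1, 0, 0, 0⟩ • z) = f (gl ⟨-2, -2, -3, 2⟩ • z) :=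
  pf_re_aux hf _ _ ⟨1, 0, 0, 0⟩ _ (by decide) (by decide) (by decide) (by decide) (by decide) z

theorem pf_re_0_1 {f : ℍ → ℝ} (hf : Invt La f) (z : ℍ) :
    f (gl (Gs 1) • gl ⟨1, 0, 0, 0⟩ • z) = f (gl ⟨-4, 2, -1, -2⟩ • z) :=
  pf_re_aux hf _ _ ⟨1, 0, 0, 0⟩ _ (by decide) (by decide) (by decide) (by decide) (by decide) z

theorem pf_re_0_2 {f : ℍ → ℝ} (hf : Invt La f) (z : ℍ) :
    f (gl (Gs 2) • gl ⟨1, 0, 0, 0⟩ • z) = f (gl ⟨-4, -6, -8, 5⟩ • z) :=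
  pf_re_aux hf _ _ ⟨1, 0, 0, 0⟩ _ (by decide) (by decide) (by decide) (by decide) (by decide) z

theorem pf_re_0_3 {f : ℍ → ℝ} (hf : Invt La f) (z : ℍ) :
    f (gl (Gs 3) • gl ⟨1, 0, 0, 0⟩ • z) = f (gl ⟨-4, -6, 8, -5⟩ • z) :=
  pf_re_aux hf _ _ ⟨1, 0, 0, 0⟩ _ (by decide) (by decide) (by decide) (by decide) (by decide) z

theorem pf_re_0_4 {f : ℍ → ℝ} (hf : Invt La f) (z : ℍ) :
    f (gl (Gs 4) • gl ⟨1, 0, 0, 0⟩ • z) = f (gl ⟨-4, -6, -3, 2⟩ • z) :=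
  pf_re_aux hf _ _ ⟨1, 0, 0, 0⟩ _ (by decide) (by decide) (by decide) (by decide) (by decide) z

theorem pf_re_0_5 {f : ℍ → ℝ} (hf : Invt La f) (z : ℍ) :
    f (gl (Gs 5) • gl ⟨1, 0, 0, 0⟩ • z) = f (gl ⟨-4, 2, -3, -5⟩ • z) :=
  pf_re_aux hf _ _ ⟨1, 0, 0, 0⟩ _ (by decide) (by decide) (by decide) (by decide) (by decide) z

theorem pf_re_1_0 {f : ℍ → ℝ} (hf : Invt La f) (z : ℍ) :
    f (gl (Gs 0) • gl ⟨0, 8, -4, 3⟩ • z) = f (gl ⟨-2, -2, -1, 1⟩ • z) :=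
  pf_re_aux hf _ _ ⟨26, -18, 0, 3⟩ _ (by decide) (by decide) (by decide) (by decide) (by decide) z

theorem pf_re_1_1 {f : ℍ → ℝ} (hf : Invt La f) (z : ℍ) :
    f (gl (Gs 1) • gl ⟨0, 8, -4, 3⟩ • z) = f (gl ⟨-4, 2, 3, 5⟩ • z) :=
  pf_re_aux hf _ _ ⟨-234, 86, -64, -87⟩ _ (by decide) (by decide) (by decide) (by decide) (by decide) z

theorem pf_re_1_2 {f : ℍ → ℝ} (hf : Invt La f) (z : ℍ) :
    f (gl (Gs 2) • gl ⟨0, 8, -4, 3⟩ • z) = f (gl ⟨-2, 0, 1, -1⟩ • z) :=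
  pf_re_aux hf _ _ ⟨-28, 40, 19, -15⟩ _ (by decide) (by decide) (by decide) (by decide) (by decide) z

theorem pf_re_1_3 {f : ℍ → ℝ} (hf : Invt La f) (z : ℍ) :
    f (gl (Gs 3) • gl ⟨0, 8, -4, 3⟩ • z) = f (gl ⟨-2, 0, -1, -2⟩ • z) :=
  pf_re_aux hf _ _ ⟨336, -194, -25, -10⟩ _ (by decide) (by decide) (by decide) (by decide) (by decide) z

theorem pf_re_1_4 {f : ℍ → ℝ} (hf : Invt La f) (z : ℍ) :
    f (gl (Gs 4) • gl ⟨0, 8, -4, 3⟩ • z) = f (gl ⟨-4, 2, 1, 2⟩ • z) :=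
  pf_re_aux hf _ _ ⟨142, -52, 25, 15⟩ _ (by decide) (by decide) (by decide) (by decide) (by decide) z

theorem pf_re_1_5 {f : ℍ → ℝ} (hf : Invt La f) (z : ℍ) :
    f (gl (Gs 5) • gl ⟨0, 8, -4, 3⟩ • z) = f (gl ⟨-2, -2, -3, 2⟩ • z) :=
  pf_re_aux hf _ _ ⟨28, 68, -4, -15⟩ _ (by decide) (by decide) (by decide) (by decide) (by decide) z

theorem pf_re_2_0 {f : ℍ → ℝ} (hf : Invt La f) (z : ℍ) :
    f (gl (Gs 0) • gl ⟨-1, -1, 0, 0⟩ • z) = f (gl ⟨-4, -6, -8, 5⟩ • z) :=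
  pf_re_aux hf _ _ ⟨-1, 0, 0, 0⟩ _ (by decide) (by decide) (by decide) (by decide) (by decide) z

theorem pf_re_2_1 {f : ℍ → ℝ} (hf : Invt La f) (z : ℍ) :
    f (gl (Gs 1) • gl ⟨-1, -1, 0, 0⟩ • z) = f (gl ⟨-2, 0, 0, -1⟩ • z) :=
  pf_re_aux hf _ _ ⟨-1, 0, 0, 0⟩ _ (by decide) (by decide) (by decide) (by decide) (by decide) z

theorem pf_re_2_2 {f : ℍ → ℝ} (hf : Invt La f) (z : ℍ) :
    f (gl (Gs 2) • gl ⟨-1, -1, 0, 0⟩ • z) = f (gl ⟨-4, 2, -1, -2⟩ • z) :=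
  pf_re_aux hf _ _ ⟨65, -47, -4, 8⟩ _ (by decide) (by decide) (by decide) (by decide) (by decide) z

theorem pf_re_2_3 {f : ℍ → ℝ} (hf : Invt La f) (z : ℍ) :
    f (gl (Gs 3) • gl ⟨-1, -1, 0, 0⟩ • z) = f (gl ⟨-4, 2, 1, 2⟩ • z) :=
  pf_re_aux hf _ _ ⟨65, -47, 4, -8⟩ _ (by decide) (by decide) (by decide) (by decide) (by decide) z

theorem pf_re_2_4 {f : ℍ → ℝ} (hf : Invt La f) (z : ℍ) :
    f (gl (Gs 4) • gl ⟨-1, -1, 0, 0⟩ • z) = f (gl ⟨-4, 2, -3, -5⟩ • z) :=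
  pf_re_aux hf _ _ ⟨65, -47, 4, 12⟩ _ (by decide) (by decide) (by decide) (by decide) (by decide) z

theorem pf_re_2_5 {f : ℍ → ℝ} (hf : Invt La f) (z : ℍ) :
    f (gl (Gs 5) • gl ⟨-1, -1, 0, 0⟩ • z) = f (gl ⟨-2, 0, -1, -2⟩ • z) :=
  pf_re_aux hf _ _ ⟨-1, 0, 0, 0⟩ _ (by decide) (by decide) (by decide) (by decide) (by decide) z

theorem pf_re_3_0 {f : ℍ → ℝ} (hf : Invt La f) (z : ℍ) :
    f (gl (Gs 0) • gl ⟨0, 8, -1, 2⟩ • z) = f (gl ⟨-4, 2, 3, 5⟩ • z) :=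
  pf_re_aux hf _ _ ⟨336, -194, 25, 15⟩ _ (by decide) (by decide) (by decide) (by decide) (by decide) z

theorem pf_re_3_1 {f : ℍ → ℝ} (hf : Invt La f) (z : ℍ) :
    f (gl (Gs 1) • gl ⟨0, 8, -1, 2⟩ • z) = f (gl ⟨-2, 0, 1, -1⟩ • z) :=
  pf_re_aux hf _ _ ⟨-8, -18, -3, 3⟩ _ (by decide) (by decide) (by decide) (by decide) (by decide) z

theorem pf_re_3_2 {f : ℍ → ℝ} (hf : Invt La f) (z : ℍ) :
    f (gl (Gs 2) • gl ⟨0, 8, -1, 2⟩ • z) = f (gl ⟨-2, -2, -1, 1⟩ • z) :=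
  pf_re_aux hf _ _ ⟨112, -88, -13, 18⟩ _ (by decide) (by decide) (by decide) (by decide) (by decide) z

theorem pf_re_3_3 {f : ℍ → ℝ} (hf : Invt La f) (z : ℍ) :
    f (gl (Gs 3) • gl ⟨0, 8, -1, 2⟩ • z) = f (gl ⟨-4, -6, -3, 2⟩ • z) :=
  pf_re_aux hf _ _ ⟨-234, 86, 64, -23⟩ _ (by decide) (by decide) (by decide) (by decide) (by decide) z

theorem pf_re_3_4 {f : ℍ → ℝ} (hf : Invt La f) (z : ℍ) :
    f (gl (Gs 4) • gl ⟨0, 8, -1, 2⟩ • z) = f (gl ⟨-2, 0, 0, -1⟩ • z) :=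
  pf_re_aux hf _ _ ⟨-28, 40, 4, -11⟩ _ (by decide) (by decide) (by decide) (by decide) (by decide) z

theorem pf_re_3_5 {f : ℍ → ℝ} (hf : Invt La f) (z : ℍ) :
    f (gl (Gs 5) • gl ⟨0, 8, -1, 2⟩ • z) = f (gl ⟨-4, -6, 8, -5⟩ • z) :=
  pf_re_aux hf _ _ ⟨-142, -194, -25, -10⟩ _ (by decide) (by decide) (by decide) (by decide) (by decide) z

theorem pf_re : SRel := by
  intro f hf hT z
  have key : ∀ z : ℍ, f (gl (Gs 0) • z) = f (gl ⟨-2, 0, 0, -1⟩ • z) := by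
    intro z
    have e2 := hT _ (gl_mem_La (x := ⟨0, 8, -4, 3⟩) (by decide)) z
    have e3 := hT _ (gl_mem_La (x := ⟨-1, -1, 0, 0⟩) (by decide)) z
    have e4 := hT _ (gl_mem_La (x := ⟨0, 8, -1, 2⟩) (by decide)) z
    simp only [TT, Fin.sum_univ_six] at e2 e3 e4
    rw [pf_re_1_0 hf z] at e2
    rw [pf_re_1_1 hf z] at e2
    rw [pf_re_1_2 hf z] at e2
    rw [pf_re_1_3 hf z] at e2
    rw [pf_re_1_4 hf z] at e2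
    rw [pf_re_1_5 hf z] at e2
    rw [pf_re_2_0 hf z] at e3
    rw [pf_re_2_1 hf z] at e3
    rw [pf_re_2_2 hf z] at e3
    rw [pf_re_2_3 hf z] at e3
    rw [pf_re_2_4 hf z] at e3
    rw [pf_re_2_5 hf z] at e3
    rw [pf_re_3_0 hf z] at e4
    rw [pf_re_3_1 hf z] at e4
    rw [pf_re_3_2 hf z] at e4
    rw [pf_re_3_3 hf z] at e4
    rw [pf_re_3_4 hf z] at e4
    rw [pf_re_3_5 hf z] at e4
    have g0 : Gs 0 = ⟨-2, -2, -3, 2⟩ := rfl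
    have g1 : Gs 1 = ⟨-4, 2, -1, -2⟩ := rfl
    have g2 : Gs 2 = ⟨-4, -6, -8, 5⟩ := rfl
    have g3 : Gs 3 = ⟨-4, -6, 8, -5⟩ := rfl
    have g4 : Gs 4 = ⟨-4, -6, -3, 2⟩ := rfl
    have g5 : Gs 5 = ⟨-4, 2, -3, -5⟩ := rfl
    rw [g0, g1, g2, g3, g4, g5] at e2 e3 e4
    rw [g0]
    linarith
  have h1 : gl ((⟨-2, 0, 0, -1⟩ : O) * star (⟨-2, 0, 0, -1⟩ : O)) = 1 := by
    have e : ((⟨-2, 0, 0, -1⟩ : O) * star (⟨-2, 0, 0, -1⟩ : O)) = ((17 : ℤ) : O) * 1 := by decide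
    rw [e, gl_int_mul (by decide) (by norm_num), gl_one]
  rw [pf_re_w, mul_smul, mul_smul, hf _ (gl_mem_La (x := ⟨-1, -1, 0, 0⟩) (by decide)), key, ← mul_smul,
    ← gl_mul (by decide) (by decide), h1, one_smul]

end Pool.Agent.H852PC
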