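import Pool.Agent.H852PC.StmB
import Pool.Agent.Y262.EL.Stm

/-!
# Statements of the analytic parts of the proof
-/

set_option autoImplicit false

open scoped MatrixGroups UpperHalfPlane ContDiff Topology
open MeasureTheory UpperHalfPlane Filter

noncomputable section

namespace Pool.Agent.H852PC

/-! ### Spectral theory -/

open Pool.Agent.Y262.EG Pool.Agent.Y262.EX in
/-- Green's first identity -/
def SGreen : Prop :=
  ∀ (M P : Type) [MetricSpace M] [CompactSpace M] [MetricSpace P] [CompactSpace P]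
    [MeasurableSpace M] [BorelSpace M] (Ω : Set ℂ) (φ : ℂ → ℝ) (pr : ℂ → M) (q : Y → P)
    (μ : Measure M), IsUT Ω φ pr q → IsArea Ω φ pr μ → ∀ (lam : ℝ) (u v : M → ℝ),
    ContDiffOn ℝ ∞ (fun z => u (pr z)) Ω → ContDiffOn ℝ ∞ (fun z => v (pr z)) Ω →
    (∀ z ∈ Ω, -(Real.exp (-2 * φ z) * Pool.Agent.Y262.EL.lap (fun z => u (pr z)) z) = lam * u (pr z)) →
    ∀ g : M → ℝ, (∀ z ∈ Ω, g (pr z) = Real.exp (-2 * φ z) *
      (px (fun z => u (pr z)) z * px (fun z => v (pr z)) z +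
        py (fun z => u (pr z)) z * py (fun z => v (pr z)) z)) →
    ∫ x, g x ∂μ = lam * ∫ x, u x * v x ∂μ

open Pool.Agent.Y262.EG Pool.Agent.Y262.EX in
/-- the spectral theorem for the quotient of a plane domain -/
def SBasis : Prop :=
  ∀ (G : Type) [Group G] (Ω : Set ℂ) (a : G → ℂ → ℂ) (φ : ℂ → ℝ), Act G Ω a → Inva Ω φ a →
    ∃ (M : Type) (_ : MetricSpace M) (_ : CompactSpace M) (pr : ℂ → M) (u : ℕ → M → ℝ) (lam : ℕ → ℝ),
      PrM Ω a pr ∧ Monotone lam ∧ (∀ k, 0 ≤ lam k) ∧ LinearIndependent ℝ u ∧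
      (∀ k, ContDiffOn ℝ ∞ (fun z => u k (pr z)) Ω ∧ ∀ z ∈ Ω,
        -(Real.exp (-2 * φ z) * Pool.Agent.Y262.EL.lap (fun z => u k (pr z)) z) = lam k * u k (pr z)) ∧
      (∀ (t : ℝ) (v : M → ℝ), ContDiffOn ℝ ∞ (fun z => v (pr z)) Ω →
        (∀ z ∈ Ω, -(Real.exp (-2 * φ z) * Pool.Agent.Y262.EL.lap (fun z => v (pr z)) z) =
          t * v (pr z)) → v ∈ Submodule.span ℝ (u '' {k | lam k = t})) ∧
      ∃ c : ℝ, 0 < c ∧ Tendsto (fun T : ℝ => (Set.ncard {k | lam k ≤ T} : ℝ) / T) atTop (𝓝 c)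

/-- the spectral theorem for Fuchsian groups -/
def SAn : Prop :=
  ∀ Γ : Subgroup SL(2, ℝ), (∀ g ∈ Γ, ∀ z : ℍ, g • z = z → g = 1 ∨ g = -1) →
    (∀ K : Set ℍ, IsCompact K →
      {g : SL(2, ℝ) | g ∈ Γ ∧ ((fun z : ℍ => g • z) '' K ∩ K).Nonempty}.Finite) →
    (∃ K : Set ℍ, IsCompact K ∧ ∀ z : ℍ, ∃ g ∈ Γ, g • z ∈ K) →
    ∃ lam : ℕ → ℝ, IsSpectrum Γ lam ∧ ∃ c : ℝ, 0 < c ∧
      Tendsto (fun T : ℝ => (Set.ncard {k | lam k ^ 2 ≤ T} : ℝ) / T) atTop (𝓝 c)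

end Pool.Agent.H852PC
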